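import Pool.Agent.LibFC.Base

/-! Asymptotics of the first difference from parts A and B. -/

set_option autoImplicit false

open Filter

namespace FC

theorem fix_of {k : ℕ} (σ : Fin k → List (Fin k)) (a : Fin k) (u : ℕ → Fin k)
    (hgr : ∀ b : Fin k, Tendsto
      (fun m : ℕ => ((fun w : List (Fin k) => w.flatMap σ)^[m] [b]).length) atTop atTop)
    (h2 : 2 ≤ (σ a).length)
    (hu : ∀ m i : ℕ, i < ((fun w : List (Fin k) => w.flatMap σ)^[m] [a]).length →
      ((fun w : List (Fin k) => w.flatMap σ)^[m] [a])[i]? = some (u i))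
    (hall : ∀ b : Fin k, ∃ i : ℕ, u i = b) : Fix σ u := by
  have hua : u 0 = a := by
    have := hu 0 0 (by simp)
    simpa using this.symm
  have hpre : ∀ m, pw σ m a = pre u (pw σ m a).length := by
    intro m
    apply List.ext_getElem
    · simp [pre]
    · intro i h1 h3
      have : (pw σ m a)[i]? = some (u i) := hu m i h1
      rw [List.getElem?_eq_getElem h1] at this
      simp only [Option.some.injEq] at this
      have h4 : (pw σ m a)[i] = u i := this
      rw [h4]
      simp [pre]
  refine ⟨hgr, ?_, by rw [hua]; exact h2, hall⟩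
  intro n
  obtain ⟨m, hm⟩ : ∃ m, n ≤ (pw σ m a).length := by
    obtain ⟨m, hm⟩ := ((hgr a).eventually_ge_atTop n).exists
    exact ⟨m, hm⟩
  have h3 : pre u n <+: pw σ m a := by
    rw [hpre m]
    unfold pre
    apply List.IsPrefix.map
    rw [List.prefix_iff_eq_take, List.take_range]
    simp [hm]
  have h4 : (pre u n).flatMap σ <+: pw σ (m + 1) a := by
    have : pw σ (m + 1) a = (pw σ m a).flatMap σ := by
      unfold pw; rw [Function.iterate_succ_apply']
    rw [this]
    obtain ⟨t, ht⟩ := h3
    rw [← ht, List.flatMap_append]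
    exact List.prefix_append _ _
  rw [hpre (m + 1)] at h4
  have h5 := List.prefix_iff_eq_take.1 h4
  have h6 := h4.length_le
  rw [h5]
  unfold pre at h6 ⊢
  simp only [List.length_map, List.length_range] at h6
  rw [← List.map_take, List.take_range, List.length_map, List.length_range]

/-- first difference from parts A and B -/
theorem diff_bound {k : ℕ} (u : ℕ → Fin k) (C1 C2 K : ℝ)
    (hA : ∀ n : ℕ, 3 ≤ n →
      |(cp u n : ℝ) - n * (C1 * Real.log n + C2 * Real.log (Real.log n))| ≤ K * n)
    (K' : ℕ) (hB : ∀ n m : ℕ, n ≤ m → m ≤ 2 * n →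
      |((cp u (m + 1) : ℤ) - cp u m) - ((cp u (n + 1) : ℤ) - cp u n)| ≤ K') :
    ∃ K2 : ℝ, ∀ n : ℕ, 3 ≤ n →
      |((cp u (n + 1) : ℝ) - cp u n) - (C1 * Real.log n + C2 * Real.log (Real.log n))| ≤ K2 := by
  refine ⟨K' + 3 * K + 2 * |C1| + 2 * |C2|, ?_⟩
  intro n hn
  set s : ℕ → ℝ := fun m => (cp u (m + 1) : ℝ) - cp u m with hs
  have hn0 : (0 : ℝ) < n := by positivity
  have hn3 : (3 : ℝ) ≤ n := by exact_mod_cast hn
  -- telescoping
  have htel : ∀ t : ℕ, (cp u (n + t) : ℝ) - cp u n = ∑ j ∈ Finset.range t, s (n + j) := by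
    intro t
    induction t with
    | zero => simp
    | succ t ih =>
      rw [Finset.sum_range_succ, ← ih]
      simp only [hs]
      rw [show n + (t + 1) = n + t + 1 by ring]
      ring
  have h1 : |(cp u (n + n) : ℝ) - cp u n - n * s n| ≤ K' * n := by
    rw [htel n]
    have : (n : ℝ) * s n = ∑ j ∈ Finset.range n, s n := by simp
    rw [this, ← Finset.sum_sub_distrib]
    refine (Finset.abs_sum_le_sum_abs _ _).trans ?_
    have : ∑ j ∈ Finset.range n, |s (n + j) - s n| ≤ ∑ j ∈ Finset.range n, (K' : ℝ) := by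
      apply Finset.sum_le_sum
      intro j hj
      rw [Finset.mem_range] at hj
      have := hB n (n + j) (by omega) (by omega)
      simp only [hs]
      exact_mod_cast this
    refine this.trans (le_of_eq ?_)
    simp [mul_comm]
  have h2 := hA n hn
  have h3 := hA (n + n) (by omega)
  push_cast at h3
  -- logs
  have hlog3 : 1 < Real.log n := by
    have : Real.log 3 ≤ Real.log n := Real.log_le_log (by norm_num) hn3
    have h4 : 1 < Real.log 3 := by
      rw [Real.lt_log_iff_exp_lt (by norm_num)]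
      exact Real.exp_one_lt_three
    linarith
  have hL : Real.log ((n : ℝ) + n) = Real.log n + Real.log 2 := by
    rw [show (n : ℝ) + n = n * 2 by ring, Real.log_mul (by positivity) (by norm_num)]
  have hlog2 : 0 < Real.log 2 := Real.log_pos (by norm_num)
  have hlog2' : Real.log 2 < 1 := by
    rw [Real.log_lt_iff_lt_exp (by norm_num)]
    have := Real.exp_one_gt_d9
    linarith
  have hLL0 : Real.log (Real.log n) ≤ Real.log (Real.log ((n : ℝ) + n)) := by
    apply Real.log_le_log (by linarith)
    rw [hL]; linarith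
  have hLL1 : Real.log (Real.log ((n : ℝ) + n)) ≤ Real.log (Real.log n) + 1 := by
    rw [hL]
    have e1 : Real.log n + Real.log 2 ≤ Real.log n * 2 := by linarith
    have e2 : Real.log (Real.log n + Real.log 2) ≤ Real.log (Real.log n * 2) :=
      Real.log_le_log (by linarith) e1
    rw [Real.log_mul (by linarith) (by norm_num)] at e2
    linarith
  set L := Real.log (n : ℝ) with hLdef
  set LL := Real.log L with hLLdef
  set LL2 := Real.log (Real.log ((n : ℝ) + n)) with hLL2
  rw [hL] at h3
  -- combine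
  have h5 : |n * (s n - (C1 * L + C2 * LL))| ≤
      n * (K' + 3 * K + 2 * |C1| + 2 * |C2|) := by
    have e : n * (s n - (C1 * L + C2 * LL)) =
        -((cp u (n + n) : ℝ) - cp u n - n * s n) +
        ((cp u (n + n) : ℝ) - (n + n) * (C1 * (L + Real.log 2) + C2 * LL2)) -
        ((cp u n : ℝ) - n * (C1 * L + C2 * LL)) +
        2 * n * (C1 * Real.log 2 + C2 * (LL2 - LL)) := by ring
    have g1 : |C1 * Real.log 2| ≤ |C1| := by
      rw [abs_mul, abs_of_pos hlog2]
      exact mul_le_of_le_one_right (abs_nonneg _) hlog2'.le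
    have g2 : |C2 * (LL2 - LL)| ≤ |C2| := by
      rw [abs_mul, abs_of_nonneg (by linarith : 0 ≤ LL2 - LL)]
      exact mul_le_of_le_one_right (abs_nonneg _) (by linarith)
    have g3 : |2 * n * (C1 * Real.log 2 + C2 * (LL2 - LL))| ≤ 2 * n * (|C1| + |C2|) := by
      rw [abs_mul, abs_of_pos (by positivity : (0 : ℝ) < 2 * n)]
      apply mul_le_mul_of_nonneg_left _ (by positivity)
      exact (abs_add_le _ _).trans (add_le_add g1 g2)
    rw [e]
    have t1 := abs_le.1 h1
    have t2 := abs_le.1 h2
    have t3 := abs_le.1 h3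
    have t4 := abs_le.1 g3
    rw [abs_le]
    constructor <;> nlinarith [t1.1, t1.2, t2.1, t2.2, t3.1, t3.2, t4.1, t4.2]
  rw [abs_mul, abs_of_pos hn0] at h5
  exact le_of_mul_le_mul_left h5 hn0

open Asymptotics in
theorem equiv_of_bound (s : ℕ → ℝ) (C1 C2 K2 : ℝ) (hC : 0 < C1 ∨ (C1 = 0 ∧ 0 < C2))
    (h : ∀ n : ℕ, 3 ≤ n → |s n - (C1 * Real.log n + C2 * Real.log (Real.log n))| ≤ K2) :
    ∃ C : ℝ, 0 < C ∧
      (IsEquivalent atTop s (fun n : ℕ => C * Real.log (Real.log (n : ℝ))) ∨
       IsEquivalent atTop s (fun n : ℕ => C * Real.log (n : ℝ))) := by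
  have hlog : Tendsto (fun n : ℕ => Real.log (n : ℝ)) atTop atTop :=
    Real.tendsto_log_atTop.comp tendsto_natCast_atTop_atTop
  have hloglog : Tendsto (fun n : ℕ => Real.log (Real.log (n : ℝ))) atTop atTop :=
    Real.tendsto_log_atTop.comp hlog
  have hO : (fun n : ℕ => s n - (C1 * Real.log n + C2 * Real.log (Real.log n))) =O[atTop]
      (fun _ : ℕ => (1 : ℝ)) := by
    apply IsBigO.of_bound K2
    filter_upwards [eventually_ge_atTop 3] with n hn
    simpa using h n hn
  have hlo : (fun n : ℕ => Real.log (Real.log (n : ℝ))) =o[atTop] (fun n : ℕ => Real.log (n : ℝ)) :=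
    Real.isLittleO_log_id_atTop.comp_tendsto hlog
  have h1log : (fun _ : ℕ => (1 : ℝ)) =o[atTop] (fun n : ℕ => Real.log (n : ℝ)) := by
    rw [isLittleO_const_left]
    right
    exact tendsto_norm_atTop_atTop.comp hlog
  have h1loglog : (fun _ : ℕ => (1 : ℝ)) =o[atTop] (fun n : ℕ => Real.log (Real.log (n : ℝ))) := by
    rw [isLittleO_const_left]
    right
    exact tendsto_norm_atTop_atTop.comp hloglog
  rcases hC with hC | ⟨rfl, hC⟩
  · refine ⟨C1, hC, Or.inr ?_⟩
    unfold IsEquivalent
    have e : (s - fun n : ℕ => C1 * Real.log (n : ℝ)) =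
        (fun n : ℕ => (s n - (C1 * Real.log n + C2 * Real.log (Real.log n))) +
          C2 * Real.log (Real.log n)) := by
      funext n; simp only [Pi.sub_apply]; ring
    rw [e]
    apply IsLittleO.const_mul_right hC.ne'
    exact (hO.trans_isLittleO h1log).add (hlo.const_mul_left C2)
  · refine ⟨C2, hC, Or.inl ?_⟩
    unfold IsEquivalent
    have e : (s - fun n : ℕ => C2 * Real.log (Real.log (n : ℝ))) =
        (fun n : ℕ => (s n - (0 * Real.log n + C2 * Real.log (Real.log n)))) := by
      funext n; simp only [Pi.sub_apply]; ring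
    rw [e]
    apply IsLittleO.const_mul_right hC.ne'
    exact hO.trans_isLittleO h1loglog

end FC
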