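import Mathlib

/-!
# Base definitions for MP_52de8b_co (first difference of factor complexity)
-/

set_option autoImplicit false

open Filter

namespace FC

/-- powers of a morphism: `pw σ m b = σ^m(b)` (same term as in the frozen statement). -/
def pw {A : Type*} (σ : A → List A) (m : ℕ) (b : A) : List A :=
  (fun w : List A => w.flatMap σ)^[m] [b]

/-- prefix of length `n` of a one-sided infinite word. -/
def pre {A : Type*} (u : ℕ → A) (n : ℕ) : List A := (List.range n).map u

/-- `u` is the image of `v` under the morphism `f` (one-sided infinite words). -/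
def Im {C A : Type*} (f : C → List A) (v : ℕ → C) (u : ℕ → A) : Prop :=
  ∀ n, (pre v n).flatMap f = pre u ((pre v n).flatMap f).length

/-- the window `u[i..i+n)`. -/
def win {A : Type*} (u : ℕ → A) (i n : ℕ) : List A := List.ofFn (fun j : Fin n => u (i + j.val))

/-- factors of length `n`. -/
def Lang {A : Type*} (u : ℕ → A) (n : ℕ) : Set (List A) := Set.range (fun i => win u i n)

/-- factor complexity. -/
noncomputable def cp {A : Type*} (u : ℕ → A) (n : ℕ) : ℕ := (Lang u n).ncard

/-- elementary: the words `f c` are not all products of fewer than `|C|` words. -/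
def Elem {C A : Type*} [Fintype C] (f : C → List A) : Prop :=
  ∀ Z : Finset (List A),
    (∀ c, ∃ l : List (List A), (∀ z ∈ l, z ∈ Z) ∧ l.flatten = f c) → Fintype.card C ≤ Z.card

/-- standard growth function `(m+1)^α β^m`. -/
noncomputable def gf (α : ℕ) (β : ℝ) (m : ℕ) : ℝ := ((m : ℝ) + 1) ^ α * β ^ m

/-- counting function of a growth function: number of `m` with `gf α β m ≤ x`. -/
noncomputable def kf (α : ℕ) (β : ℝ) (x : ℝ) : ℕ := {m : ℕ | gf α β m ≤ x}.ncard

/-- growth data for a morphism: letters are sorted in `R` growth classes. -/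
structure Gr {A : Type*} (σ : A → List A) where
  R : ℕ
  lev : A → Fin R
  lev_surj : Function.Surjective lev
  al : Fin R → ℕ
  be : Fin R → ℝ
  one_lt_be : ∀ i, 1 < be i
  lex : ∀ i j, i < j → be i < be j ∨ (be i = be j ∧ al i < al j)
  c : ℝ
  K : ℝ
  c_pos : 0 < c
  K_pos : 0 < K
  lower : ∀ b m, c * gf (al (lev b)) (be (lev b)) m ≤ ((pw σ m b).length : ℝ)
  upper : ∀ b m, ((pw σ m b).length : ℝ) ≤ K * gf (al (lev b)) (be (lev b)) m

/-- bi-infinite word `U` parsed as `f(V)`, with cut function `F`. -/
structure PWord {C A : Type*} (f : C → List A) where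
  V : ℤ → C
  F : ℤ → ℤ
  U : ℤ → A
  step : ∀ n, F (n + 1) = F n + ((f (V n)).length : ℤ)
  val : ∀ (n : ℤ) (k : ℕ) (h : k < (f (V n)).length), U (F n + k) = (f (V n))[k]

/-- hypotheses on the pair `(σ,u)` of the problem, in convenient form. -/
structure Fix {k : ℕ} (σ : Fin k → List (Fin k)) (u : ℕ → Fin k) : Prop where
  grow : ∀ b, Tendsto (fun m : ℕ => (pw σ m b).length) atTop atTop
  im : Im σ u u
  two : 2 ≤ (σ (u 0)).length
  all : ∀ b, ∃ i, u i = b

end FC
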