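import Pool.Agent.LibFC.Base

/-! Task B-e: bispecial formula. -/

set_option autoImplicit false

namespace FC

/-- left letter of the position `i` (`none` at the beginning of the word) -/
def lc {A : Type*} (u : ℕ → A) (i : ℕ) : Option A := if i = 0 then none else some (u (i - 1))

/-- two-sided extensions of the word `w` in `u` (with `none` = beginning of the word) -/
def Ext {A : Type*} (u : ℕ → A) (w : List A) : Set (Option A × A) :=
  {ab | ∃ i, win u i w.length = w ∧ ab = (lc u i, u (i + w.length))}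

/-- bilateral multiplicity -/
noncomputable def mhat {A : Type*} (u : ℕ → A) (w : List A) : ℤ :=
  ((Ext u w).ncard : ℤ) - ((Prod.fst '' Ext u w).ncard : ℤ) - ((Prod.snd '' Ext u w).ncard : ℤ) + 1

section aux

variable {A : Type*}

theorem win_length (u : ℕ → A) (i n : ℕ) : (win u i n).length = n := by
  simp [win]

theorem win_snoc (u : ℕ → A) (i n : ℕ) : win u i (n + 1) = win u i n ++ [u (i + n)] := by
  unfold win
  rw [List.ofFn_succ_last]
  simp

theorem win_cons (u : ℕ → A) (i n : ℕ) : win u i (n + 1) = u i :: win u (i + 1) n := by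
  unfold win
  rw [List.ofFn_succ]
  congr 1
  congr 1
  funext j
  simp only [Fin.val_succ]
  congr 1
  omega

theorem take_win (u : ℕ → A) (i n : ℕ) : (win u i (n + 1)).take n = win u i n := by
  rw [win_snoc, List.take_left' (win_length u i n)]

theorem lang_finite [Finite A] (u : ℕ → A) (n : ℕ) : (Lang u n).Finite := by
  apply (List.finite_length_eq A n).subset
  rintro w ⟨i, rfl⟩
  exact win_length u i n

theorem ncard_fiber {β γ : Type*} (T : Set β) (S : Set γ) (hT : T.Finite) (hS : S.Finite)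
    (π : β → γ) (h : ∀ t ∈ T, π t ∈ S) :
    (T.ncard : ℤ) = ∑ w ∈ hS.toFinset, (({t ∈ T | π t = w}.ncard : ℕ) : ℤ) := by
  classical
  rw [Set.ncard_eq_toFinset_card T hT]
  rw [Finset.card_eq_sum_card_fiberwise (f := π) (t := hS.toFinset)
    (fun t ht => by
      rw [Set.Finite.coe_toFinset]
      exact h t (by simpa using ht))]
  push_cast
  apply Finset.sum_congr rfl
  intro w _
  rw [← Set.ncard_coe_finset]
  congr 2
  ext t
  simp

theorem lang_length (u : ℕ → A) (n : ℕ) (w : List A) (hw : w ∈ Lang u n) : w.length = n := by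
  obtain ⟨i, rfl⟩ := hw
  exact win_length u i n

/-- left-extended windows -/
def EW (u : ℕ → A) (n : ℕ) : Set (Option A × List A) := Set.range (fun i => (lc u i, win u i n))

theorem ew_finite [Finite A] (u : ℕ → A) (n : ℕ) : (EW u n).Finite := by
  apply ((Set.finite_univ (α := Option A)).prod (lang_finite u n)).subset
  rintro _ ⟨i, rfl⟩
  exact ⟨trivial, ⟨i, rfl⟩⟩

theorem ew_card [Finite A] (u : ℕ → A) (n : ℕ) : (EW u n).ncard = cp u (n + 1) + 1 := by
  have h1 : EW u n = insert (none, win u 0 n)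
      ((fun v : List A => (v.head?, v.tail)) '' Lang u (n + 1)) := by
    ext ⟨o, v⟩
    constructor
    · rintro ⟨i, hi⟩
      cases i with
      | zero =>
        left
        rw [← hi]
        simp [lc]
      | succ i =>
        right
        refine ⟨win u i (n + 1), ⟨i, rfl⟩, ?_⟩
        rw [← hi]
        show ((win u i (n + 1)).head?, (win u i (n + 1)).tail) = (lc u (i + 1), win u (i + 1) n)
        rw [win_cons]
        simp [lc]
    · rintro (h | ⟨v', ⟨i, rfl⟩, h⟩)
      · exact ⟨0, by rw [h]; simp [lc]⟩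
      · refine ⟨i + 1, ?_⟩
        rw [← h]
        show (lc u (i + 1), win u (i + 1) n) = ((win u i (n + 1)).head?, (win u i (n + 1)).tail)
        rw [win_cons]
        simp [lc]
  have hfin : ((fun v : List A => (v.head?, v.tail)) '' Lang u (n + 1)).Finite :=
    (lang_finite u (n + 1)).image _
  have hinj : Set.InjOn (fun v : List A => (v.head?, v.tail)) (Lang u (n + 1)) := by
    rintro x ⟨i, rfl⟩ y ⟨j, rfl⟩ hxy
    simp only [win_cons, List.head?_cons, List.tail_cons, Prod.mk.injEq, Option.some.injEq] at hxy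
    show win u i (n + 1) = win u j (n + 1)
    rw [win_cons, win_cons, hxy.1, hxy.2]
  rw [h1, Set.ncard_insert_of_notMem _ hfin, hinj.ncard_image]
  · rfl
  · rintro ⟨v', ⟨i, rfl⟩, h⟩
    simp only [win_cons, List.head?_cons, Prod.mk.injEq] at h
    exact absurd h.1 (by simp)

theorem fib_snd (u : ℕ → A) (n : ℕ) (w : List A) (hw : w ∈ Lang u n) :
    {v ∈ Lang u (n + 1) | v.take n = w} = (fun a => w ++ [a]) '' (Prod.snd '' Ext u w) := by
  have hl := lang_length u n w hw
  ext v
  constructor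
  · rintro ⟨⟨i, rfl⟩, h⟩
    have h' : win u i n = w := by
      rw [← h]; exact (take_win u i n).symm
    refine ⟨u (i + n), ⟨(lc u i, u (i + n)), ⟨i, ?_, ?_⟩, rfl⟩, ?_⟩
    · rw [hl]; exact h'
    · rw [hl]
    · show w ++ [u (i + n)] = win u i (n + 1)
      rw [win_snoc, h']
  · rintro ⟨a, ⟨ab, ⟨i, h1, h2⟩, rfl⟩, rfl⟩
    rw [hl] at h1 h2
    refine ⟨⟨i, ?_⟩, ?_⟩
    · show win u i (n + 1) = w ++ [ab.2]
      rw [win_snoc, h1, h2]
    · exact List.take_left' hl

theorem fib_fst (u : ℕ → A) (n : ℕ) (w : List A) (hw : w ∈ Lang u n) :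
    {v ∈ EW u n | v.2 = w} = (fun a => (a, w)) '' (Prod.fst '' Ext u w) := by
  have hl := lang_length u n w hw
  ext v
  constructor
  · rintro ⟨⟨i, rfl⟩, h⟩
    have h' : win u i n = w := h
    refine ⟨lc u i, ⟨(lc u i, u (i + n)), ⟨i, ?_, ?_⟩, rfl⟩, ?_⟩
    · rw [hl]; exact h'
    · rw [hl]
    · show (lc u i, w) = (lc u i, win u i n)
      rw [h']
  · rintro ⟨a, ⟨ab, ⟨i, h1, h2⟩, rfl⟩, rfl⟩
    rw [hl] at h1 h2
    refine ⟨⟨i, ?_⟩, rfl⟩
    show (lc u i, win u i n) = (ab.1, w)
    rw [h1, h2]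

theorem fib_ext (u : ℕ → A) (n : ℕ) (w : List A) (hw : w ∈ Lang u n) :
    {v ∈ EW u (n + 1) | v.2.take n = w} = (fun ab : Option A × A => (ab.1, w ++ [ab.2])) ''
      Ext u w := by
  have hl := lang_length u n w hw
  ext v
  constructor
  · rintro ⟨⟨i, rfl⟩, h⟩
    have h' : win u i n = w := by
      rw [← h]; exact (take_win u i n).symm
    refine ⟨(lc u i, u (i + n)), ⟨i, ?_, ?_⟩, ?_⟩
    · rw [hl]; exact h'
    · rw [hl]
    · show (lc u i, w ++ [u (i + n)]) = (lc u i, win u i (n + 1))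
      rw [win_snoc, h']
  · rintro ⟨ab, ⟨i, h1, h2⟩, rfl⟩
    rw [hl] at h1 h2
    refine ⟨⟨i, ?_⟩, ?_⟩
    · show (lc u i, win u i (n + 1)) = (ab.1, w ++ [ab.2])
      rw [win_snoc, h1, h2]
    · exact List.take_left' hl

theorem second_diff_fin [Finite A] (u : ℕ → A) (n : ℕ) :
    (cp u (n + 2) : ℤ) - 2 * cp u (n + 1) + cp u n =
      ∑ w ∈ (lang_finite u n).toFinset, mhat u w := by
  have e1 : (cp u (n + 1) : ℤ) =
      ∑ w ∈ (lang_finite u n).toFinset, ((Prod.snd '' Ext u w).ncard : ℤ) := by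
    unfold cp
    rw [ncard_fiber (Lang u (n + 1)) (Lang u n) (lang_finite u _) (lang_finite u n)
      (fun v => v.take n) (by
        rintro _ ⟨i, rfl⟩
        exact ⟨i, (take_win u i n).symm⟩)]
    apply Finset.sum_congr rfl
    intro w hw
    rw [Set.Finite.mem_toFinset] at hw
    rw [fib_snd u n w hw, Set.ncard_image_of_injective]
    intro a b hab
    simpa using hab
  have e2 : ((cp u (n + 1) + 1 : ℕ) : ℤ) =
      ∑ w ∈ (lang_finite u n).toFinset, ((Prod.fst '' Ext u w).ncard : ℤ) := by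
    rw [← ew_card u n]
    rw [ncard_fiber (EW u n) (Lang u n) (ew_finite u _) (lang_finite u n)
      (fun v => v.2) (by
        rintro _ ⟨i, rfl⟩
        exact ⟨i, rfl⟩)]
    apply Finset.sum_congr rfl
    intro w hw
    rw [Set.Finite.mem_toFinset] at hw
    rw [fib_fst u n w hw, Set.ncard_image_of_injective]
    intro a b hab
    simpa using hab
  have e3 : ((cp u (n + 1 + 1) + 1 : ℕ) : ℤ) =
      ∑ w ∈ (lang_finite u n).toFinset, ((Ext u w).ncard : ℤ) := by
    rw [← ew_card u (n + 1)]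
    rw [ncard_fiber (EW u (n + 1)) (Lang u n) (ew_finite u _) (lang_finite u n)
      (fun v => v.2.take n) (by
        rintro _ ⟨i, rfl⟩
        exact ⟨i, (take_win u i n).symm⟩)]
    apply Finset.sum_congr rfl
    intro w hw
    rw [Set.Finite.mem_toFinset] at hw
    rw [fib_ext u n w hw, Set.ncard_image_of_injective]
    rintro ⟨a, a'⟩ ⟨b, b'⟩ hab
    simpa using hab
  have e4 : (cp u n : ℤ) = ∑ w ∈ (lang_finite u n).toFinset, (1 : ℤ) := by
    unfold cp
    rw [Set.ncard_eq_toFinset_card _ (lang_finite u n)]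
    simp
  simp only [mhat, Finset.sum_add_distrib, Finset.sum_sub_distrib]
  rw [← e1, ← e2, ← e3, ← e4]
  push_cast
  ring

end aux

/-- second difference formula (the sum is over the finite set of factors of length `n`) -/
theorem second_diff {A : Type*} [Finite A] (u : ℕ → A) (n : ℕ) :
    (cp u (n + 2) : ℤ) - 2 * cp u (n + 1) + cp u n = ∑ᶠ w ∈ Lang u n, mhat u w := by
  rw [second_diff_fin, finsum_mem_eq_finite_toFinset_sum _ (lang_finite u n)]

theorem abs_mhat_le {k : ℕ} (u : ℕ → Fin k) (w : List (Fin k)) :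
    |mhat u w| ≤ ((k + 2) ^ 2 : ℕ) := by
  have h1 : (Ext u w).ncard ≤ (k + 1) * k := by
    have := Set.ncard_le_ncard (Set.subset_univ (Ext u w)) Set.finite_univ
    rw [Set.ncard_univ, Nat.card_eq_fintype_card] at this
    simpa using this
  have h2 : (Prod.fst '' Ext u w).ncard ≤ k + 1 := by
    have := Set.ncard_le_ncard (Set.subset_univ (Prod.fst '' Ext u w)) Set.finite_univ
    rw [Set.ncard_univ, Nat.card_eq_fintype_card] at this
    simpa using this
  have h3 : (Prod.snd '' Ext u w).ncard ≤ k := by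
    have := Set.ncard_le_ncard (Set.subset_univ (Prod.snd '' Ext u w)) Set.finite_univ
    rw [Set.ncard_univ, Nat.card_eq_fintype_card] at this
    simpa using this
  have h4 : (k + 1) * k + (2 * k + 2) ≤ (k + 2) ^ 2 := by nlinarith
  unfold mhat
  rw [abs_le]
  constructor
  · have : ((k + 2) ^ 2 : ℕ) ≥ 2 * k + 2 := by omega
    omega
  · omega

/-- Part B from a bound on the number of non-neutral words per dyadic scale.  (Each |mhat| is at most
`(k+2)^2`, and `s(m)-s(n) = sum of mhat over n <= |w| < m`.) -/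
theorem partB_of_bound {k : ℕ} (u : ℕ → Fin k)
    (hB : ∃ B : ℕ, ∀ n, {w : List (Fin k) | n ≤ w.length ∧ w.length < 2 * n ∧
      w ∈ Lang u w.length ∧ mhat u w ≠ 0}.ncard ≤ B) :
    ∃ K : ℕ, ∀ n m : ℕ, n ≤ m → m ≤ 2 * n →
      |((cp u (m + 1) : ℤ) - cp u m) - ((cp u (n + 1) : ℤ) - cp u n)| ≤ K := by
  classical
  obtain ⟨B, hB⟩ := hB
  refine ⟨B * (k + 2) ^ 2, fun n m hnm hm2 => ?_⟩
  set s : ℕ → ℤ := fun l => (cp u (l + 1) : ℤ) - cp u l with hs
  have hstep : ∀ l, s (l + 1) - s l = ∑ w ∈ (lang_finite u l).toFinset, mhat u w := by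
    intro l
    rw [← second_diff_fin]
    simp only [hs]
    ring
  have htel : s m - s n = ∑ l ∈ Finset.Ico n m, (s (l + 1) - s l) :=
    (Finset.sum_Ico_sub s hnm).symm
  show |s m - s n| ≤ _
  rw [htel]
  set F : ℕ → Finset (List (Fin k)) := fun l =>
    (lang_finite u l).toFinset.filter (fun w => mhat u w ≠ 0) with hF
  have h1 : ∀ l, |s (l + 1) - s l| ≤ ((F l).card : ℤ) * ((k + 2) ^ 2 : ℕ) := by
    intro l
    rw [hstep, ← Finset.sum_filter_ne_zero]
    refine (Finset.abs_sum_le_sum_abs _ _).trans ?_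
    refine (Finset.sum_le_card_nsmul _ _ _ (fun w _ => abs_mhat_le u w)).trans ?_
    rw [nsmul_eq_mul]
  have h2 : ∑ l ∈ Finset.Ico n m, (F l).card ≤ B := by
    rw [← Finset.card_biUnion]
    · rw [← Set.ncard_coe_finset]
      refine le_trans (Set.ncard_le_ncard ?_ ?_) (hB n)
      · intro w hw
        rw [Finset.mem_coe, Finset.mem_biUnion] at hw
        obtain ⟨l, hl, hw⟩ := hw
        rw [Finset.mem_Ico] at hl
        rw [hF, Finset.mem_filter, Set.Finite.mem_toFinset] at hw
        have hwl := lang_length u l w hw.1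
        refine ⟨by omega, by omega, ?_, hw.2⟩
        rw [hwl]; exact hw.1
      · apply (List.finite_length_lt (Fin k) (2 * n)).subset
        intro w hw
        exact hw.2.1
    · intro l _ l' _ hll'
      show Disjoint (F l) (F l')
      rw [Finset.disjoint_left]
      intro w hw hw'
      rw [hF, Finset.mem_filter, Set.Finite.mem_toFinset] at hw hw'
      apply hll'
      rw [← lang_length u l w hw.1, ← lang_length u l' w hw'.1]
  refine (Finset.abs_sum_le_sum_abs _ _).trans ((Finset.sum_le_sum (fun l _ => h1 l)).trans ?_)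
  rw [← Finset.sum_mul]
  have h3 : (∑ l ∈ Finset.Ico n m, ((F l).card : ℤ)) ≤ B := by exact_mod_cast h2
  push_cast
  have h4 : (0 : ℤ) ≤ (k + 2) ^ 2 := by positivity
  nlinarith

end FC
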