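import Pool.Agent.LibFC.CntCuts

/-!
# Words of blocks, their images, determinism of contexts
-/

set_option autoImplicit false

namespace FC

namespace Cnt

section
variable {A : Type*} {σ : A → List A} {u : ℕ → A} {F : A → Prop}

theorem win_length (i n : ℕ) : (win u i n).length = n := by simp [win]

theorem win_getElem (i n t : ℕ) (ht : t < (win u i n).length) : (win u i n)[t] = u (i + t) := by
  simp [win]

theorem win_eq_iff {i j n : ℕ} : win u i n = win u j n ↔ ∀ t, t < n → u (i + t) = u (j + t) := by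
  constructor
  · intro h t ht
    have h1 : t < (win u i n).length := by rw [win_length]; exact ht
    have h2 : t < (win u j n).length := by rw [win_length]; exact ht
    rw [← win_getElem i n t h1, ← win_getElem j n t h2]
    congr 1
  · intro h
    apply List.ext_getElem
    · rw [win_length, win_length]
    · intro t h1 h2
      rw [win_getElem, win_getElem]
      apply h
      rw [win_length] at h1
      exact h1

theorem win_in_image (h : Dat σ u) (K i p n : ℕ) (h1 : cc σ u K i ≤ p)
    (h2 : p + n ≤ cc σ u K (i + 1)) :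
    win u p n = ((pw σ K (u i)).drop (p - cc σ u K i)).take n := by
  rw [cc_succ h] at h2
  apply List.ext_getElem
  · rw [win_length, List.length_take, List.length_drop]; omega
  · intro t ht1 ht2
    rw [win_length] at ht1
    rw [win_getElem, List.getElem_take, List.getElem_drop]
    have h3 := u_cc h K i (p - cc σ u K i + t) (by omega)
    rw [← h3]
    congr 1
    omega

/-- the word of the block of `q` -/
noncomputable def wd (u : ℕ → A) (F : A → Prop) (q : ℕ) : List A :=
  win u (pf u F q) (nf u F q - pf u F q + 1)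

theorem wd_length (q : ℕ) : (wd u F q).length = nf u F q - pf u F q + 1 := win_length _ _

theorem wd_eq {q q' : ℕ} (h : wd u F q = wd u F q') :
    nf u F q - pf u F q = nf u F q' - pf u F q' ∧
      ∀ t, t < nf u F q - pf u F q + 1 → u (pf u F q + t) = u (pf u F q' + t) := by
  have h1 := congrArg List.length h
  rw [wd_length, wd_length] at h1
  have h2 : nf u F q - pf u F q = nf u F q' - pf u F q' := by omega
  refine ⟨h2, ?_⟩
  unfold wd at h
  rw [← h2] at h
  exact win_eq_iff.1 h

theorem wd_congr (hF : Thr σ u F) {q q' : ℕ} (hq : 1 ≤ q) (h1 : pf u F q < q')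
    (h2 : q' ≤ nf u F q) : wd u F q' = wd u F q := by
  obtain ⟨e1, e2⟩ := blk_eq hF hq h1 h2
  unfold wd
  rw [e1, e2]

/-- a block word occurring somewhere is a block -/
theorem blk_of_word (hF : Thr σ u F) {q a : ℕ} (hq : 1 ≤ q)
    (h : ∀ t, t < nf u F q - pf u F q + 1 → u (pf u F q + t) = u (a + t)) :
    pf u F (a + 1) = a ∧ nf u F (a + 1) = a + (nf u F q - pf u F q) := by
  have h1 := pf_lt (u := u) (F := F) q hq
  obtain ⟨h2, h3⟩ := nf_spec hF q
  have hslow : ∀ t, a < t → t < a + (nf u F q - pf u F q) → ¬ F (u t) := by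
    intro t ht1 ht2
    have h4 := h (t - a) (by omega)
    rw [Nat.add_sub_cancel' ht1.le] at h4
    rw [← h4]
    rcases Nat.lt_or_ge (pf u F q + (t - a)) q with h5 | h5
    · exact pf_slow (by omega) h5
    · exact nf_slow hF h5 (by omega)
  constructor
  · apply pf_unique
    · have := h 0 (by omega)
      simp only [add_zero] at this
      rw [← this]
      exact pf_fast hF q
    · omega
    · intro t ht1 ht2; omega
  · apply nf_unique hF
    · have := h (nf u F q - pf u F q) (by omega)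
      rw [← this, Nat.add_sub_cancel' (by omega)]
      exact h3
    · omega
    · intro t ht1 ht2
      exact hslow t (by omega) ht2

theorem pf_cc (h : Dat σ u) (hF : Thr σ u F) (L q : ℕ) (hq : 1 ≤ q) :
    pf u F (cc σ u L q) = pf u F (cc σ u L (pf u F q + 1)) := by
  have h1 := pf_lt (u := u) (F := F) q hq
  have h2 := (cc_strict h L).monotone (show pf u F q + 1 ≤ q by omega)
  have h3 : 1 ≤ cc σ u L (pf u F q + 1) := le_trans (by omega) (cc_ge h L _)
  apply pf_unique (pf_fast hF _)
  · exact lt_of_lt_of_le (pf_lt _ h3) h2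
  · intro t ht1 ht2
    rcases Nat.lt_or_ge t (cc σ u L (pf u F q + 1)) with h4 | h4
    · exact pf_slow ht1 h4
    · exact slow_range h hF L (pf u F q + 1) q _ (fun i hi1 hi2 => pf_slow (by omega) hi2) h4 ht2

theorem nf_cc (h : Dat σ u) (hF : Thr σ u F) (L q : ℕ) :
    nf u F (cc σ u L q) = nf u F (cc σ u L (nf u F q)) := by
  obtain ⟨h1, h2⟩ := nf_spec hF q
  have h3 := (cc_strict h L).monotone h1
  obtain ⟨h4, h5⟩ := nf_spec hF (cc σ u L (nf u F q))
  apply nf_unique hF h5 (by omega)
  intro t ht1 ht2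
  rcases Nat.lt_or_ge t (cc σ u L (nf u F q)) with h6 | h6
  · exact slow_range h hF L q (nf u F q) _ (fun i hi1 hi2 => nf_slow hF hi1 hi2) ht1 h6
  · exact nf_slow hF h6 ht2

theorem pf_succ {s : ℕ} (hs : F (u s)) : pf u F (s + 1) = s :=
  pf_unique hs (by omega) (fun t h1 h2 => by omega)

theorem nf_self (hF : Thr σ u F) {e : ℕ} (he : F (u e)) : nf u F e = e :=
  nf_unique hF he le_rfl (fun t h1 h2 => by omega)

theorem pf_range (h : Dat σ u) (hF : Thr σ u F) (L : ℕ) {s : ℕ} (hs : F (u s)) :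
    cc σ u L s ≤ pf u F (cc σ u L (s + 1)) ∧
      pf u F (cc σ u L (s + 1)) < cc σ u L (s + 1) := by
  have h1 := pf_img h hF L (s + 1) (by omega)
  rw [pf_succ hs] at h1
  exact h1

theorem nf_range (h : Dat σ u) (hF : Thr σ u F) (L : ℕ) {e : ℕ} (he : F (u e)) :
    cc σ u L e ≤ nf u F (cc σ u L e) ∧ nf u F (cc σ u L e) < cc σ u L (e + 1) := by
  have h1 := nf_img h hF L e
  rw [nf_self hF he] at h1
  exact h1

/-- the last fast letter in the image of a fast letter: relative position -/
theorem last_rel (h : Dat σ u) (hF : Thr σ u F) (L : ℕ) {s s' : ℕ} (hs : F (u s))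
    (he : u s = u s') :
    pf u F (cc σ u L (s + 1)) + cc σ u L s' = pf u F (cc σ u L (s' + 1)) + cc σ u L s := by
  have hs' : F (u s') := he ▸ hs
  obtain ⟨a1, a2⟩ := pf_range h hF L hs
  have hag : ∀ t, t < 1 → u (s + t) = u (s' + t) := by
    intro t ht
    have : t = 0 := by omega
    subst this
    simpa using he
  have hlen := agree_len h L hag 1 le_rfl
  have hval := agree_val h L hag
  have key : pf u F (cc σ u L (s' + 1)) =
      cc σ u L s' + (pf u F (cc σ u L (s + 1)) - cc σ u L s) := by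
    apply pf_unique
    · rw [← hval _ (by omega), Nat.add_sub_cancel' a1]
      exact pf_fast hF _
    · omega
    · intro t ht1 ht2
      have h1 := hval (t - cc σ u L s') (by omega)
      rw [Nat.add_sub_cancel' (by omega)] at h1
      rw [← h1]
      exact pf_slow (q := cc σ u L (s + 1)) (by omega) (by omega)
  omega

/-- the first fast letter in the image of a fast letter: relative position -/
theorem first_rel (h : Dat σ u) (hF : Thr σ u F) (L : ℕ) {e e' : ℕ} (he : F (u e))
    (heq : u e = u e') :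
    nf u F (cc σ u L e) + cc σ u L e' = nf u F (cc σ u L e') + cc σ u L e := by
  have he' : F (u e') := heq ▸ he
  obtain ⟨a1, a2⟩ := nf_range h hF L he
  have hag : ∀ t, t < 1 → u (e + t) = u (e' + t) := by
    intro t ht
    have : t = 0 := by omega
    subst this
    simpa using heq
  have hlen := agree_len h L hag 1 le_rfl
  have hval := agree_val h L hag
  have key : nf u F (cc σ u L e') =
      cc σ u L e' + (nf u F (cc σ u L e) - cc σ u L e) := by
    apply nf_unique hF
    · rw [← hval _ (by omega), Nat.add_sub_cancel' a1]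
      exact (nf_spec hF _).2
    · omega
    · intro t ht1 ht2
      have h1 := hval (t - cc σ u L e') (by omega)
      rw [Nat.add_sub_cancel' (by omega)] at h1
      rw [← h1]
      exact nf_slow hF (q := cc σ u L e) (by omega) (by omega)
  omega

/-- the image word depends only on the word -/
theorem wd_img (h : Dat σ u) (hF : Thr σ u F) (L : ℕ) {q q' : ℕ} (hq : 1 ≤ q) (hq' : 1 ≤ q')
    (he : wd u F q = wd u F q') : wd u F (cc σ u L q) = wd u F (cc σ u L q') := by
  obtain ⟨e1, e2⟩ := wd_eq he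
  have hp := pf_lt (u := u) (F := F) q hq
  have hp' := pf_lt (u := u) (F := F) q' hq'
  obtain ⟨hn, hnF⟩ := nf_spec hF q
  obtain ⟨hn', hnF'⟩ := nf_spec hF q'
  set s := pf u F q with hs
  set e := nf u F q with hee
  set s' := pf u F q' with hs'
  set e' := nf u F q' with hee'
  have r1 := last_rel h hF L (s := s) (s' := s') (pf_fast hF q) (by simpa using e2 0 (by omega))
  have r2 := first_rel h hF L (e := e) (e' := e') hnF (by
    have := e2 (e - s) (by omega)
    rw [Nat.add_sub_cancel' (by omega), e1, Nat.add_sub_cancel' (by omega)] at this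
    exact this)
  rw [hs, ← pf_cc h hF L q hq, hs', ← pf_cc h hF L q' hq'] at r1
  rw [hee, ← nf_cc h hF L q, hee', ← nf_cc h hF L q'] at r2
  rw [← hs, ← hs'] at r1
  rw [← hee, ← hee'] at r2
  have hlen := agree_len h L e2 (e - s) (by omega)
  rw [Nat.add_sub_cancel' (by omega), e1, Nat.add_sub_cancel' (by omega)] at hlen
  have hval := agree_val h L e2
  have i1 := pf_img h hF L q hq
  have i2 := nf_img h hF L q
  have i1' := pf_img h hF L q' hq'
  have i2' := nf_img h hF L q'
  rw [← hs] at i1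
  rw [← hee] at i2
  rw [← hs'] at i1'
  rw [← hee'] at i2'
  have m1 := (cc_strict h L).monotone (show s + 1 ≤ q by omega)
  have m2 := (cc_strict h L).monotone hn
  have m1' := (cc_strict h L).monotone (show s' + 1 ≤ q' by omega)
  have m2' := (cc_strict h L).monotone hn'
  have e3 : s + (e - s + 1) = e + 1 := by omega
  rw [e3] at hval
  unfold wd
  have e4 : nf u F (cc σ u L q) - pf u F (cc σ u L q) =
      nf u F (cc σ u L q') - pf u F (cc σ u L q') := by omega
  rw [e4, win_eq_iff]
  intro t ht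
  have h1 := hval (pf u F (cc σ u L q) + t - cc σ u L s) (by omega)
  rw [Nat.add_sub_cancel' (by omega)] at h1
  rw [h1]
  congr 1
  omega

open Classical in
/-- the map on block words -/
noncomputable def th (σ : A → List A) (u : ℕ → A) (F : A → Prop) (W : List A) : List A :=
  if h : ∃ q, 1 ≤ q ∧ wd u F q = W then wd u F (cc σ u 1 h.choose) else W

theorem th_spec (h : Dat σ u) (hF : Thr σ u F) {q : ℕ} (hq : 1 ≤ q) :
    th σ u F (wd u F q) = wd u F (cc σ u 1 q) := by
  classical
  have hex : ∃ q', 1 ≤ q' ∧ wd u F q' = wd u F q := ⟨q, hq, rfl⟩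
  unfold th
  rw [dif_pos hex]
  exact wd_img h hF 1 hex.choose_spec.1 hq hex.choose_spec.2

theorem th_iter (h : Dat σ u) (hF : Thr σ u F) (L : ℕ) {q : ℕ} (hq : 1 ≤ q) :
    (th σ u F)^[L] (wd u F q) = wd u F (cc σ u L q) := by
  induction L with
  | zero => rfl
  | succ L ih =>
    rw [Function.iterate_succ_apply', ih, th_spec h hF (le_trans hq (cc_ge h L q)), add_comm,
      cc_add]

/-- words of blocks of age zero -/
def S0 (σ : A → List A) (u : ℕ → A) (F : A → Prop) : Set (List A) :=
  {W | ∃ q, 1 ≤ q ∧ ¬ hasCut σ u F 1 q ∧ wd u F q = W}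

/-- a block of age exactly `K` is the image of one of age `0` -/
theorem age_img (h : Dat σ u) (hF : Thr σ u F) (K : ℕ) {q : ℕ} (hq : 1 ≤ q)
    (h1 : hasCut σ u F K q) (h2 : ¬ hasCut σ u F (K + 1) q) :
    ∃ j, 1 ≤ j ∧ ¬ hasCut σ u F 1 j ∧ pf u F q = pf u F (cc σ u K j) ∧
      nf u F q = nf u F (cc σ u K j) := by
  obtain ⟨j, hj1, hj2⟩ := h1
  have hj : 1 ≤ j := by
    by_contra hcon
    have : j = 0 := by omega
    rw [this, cc_at_zero] at hj1
    omega
  obtain ⟨e1, e2⟩ := blk_eq hF hq hj1 hj2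
  refine ⟨j, hj, ?_, e1.symm, e2.symm⟩
  rw [← hasCut_img h hF 1 K j hj]
  intro hcon
  apply h2
  exact (hasCut_congr hF hq hj1 hj2).1 hcon

theorem mem_S0_of_age (h : Dat σ u) (hF : Thr σ u F) (K : ℕ) {q : ℕ} (hq : 1 ≤ q)
    (h1 : hasCut σ u F K q) (h2 : ¬ hasCut σ u F (K + 1) q) :
    ∃ V ∈ S0 σ u F, (th σ u F)^[K] V = wd u F q := by
  obtain ⟨j, hj, hj1, e1, e2⟩ := age_img h hF K hq h1 h2
  refine ⟨wd u F j, ⟨j, hj, hj1, rfl⟩, ?_⟩
  rw [th_iter h hF K hj]
  unfold wd
  rw [e1, e2]

theorem exists_age (h : Dat σ u) (hF : Thr σ u F) (K : ℕ) {V : List A} (hV : V ∈ S0 σ u F) :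
    ∃ q, 1 ≤ q ∧ hasCut σ u F K q ∧ ¬ hasCut σ u F (K + 1) q ∧
      wd u F q = (th σ u F)^[K] V := by
  obtain ⟨j, hj, hj1, rfl⟩ := hV
  refine ⟨cc σ u K j, le_trans hj (cc_ge h K j), ?_, ?_, (th_iter h hF K hj).symm⟩
  · have := (hasCut_img h hF 0 K j hj).2 (hasCut_zero hF j hj)
    simpa using this
  · rw [hasCut_img h hF 1 K j hj]
    exact hj1

/-- a block of age zero lies in one image -/
theorem age_zero_in (h : Dat σ u) {q : ℕ}
    (h1 : ¬ hasCut σ u F 1 q) :
    ∃ i, cc σ u 1 i ≤ pf u F q ∧ nf u F q < cc σ u 1 (i + 1) := by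
  obtain ⟨i, hi1, hi2⟩ := exists_idx h 1 (pf u F q)
  refine ⟨i, hi1, ?_⟩
  by_contra hcon
  push Not at hcon
  exact h1 ⟨i + 1, hi2, hcon⟩

theorem S0_finite [Finite A] (h : Dat σ u) (hF : Thr σ u F) : (S0 σ u F).Finite := by
  classical
  have := Fintype.ofFinite A
  obtain ⟨M, hM⟩ : ∃ M : ℕ, ∀ b, (pw σ 1 b).length ≤ M :=
    ⟨∑ b, (pw σ 1 b).length, fun b => Finset.single_le_sum (f := fun b => (pw σ 1 b).length)
      (fun _ _ => Nat.zero_le _) (Finset.mem_univ b)⟩
  apply Set.Finite.subset (Set.Finite.image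
    (fun p : A × ℕ × ℕ => ((pw σ 1 p.1).drop p.2.1).take p.2.2)
    ((Set.finite_univ (α := A)).prod ((Set.finite_Iic M).prod (Set.finite_Iic (M + 1)))))
  rintro W ⟨q, hq, hq1, rfl⟩
  obtain ⟨i, hi1, hi2⟩ := age_zero_in h hq1
  have hp := pf_lt (u := u) (F := F) q hq
  have hn := (nf_spec hF q).1
  have hlen := cc_succ h 1 i
  have hMi := hM (u i)
  refine ⟨(u i, pf u F q - cc σ u 1 i, nf u F q - pf u F q + 1), ⟨Set.mem_univ _, ?_, ?_⟩, ?_⟩
  · simp only [Set.mem_Iic]; omega
  · simp only [Set.mem_Iic]; omega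
  · unfold wd
    rw [win_in_image h 1 i _ _ hi1 (by omega)]

/-! ### Determinism -/

open Classical in
/-- letter of the left end of the image block -/
noncomputable def lam (σ : A → List A) (u : ℕ → A) (F : A → Prop) (b : A) : A :=
  if h : ∃ s, F (u s) ∧ u s = b then u (pf u F (cc σ u 1 (h.choose + 1))) else b

open Classical in
/-- letter of the right end of the image block -/
noncomputable def rho (σ : A → List A) (u : ℕ → A) (F : A → Prop) (b : A) : A :=
  if h : ∃ s, F (u s) ∧ u s = b then u (nf u F (cc σ u 1 h.choose)) else b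

theorem lam_spec (h : Dat σ u) (hF : Thr σ u F) {s : ℕ} (hs : F (u s)) :
    lam σ u F (u s) = u (pf u F (cc σ u 1 (s + 1))) := by
  classical
  have hex : ∃ s', F (u s') ∧ u s' = u s := ⟨s, hs, rfl⟩
  unfold lam
  rw [dif_pos hex]
  obtain ⟨h1, h2⟩ := hex.choose_spec
  set s' := hex.choose with hs'
  have h3 := last_rel h hF 1 h1 h2
  obtain ⟨a1, a2⟩ := pf_range h hF 1 h1
  have hag : ∀ t, t < 1 → u (s' + t) = u (s + t) := by
    intro t ht
    have : t = 0 := by omega
    subst this
    simpa using h2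
  have hval := agree_val h 1 hag (pf u F (cc σ u 1 (s' + 1)) - cc σ u 1 s') (by omega)
  rw [Nat.add_sub_cancel' a1] at hval
  rw [hval]
  congr 1
  omega

theorem rho_spec (h : Dat σ u) (hF : Thr σ u F) {e : ℕ} (he : F (u e)) :
    rho σ u F (u e) = u (nf u F (cc σ u 1 e)) := by
  classical
  have hex : ∃ s', F (u s') ∧ u s' = u e := ⟨e, he, rfl⟩
  unfold rho
  rw [dif_pos hex]
  obtain ⟨h1, h2⟩ := hex.choose_spec
  set s' := hex.choose with hs'
  have h3 := first_rel h hF 1 h1 h2
  obtain ⟨a1, a2⟩ := nf_range h hF 1 h1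
  have hag : ∀ t, t < 1 → u (s' + t) = u (e + t) := by
    intro t ht
    have : t = 0 := by omega
    subst this
    simpa using h2
  have hval := agree_val h 1 hag (nf u F (cc σ u 1 s') - cc σ u 1 s') (by omega)
  rw [Nat.add_sub_cancel' a1] at hval
  rw [hval]
  congr 1
  omega

theorem lam_iter (h : Dat σ u) (hF : Thr σ u F) (L : ℕ) {q : ℕ} (hq : 1 ≤ q) :
    u (pf u F (cc σ u L q)) = (lam σ u F)^[L] (u (pf u F q)) := by
  induction L with
  | zero => rfl
  | succ L ih =>
    rw [Function.iterate_succ_apply', ← ih, add_comm, cc_add,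
      pf_cc h hF 1 _ (le_trans hq (cc_ge h L q)), lam_spec h hF (pf_fast hF _)]

theorem rho_iter (h : Dat σ u) (hF : Thr σ u F) (L : ℕ) (q : ℕ) :
    u (nf u F (cc σ u L q)) = (rho σ u F)^[L] (u (nf u F q)) := by
  induction L with
  | zero => rfl
  | succ L ih =>
    rw [Function.iterate_succ_apply', ← ih, add_comm, cc_add,
      nf_cc h hF 1 _, rho_spec h hF (nf_spec hF _).2]

/-- maps of finite sets are injective on the image of a high iterate -/
theorem iter_inj {X : Type*} [Finite X] (f : X → X) : ∃ N : ℕ, ∀ (D : ℕ) (x y : X),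
    f^[D] (f^[N] x) = f^[D] (f^[N] y) → f^[N] x = f^[N] y := by
  classical
  have := Fintype.ofFinite X
  -- the ranges of the iterates stabilize
  have hanti : ∀ n, Set.range f^[n + 1] ⊆ Set.range f^[n] := by
    rintro n _ ⟨x, rfl⟩
    exact ⟨f x, by rw [← Function.iterate_succ_apply]⟩
  obtain ⟨N, hN⟩ : ∃ N, ∀ n, (Set.range f^[N]).ncard ≤ (Set.range f^[n]).ncard := by
    have hex : ∃ m, ∃ n, (Set.range f^[n]).ncard = m := ⟨_, 0, rfl⟩
    obtain ⟨N, hN⟩ := Nat.find_spec hex
    exact ⟨N, fun n => by rw [hN]; exact Nat.find_min' hex ⟨n, rfl⟩⟩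
  refine ⟨N, ?_⟩
  have hinj : Set.InjOn f (Set.range f^[N]) := by
    have himg : f '' (Set.range f^[N]) = Set.range f^[N + 1] := by
      ext y
      constructor
      · rintro ⟨_, ⟨x, rfl⟩, rfl⟩
        exact ⟨x, Function.iterate_succ_apply' _ _ _⟩
      · rintro ⟨x, rfl⟩
        exact ⟨_, ⟨x, rfl⟩, (Function.iterate_succ_apply' _ _ _).symm⟩
    apply Set.injOn_of_ncard_image_eq _ (Set.toFinite _)
    rw [himg]
    exact le_antisymm (Set.ncard_le_ncard (hanti N) (Set.toFinite _)) (hN _)
  have hmap : ∀ x ∈ Set.range f^[N], f x ∈ Set.range f^[N] := by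
    rintro _ ⟨x, rfl⟩
    exact ⟨f x, by rw [← Function.iterate_succ_apply, Function.iterate_succ_apply']⟩
  have key : ∀ (D : ℕ), ∀ x ∈ Set.range f^[N], ∀ y ∈ Set.range f^[N],
      f^[D] x = f^[D] y → x = y := by
    intro D
    induction D with
    | zero => intro x _ y _ h; exact h
    | succ D ih =>
      intro x hx y hy h
      rw [Function.iterate_succ_apply, Function.iterate_succ_apply] at h
      exact hinj hx hy (ih _ (hmap x hx) _ (hmap y hy) h)
  intro D x y h
  exact key D _ ⟨x, rfl⟩ _ ⟨y, rfl⟩ h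

/-- the left context of old blocks is determined by the left end -/
theorem det_left (h : Dat σ u) (hF : Thr σ u F) (N : ℕ)
    (hN : ∀ (D : ℕ) (x y : A), (lam σ u F)^[D] ((lam σ u F)^[N] x) =
      (lam σ u F)^[D] ((lam σ u F)^[N] y) → (lam σ u F)^[N] x = (lam σ u F)^[N] y)
    (D n : ℕ) (hD : ∀ s, F (u s) → cc σ u D s + n ≤ pf u F (cc σ u D (s + 1)))
    {q q' : ℕ} (hq : 1 ≤ q) (hq' : 1 ≤ q') (hc : hasCut σ u F (D + N) q)
    (hc' : hasCut σ u F (D + N) q') (he : u (pf u F q) = u (pf u F q')) :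
    n ≤ pf u F q ∧ n ≤ pf u F q' ∧ ∀ r, r ≤ n → u (pf u F q - r) = u (pf u F q' - r) := by
  have red : ∀ q, 1 ≤ q → hasCut σ u F (D + N) q → ∃ s x, F (u s) ∧
      pf u F q = pf u F (cc σ u D (s + 1)) ∧ u s = (lam σ u F)^[N] x ∧
      u (pf u F q) = (lam σ u F)^[D] (u s) := by
    intro q hq ⟨j, hj1, hj2⟩
    have hj : 1 ≤ j := by
      by_contra hcon
      have : j = 0 := by omega
      rw [this, cc_at_zero] at hj1
      omega
    obtain ⟨e1, e2⟩ := blk_eq hF hq hj1 hj2
    have hj' : 1 ≤ cc σ u N j := le_trans hj (cc_ge h N j)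
    refine ⟨pf u F (cc σ u N j), u (pf u F j), pf_fast hF _, ?_, lam_iter h hF N hj, ?_⟩
    · rw [← pf_cc h hF D _ hj', ← cc_add, e1]
    · rw [← e1, cc_add, lam_iter h hF D hj']
  obtain ⟨s, x, hs, hs1, hs2, hs3⟩ := red q hq hc
  obtain ⟨s', x', hs', hs1', hs2', hs3'⟩ := red q' hq' hc'
  have hss : u s = u s' := by
    rw [hs2, hs2']
    apply hN D
    rw [← hs2, ← hs2', ← hs3, ← hs3', he]
  have h1 := last_rel h hF D hs hss
  have h2 := hD s hs
  have h3 := hD s' hs'
  obtain ⟨a1, a2⟩ := pf_range h hF D hs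
  rw [hs1, hs1']
  refine ⟨by omega, by omega, fun r hr => ?_⟩
  have hag : ∀ t, t < 1 → u (s + t) = u (s' + t) := by
    intro t ht
    have : t = 0 := by omega
    subst this
    simpa using hss
  have hval := agree_val h D hag (pf u F (cc σ u D (s + 1)) - r - cc σ u D s) (by omega)
  rw [Nat.add_sub_cancel' (by omega)] at hval
  rw [hval]
  congr 1
  omega

/-- the right context of old blocks is determined by the right end -/
theorem det_right (h : Dat σ u) (hF : Thr σ u F) (N : ℕ)
    (hN : ∀ (D : ℕ) (x y : A), (rho σ u F)^[D] ((rho σ u F)^[N] x) =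
      (rho σ u F)^[D] ((rho σ u F)^[N] y) → (rho σ u F)^[N] x = (rho σ u F)^[N] y)
    (D n : ℕ) (hD : ∀ e, F (u e) → nf u F (cc σ u D e) + n ≤ cc σ u D (e + 1))
    {q q' : ℕ} (hq : 1 ≤ q) (hq' : 1 ≤ q') (hc : hasCut σ u F (D + N) q)
    (hc' : hasCut σ u F (D + N) q') (he : u (nf u F q) = u (nf u F q')) :
    ∀ r, r < n → u (nf u F q + r) = u (nf u F q' + r) := by
  have red : ∀ q, 1 ≤ q → hasCut σ u F (D + N) q → ∃ s x, F (u s) ∧
      nf u F q = nf u F (cc σ u D s) ∧ u s = (rho σ u F)^[N] x ∧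
      u (nf u F q) = (rho σ u F)^[D] (u s) := by
    intro q hq ⟨j, hj1, hj2⟩
    have hj : 1 ≤ j := by
      by_contra hcon
      have : j = 0 := by omega
      rw [this, cc_at_zero] at hj1
      omega
    obtain ⟨e1, e2⟩ := blk_eq hF hq hj1 hj2
    refine ⟨nf u F (cc σ u N j), u (nf u F j), (nf_spec hF _).2, ?_, rho_iter h hF N j, ?_⟩
    · rw [← nf_cc h hF D _, ← cc_add, e2]
    · rw [← e2, cc_add, rho_iter h hF D]
  obtain ⟨s, x, hs, hs1, hs2, hs3⟩ := red q hq hc
  obtain ⟨s', x', hs', hs1', hs2', hs3'⟩ := red q' hq' hc'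
  have hss : u s = u s' := by
    rw [hs2, hs2']
    apply hN D
    rw [← hs2, ← hs2', ← hs3, ← hs3', he]
  have h1 := first_rel h hF D hs hss
  have h2 := hD s hs
  obtain ⟨a1, a2⟩ := nf_range h hF D hs
  rw [hs1, hs1']
  intro r hr
  have hag : ∀ t, t < 1 → u (s + t) = u (s' + t) := by
    intro t ht
    have : t = 0 := by omega
    subst this
    simpa using hss
  have hval := agree_val h D hag (nf u F (cc σ u D s) + r - cc σ u D s) (by omega)
  rw [Nat.add_sub_cancel' (by omega)] at hval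
  rw [hval]
  congr 1
  omega

/-- windows around old blocks are determined by the block word and the offset -/
theorem det_win (h : Dat σ u) (hF : Thr σ u F) (N : ℕ)
    (hN : ∀ (D : ℕ) (x y : A), (lam σ u F)^[D] ((lam σ u F)^[N] x) =
      (lam σ u F)^[D] ((lam σ u F)^[N] y) → (lam σ u F)^[N] x = (lam σ u F)^[N] y)
    (hN' : ∀ (D : ℕ) (x y : A), (rho σ u F)^[D] ((rho σ u F)^[N] x) =
      (rho σ u F)^[D] ((rho σ u F)^[N] y) → (rho σ u F)^[N] x = (rho σ u F)^[N] y)
    (D n : ℕ) (hD : ∀ s, F (u s) → cc σ u D s + n ≤ pf u F (cc σ u D (s + 1)))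
    (hD' : ∀ e, F (u e) → nf u F (cc σ u D e) + n ≤ cc σ u D (e + 1))
    {q q' : ℕ} (hq : 1 ≤ q) (hq' : 1 ≤ q') (hc : hasCut σ u F (D + N) q)
    (hc' : hasCut σ u F (D + N) q') (he : wd u F q = wd u F q') (o : ℕ) (ho : o ≤ n) :
    win u (pf u F q - o) n = win u (pf u F q' - o) n := by
  obtain ⟨e1, e2⟩ := wd_eq he
  have hp := pf_lt (u := u) (F := F) q hq
  have hp' := pf_lt (u := u) (F := F) q' hq'
  have hn := (nf_spec hF q).1
  have hn' := (nf_spec hF q').1
  obtain ⟨l1, l2, l3⟩ := det_left h hF N hN D n hD hq hq' hc hc' (by simpa using e2 0 (by omega))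
  have hr := det_right h hF N hN' D n hD' hq hq' hc hc' (by
    have := e2 (nf u F q - pf u F q) (by omega)
    rw [Nat.add_sub_cancel' (by omega), e1, Nat.add_sub_cancel' (by omega)] at this
    exact this)
  rw [win_eq_iff]
  intro t ht
  rcases Nat.lt_or_ge t o with h1 | h1
  · have h2 := l3 (o - t) (by omega)
    have e3 : pf u F q - o + t = pf u F q - (o - t) := by omega
    have e4 : pf u F q' - o + t = pf u F q' - (o - t) := by omega
    rw [e3, e4, h2]
  · rcases Nat.lt_or_ge (t - o) (nf u F q - pf u F q + 1) with h2 | h2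
    · have h3 := e2 (t - o) h2
      have e3 : pf u F q - o + t = pf u F q + (t - o) := by omega
      have e4 : pf u F q' - o + t = pf u F q' + (t - o) := by omega
      rw [e3, e4, h3]
    · have h3 := hr (t - o - (nf u F q - pf u F q)) (by omega)
      have e3 : pf u F q - o + t = nf u F q + (t - o - (nf u F q - pf u F q)) := by omega
      have e4 : pf u F q' - o + t = nf u F q' + (t - o - (nf u F q - pf u F q)) := by omega
      rw [e3, e4, h3]

end

end Cnt

end FC
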