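import Pool.Agent.LibFC.GrowthEx

/-!
# Cuts of all levels of a fixed point, and threshold blocks
-/

set_option autoImplicit false

namespace FC

namespace Cnt

variable {A : Type*}

/-! ### Cuts -/

/-- one step of the cut function -/
def c1 (σ : A → List A) (u : ℕ → A) (i : ℕ) : ℕ := ((pre u i).flatMap σ).length

/-- the cut function of level `K` -/
def cc (σ : A → List A) (u : ℕ → A) (K i : ℕ) : ℕ := (c1 σ u)^[K] i

/-- hypotheses: fixed point of a non-erasing morphism -/
structure Dat (σ : A → List A) (u : ℕ → A) : Prop where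
  im : Im σ u u
  pos : ∀ b, σ b ≠ []

section
variable {σ : A → List A} {u : ℕ → A}

theorem cc_zero (i : ℕ) : cc σ u 0 i = i := rfl

theorem cc_one (i : ℕ) : cc σ u 1 i = c1 σ u i := rfl

theorem cc_add (K L i : ℕ) : cc σ u (K + L) i = cc σ u K (cc σ u L i) :=
  Function.iterate_add_apply _ _ _ _

theorem pw_ne (h : Dat σ u) (K : ℕ) (b : A) : pw σ K b ≠ [] := by
  induction K with
  | zero => rw [pw_zero]; simp
  | succ K ih =>
    unfold pw at ih ⊢
    rw [Function.iterate_succ_apply']
    intro hcon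
    rw [List.flatMap_eq_nil_iff] at hcon
    obtain ⟨c, hc⟩ := List.exists_mem_of_ne_nil _ ih
    exact h.pos c (hcon c hc)

theorem pre_it (h : Dat σ u) (K i : ℕ) :
    (fun w : List A => w.flatMap σ)^[K] (pre u i) = pre u (cc σ u K i) := by
  induction K with
  | zero => rfl
  | succ K ih =>
    rw [Function.iterate_succ_apply', ih]
    have h1 := h.im (cc σ u K i)
    have h2 : cc σ u (K + 1) i = c1 σ u (cc σ u K i) := Function.iterate_succ_apply' _ _ _
    rw [h2]
    exact h1

theorem pre_length (i : ℕ) : (pre u i).length = i := by simp [pre]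

theorem pre_succ (i : ℕ) : pre u (i + 1) = pre u i ++ [u i] := by
  simp [pre, List.range_succ]

theorem pre_cc_succ (h : Dat σ u) (K i : ℕ) :
    pre u (cc σ u K (i + 1)) = pre u (cc σ u K i) ++ pw σ K (u i) := by
  rw [← pre_it h, ← pre_it h, pre_succ, it_append]
  rfl

theorem cc_succ (h : Dat σ u) (K i : ℕ) :
    cc σ u K (i + 1) = cc σ u K i + (pw σ K (u i)).length := by
  have h1 := congrArg List.length (pre_cc_succ h K i)
  rwa [List.length_append, pre_length, pre_length] at h1

theorem pre_getElem (m t : ℕ) (ht : t < (pre u m).length) : (pre u m)[t] = u t := by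
  simp [pre]

theorem u_cc (h : Dat σ u) (K i t : ℕ) (ht : t < (pw σ K (u i)).length) :
    u (cc σ u K i + t) = (pw σ K (u i))[t] := by
  have h1 := pre_cc_succ h K i
  have h2 : cc σ u K i + t < (pre u (cc σ u K (i + 1))).length := by
    rw [pre_length, cc_succ h]; omega
  have h3 := pre_getElem _ _ h2
  rw [← h3]
  have h4 : cc σ u K i + t < (pre u (cc σ u K i) ++ pw σ K (u i)).length := by
    rw [← h1]; exact h2
  have h5 : (pre u (cc σ u K (i + 1)))[cc σ u K i + t] =
      (pre u (cc σ u K i) ++ pw σ K (u i))[cc σ u K i + t] := by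
    congr 1
  rw [h5, List.getElem_append_right (by rw [pre_length]; omega)]
  congr 1
  rw [pre_length]
  omega

theorem cc_lt (h : Dat σ u) (K i : ℕ) : cc σ u K i < cc σ u K (i + 1) := by
  rw [cc_succ h]
  have := List.length_pos_of_ne_nil (pw_ne h K (u i))
  omega

theorem cc_strict (h : Dat σ u) (K : ℕ) : StrictMono (cc σ u K) :=
  strictMono_nat_of_lt_succ (cc_lt h K)

theorem cc_at_zero (K : ℕ) : cc σ u K 0 = 0 := by
  induction K with
  | zero => rfl
  | succ K ih => rw [cc_add, cc_one, c1]; simp [pre, ih]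

theorem cc_ge (h : Dat σ u) (K i : ℕ) : i ≤ cc σ u K i := (cc_strict h K).le_apply

/-- every position lies in an image -/
theorem exists_idx (h : Dat σ u) (K t : ℕ) : ∃ i, cc σ u K i ≤ t ∧ t < cc σ u K (i + 1) := by
  refine ⟨Nat.findGreatest (fun i => cc σ u K i ≤ t) t, ?_, ?_⟩
  · exact Nat.findGreatest_spec (P := fun i => cc σ u K i ≤ t) (Nat.zero_le t)
      (by rw [cc_at_zero]; omega)
  · by_contra hcon
    push Not at hcon
    have h1 := cc_ge h K (Nat.findGreatest (fun i => cc σ u K i ≤ t) t + 1)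
    have h2 := Nat.le_findGreatest (P := fun i => cc σ u K i ≤ t) (n := t) (by omega) hcon
    omega

theorem mem_pw (h : Dat σ u) (K i t : ℕ) (h1 : cc σ u K i ≤ t) (h2 : t < cc σ u K (i + 1)) :
    u t ∈ pw σ K (u i) := by
  rw [cc_succ h] at h2
  have h3 := u_cc h K i (t - cc σ u K i) (by omega)
  rw [Nat.add_sub_cancel' h1] at h3
  rw [h3]
  exact List.getElem_mem _

theorem exists_pos (h : Dat σ u) (K i : ℕ) {b : A} (hb : b ∈ pw σ K (u i)) :
    ∃ t, cc σ u K i ≤ t ∧ t < cc σ u K (i + 1) ∧ u t = b := by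
  obtain ⟨t, ht, rfl⟩ := List.mem_iff_getElem.1 hb
  exact ⟨cc σ u K i + t, by omega, by rw [cc_succ h]; omega, u_cc h K i t ht⟩

/-- agreement is transported by the morphism -/
theorem agree_len (h : Dat σ u) (L : ℕ) {s s' m : ℕ} (hag : ∀ t, t < m → u (s + t) = u (s' + t)) :
    ∀ t, t ≤ m → cc σ u L (s + t) + cc σ u L s' = cc σ u L (s' + t) + cc σ u L s := by
  intro t
  induction t with
  | zero => intro _; simp [add_comm]
  | succ t ih =>
    intro ht
    have h1 := ih (by omega)
    rw [← add_assoc, ← add_assoc, cc_succ h, cc_succ h, hag t (by omega)]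
    omega

theorem agree_val (h : Dat σ u) (L : ℕ) {s s' m : ℕ} (hag : ∀ t, t < m → u (s + t) = u (s' + t)) :
    ∀ r, cc σ u L s + r < cc σ u L (s + m) → u (cc σ u L s + r) = u (cc σ u L s' + r) := by
  intro r hr
  obtain ⟨i, hi1, hi2⟩ := exists_idx h L (cc σ u L s + r)
  have h1 : s ≤ i := by
    by_contra hcon
    push Not at hcon
    have := (cc_strict h L).monotone (show i + 1 ≤ s by omega)
    omega
  have h2 : i < s + m := by
    by_contra hcon
    push Not at hcon
    have := (cc_strict h L).monotone hcon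
    omega
  obtain ⟨t, rfl⟩ := Nat.exists_eq_add_of_le h1
  have h3 := agree_len h L hag t (by omega)
  have h4 := hag t (by omega)
  rw [cc_succ h] at hi2
  have h5 := u_cc h L (s + t) (cc σ u L s + r - cc σ u L (s + t)) (by omega)
  have h6 := u_cc h L (s' + t) (cc σ u L s + r - cc σ u L (s + t)) (by rw [← h4]; omega)
  rw [Nat.add_sub_cancel' hi1] at h5
  have h7 : cc σ u L (s' + t) + (cc σ u L s + r - cc σ u L (s + t)) = cc σ u L s' + r := by omega
  rw [h7] at h6
  rw [h5, h6]
  congr 1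
  rw [h4]

end

/-! ### Threshold -/

/-- fast letters -/
structure Thr (σ : A → List A) (u : ℕ → A) (F : A → Prop) : Prop where
  slow : ∀ b, ¬ F b → ∀ c ∈ σ b, ¬ F c
  fast : ∀ b, F b → ∃ c ∈ σ b, F c
  zero : F (u 0)
  inf : ∀ N, ∃ t, N ≤ t ∧ F (u t)

section
variable {σ : A → List A} {u : ℕ → A} {F : A → Prop}

theorem slowK (hF : Thr σ u F) (K : ℕ) (b : A) (hb : ¬ F b) : ∀ c ∈ pw σ K b, ¬ F c := by
  induction K with
  | zero => intro c hc; rw [pw_zero, List.mem_singleton] at hc; rw [hc]; exact hb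
  | succ K ih =>
    intro c hc
    unfold pw at ih hc
    rw [Function.iterate_succ_apply', List.mem_flatMap] at hc
    obtain ⟨d, hd, hc⟩ := hc
    exact hF.slow d (ih d hd) c hc

theorem fastK (hF : Thr σ u F) (K : ℕ) (b : A) (hb : F b) : ∃ c ∈ pw σ K b, F c := by
  induction K with
  | zero => exact ⟨b, by rw [pw_zero]; simp, hb⟩
  | succ K ih =>
    obtain ⟨d, hd, hFd⟩ := ih
    obtain ⟨c, hc, hFc⟩ := hF.fast d hFd
    refine ⟨c, ?_, hFc⟩
    unfold pw at hd ⊢
    rw [Function.iterate_succ_apply', List.mem_flatMap]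
    exact ⟨d, hd, hc⟩

theorem slow_pos (h : Dat σ u) (hF : Thr σ u F) (K i t : ℕ) (hi : ¬ F (u i))
    (h1 : cc σ u K i ≤ t) (h2 : t < cc σ u K (i + 1)) : ¬ F (u t) :=
  slowK hF K _ hi _ (mem_pw h K i t h1 h2)

theorem fast_pos (h : Dat σ u) (hF : Thr σ u F) (K i : ℕ) (hi : F (u i)) :
    ∃ t, cc σ u K i ≤ t ∧ t < cc σ u K (i + 1) ∧ F (u t) := by
  obtain ⟨c, hc, hFc⟩ := fastK hF K _ hi
  obtain ⟨t, h1, h2, h3⟩ := exists_pos h K i hc
  exact ⟨t, h1, h2, by rw [h3]; exact hFc⟩

/-- positions between images of slow stretches are slow -/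
theorem slow_range (h : Dat σ u) (hF : Thr σ u F) (K a b t : ℕ)
    (hs : ∀ i, a ≤ i → i < b → ¬ F (u i)) (h1 : cc σ u K a ≤ t) (h2 : t < cc σ u K b) :
    ¬ F (u t) := by
  obtain ⟨i, hi1, hi2⟩ := exists_idx h K t
  apply slow_pos h hF K i t _ hi1 hi2
  apply hs
  · by_contra hcon
    push Not at hcon
    have := (cc_strict h K).monotone (show i + 1 ≤ a by omega)
    omega
  · by_contra hcon
    push Not at hcon
    have := (cc_strict h K).monotone hcon
    omega

open Classical in
/-- last fast position before `q` -/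
noncomputable def pf (u : ℕ → A) (F : A → Prop) (q : ℕ) : ℕ :=
  Nat.findGreatest (fun t => F (u t)) (q - 1)

open Classical in
/-- first fast position from `q` on -/
noncomputable def nf (u : ℕ → A) (F : A → Prop) (q : ℕ) : ℕ :=
  if h : ∃ t, q ≤ t ∧ F (u t) then Nat.find h else 0

theorem pf_fast (hF : Thr σ u F) (q : ℕ) : F (u (pf u F q)) := by
  classical
  exact Nat.findGreatest_spec (P := fun t => F (u t)) (Nat.zero_le _) hF.zero

theorem pf_lt (q : ℕ) (hq : 1 ≤ q) : pf u F q < q := by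
  classical
  have := Nat.findGreatest_le (P := fun t => F (u t)) (q - 1)
  unfold pf
  omega

theorem pf_slow {q t : ℕ} (h1 : pf u F q < t) (h2 : t < q) : ¬ F (u t) := by
  classical
  exact Nat.findGreatest_is_greatest (P := fun t => F (u t)) h1 (by omega)

theorem nf_spec (hF : Thr σ u F) (q : ℕ) : q ≤ nf u F q ∧ F (u (nf u F q)) := by
  classical
  unfold nf
  rw [dif_pos (hF.inf q)]
  exact Nat.find_spec (hF.inf q)

theorem nf_slow (hF : Thr σ u F) {q t : ℕ} (h1 : q ≤ t) (h2 : t < nf u F q) : ¬ F (u t) := by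
  classical
  unfold nf at h2
  rw [dif_pos (hF.inf q)] at h2
  intro hcon
  exact Nat.find_min (hF.inf q) h2 ⟨h1, hcon⟩

theorem pf_unique {q s : ℕ} (hs : F (u s)) (h1 : s < q) (h2 : ∀ t, s < t → t < q → ¬ F (u t)) :
    pf u F q = s := by
  classical
  have h3 : s ≤ pf u F q := Nat.le_findGreatest (P := fun t => F (u t)) (by omega) hs
  have h4 := pf_lt (u := u) (F := F) q (by omega)
  by_contra hne
  have h5 : F (u (pf u F q)) :=
    Nat.findGreatest_spec (P := fun t => F (u t)) (show s ≤ q - 1 by omega) hs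
  exact h2 _ (by omega) h4 h5

theorem nf_unique (hF : Thr σ u F) {q e : ℕ} (he : F (u e)) (h1 : q ≤ e)
    (h2 : ∀ t, q ≤ t → t < e → ¬ F (u t)) : nf u F q = e := by
  obtain ⟨h3, h4⟩ := nf_spec hF q
  rcases lt_trichotomy (nf u F q) e with h | h | h
  · exact absurd h4 (h2 _ h3 h)
  · exact h
  · exact absurd he (nf_slow hF h1 h)

/-- all boundaries of a block give the same block -/
theorem blk_eq (hF : Thr σ u F) {q q' : ℕ} (hq : 1 ≤ q) (h1 : pf u F q < q')
    (h2 : q' ≤ nf u F q) : pf u F q' = pf u F q ∧ nf u F q' = nf u F q := by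
  have h3 := pf_lt (u := u) (F := F) q hq
  have h4 := nf_spec hF q
  have hslow : ∀ t, pf u F q < t → t < nf u F q → ¬ F (u t) := by
    intro t ht1 ht2
    rcases Nat.lt_or_ge t q with h | h
    · exact pf_slow ht1 h
    · exact nf_slow hF h ht2
  exact ⟨pf_unique (pf_fast hF q) h1 (fun t ht1 ht2 => hslow t ht1 (by omega)),
    nf_unique hF h4.2 h2 (fun t ht1 ht2 => hslow t (by omega) ht2)⟩

/-- image of the left end -/
theorem pf_img (h : Dat σ u) (hF : Thr σ u F) (K q : ℕ) (hq : 1 ≤ q) :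
    cc σ u K (pf u F q) ≤ pf u F (cc σ u K q) ∧
      pf u F (cc σ u K q) < cc σ u K (pf u F q + 1) := by
  have hlt := pf_lt (u := u) (F := F) q hq
  have hm := (cc_strict h K).monotone (show pf u F q + 1 ≤ q by omega)
  have hq' : 1 ≤ cc σ u K q := le_trans hq (cc_ge h K q)
  constructor
  · obtain ⟨t, h1, h2, h3⟩ := fast_pos h hF K _ (pf_fast hF q)
    by_contra hcon
    push Not at hcon
    exact pf_slow (lt_of_lt_of_le hcon h1) (by omega) h3
  · by_contra hcon
    push Not at hcon
    exact slow_range h hF K (pf u F q + 1) q _ (fun i hi1 hi2 => pf_slow (by omega) hi2) hcon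
      (pf_lt _ hq') (pf_fast hF _)

/-- image of the right end -/
theorem nf_img (h : Dat σ u) (hF : Thr σ u F) (K q : ℕ) :
    cc σ u K (nf u F q) ≤ nf u F (cc σ u K q) ∧
      nf u F (cc σ u K q) < cc σ u K (nf u F q + 1) := by
  obtain ⟨hle, hfast⟩ := nf_spec hF q
  have hm := (cc_strict h K).monotone hle
  obtain ⟨hle', hfast'⟩ := nf_spec hF (cc σ u K q)
  constructor
  · by_contra hcon
    push Not at hcon
    exact slow_range h hF K q (nf u F q) _ (fun i hi1 hi2 => nf_slow hF hi1 hi2) hle' hcon hfast'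
  · obtain ⟨t, h1, h2, h3⟩ := fast_pos h hF K _ hfast
    by_contra hcon
    push Not at hcon
    exact nf_slow hF (le_trans hm h1) (by omega) h3

/-- the image block contains exactly the images of the boundaries -/
theorem img_cut (h : Dat σ u) (hF : Thr σ u F) (L q t : ℕ) (hq : 1 ≤ q) :
    (pf u F (cc σ u L q) < cc σ u L t ∧ cc σ u L t ≤ nf u F (cc σ u L q)) ↔
      (pf u F q < t ∧ t ≤ nf u F q) := by
  obtain ⟨a1, a2⟩ := pf_img h hF L q hq
  obtain ⟨b1, b2⟩ := nf_img h hF L q
  have hm := cc_strict h L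
  constructor
  · rintro ⟨h1, h2⟩
    constructor
    · by_contra hcon
      push Not at hcon
      have := hm.monotone hcon
      omega
    · by_contra hcon
      push Not at hcon
      have := hm.monotone (show nf u F q + 1 ≤ t by omega)
      omega
  · rintro ⟨h1, h2⟩
    have h3 := hm.monotone (show pf u F q + 1 ≤ t by omega)
    have h4 := hm.monotone h2
    omega

/-- cuts of level `K` among the boundaries of the block of `q` -/
def hasCut (σ : A → List A) (u : ℕ → A) (F : A → Prop) (K q : ℕ) : Prop :=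
  ∃ j, pf u F q < cc σ u K j ∧ cc σ u K j ≤ nf u F q

theorem hasCut_img (h : Dat σ u) (hF : Thr σ u F) (K L q : ℕ) (hq : 1 ≤ q) :
    hasCut σ u F (L + K) (cc σ u L q) ↔ hasCut σ u F K q := by
  unfold hasCut
  simp only [cc_add L K]
  exact exists_congr fun j => img_cut h hF L q _ hq

theorem hasCut_zero (hF : Thr σ u F) (q : ℕ) (hq : 1 ≤ q) : hasCut σ u F 0 q :=
  ⟨q, pf_lt q hq, (nf_spec hF q).1⟩

theorem hasCut_mono {K L q : ℕ} (hKL : K ≤ L) (hc : hasCut σ u F L q) : hasCut σ u F K q := by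
  obtain ⟨j, h1, h2⟩ := hc
  obtain ⟨d, rfl⟩ := Nat.exists_eq_add_of_le hKL
  exact ⟨cc σ u d j, by rwa [← cc_add], by rwa [← cc_add]⟩

theorem hasCut_congr (hF : Thr σ u F) {K q q' : ℕ} (hq : 1 ≤ q) (h1 : pf u F q < q')
    (h2 : q' ≤ nf u F q) : hasCut σ u F K q' ↔ hasCut σ u F K q := by
  obtain ⟨e1, e2⟩ := blk_eq hF hq h1 h2
  unfold hasCut
  rw [e1, e2]

/-- two cuts of level `K` with a fast position between are far apart -/
theorem sep (h : Dat σ u) (hF : Thr σ u F) (K n : ℕ) (hn : ∀ b, F b → n ≤ (pw σ K b).length)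
    {i j q : ℕ} (h1 : cc σ u K i ≤ q) (h2 : q < cc σ u K j) (hq : F (u q)) :
    cc σ u K i + n ≤ cc σ u K j := by
  obtain ⟨r, hr1, hr2⟩ := exists_idx h K q
  have hFr : F (u r) := by
    by_contra hcon
    exact slow_pos h hF K r q hcon hr1 hr2 hq
  have h3 := hn _ hFr
  rw [cc_succ h] at hr2
  have hi : i ≤ r := by
    by_contra hcon
    push Not at hcon
    have := (cc_strict h K).monotone (show r + 1 ≤ i by omega)
    rw [cc_succ h] at this
    omega
  have hj : r + 1 ≤ j := by
    by_contra hcon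
    push Not at hcon
    have := (cc_strict h K).monotone (show j ≤ r by omega)
    omega
  have h4 := (cc_strict h K).monotone hi
  have h5 := (cc_strict h K).monotone hj
  rw [cc_succ h] at h5
  omega

end

end Cnt

end FC
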