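import Pool.Agent.LibFC.GrowthEx

set_option autoImplicit false

open Filter

namespace FC

theorem kf_lt (α : ℕ) (β : ℝ) (hβ : 1 < β) (x : ℝ) (m : ℕ) :
    m < kf α β x ↔ gf α β m ≤ x := by
  by_cases hx : 1 ≤ x
  · obtain ⟨M, hM, h1, h2⟩ := kf_spec α β hβ x hx
    have hmono := gf_mono α β hβ
    rw [hM]
    constructor
    · intro h
      exact le_trans (hmono.monotone (by omega)) h1
    · intro h
      by_contra hcon
      push Not at hcon
      have h3 := hmono.monotone hcon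
      linarith
  · push Not at hx
    have h1 : ∀ m, ¬ gf α β m ≤ x := by
      intro m h
      have h2 := gf_ge_pow α β hβ m
      have h3 : (1 : ℝ) ≤ β ^ m := one_le_pow₀ hβ.le
      linarith
    have h2 : kf α β x = 0 := by
      unfold kf
      have : {m : ℕ | gf α β m ≤ x} = ∅ := by
        ext m
        simp [h1 m]
      rw [this, Set.ncard_empty]
    rw [h2]
    simp [h1 m]

/-- the value at `kf x` exceeds `x`. -/
theorem gf_kf (α : ℕ) (β : ℝ) (hβ : 1 < β) (x : ℝ) : x < gf α β (kf α β x) := by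
  by_contra h
  push Not at h
  exact lt_irrefl _ ((kf_lt α β hβ x _).mpr h)

theorem gr_dom {A : Type*} {σ : A → List A} (gr : Gr σ) (i j : Fin gr.R) (h : i ≤ j) :
    ∃ C : ℝ, 0 < C ∧ ∀ m, gf (gr.al i) (gr.be i) m ≤ C * gf (gr.al j) (gr.be j) m := by
  rcases eq_or_lt_of_le h with h | h
  · subst h
    exact ⟨1, one_pos, fun m => by simp⟩
  · have hl := gf_lex (gr.al i) (gr.al j) (gr.be i) (gr.be j) (gr.one_lt_be i) (gr.lex i j h)
    obtain ⟨B, hB⟩ := hl.bddAbove_range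
    refine ⟨max B 1, by positivity, ?_⟩
    intro m
    have h1 : gf (gr.al i) (gr.be i) m / gf (gr.al j) (gr.be j) m ≤ B := hB ⟨m, rfl⟩
    have h2 := gf_pos (gr.al j) (gr.be j) (gr.one_lt_be j) m
    rw [div_le_iff₀ h2] at h1
    refine le_trans h1 ?_
    exact mul_le_mul_of_nonneg_right (le_max_left _ _) h2.le

/-- a uniform constant for `gr_dom`. -/
theorem gr_dom' {A : Type*} {σ : A → List A} (gr : Gr σ) :
    ∃ C : ℝ, 0 < C ∧ ∀ (i j : Fin gr.R), i ≤ j → ∀ m,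
      gf (gr.al i) (gr.be i) m ≤ C * gf (gr.al j) (gr.be j) m := by
  classical
  have h : ∀ i j : Fin gr.R, ∃ C : ℝ, 0 < C ∧ (i ≤ j → ∀ m,
      gf (gr.al i) (gr.be i) m ≤ C * gf (gr.al j) (gr.be j) m) := by
    intro i j
    by_cases hij : i ≤ j
    · obtain ⟨C, hC, h⟩ := gr_dom gr i j hij
      exact ⟨C, hC, fun _ => h⟩
    · exact ⟨1, one_pos, fun h => absurd h hij⟩
  choose C hC hCij using h
  refine ⟨1 + ∑ i, ∑ j, C i j, ?_, ?_⟩
  · have : 0 ≤ ∑ i, ∑ j, C i j :=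
      Finset.sum_nonneg fun i _ => Finset.sum_nonneg fun j _ => (hC i j).le
    linarith
  · intro i j hij m
    refine le_trans (hCij i j hij m) ?_
    have h1 : C i j ≤ ∑ j, C i j :=
      Finset.single_le_sum (f := fun j => C i j) (fun j _ => (hC i j).le) (Finset.mem_univ j)
    have h2 : ∑ j, C i j ≤ ∑ i, ∑ j, C i j :=
      Finset.single_le_sum (f := fun i => ∑ j, C i j)
        (fun i _ => Finset.sum_nonneg fun j _ => (hC i j).le) (Finset.mem_univ i)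
    have h3 := gf_pos (gr.al j) (gr.be j) (gr.one_lt_be j) m
    apply mul_le_mul_of_nonneg_right _ h3.le
    linarith

theorem gr_slow {A : Type*} [Fintype A] {σ : A → List A} (gr : Gr σ) : ∃ C : ℝ, 0 < C ∧
    ∀ (i : Fin gr.R) (b : A) (m : ℕ), gr.lev b ≤ i →
      ((pw σ m b).length : ℝ) ≤ C * gf (gr.al i) (gr.be i) m := by
  obtain ⟨C, hC, h⟩ := gr_dom' gr
  refine ⟨gr.K * C, mul_pos gr.K_pos hC, ?_⟩
  intro i b m hb
  refine le_trans (gr.upper b m) ?_
  rw [mul_assoc]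
  exact mul_le_mul_of_nonneg_left (h _ _ hb m) gr.K_pos.le

/-- lower bound by the growth function of any smaller level. -/
theorem gr_low {A : Type*} {σ : A → List A} (gr : Gr σ) : ∃ c : ℝ, 0 < c ∧
    ∀ (i : Fin gr.R) (b : A) (m : ℕ), i ≤ gr.lev b →
      c * gf (gr.al i) (gr.be i) m ≤ ((pw σ m b).length : ℝ) := by
  obtain ⟨C, hC, h⟩ := gr_dom' gr
  refine ⟨gr.c / C, div_pos gr.c_pos hC, ?_⟩
  intro i b m hb
  refine le_trans ?_ (gr.lower b m)
  have h1 := h _ _ hb m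
  have h2 := gf_pos (gr.al i) (gr.be i) (gr.one_lt_be i) m
  rw [div_mul_eq_mul_div, div_le_iff₀ hC, mul_assoc, mul_comm _ C]
  exact mul_le_mul_of_nonneg_left h1 gr.c_pos.le

/-- a common exponent beating a given constant. -/
theorem gr_pow {A : Type*} {σ : A → List A} (gr : Gr σ) (C : ℝ) : ∃ D : ℕ,
    ∀ (i : Fin gr.R) (D' : ℕ), D ≤ D' → C ≤ gr.be i ^ D' := by
  classical
  have h : ∀ i : Fin gr.R, ∃ D : ℕ, C ≤ gr.be i ^ D := by
    intro i
    obtain ⟨D, hD⟩ := pow_unbounded_of_one_lt C (gr.one_lt_be i)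
    exact ⟨D, hD.le⟩
  choose D hD using h
  refine ⟨∑ i, D i, ?_⟩
  intro i D' hD'
  refine le_trans (hD i) ?_
  apply pow_le_pow_right₀ (gr.one_lt_be i).le
  have := Finset.single_le_sum (f := D) (fun i _ => Nat.zero_le _) (Finset.mem_univ i)
  omega

theorem gf_kf_add (α : ℕ) (β : ℝ) (hβ : 1 < β) (n D m : ℕ) (h : kf α β n + D ≤ m) :
    β ^ D * n ≤ gf α β m := by
  have h1 := gf_kf α β hβ n
  have h2 := gf_iter_ge α β hβ (kf α β n) D
  have h3 := (gf_mono α β hβ).monotone h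
  have h4 : (0 : ℝ) < β ^ D := by
    have : 0 < β := by linarith
    positivity
  nlinarith

theorem gr_fast {A : Type*} [Fintype A] {σ : A → List A} (gr : Gr σ) (H : ℝ) : ∃ D : ℕ,
    ∀ (i j : Fin gr.R), j.val = i.val + 1 → ∀ (n m : ℕ) (b : A), 1 ≤ n →
      kf (gr.al j) (gr.be j) n + D ≤ m → j ≤ gr.lev b →
        (n : ℝ) + H * gf (gr.al i) (gr.be i) m ≤ ((pw σ m b).length : ℝ) := by
  classical
  obtain ⟨c, hc, hlow⟩ := gr_low gr
  obtain ⟨D1, hD1⟩ := gr_pow gr (2 / c)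
  have h : ∀ i j : Fin gr.R, ∃ D : ℕ, i < j → ∀ m, D ≤ m →
      H * gf (gr.al i) (gr.be i) m ≤ c / 2 * gf (gr.al j) (gr.be j) m := by
    intro i j
    by_cases hij : i < j
    · have hl := gf_lex (gr.al i) (gr.al j) (gr.be i) (gr.be j) (gr.one_lt_be i) (gr.lex i j hij)
      have hH : 0 < c / 2 / (|H| + 1) := by positivity
      obtain ⟨D, hD⟩ := eventually_atTop.mp (hl.eventually (gt_mem_nhds hH))
      refine ⟨D, fun _ m hm => ?_⟩
      have h1 := hD m hm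
      have h2 := gf_pos (gr.al j) (gr.be j) (gr.one_lt_be j) m
      have h3 := gf_pos (gr.al i) (gr.be i) (gr.one_lt_be i) m
      rw [div_lt_iff₀ h2, div_mul_eq_mul_div, lt_div_iff₀ (by positivity)] at h1
      have h4 := le_abs_self H
      nlinarith
    · exact ⟨0, fun h => absurd h hij⟩
  choose D hD using h
  refine ⟨D1 + ∑ i, ∑ j, D i j, ?_⟩
  intro i j hij n m b hn hm hb
  have hij' : i < j := by
    rw [Fin.lt_def]; omega
  have hDle : D i j ≤ ∑ i, ∑ j, D i j := by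
    have h1 : D i j ≤ ∑ j, D i j :=
      Finset.single_le_sum (f := fun j => D i j) (fun j _ => Nat.zero_le _) (Finset.mem_univ j)
    have h2 : ∑ j, D i j ≤ ∑ i, ∑ j, D i j :=
      Finset.single_le_sum (f := fun i => ∑ j, D i j) (fun i _ => Nat.zero_le _)
        (Finset.mem_univ i)
    omega
  have e1 := hD i j hij' m (by omega)
  have e2 := hlow j b m hb
  have e3 := gf_kf_add (gr.al j) (gr.be j) (gr.one_lt_be j) n (D1 + ∑ i, ∑ j, D i j) m hm
  have e4 := hD1 j (D1 + ∑ i, ∑ j, D i j) (by omega)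
  have e5 : (n : ℝ) ≤ c / 2 * gf (gr.al j) (gr.be j) m := by
    have h1 : 2 / c * n ≤ gf (gr.al j) (gr.be j) m :=
      le_trans (mul_le_mul_of_nonneg_right e4 (by positivity)) e3
    rw [div_mul_eq_mul_div, div_le_iff₀ hc] at h1
    linarith
  linarith

theorem gr_all {A : Type*} [Fintype A] {σ : A → List A} (gr : Gr σ) : ∃ D : ℕ,
    ∀ (i : Fin gr.R), i.val = 0 → ∀ (n m : ℕ) (b : A), 1 ≤ n →
      kf (gr.al i) (gr.be i) n + D ≤ m → n ≤ (pw σ m b).length := by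
  obtain ⟨c, hc, hlow⟩ := gr_low gr
  obtain ⟨D1, hD1⟩ := gr_pow gr (1 / c)
  refine ⟨D1, ?_⟩
  intro i hi n m b hn hm
  have e2 := hlow i b m (by rw [Fin.le_def]; omega)
  have e3 := gf_kf_add (gr.al i) (gr.be i) (gr.one_lt_be i) n D1 m hm
  have e4 := hD1 i D1 le_rfl
  have h1 : 1 / c * n ≤ gf (gr.al i) (gr.be i) m :=
    le_trans (mul_le_mul_of_nonneg_right e4 (by positivity)) e3
  rw [div_mul_eq_mul_div, div_le_iff₀ hc] at h1
  have : (n : ℝ) ≤ ((pw σ m b).length : ℝ) := by linarith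
  exact_mod_cast this

theorem gr_top {A : Type*} [Fintype A] {σ : A → List A} (gr : Gr σ) : ∃ D : ℕ,
    ∀ (i : Fin gr.R), i.val + 1 = gr.R → ∀ (n m : ℕ) (b : A),
      n ≤ (pw σ (m + 1) b).length → kf (gr.al i) (gr.be i) n ≤ m + D := by
  obtain ⟨C, hC, hup⟩ := gr_slow gr
  obtain ⟨D1, hD1⟩ := gr_pow gr C
  refine ⟨D1 + 2, ?_⟩
  intro i hi n m b hn
  have e1 := hup i b (m + 1) (by
    have := (gr.lev b).2
    rw [Fin.le_def]; omega)
  have e2 := hD1 i D1 le_rfl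
  have e3 := gf_iter_ge (gr.al i) (gr.be i) (gr.one_lt_be i) (m + 1) D1
  have e4 := gf_pos (gr.al i) (gr.be i) (gr.one_lt_be i) (m + 1)
  have e5 : (n : ℝ) ≤ ((pw σ (m + 1) b).length : ℝ) := by exact_mod_cast hn
  have e6 : (n : ℝ) ≤ gf (gr.al i) (gr.be i) (m + 1 + D1) := by nlinarith
  by_contra hcon
  push Not at hcon
  have e7 := (kf_lt (gr.al i) (gr.be i) (gr.one_lt_be i) n (m + (D1 + 2))).mp hcon
  have e8 := gf_mono (gr.al i) (gr.be i) (gr.one_lt_be i)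
    (show m + 1 + D1 < m + (D1 + 2) by omega)
  linarith

theorem kf_anti {A : Type*} [Fintype A] {σ : A → List A} (gr : Gr σ) : ∃ D : ℕ,
    ∀ (i j : Fin gr.R), i ≤ j → ∀ n : ℕ,
      kf (gr.al j) (gr.be j) n ≤ kf (gr.al i) (gr.be i) n + D := by
  obtain ⟨C, hC, h⟩ := gr_dom' gr
  obtain ⟨D1, hD1⟩ := gr_pow gr C
  refine ⟨D1, ?_⟩
  intro i j hij n
  by_contra hcon
  push Not at hcon
  have e1 := (kf_lt (gr.al j) (gr.be j) (gr.one_lt_be j) n _).mp hcon
  have e2 := h i j hij (kf (gr.al i) (gr.be i) n + D1)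
  have e3 := gf_iter_ge (gr.al i) (gr.be i) (gr.one_lt_be i) (kf (gr.al i) (gr.be i) n) D1
  have e4 := hD1 i D1 le_rfl
  have e5 := gf_pos (gr.al i) (gr.be i) (gr.one_lt_be i) (kf (gr.al i) (gr.be i) n)
  have e6 := gf_kf (gr.al i) (gr.be i) (gr.one_lt_be i) n
  have e7 : C * gf (gr.al i) (gr.be i) (kf (gr.al i) (gr.be i) n) ≤ C * n := by
    calc C * gf (gr.al i) (gr.be i) (kf (gr.al i) (gr.be i) n)
        ≤ gr.be i ^ D1 * gf (gr.al i) (gr.be i) (kf (gr.al i) (gr.be i) n) :=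
          mul_le_mul_of_nonneg_right e4 e5.le
      _ ≤ gf (gr.al i) (gr.be i) (kf (gr.al i) (gr.be i) n + D1) := e3
      _ ≤ C * gf (gr.al j) (gr.be j) (kf (gr.al i) (gr.be i) n + D1) := e2
      _ ≤ C * n := mul_le_mul_of_nonneg_left e1 hC.le
  have e8 := le_of_mul_le_mul_left e7 hC
  linarith

theorem sum_kf {A : Type*} [Fintype A] {σ : A → List A} (gr : Gr σ) : ∃ C : ℝ,
    ∀ (i : Fin gr.R) (n : ℕ), 1 ≤ n →
      ∑ m ∈ Finset.range (kf (gr.al i) (gr.be i) n), gf (gr.al i) (gr.be i) m ≤ C * n := by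
  have h : ∀ i : Fin gr.R, ∃ K : ℝ, 0 < K ∧ ∀ m,
      ∑ j ∈ Finset.range (m + 1), gf (gr.al i) (gr.be i) j ≤ K * gf (gr.al i) (gr.be i) m :=
    fun i => gf_sum_le (gr.al i) (gr.be i) (gr.one_lt_be i)
  choose K hK hsum using h
  refine ⟨∑ i, K i, ?_⟩
  intro i n hn
  obtain ⟨M, hM, h1, h2⟩ := kf_spec (gr.al i) (gr.be i) (gr.one_lt_be i) n (by exact_mod_cast hn)
  rw [hM]
  refine le_trans (hsum i M) ?_
  have e1 : K i ≤ ∑ i, K i :=
    Finset.single_le_sum (f := K) (fun i _ => (hK i).le) (Finset.mem_univ i)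
  have e2 := gf_pos (gr.al i) (gr.be i) (gr.one_lt_be i) M
  calc K i * gf (gr.al i) (gr.be i) M ≤ (∑ i, K i) * gf (gr.al i) (gr.be i) M :=
        mul_le_mul_of_nonneg_right e1 e2.le
    _ ≤ (∑ i, K i) * n := mul_le_mul_of_nonneg_left h1 (le_trans (hK i).le e1)

end FC
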