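import Pool.Agent.LibFC.CntCuts
import Pool.Agent.LibFC.CntGrowth

/-!
# Growth levels of the letters of a fixed point
-/

set_option autoImplicit false

open Filter

namespace FC

/-- lower levels are negligible -/
theorem gf_small {A : Type*} {σ : A → List A} (gr : Gr σ) (i : Fin gr.R) (ε : ℝ) (hε : 0 < ε) :
    ∀ᶠ m in atTop, ∀ j : Fin gr.R, j < i →
      gf (gr.al j) (gr.be j) m ≤ ε * gf (gr.al i) (gr.be i) m := by
  rw [Filter.eventually_all]
  intro j
  by_cases hj : j < i
  · have h1 := gf_lex (gr.al j) (gr.al i) (gr.be j) (gr.be i) (gr.one_lt_be j) (gr.lex j i hj)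
    have h2 := (h1.eventually (gt_mem_nhds hε))
    filter_upwards [h2] with m hm _
    have h3 := gf_pos (gr.al i) (gr.be i) (gr.one_lt_be i) m
    rw [div_lt_iff₀ h3] at hm
    exact hm.le
  · exact Filter.Eventually.of_forall fun m h => absurd h hj

theorem length_flatMap_ge {A B : Type*} (w : List A) (f : A → List B) {c : A} (hc : c ∈ w) :
    (f c).length ≤ (w.flatMap f).length := by
  induction w with
  | nil => simp at hc
  | cons a w ih =>
    rw [List.flatMap_cons, List.length_append]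
    rcases List.mem_cons.1 hc with rfl | h
    · omega
    · have := ih h; omega

theorem length_flatMap_le {A B : Type*} (w : List A) (f : A → List B) (x : ℝ)
    (h : ∀ c ∈ w, ((f c).length : ℝ) ≤ x) : ((w.flatMap f).length : ℝ) ≤ w.length * x := by
  induction w with
  | nil => simp
  | cons a w ih =>
    rw [List.flatMap_cons, List.length_append, List.length_cons]
    push_cast
    have h1 := h a (by simp)
    have h2 := ih (fun c hc => h c (List.mem_cons_of_mem _ hc))
    linarith

theorem lev_im {A : Type*} [Fintype A] {σ : A → List A} (gr : Gr σ) (b c : A) (hc : c ∈ σ b) :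
    gr.lev c ≤ gr.lev b := by
  by_contra hcon
  push Not at hcon
  set D : ℝ := gr.K * (2 ^ gr.al (gr.lev b) * gr.be (gr.lev b)) with hD
  have hbe : 0 < gr.be (gr.lev b) := by linarith [gr.one_lt_be (gr.lev b)]
  have hD0 : 0 < D := by
    have := gr.K_pos
    positivity
  have hε : 0 < gr.c / (2 * D) := div_pos gr.c_pos (by positivity)
  obtain ⟨m, hm⟩ := (gf_small gr (gr.lev c) _ hε).exists
  have h1 := hm _ hcon
  have h2 := gr.lower c m
  have h3 := gr.upper b (1 + m)
  have h4 : ((pw σ m c).length : ℝ) ≤ (pw σ (1 + m) b).length := by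
    rw [pw_add, pw_one]
    exact_mod_cast length_flatMap_ge (σ b) (pw σ m) hc
  have h5 := gf_succ_le (gr.al (gr.lev b)) (gr.be (gr.lev b)) (gr.one_lt_be _) m
  rw [add_comm 1 m] at h3 h4
  have h6 := mul_le_mul_of_nonneg_left h5 gr.K_pos.le
  have h7 : gr.c * gf (gr.al (gr.lev c)) (gr.be (gr.lev c)) m ≤
      D * gf (gr.al (gr.lev b)) (gr.be (gr.lev b)) m := by
    rw [hD]
    calc _ ≤ _ := h2
      _ ≤ _ := h4
      _ ≤ _ := h3
      _ ≤ _ := h6
      _ = _ := by ring
  have h8 := mul_le_mul_of_nonneg_left h1 hD0.le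
  have h9 := gf_pos (gr.al (gr.lev c)) (gr.be (gr.lev c)) (gr.one_lt_be _) m
  have h10 : D * (gr.c / (2 * D) * gf (gr.al (gr.lev c)) (gr.be (gr.lev c)) m) =
      gr.c / 2 * gf (gr.al (gr.lev c)) (gr.be (gr.lev c)) m := by
    field_simp
  rw [h10] at h8
  have h11 := mul_pos gr.c_pos h9
  linarith

theorem lev_ex {A : Type*} [Fintype A] {σ : A → List A} (gr : Gr σ) (b : A) :
    ∃ c ∈ σ b, gr.lev c = gr.lev b := by
  by_contra hcon
  push Not at hcon
  have hlt : ∀ c ∈ σ b, gr.lev c < gr.lev b := fun c hc =>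
    lt_of_le_of_ne (lev_im gr b c hc) (hcon c hc)
  set D : ℝ := gr.K * ((σ b).length + 1) with hD
  have hD0 : 0 < D := mul_pos gr.K_pos (by positivity)
  have hε : 0 < gr.c / (2 * D) := div_pos gr.c_pos (by positivity)
  obtain ⟨m, hm⟩ := (gf_small gr (gr.lev b) _ hε).exists
  set g := gf (gr.al (gr.lev b)) (gr.be (gr.lev b)) m with hg
  have hg0 : 0 < g := gf_pos _ _ (gr.one_lt_be _) m
  have h1 : ((pw σ (1 + m) b).length : ℝ) ≤ (σ b).length * (gr.K * (gr.c / (2 * D) * g)) := by
    rw [pw_add, pw_one]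
    apply length_flatMap_le
    intro c hc
    refine le_trans (gr.upper c m) ?_
    exact mul_le_mul_of_nonneg_left (hm _ (hlt c hc)) gr.K_pos.le
  have h2 := gr.lower b (1 + m)
  have h3 : g ≤ gf (gr.al (gr.lev b)) (gr.be (gr.lev b)) (1 + m) :=
    (gf_mono _ _ (gr.one_lt_be _)).monotone (by omega)
  have h4 := mul_le_mul_of_nonneg_left h3 gr.c_pos.le
  have h5 : ((σ b).length : ℝ) * (gr.K * (gr.c / (2 * D) * g)) ≤
      ((σ b).length + 1) * (gr.K * (gr.c / (2 * D) * g)) := by
    have : 0 ≤ gr.K * (gr.c / (2 * D) * g) := by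
      have := gr.K_pos
      positivity
    linarith
  have h6 : (((σ b).length : ℝ) + 1) * (gr.K * (gr.c / (2 * D) * g)) = gr.c / 2 * g := by
    have h7 : (((σ b).length : ℝ) + 1) * (gr.K * (gr.c / (2 * D) * g)) =
        D * (gr.c / (2 * D) * g) := by rw [hD]; ring
    rw [h7]
    field_simp
  have h8 := mul_pos gr.c_pos hg0
  linarith

theorem lev_pw {A : Type*} [Fintype A] {σ : A → List A} (gr : Gr σ) (K : ℕ) (b : A) :
    ∀ c ∈ pw σ K b, gr.lev c ≤ gr.lev b := by
  induction K with
  | zero => intro c hc; rw [pw_zero, List.mem_singleton] at hc; rw [hc]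
  | succ K ih =>
    intro c hc
    rw [pw_add, List.mem_flatMap] at hc
    obtain ⟨d, hd, hc⟩ := hc
    rw [pw_one] at hc
    exact le_trans (lev_im gr d c hc) (ih d hd)

open Cnt in
theorem dat_of_fix' {k : ℕ} {σ : Fin k → List (Fin k)} {u : ℕ → Fin k} (h : Fix σ u) :
    Dat σ u where
  im := h.im
  pos := by
    intro b hb
    have h1 := h.grow b
    have h2 : ∀ m : ℕ, (pw σ (m + 1) b).length = 0 := by
      intro m
      rw [add_comm, pw_add, pw_one, hb]
      rfl
    obtain ⟨m, hm⟩ := (h1.eventually (Filter.eventually_ge_atTop 1)).exists_forall_of_atTop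
    have h3 := hm (m + 1) (by omega)
    rw [h2 m] at h3
    omega

open Cnt in
theorem lev_u0 {k : ℕ} {σ : Fin k → List (Fin k)} {u : ℕ → Fin k} (h : Fix σ u) (gr : Gr σ)
    (b : Fin k) : gr.lev b ≤ gr.lev (u 0) := by
  have hd := dat_of_fix' h
  obtain ⟨t, rfl⟩ := h.all b
  obtain ⟨m, hm⟩ := ((h.grow (u 0)).eventually
    (Filter.eventually_ge_atTop (t + 1))).exists_forall_of_atTop
  have h1 := hm m le_rfl
  have h2 := cc_succ hd m 0
  rw [cc_at_zero] at h2
  apply lev_pw gr m
  apply mem_pw hd m 0 t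
  · rw [cc_at_zero]; omega
  · omega

open Cnt in
/-- letters of the top level occur arbitrarily far. -/
theorem top_inf {k : ℕ} {σ : Fin k → List (Fin k)} {u : ℕ → Fin k} (h : Fix σ u) (gr : Gr σ)
    (N : ℕ) : ∃ t, N ≤ t ∧ gr.lev (u t) = gr.lev (u 0) := by
  classical
  have hd := dat_of_fix' h
  by_contra hcon
  push Not at hcon
  -- last top position
  set P : ℕ → Prop := fun t => gr.lev (u t) = gr.lev (u 0) with hP
  set j := Nat.findGreatest P N with hj
  have hj1 : P j := Nat.findGreatest_spec (P := P) (Nat.zero_le N) rfl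
  have hj2 : ∀ t, j < t → ¬ P t := by
    intro t ht
    rcases Nat.lt_or_ge N t with h1 | h1
    · exact hcon t h1.le
    · exact Nat.findGreatest_is_greatest ht h1
  have hlen1 : 2 ≤ cc σ u 1 1 := by
    have h2 := cc_succ hd 1 0
    rw [cc_at_zero, pw_one] at h2
    simp only [zero_add] at h2
    have := h.two
    omega
  have hcge : ∀ i, 1 ≤ i → i + 1 ≤ cc σ u 1 i := by
    intro i hi
    induction i, hi using Nat.le_induction with
    | base => exact hlen1
    | succ i hi ih =>
      have := cc_lt hd 1 i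
      omega
  have hj0 : j = 0 := by
    by_contra hne
    obtain ⟨c, hc, hcl⟩ := lev_ex gr (u j)
    obtain ⟨t, t1, t2, t3⟩ := exists_pos hd 1 j (b := c) (by rw [pw_one]; exact hc)
    have h3 := hcge j (by omega)
    apply hj2 t (by omega)
    rw [hP]
    simp only
    rw [t3, hcl]
    exact hj1
  rw [hj0] at hj2
  -- all other letters are of lower level
  have hlow : ∀ t, 1 ≤ t → gr.lev (u t) < gr.lev (u 0) := fun t ht =>
    lt_of_le_of_ne (lev_u0 h gr _) (hj2 t (by omega))
  have hpos : 0 < (gr.lev (u 0)).val := by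
    have h1 := hlow 1 le_rfl
    rw [Fin.lt_def] at h1
    omega
  set it := gr.lev (u 0) with hit
  set i : Fin gr.R := ⟨it.val - 1, by omega⟩ with hi
  have hile : ∀ t, 1 ≤ t → gr.lev (u t) ≤ i := by
    intro t ht
    have h1 := hlow t ht
    rw [Fin.lt_def] at h1
    rw [Fin.le_def, hi]
    simp only
    omega
  obtain ⟨Cs, hCs, hslow⟩ := gr_slow gr
  obtain ⟨K1, hK1, hsum⟩ := gf_sum_le (gr.al i) (gr.be i) (gr.one_lt_be i)
  set ℓ : ℕ := cc σ u 1 1 with hℓ
  have hseg : ∀ K b : ℕ, 1 ≤ b → (cc σ u K b : ℝ) - cc σ u K 1 ≤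
      ((b : ℝ) - 1) * (Cs * gf (gr.al i) (gr.be i) K) := by
    intro K b hb
    induction b, hb using Nat.le_induction with
    | base => simp
    | succ b hb ih =>
      have h2 := hslow i (u b) K (hile b hb)
      rw [cc_succ hd]
      push_cast
      nlinarith
  have hbound : ∀ K : ℕ, (cc σ u K 1 : ℝ) ≤
      1 + ℓ * Cs * ∑ j ∈ Finset.range K, gf (gr.al i) (gr.be i) j := by
    intro K
    induction K with
    | zero => rw [cc_zero]; simp
    | succ K ih =>
      rw [cc_add K 1 1, ← hℓ, Finset.sum_range_succ]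
      have h1 := hseg K ℓ (by omega)
      have h2 : 0 ≤ Cs * gf (gr.al i) (gr.be i) K :=
        mul_nonneg hCs.le (gf_pos _ _ (gr.one_lt_be i) K).le
      nlinarith
  have hcc : ∀ K, (cc σ u K 1 : ℝ) = (pw σ K (u 0)).length := by
    intro K
    have h2 := cc_succ hd K 0
    rw [cc_at_zero] at h2
    simp only [zero_add] at h2
    rw [h2]
  set D : ℝ := 1 + ℓ * Cs * K1 with hD
  have hD0 : 0 < D := by
    have : 0 ≤ (ℓ : ℝ) * Cs * K1 := by positivity
    linarith
  have hε : 0 < gr.c / (2 * D) := div_pos gr.c_pos (by positivity)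
  obtain ⟨m, hm⟩ := (gf_small gr it _ hε).exists
  have hlti : i < it := by rw [Fin.lt_def, hi]; simp only; omega
  have h1 := hm i hlti
  have h2 := gr.lower (u 0) m
  rw [← hcc m, ← hit] at h2
  have h3 := hbound m
  have h4 := hsum m
  have h5 : ∑ j ∈ Finset.range m, gf (gr.al i) (gr.be i) j ≤
      ∑ j ∈ Finset.range (m + 1), gf (gr.al i) (gr.be i) j := by
    rw [Finset.sum_range_succ]
    have := gf_pos (gr.al i) (gr.be i) (gr.one_lt_be i) m
    linarith
  have hg1 : 1 ≤ gf (gr.al i) (gr.be i) m := by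
    refine le_trans ?_ (gf_ge_pow _ _ (gr.one_lt_be i) m)
    exact one_le_pow₀ (gr.one_lt_be i).le
  have h6 : (0 : ℝ) ≤ ℓ * Cs := by positivity
  have h7 := mul_le_mul_of_nonneg_left (le_trans h5 h4) h6
  have h8 : gr.c * gf (gr.al it) (gr.be it) m ≤ D * gf (gr.al i) (gr.be i) m := by
    rw [hD]
    nlinarith
  have h9 := mul_le_mul_of_nonneg_left h1 hD0.le
  have h10 : D * (gr.c / (2 * D) * gf (gr.al it) (gr.be it) m) =
      gr.c / 2 * gf (gr.al it) (gr.be it) m := by
    field_simp
  rw [h10] at h9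
  have h11 := mul_pos gr.c_pos (gf_pos (gr.al it) (gr.be it) (gr.one_lt_be it) m)
  linarith

end FC
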