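import Mathlib

/-!
# Abstract counting of the union of the iterated images of a finite set
-/

set_option autoImplicit false

namespace FC

/-- elements of `θ^K S` which are in no earlier `θ^K' S`. -/
def newS {X : Type*} [DecidableEq X] (θ : X → X) (S : Finset X) (K : ℕ) : Finset X :=
  (S.image (θ^[K])) \ (Finset.range K).biUnion (fun K' => S.image (θ^[K']))

theorem orbit_finite {X : Type*} [DecidableEq X] (θ : X → X) (V : X)
    (h : ¬ Function.Injective (fun j : ℕ => θ^[j] V)) :
    ∃ F : Finset X, ∀ j : ℕ, θ^[j] V ∈ F := by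
  classical
  have hex : ∃ a b : ℕ, a < b ∧ θ^[a] V = θ^[b] V := by
    by_contra hcon
    push Not at hcon
    apply h
    intro x y hxy
    rcases lt_trichotomy x y with h1 | h1 | h1
    · exact absurd hxy (hcon x y h1)
    · exact h1
    · exact absurd hxy.symm (hcon y x h1)
  obtain ⟨a, b, hab, he⟩ := hex
  refine ⟨(Finset.range b).image (fun j => θ^[j] V), fun j => ?_⟩
  induction j using Nat.strong_induction_on with
  | _ j ih =>
    rcases Nat.lt_or_ge j b with h1 | h1
    · exact Finset.mem_image.2 ⟨j, Finset.mem_range.2 h1, rfl⟩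
    · have h2 : θ^[j] V = θ^[j - b + a] V := by
        rw [Function.iterate_add_apply, he, ← Function.iterate_add_apply, Nat.sub_add_cancel h1]
      rw [h2]
      exact ih _ (by omega)

theorem newS_succ {X : Type*} [DecidableEq X] (θ : X → X) (S : Finset X) (K : ℕ) :
    newS θ S (K + 1) ⊆ (newS θ S K).image θ := by
  intro w hw
  unfold newS at hw ⊢
  rw [Finset.mem_sdiff, Finset.mem_image] at hw
  obtain ⟨⟨s, hs, rfl⟩, h2⟩ := hw
  rw [Finset.mem_image]
  refine ⟨θ^[K] s, ?_, (Function.iterate_succ_apply' _ _ _).symm⟩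
  rw [Finset.mem_sdiff]
  refine ⟨Finset.mem_image_of_mem _ hs, fun hcon => h2 ?_⟩
  rw [Finset.mem_biUnion] at hcon ⊢
  obtain ⟨K', hK', h3⟩ := hcon
  obtain ⟨s', hs', h4⟩ := Finset.mem_image.1 h3
  rw [Finset.mem_range] at hK'
  refine ⟨K' + 1, Finset.mem_range.2 (by omega), Finset.mem_image.2 ⟨s', hs', ?_⟩⟩
  rw [Function.iterate_succ_apply', Function.iterate_succ_apply', h4]

theorem orbit_count {X : Type*} [DecidableEq X] (θ : X → X) (S : Finset X)
    (hne : ∀ K, (newS θ S K).Nonempty) :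
    ∃ ν C : ℕ, 1 ≤ ν ∧ (∀ K, ν ≤ (newS θ S K).card) ∧
      ∀ a b : ℕ, a ≤ b →
        ((Finset.Ico a b).biUnion (fun K => S.image (θ^[K]))).card ≤ ν * (b - a) + C := by
  classical
  -- the eventual value
  have hanti : Antitone (fun K => (newS θ S K).card) :=
    antitone_nat_of_succ_le fun K =>
      le_trans (Finset.card_le_card (newS_succ θ S K)) Finset.card_image_le
  have hexv : ∃ v, ∃ K, (newS θ S K).card = v := ⟨_, 0, rfl⟩
  obtain ⟨Ks, hKs⟩ := Nat.find_spec hexv
  set ν := Nat.find hexv with hν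
  have hmin : ∀ K, ν ≤ (newS θ S K).card := fun K => Nat.find_min' hexv ⟨K, rfl⟩
  have hev : ∀ K, Ks ≤ K → (newS θ S K).card = ν := fun K hK =>
    le_antisymm (by rw [← hKs]; exact hanti hK) (hmin K)
  have hν1 : 1 ≤ ν := by
    rw [← hKs]
    exact (hne Ks).card_pos
  set C1 : ℕ := ∑ K ∈ Finset.range Ks, (newS θ S K).card with hC1
  have hsum : ∀ a b : ℕ, ∑ K ∈ Finset.Ico a b, (newS θ S K).card ≤ ν * (b - a) + C1 := by
    intro a b
    have h1 : ∑ K ∈ Finset.Ico a b, (newS θ S K).card ≤
        ∑ K ∈ Finset.Ico a b, (ν + if K < Ks then (newS θ S K).card else 0) := by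
      apply Finset.sum_le_sum
      intro K _
      by_cases hK : K < Ks
      · simp [hK]
      · rw [hev K (by omega)]; simp
    refine le_trans h1 ?_
    rw [Finset.sum_add_distrib, Finset.sum_const, Nat.card_Ico, smul_eq_mul, mul_comm]
    apply Nat.add_le_add_left
    rw [← Finset.sum_filter, hC1]
    apply Finset.sum_le_sum_of_subset
    intro K hK
    exact Finset.mem_range.2 (Finset.mem_filter.1 hK).2
  -- finite orbits
  have hfin : ∀ V : X, ∃ F : Finset X, ¬ Function.Injective (fun j : ℕ => θ^[j] V) →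
      ∀ j : ℕ, θ^[j] V ∈ F := by
    intro V
    by_cases h : Function.Injective (fun j : ℕ => θ^[j] V)
    · exact ⟨∅, fun h' => absurd h h'⟩
    · obtain ⟨F, hF⟩ := orbit_finite θ V h
      exact ⟨F, fun _ => hF⟩
  choose Fo hFo using hfin
  set F : Finset X := S.biUnion Fo with hF
  -- shifts
  have hshift : ∀ V V' : X, ∃ c : ℕ, Function.Injective (fun j : ℕ => θ^[j] V) →
      ∀ K K' : ℕ, θ^[K] V = θ^[K'] V' → K ≤ K' + c := by
    intro V V'
    by_cases hex : ∃ K K' : ℕ, θ^[K] V = θ^[K'] V'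
    · obtain ⟨K1, K1', h1⟩ := hex
      refine ⟨K1, fun hinj K K' h2 => ?_⟩
      have h3 : θ^[K1' + K] V = θ^[K' + K1] V := by
        rw [Function.iterate_add_apply, h2, Function.iterate_add_apply θ K' K1, h1,
          ← Function.iterate_add_apply, ← Function.iterate_add_apply, add_comm]
      have h4 := hinj h3
      omega
    · push Not at hex
      exact ⟨0, fun _ K K' h2 => absurd h2 (hex K K')⟩
  choose cs hcs using hshift
  set C2 : ℕ := ∑ V ∈ S, ∑ V' ∈ S, cs V V' with hC2
  have hC2le : ∀ V ∈ S, ∀ V' ∈ S, cs V V' ≤ C2 := by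
    intro V hV V' hV'
    refine le_trans ?_ (Finset.single_le_sum (f := fun V => ∑ V' ∈ S, cs V V')
      (fun _ _ => Nat.zero_le _) hV)
    exact Finset.single_le_sum (f := fun V' => cs V V') (fun _ _ => Nat.zero_le _) hV'
  refine ⟨ν, ν * C2 + C1 + F.card, hν1, hmin, fun a b hab => ?_⟩
  have hsub : (Finset.Ico a b).biUnion (fun K => S.image (θ^[K])) ⊆
      (Finset.Ico (a - C2) b).biUnion (newS θ S) ∪ F := by
    intro W hW
    rw [Finset.mem_biUnion] at hW
    obtain ⟨K, hK, hW⟩ := hW
    obtain ⟨V, hV, hVW⟩ := Finset.mem_image.1 hW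
    rw [Finset.mem_Ico] at hK
    by_cases hinj : Function.Injective (fun j : ℕ => θ^[j] V)
    · apply Finset.mem_union_left
      have hex : ∃ K0, W ∈ S.image (θ^[K0]) := ⟨K, hW⟩
      have h1 := Nat.find_spec hex
      have h2 := Nat.find_min' hex hW
      obtain ⟨V0, hV0, hVW0⟩ := Finset.mem_image.1 h1
      have h3 := hcs V V0 hinj K (Nat.find hex) (by rw [hVW, hVW0])
      have h4 := hC2le V hV V0 hV0
      rw [Finset.mem_biUnion]
      refine ⟨Nat.find hex, Finset.mem_Ico.2 ⟨by omega, by omega⟩, ?_⟩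
      unfold newS
      rw [Finset.mem_sdiff]
      refine ⟨h1, fun hcon => ?_⟩
      rw [Finset.mem_biUnion] at hcon
      obtain ⟨K', hK', h5⟩ := hcon
      exact Nat.find_min hex (Finset.mem_range.1 hK') h5
    · apply Finset.mem_union_right
      rw [hF, Finset.mem_biUnion]
      exact ⟨V, hV, by rw [← hVW]; exact hFo V hinj K⟩
  refine le_trans (Finset.card_le_card hsub) (le_trans (Finset.card_union_le _ _) ?_)
  have h6 : ((Finset.Ico (a - C2) b).biUnion (newS θ S)).card ≤
      ν * (b - (a - C2)) + C1 := le_trans Finset.card_biUnion_le (hsum _ _)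
  have h7 : ν * (b - (a - C2)) ≤ ν * (b - a) + ν * C2 := by
    rw [← Nat.mul_add]
    apply Nat.mul_le_mul_left
    omega
  omega

end FC
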