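import Pool.Agent.LibFC.CntSize
import Pool.Agent.LibFC.CntOrbit

/-!
# Main words: lower bound for the number of factors whose minimal window age is `K`
-/

set_option autoImplicit false

namespace FC

namespace Cnt

section
variable {A : Type*} {σ : A → List A} {u : ℕ → A} {F : A → Prop}

/-- a cut of level `K` strictly inside the window -/
def wcut (σ : A → List A) (u : ℕ → A) (K p n : ℕ) : Prop :=
  ∃ j, p < cc σ u K j ∧ cc σ u K j < p + n

theorem wcut_mono {K L p n : ℕ} (hKL : K ≤ L) (hc : wcut σ u L p n) : wcut σ u K p n := by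
  obtain ⟨j, h1, h2⟩ := hc
  obtain ⟨d, rfl⟩ := Nat.exists_eq_add_of_le hKL
  exact ⟨cc σ u d j, by rwa [← cc_add], by rwa [← cc_add]⟩

/-- every block has an age -/
theorem exists_exact (h : Dat σ u) (hF : Thr σ u F) (hub : ∀ N, ∃ K, N < cc σ u K 1) {q : ℕ}
    (hq : 1 ≤ q) : ∃ K, hasCut σ u F K q ∧ ¬ hasCut σ u F (K + 1) q := by
  classical
  obtain ⟨L, hL⟩ := hub (nf u F q)
  have hno : ¬ hasCut σ u F L q := by
    rintro ⟨j, hj1, hj2⟩
    have hj : 1 ≤ j := by
      by_contra hcon
      have : j = 0 := by omega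
      rw [this, cc_at_zero] at hj1
      omega
    have := (cc_strict h L).monotone hj
    omega
  have hex : ∃ K, ¬ hasCut σ u F K q := ⟨L, hno⟩
  have h1 := Nat.find_spec hex
  have h2 : Nat.find hex ≠ 0 := by
    intro h0
    rw [h0] at h1
    exact h1 (hasCut_zero hF q hq)
  obtain ⟨m, hm⟩ := Nat.exists_eq_succ_of_ne_zero h2
  refine ⟨m, ?_, ?_⟩
  · by_contra hcon
    have := Nat.find_min' hex hcon
    omega
  · rw [hm] at h1
    exact h1

variable [DecidableEq A]

/-- a window containing a new block word has a cut of level `K`, in the block -/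
theorem new_cut (h : Dat σ u) (hF : Thr σ u F) (hub : ∀ N, ∃ K, N < cc σ u K 1)
    (S : Finset (List A)) (hS : ∀ V, V ∈ S ↔ V ∈ S0 σ u F) (K : ℕ) {q a : ℕ} (hq : 1 ≤ q)
    (hnew : wd u F q ∈ newS (th σ u F) S K)
    (hag : ∀ t, t < nf u F q - pf u F q + 1 → u (pf u F q + t) = u (a + t)) :
    pf u F (a + 1) = a ∧ nf u F (a + 1) = a + (nf u F q - pf u F q) ∧
      hasCut σ u F K (a + 1) := by
  obtain ⟨e1, e2⟩ := blk_of_word hF hq hag
  refine ⟨e1, e2, ?_⟩
  obtain ⟨K', h1, h2⟩ := exists_exact h hF hub (show 1 ≤ a + 1 by omega)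
  have hwd : wd u F (a + 1) = wd u F q := by
    unfold wd
    rw [e1, e2, Nat.add_sub_cancel_left, eq_comm]
    exact win_eq_iff.2 hag
  obtain ⟨V, hV, hVe⟩ := mem_S0_of_age h hF K' (by omega) h1 h2
  rw [hwd] at hVe
  by_contra hcon
  have hlt : K' < K := by
    by_contra hge
    push Not at hge
    exact hcon (hasCut_mono hge h1)
  unfold newS at hnew
  rw [Finset.mem_sdiff, Finset.mem_biUnion] at hnew
  apply hnew.2
  exact ⟨K', Finset.mem_range.2 hlt, Finset.mem_image.2 ⟨V, (hS V).2 hV, hVe⟩⟩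

theorem lower_one (h : Dat σ u) (hF : Thr σ u F) (hub : ∀ N, ∃ K, N < cc σ u K 1)
    (S : Finset (List A)) (hS : ∀ V, V ∈ S ↔ V ∈ S0 σ u F) (n K : ℕ)
    (hn : ∀ b, F b → n ≤ (pw σ K b).length)
    (hroom : ∀ s, F (u s) → cc σ u K s + n ≤ pf u F (cc σ u K (s + 1)))
    (B : ℝ) (hB : ∀ q, 1 ≤ q → hasCut σ u F K q → ¬ hasCut σ u F (K + 1) q →
      ((wd u F q).length : ℝ) ≤ B) :
    ∃ MF : Finset (List A), (∀ w ∈ MF,
        (∃ p, win u p n = w ∧ wcut σ u K p n ∧ ¬ wcut σ u (K + 1) p n) ∧
        ∀ p, win u p n = w → wcut σ u K p n) ∧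
      ((newS (th σ u F) S K).card : ℝ) * (n - B) ≤ MF.card := by
  classical
  -- a block for every new word
  have hex : ∀ W ∈ newS (th σ u F) S K, ∃ q, 1 ≤ q ∧ hasCut σ u F K q ∧
      ¬ hasCut σ u F (K + 1) q ∧ wd u F q = W := by
    intro W hW
    unfold newS at hW
    rw [Finset.mem_sdiff, Finset.mem_image] at hW
    obtain ⟨⟨V, hV, rfl⟩, -⟩ := hW
    exact exists_age h hF K ((hS V).1 hV)
  choose! Q hQ1 hQ2 hQ3 hQ4 using hex
  have hnle : ∀ W ∈ newS (th σ u F) S K, n ≤ pf u F (Q W) := by
    intro W hW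
    obtain ⟨j, hj1, hj2⟩ := hQ2 W hW
    have hj : 1 ≤ j := by
      by_contra hcon
      have : j = 0 := by omega
      rw [this, cc_at_zero] at hj1
      omega
    obtain ⟨e1, e2⟩ := blk_eq hF (hQ1 W hW) hj1 hj2
    rw [← e1, pf_cc h hF K j hj]
    have := hroom _ (pf_fast hF j)
    omega
  have hlt : ∀ W ∈ newS (th σ u F) S K, pf u F (Q W) < nf u F (Q W) := by
    intro W hW
    have h1 := pf_lt (u := u) (F := F) (Q W) (hQ1 W hW)
    have h2 := (nf_spec hF (Q W)).1
    omega
  have hlen : ∀ W ∈ newS (th σ u F) S K, W.length = nf u F (Q W) - pf u F (Q W) + 1 := by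
    intro W hW
    rw [← hQ4 W hW, wd_length, hQ4 W hW]
  set T : Finset ((_ : List A) × ℕ) :=
    (newS (th σ u F) S K).sigma (fun W => Finset.range (n - W.length)) with hT
  set g : ((_ : List A) × ℕ) → List A := fun x => win u (pf u F (Q x.1) - x.2) n with hg
  -- the block word inside any occurrence
  have hocc : ∀ x ∈ T, ∀ p, win u p n = g x →
      pf u F (p + x.2 + 1) = p + x.2 ∧
      nf u F (p + x.2 + 1) = p + x.2 + (nf u F (Q x.1) - pf u F (Q x.1)) ∧
      hasCut σ u F K (p + x.2 + 1) := by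
    rintro ⟨W, o⟩ hx p hp
    rw [hT, Finset.mem_sigma, Finset.mem_range] at hx
    obtain ⟨hW, ho⟩ := hx
    simp only at hW ho hp ⊢
    have h1 := hlen W hW
    have h2 := hnle W hW
    apply new_cut h hF hub S hS K (hQ1 W hW) (by rw [hQ4 W hW]; exact hW)
    intro t ht
    rw [hg] at hp
    simp only at hp
    have h3 := win_eq_iff.1 hp (o + t) (by omega)
    rw [← add_assoc] at h3
    rw [h3]
    congr 1
    omega
  refine ⟨T.image g, ?_, ?_⟩
  · intro w hw
    obtain ⟨x, hx, rfl⟩ := Finset.mem_image.1 hw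
    have hocc' := hocc x hx
    obtain ⟨W, o⟩ := x
    rw [hT, Finset.mem_sigma, Finset.mem_range] at hx
    obtain ⟨hW, ho⟩ := hx
    simp only at hW ho hocc'
    have h1 := hlen W hW
    have h2 := hnle W hW
    have h3 := hlt W hW
    refine ⟨⟨pf u F (Q W) - o, rfl, ?_, ?_⟩, ?_⟩
    · obtain ⟨j, hj1, hj2⟩ := hQ2 W hW
      exact ⟨j, by omega, by omega⟩
    · rintro ⟨j', hj1', hj2'⟩
      rw [cc_add K 1 j'] at hj1' hj2'
      obtain ⟨j, hj1, hj2⟩ := hQ2 W hW
      rcases Nat.lt_or_ge (pf u F (Q W)) (cc σ u K (cc σ u 1 j')) with h4 | h4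
      · rcases Nat.lt_or_ge (nf u F (Q W)) (cc σ u K (cc σ u 1 j')) with h5 | h5
        · have := sep h hF K n hn hj2 h5 (nf_spec hF (Q W)).2
          omega
        · apply hQ3 W hW
          exact ⟨j', by rwa [cc_add K 1 j'], by rwa [cc_add K 1 j']⟩
      · have := sep h hF K n hn h4 hj1 (pf_fast hF (Q W))
        omega
    · intro p hp
      obtain ⟨e1, e2, j, hj1, hj2⟩ := hocc' p hp
      exact ⟨j, by omega, by omega⟩
  · -- injectivity
    have hinj : Set.InjOn g T := by
      intro x hx y hy hxy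
      have hx' := hx
      have hy' := hy
      rw [Finset.mem_coe] at hx' hy'
      obtain ⟨W, o⟩ := x
      obtain ⟨W', o'⟩ := y
      rw [Finset.mem_coe, hT, Finset.mem_sigma, Finset.mem_range] at hx hy
      obtain ⟨hW, ho⟩ := hx
      obtain ⟨hW', ho'⟩ := hy
      simp only at hW ho hW' ho'
      have l1 := hlen W hW
      have l2 := hnle W hW
      have l3 := hlt W hW
      have l1' := hlen W' hW'
      have l3' := hlt W' hW'
      set p := pf u F (Q W) - o with hp
      obtain ⟨a1, a2, ja, ja1, ja2⟩ := hocc _ hx' p rfl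
      obtain ⟨b1, b2, jb, jb1, jb2⟩ := hocc _ hy' p hxy
      simp only at a1 a2 b1 b2 ja1 ja2 jb1 jb2
      have hFa := (nf_spec hF (p + o + 1)).2
      have hFb := (nf_spec hF (p + o' + 1)).2
      have hoo : o = o' := by
        rcases lt_trichotomy o o' with hlt' | heq | hgt
        · exfalso
          -- block of `o` is left of block of `o'`
          have hb' : F (u (p + o')) := by rw [← b1]; exact pf_fast hF _
          have h5 : nf u F (p + o + 1) ≤ p + o' := by
            by_contra hcon
            push Not at hcon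
            exact nf_slow hF (q := p + o + 1) (by omega) hcon hb'
          have := sep h hF K n hn (show cc σ u K ja ≤ p + o' by omega)
            (show p + o' < cc σ u K jb by omega) hb'
          omega
        · exact heq
        · exfalso
          have ha' : F (u (p + o)) := by rw [← a1]; exact pf_fast hF _
          have h5 : nf u F (p + o' + 1) ≤ p + o := by
            by_contra hcon
            push Not at hcon
            exact nf_slow hF (q := p + o' + 1) (by omega) hcon ha'
          have := sep h hF K n hn (show cc σ u K jb ≤ p + o by omega)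
            (show p + o < cc σ u K ja by omega) ha'
          omega
      subst hoo
      have hWW : W = W' := by
        rw [← hQ4 W hW, ← hQ4 W' hW']
        have e3 : nf u F (Q W) - pf u F (Q W) = nf u F (Q W') - pf u F (Q W') := by omega
        unfold wd
        rw [e3, win_eq_iff]
        intro t ht
        have h6 : win u p n = win u (pf u F (Q W') - o) n := hxy
        have h7 := win_eq_iff.1 h6 (o + t) (by omega)
        have l2' := hnle W' hW'
        have e4 : p + (o + t) = pf u F (Q W) + t := by omega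
        have e5 : pf u F (Q W') - o + (o + t) = pf u F (Q W') + t := by omega
        rwa [e4, e5] at h7
      subst hWW
      rfl
    rw [Finset.card_image_of_injOn hinj, hT, Finset.card_sigma]
    push_cast
    have h3 : ∀ W ∈ newS (th σ u F) S K, (n : ℝ) - B ≤ ((n - W.length : ℕ) : ℝ) := by
      intro W hW
      have h4 := hB (Q W) (hQ1 W hW) (hQ2 W hW) (hQ3 W hW)
      rw [hQ4 W hW] at h4
      have h5 : (n : ℝ) ≤ ((n - W.length : ℕ) : ℝ) + W.length := by
        have : n ≤ (n - W.length) + W.length := by omega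
        exact_mod_cast this
      linarith
    calc ((newS (th σ u F) S K).card : ℝ) * (n - B)
        = ∑ W ∈ newS (th σ u F) S K, ((n : ℝ) - B) := by
          rw [Finset.sum_const, nsmul_eq_mul]
      _ ≤ ∑ W ∈ newS (th σ u F) S K, ((n - W.length : ℕ) : ℝ) := Finset.sum_le_sum h3
      _ = _ := by simp

end

end Cnt

end FC
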