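import Pool.Agent.LibFC.CntThr

/-!
# The counting theorem
-/

set_option autoImplicit false

open Filter

namespace FC

open Cnt in
theorem count_main {k : ℕ} (σ : Fin k → List (Fin k)) (u : ℕ → Fin k) (h : Fix σ u) (gr : Gr σ) :
    ∃ (ν : Fin (gr.R - 1) → ℕ) (K : ℝ), (∀ i, 1 ≤ ν i) ∧ ∀ n : ℕ, 1 ≤ n →
      |(cp u n : ℝ) - n * ∑ i : Fin (gr.R - 1), (ν i : ℝ) *
        ((kf (gr.al ⟨i, by omega⟩) (gr.be ⟨i, by omega⟩) n : ℝ)
          - kf (gr.al ⟨i + 1, by omega⟩) (gr.be ⟨i + 1, by omega⟩) n)| ≤ K * n := by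
  classical
  have hd := dat_of_fix h
  have hR : 0 < gr.R := lt_of_le_of_lt (Nat.zero_le _) (gr.lev (u 0)).isLt
  -- index maps
  set lo : Fin (gr.R - 1) → Fin gr.R := fun i => ⟨i, by omega⟩ with hlo
  set hi : Fin (gr.R - 1) → Fin gr.R := fun i => ⟨i + 1, by omega⟩ with hhi
  have key : ∀ i : Fin (gr.R - 1), _ := fun i => per_threshold h gr (lo i) (hi i) rfl
  choose ν C D0 hν hC hmain using key
  obtain ⟨Dan, hanti⟩ := kf_anti gr
  obtain ⟨Dall, hall⟩ := gr_all gr
  obtain ⟨Dtop, htop⟩ := gr_top gr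
  set kk : Fin gr.R → ℕ → ℕ := fun i n => kf (gr.al i) (gr.be i) n with hkk
  set D1 : ℕ := Finset.univ.sup D0 + Dan with hD1
  have hD1ge : ∀ i, D0 i ≤ D1 := by
    intro i
    have := Finset.le_sup (f := D0) (Finset.mem_univ i)
    omega
  -- the ranges
  set rg : ℕ → Fin (gr.R - 1) → Finset ℕ := fun n i =>
    Finset.Ico (kk (hi i) n + D1) (kk (lo i) n) with hrg
  set i0 : Fin gr.R := ⟨0, hR⟩ with hi0
  set it : Fin gr.R := ⟨gr.R - 1, by omega⟩ with hit
  set M : ℕ := ∑ b, (pw σ 1 b).length with hMdef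
  have hM : ∀ b, (pw σ 1 b).length ≤ M := by
    intro b
    exact Finset.single_le_sum (f := fun b => (pw σ 1 b).length)
      (fun _ _ => Nat.zero_le _) (Finset.mem_univ b)
  set CE : ℕ := gr.R * (Dtop + D1 + Dall) with hCE
  -- size of the ranges
  have hrgc : ∀ n i, ((rg n i).card : ℝ) ≤ (kk (lo i) n : ℝ) - kk (hi i) n + Dan ∧
      (kk (lo i) n : ℝ) - kk (hi i) n - D1 ≤ ((rg n i).card : ℝ) := by
    intro n i
    have h1 := hanti (lo i) (hi i) (by rw [Fin.le_def, hlo, hhi]; simp) n
    have h1' : kk (hi i) n ≤ kk (lo i) n + Dan := h1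
    rw [hrg]
    simp only [Nat.card_Ico]
    constructor
    · have h2 : (kk (lo i) n - (kk (hi i) n + D1)) + kk (hi i) n ≤ kk (lo i) n + Dan := by omega
      have h3 : (((kk (lo i) n - (kk (hi i) n + D1)) : ℕ) : ℝ) + kk (hi i) n ≤
          kk (lo i) n + Dan := by exact_mod_cast h2
      linarith
    · have h2 : kk (lo i) n ≤ (kk (lo i) n - (kk (hi i) n + D1)) + kk (hi i) n + D1 := by omega
      have h3 : (kk (lo i) n : ℝ) ≤
          (((kk (lo i) n - (kk (hi i) n + D1)) : ℕ) : ℝ) + kk (hi i) n + D1 := by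
        exact_mod_cast h2
      linarith
  -- finiteness of the language
  have hfin : ∀ n, (Lang u n).Finite := by
    intro n
    apply Set.Finite.subset (List.finite_length_eq (Fin k) n)
    rintro _ ⟨i, rfl⟩
    exact win_length i n
  obtain ⟨Cq, hsumkf⟩ := sum_kf gr
  -- upper bound
  have hupper : ∀ n, 2 ≤ n → (cp u n : ℝ) ≤ (k * k + CE * (k * M)) * n +
      ∑ i, ((ν i : ℝ) * (rg n i).card * n + C i * n) := by
    intro n hn
    have hn1 : 1 ≤ n := by omega
    obtain ⟨UA, hUA1, hUA2⟩ := upper_all hd n (kk i0 n + Dall)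
      (fun b => hall i0 rfl n _ b hn1 le_rfl)
    have hB : ∀ K, _ := fun K => upper_level hd M hM n K
    choose UB hUB1 hUB2 using hB
    have hU : ∀ i, _ := fun i => (hmain i n hn1).2 D1 (hD1ge i)
    choose U hU1 hU2 using hU
    set E : Finset ℕ := (Finset.range (kk i0 n + Dall)).filter
      (fun K => (∀ i, K ∉ rg n i) ∧ kk it n ≤ K + Dtop) with hE
    have hEc : E.card ≤ CE := by
      have hsub : E ⊆ (Finset.univ : Finset (Fin gr.R)).biUnion (fun i =>
          Finset.Ico (kk i n - Dtop) (kk i n + (D1 + Dall))) := by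
        intro K hK
        rw [hE, Finset.mem_filter, Finset.mem_range] at hK
        obtain ⟨hK1, hK2, hK3⟩ := hK
        rw [Finset.mem_biUnion]
        rcases Nat.lt_or_ge K (kk it n) with h1 | h1
        · exact ⟨it, Finset.mem_univ _, Finset.mem_Ico.2 ⟨by omega, by omega⟩⟩
        · -- least index with `kk ≤ K`
          have hex : ∃ m : ℕ, ∃ hm : m < gr.R, kk ⟨m, hm⟩ n ≤ K := ⟨gr.R - 1, by omega, h1⟩
          obtain ⟨m, ⟨hm, hmK⟩, hmin⟩ : ∃ m : ℕ, (∃ hm : m < gr.R, kk ⟨m, hm⟩ n ≤ K) ∧
              ∀ m' : ℕ, m' < m → ¬ ∃ hm : m' < gr.R, kk ⟨m', hm⟩ n ≤ K :=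
            ⟨Nat.find hex, Nat.find_spec hex, fun m' hm' => Nat.find_min hex hm'⟩
          refine ⟨⟨m, hm⟩, Finset.mem_univ _, Finset.mem_Ico.2 ⟨by omega, ?_⟩⟩
          rcases Nat.eq_zero_or_pos m with h0 | hpos
          · have : (⟨m, hm⟩ : Fin gr.R) = i0 := by rw [hi0]; ext; exact h0
            rw [this]
            omega
          · by_contra hcon
            push Not at hcon
            have h2 : ¬ ∃ hm : m - 1 < gr.R, kk ⟨m - 1, hm⟩ n ≤ K := hmin (m - 1) (by omega)
            push Not at h2
            have h3 := h2 (by omega)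
            apply hK2 ⟨m - 1, by omega⟩
            rw [hrg]
            simp only [Finset.mem_Ico]
            constructor
            · have e1 : hi ⟨m - 1, by omega⟩ = ⟨m, hm⟩ := by
                rw [hhi]; ext; simp only; omega
              rw [e1]
              omega
            · exact h3
      refine le_trans (Finset.card_le_card hsub) (le_trans Finset.card_biUnion_le ?_)
      calc ∑ i : Fin gr.R, (Finset.Ico (kk i n - Dtop) (kk i n + (D1 + Dall))).card
          ≤ ∑ _i : Fin gr.R, (Dtop + D1 + Dall) := by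
            apply Finset.sum_le_sum
            intro i _
            rw [Nat.card_Ico]
            omega
        _ = CE := by
            rw [Finset.sum_const, Finset.card_univ, Fintype.card_fin, smul_eq_mul]
    -- covering
    have hcov : Lang u n ⊆ ((UA ∪ E.biUnion UB ∪ Finset.univ.biUnion U :
        Finset (List (Fin k))) : Set (List (Fin k))) := by
      rintro _ ⟨p, rfl⟩
      simp only [Finset.coe_union, Set.mem_union, Finset.mem_coe]
      by_cases hA : wcut σ u (kk i0 n + Dall) p n
      · exact Or.inl (Or.inl (hUA1 p hA))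
      · have hex : ∃ K, ¬ wcut σ u K p n := ⟨_, hA⟩
        have h1 := Nat.find_spec hex
        have h2 : Nat.find hex ≠ 0 := by
          intro h0
          rw [h0] at h1
          exact h1 ⟨p + 1, by rw [cc_zero]; omega, by rw [cc_zero]; omega⟩
        obtain ⟨K, hK⟩ := Nat.exists_eq_succ_of_ne_zero h2
        have h3 : wcut σ u K p n := by
          by_contra hcon
          have := Nat.find_min' hex hcon
          omega
        have h4 : ¬ wcut σ u (K + 1) p n := by rw [hK] at h1; exact h1
        have h5 : K < kk i0 n + Dall := by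
          by_contra hcon
          push Not at hcon
          exact hA (wcut_mono hcon h3)
        by_cases hin : ∃ i, K ∈ rg n i
        · obtain ⟨i, hKi⟩ := hin
          right
          rw [Finset.mem_biUnion]
          exact ⟨i, Finset.mem_univ _, hU1 i K hKi p h3 h4⟩
        · left; right
          rw [Finset.mem_biUnion]
          refine ⟨K, ?_, hUB1 K p h3 h4⟩
          rw [hE, Finset.mem_filter, Finset.mem_range]
          push Not at hin
          refine ⟨h5, hin, ?_⟩
          obtain ⟨i, hi1, hi2⟩ := exists_in hd K n p h4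
          apply htop it (by rw [hit]; simp only; omega) n K (u i)
          rw [cc_succ hd] at hi2
          omega
    have h1 : cp u n ≤ (UA ∪ E.biUnion UB ∪ Finset.univ.biUnion U).card := by
      unfold cp
      rw [← Set.ncard_coe_finset]
      exact Set.ncard_le_ncard hcov (Finset.finite_toSet _)
    have h2 : (UA ∪ E.biUnion UB ∪ Finset.univ.biUnion U).card ≤
        UA.card + (E.biUnion UB).card + (Finset.univ.biUnion U).card :=
      le_trans (Finset.card_union_le _ _) (Nat.add_le_add_right (Finset.card_union_le _ _) _)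
    have h3 : (E.biUnion UB).card ≤ CE * (k * M * n) := by
      refine le_trans Finset.card_biUnion_le ?_
      calc ∑ K ∈ E, (UB K).card ≤ ∑ _K ∈ E, k * M * n := by
            apply Finset.sum_le_sum
            intro K _
            have := hUB2 K
            rwa [Fintype.card_fin] at this
        _ = E.card * (k * M * n) := by rw [Finset.sum_const, smul_eq_mul]
        _ ≤ CE * (k * M * n) := Nat.mul_le_mul_right _ hEc
    have h4 : ((Finset.univ.biUnion U).card : ℝ) ≤
        ∑ i, ((ν i : ℝ) * (rg n i).card * n + C i * n) := by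
      have h5 : ((Finset.univ.biUnion U).card : ℝ) ≤ ∑ i, ((U i).card : ℝ) := by
        exact_mod_cast Finset.card_biUnion_le
      refine le_trans h5 (Finset.sum_le_sum fun i _ => ?_)
      have h6 := hU2 i
      rw [hrg]
      simp only [Nat.card_Ico]
      exact h6
    have h7 : UA.card ≤ k * k * n := by
      have := hUA2
      rwa [Fintype.card_fin] at this
    have h8 : (cp u n : ℝ) ≤ UA.card + (E.biUnion UB).card + (Finset.univ.biUnion U).card := by
      exact_mod_cast le_trans h1 h2
    have h9 : (UA.card : ℝ) ≤ k * k * n := by exact_mod_cast h7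
    have h10 : ((E.biUnion UB).card : ℝ) ≤ CE * (k * M * n) := by exact_mod_cast h3
    calc (cp u n : ℝ) ≤ k * k * n + CE * (k * M * n) +
          ∑ i, ((ν i : ℝ) * (rg n i).card * n + C i * n) := by linarith
      _ = _ := by ring
  -- lower bound
  have hlower : ∀ n, 1 ≤ n →
      ∑ i, ((ν i : ℝ) * (rg n i).card * n - C i * (Cq * n)) ≤ cp u n := by
    intro n hn
    have hL : ∀ i, ∀ K ∈ rg n i, _ := fun i K hK =>
      (hmain i n hn).1 K (by
        have h1 := (Finset.mem_Ico.1 hK).1
        have h2 := hD1ge i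
        exact le_trans (by exact Nat.add_le_add_left h2 _) h1)
    choose! MF hMF1 hMF2 using hL
    set I : Finset ((_ : Fin (gr.R - 1)) × ℕ) := Finset.univ.sigma (rg n) with hI
    have hdisj : ∀ x ∈ I, ∀ y ∈ I, x ≠ y → Disjoint (MF x.1 x.2) (MF y.1 y.2) := by
      have hlt : ∀ (i : Fin (gr.R - 1)) (K : ℕ) (i' : Fin (gr.R - 1)) (K' : ℕ),
          K ∈ rg n i → K' ∈ rg n i' → K < K' → Disjoint (MF i K) (MF i' K') := by
        intro i K i' K' hK hK' hlt
        rw [Finset.disjoint_left]
        intro w hw hw'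
        obtain ⟨⟨p, hp1, hp2, hp3⟩, -⟩ := hMF1 i K hK w hw
        obtain ⟨-, h2⟩ := hMF1 i' K' hK' w hw'
        exact hp3 (wcut_mono (by omega) (h2 p hp1))
      rintro ⟨i, K⟩ hx ⟨i', K'⟩ hy hne
      rw [hI, Finset.mem_sigma] at hx hy
      simp only at hx hy ⊢
      rcases lt_trichotomy K K' with h1 | h1 | h1
      · exact hlt i K i' K' hx.2 hy.2 h1
      · exfalso
        subst h1
        have hne' : i ≠ i' := fun h => hne (by rw [h])
        have hkey : ∀ a b : Fin (gr.R - 1), a < b → K ∈ rg n a → K ∈ rg n b → False := by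
          intro a b hab ha hb
          have h2 := (Finset.mem_Ico.1 ha).1
          have h3 := (Finset.mem_Ico.1 hb).2
          have h4 : kk (lo b) n ≤ kk (hi a) n + Dan := hanti (hi a) (lo b) (by
            rw [Fin.le_def, hlo, hhi]
            simp only
            rw [Fin.lt_def] at hab
            omega) n
          omega
        rcases lt_or_gt_of_ne hne' with h2 | h2
        · exact hkey i i' h2 hx.2 hy.2
        · exact hkey i' i h2 hy.2 hx.2
      · exact (hlt i' K' i K hy.2 hx.2 h1).symm
    have hcard : (I.biUnion (fun x => MF x.1 x.2)).card = ∑ x ∈ I, (MF x.1 x.2).card :=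
      Finset.card_biUnion hdisj
    have hsub : ((I.biUnion (fun x => MF x.1 x.2) : Finset (List (Fin k))) :
        Set (List (Fin k))) ⊆ Lang u n := by
      intro w hw
      rw [Finset.mem_coe, Finset.mem_biUnion] at hw
      obtain ⟨⟨i, K⟩, hx, hw⟩ := hw
      rw [hI, Finset.mem_sigma] at hx
      obtain ⟨⟨p, hp1, -, -⟩, -⟩ := hMF1 i K hx.2 w hw
      exact ⟨p, hp1⟩
    have h1 : (I.biUnion (fun x => MF x.1 x.2)).card ≤ cp u n := by
      unfold cp
      rw [← Set.ncard_coe_finset]
      exact Set.ncard_le_ncard hsub (hfin n)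
    rw [hcard, hI, Finset.sum_sigma] at h1
    have h2 : ((∑ i, ∑ K ∈ rg n i, (MF i K).card : ℕ) : ℝ) ≤ cp u n := by exact_mod_cast h1
    refine le_trans ?_ h2
    push_cast
    apply Finset.sum_le_sum
    intro i _
    have h3 : ∑ K ∈ rg n i, ((ν i : ℝ) * n - C i * gf (gr.al (lo i)) (gr.be (lo i)) K) ≤
        ∑ K ∈ rg n i, ((MF i K).card : ℝ) := Finset.sum_le_sum fun K hK => hMF2 i K hK
    refine le_trans ?_ h3
    rw [Finset.sum_sub_distrib, Finset.sum_const, nsmul_eq_mul, ← Finset.mul_sum]
    have h4 : ∑ K ∈ rg n i, gf (gr.al (lo i)) (gr.be (lo i)) K ≤ Cq * n := by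
      refine le_trans ?_ (hsumkf (lo i) n hn)
      apply Finset.sum_le_sum_of_subset_of_nonneg
      · intro K hK
        exact Finset.mem_range.2 (Finset.mem_Ico.1 hK).2
      · intro K _ _
        exact (gf_pos _ _ (gr.one_lt_be _) K).le
    have h5 := mul_le_mul_of_nonneg_left h4 (hC i)
    have h6 : ((rg n i).card : ℝ) * ((ν i : ℝ) * n) = (ν i : ℝ) * (rg n i).card * n := by ring
    rw [h6]
    linarith
  -- conclusion
  set S : ℕ → ℝ := fun n => ∑ i : Fin (gr.R - 1), (ν i : ℝ) * ((kk (lo i) n : ℝ) - kk (hi i) n)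
    with hS
  set KU : ℝ := k * k + CE * (k * M) + ∑ i, ((ν i : ℝ) * Dan + C i) with hKU
  set KL : ℝ := ∑ i, ((ν i : ℝ) * D1 + C i * Cq) with hKL
  refine ⟨ν, |KU| + |KL| + |(cp u 1 : ℝ) - S 1|, hν, ?_⟩
  intro n hn
  have hgoal : |(cp u n : ℝ) - n * S n| ≤ (|KU| + |KL| + |(cp u 1 : ℝ) - S 1|) * n := by
    rcases Nat.lt_or_ge n 2 with h2 | h2
    · have : n = 1 := by omega
      subst this
      simp only [Nat.cast_one, one_mul, mul_one]
      have := abs_nonneg KU
      have := abs_nonneg KL
      linarith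
    · have hnR : (0 : ℝ) ≤ n := Nat.cast_nonneg _
      have hup : (cp u n : ℝ) - n * S n ≤ KU * n := by
        have h3 := hupper n h2
        have h4 : ∑ i, ((ν i : ℝ) * (rg n i).card * n + C i * n) ≤
            n * S n + (∑ i, ((ν i : ℝ) * Dan + C i)) * n := by
          rw [hS, Finset.mul_sum, Finset.sum_mul, ← Finset.sum_add_distrib]
          apply Finset.sum_le_sum
          intro i _
          have h5 := (hrgc n i).1
          have h6 : (0 : ℝ) ≤ (ν i : ℝ) * n := by positivity
          have h7 := mul_le_mul_of_nonneg_left h5 h6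
          nlinarith
        rw [hKU]
        nlinarith
      have hlo' : -(KL * n) ≤ (cp u n : ℝ) - n * S n := by
        have h3 := hlower n hn
        have h4 : n * S n - (∑ i, ((ν i : ℝ) * D1 + C i * Cq)) * n ≤
            ∑ i, ((ν i : ℝ) * (rg n i).card * n - C i * (Cq * n)) := by
          rw [hS, Finset.mul_sum, Finset.sum_mul, ← Finset.sum_sub_distrib]
          apply Finset.sum_le_sum
          intro i _
          have h5 := (hrgc n i).2
          have h6 : (0 : ℝ) ≤ (ν i : ℝ) * n := by positivity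
          have h7 := mul_le_mul_of_nonneg_left h5 h6
          nlinarith
        rw [hKL]
        linarith
      have hx : KU * n ≤ |KU| * n := mul_le_mul_of_nonneg_right (le_abs_self _) hnR
      have hy : KL * n ≤ |KL| * n := mul_le_mul_of_nonneg_right (le_abs_self _) hnR
      have hz : 0 ≤ |(cp u 1 : ℝ) - S 1| * n := mul_nonneg (abs_nonneg _) hnR
      have hx0 : 0 ≤ |KU| * n := mul_nonneg (abs_nonneg _) hnR
      have hy0 : 0 ≤ |KL| * n := mul_nonneg (abs_nonneg _) hnR
      rw [abs_le]
      constructor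
      · nlinarith
      · nlinarith
  exact hgoal

end FC
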