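import Pool.Agent.LibFC.CntBlocks

/-!
# Sizes of slow heads, tails and blocks
-/

set_option autoImplicit false

namespace FC

namespace Cnt

section
variable {A : Type*} {σ : A → List A} {u : ℕ → A} {F : A → Prop}

/-- bound for everything slow at level `K` -/
noncomputable def Bd (G : ℕ → ℝ) (M : ℕ) (K : ℕ) : ℝ :=
  2 * M * ∑ j ∈ Finset.range (K + 1), G j + 2

theorem cc_slow_le (h : Dat σ u) (G : ℕ → ℝ)
    (hG : ∀ b, ¬ F b → ∀ m, ((pw σ m b).length : ℝ) ≤ G m) (K a b : ℕ) (hab : a ≤ b)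
    (hs : ∀ i, a ≤ i → i < b → ¬ F (u i)) :
    (cc σ u K b : ℝ) - cc σ u K a ≤ ((b : ℝ) - a) * G K := by
  induction b, hab using Nat.le_induction with
  | base => simp
  | succ b hb ih =>
    have h1 := ih (fun i hi1 hi2 => hs i hi1 (by omega))
    have h2 := hG (u b) (hs b hb (by omega)) K
    rw [cc_succ h]
    push_cast
    nlinarith

theorem head_bound (h : Dat σ u) (hF : Thr σ u F) (G : ℕ → ℝ) (hG0 : ∀ m, 0 ≤ G m)
    (hG : ∀ b, ¬ F b → ∀ m, ((pw σ m b).length : ℝ) ≤ G m) (M : ℕ)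
    (hM : ∀ b, (pw σ 1 b).length ≤ M) (K : ℕ) : ∀ e, F (u e) →
    (nf u F (cc σ u K e) : ℝ) - cc σ u K e ≤ M * ∑ j ∈ Finset.range K, G j := by
  induction K with
  | zero =>
    intro e he
    rw [cc_zero, nf_self hF he]
    simp
  | succ K ih =>
    intro e he
    rw [cc_add K 1 e, nf_cc h hF K (cc σ u 1 e)]
    obtain ⟨h1, h2⟩ := nf_spec hF (cc σ u 1 e)
    have h3 := ih _ h2
    have h4 := cc_slow_le h G hG K (cc σ u 1 e) _ h1 (fun i hi1 hi2 => nf_slow hF hi1 hi2)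
    have h5 := (nf_range h hF 1 he).2
    rw [cc_succ h] at h5
    have h6 := hM (u e)
    have h7 : ((nf u F (cc σ u 1 e) : ℝ) - cc σ u 1 e) ≤ M := by
      have : nf u F (cc σ u 1 e) ≤ cc σ u 1 e + M := by omega
      have h8 : (nf u F (cc σ u 1 e) : ℝ) ≤ cc σ u 1 e + M := by exact_mod_cast this
      linarith
    rw [Finset.sum_range_succ]
    have h9 := mul_le_mul_of_nonneg_right h7 (hG0 K)
    nlinarith

theorem tail_bound (h : Dat σ u) (hF : Thr σ u F) (G : ℕ → ℝ) (hG0 : ∀ m, 0 ≤ G m)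
    (hG : ∀ b, ¬ F b → ∀ m, ((pw σ m b).length : ℝ) ≤ G m) (M : ℕ)
    (hM : ∀ b, (pw σ 1 b).length ≤ M) (K : ℕ) : ∀ s, F (u s) →
    (cc σ u K (s + 1) : ℝ) - pf u F (cc σ u K (s + 1)) ≤
      M * ∑ j ∈ Finset.range K, G j + 1 := by
  induction K with
  | zero =>
    intro s hs
    rw [cc_zero, pf_succ hs]
    push_cast
    simp
  | succ K ih =>
    intro s hs
    obtain ⟨a1, a2⟩ := pf_range h hF 1 hs
    have hq : 1 ≤ cc σ u 1 (s + 1) := le_trans (by omega) (cc_ge h 1 (s + 1))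
    rw [cc_add K 1 (s + 1), pf_cc h hF K (cc σ u 1 (s + 1)) hq]
    have h3 := ih _ (pf_fast hF (cc σ u 1 (s + 1)))
    have h4 := cc_slow_le h G hG K (pf u F (cc σ u 1 (s + 1)) + 1) (cc σ u 1 (s + 1)) (by omega)
      (fun i hi1 hi2 => pf_slow (by omega) hi2)
    rw [cc_succ h 1 s] at a2
    have h6 := hM (u s)
    have h7 : ((cc σ u 1 (s + 1) : ℝ) - (pf u F (cc σ u 1 (s + 1)) + 1 : ℕ)) ≤ M := by
      have : cc σ u 1 (s + 1) ≤ (pf u F (cc σ u 1 (s + 1)) + 1) + M := by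
        rw [cc_succ h 1 s] at a1 ⊢; omega
      have h8 : (cc σ u 1 (s + 1) : ℝ) ≤ (pf u F (cc σ u 1 (s + 1)) + 1 : ℕ) + M := by
        exact_mod_cast this
      linarith
    rw [Finset.sum_range_succ]
    have h9 := mul_le_mul_of_nonneg_right h7 (hG0 K)
    nlinarith

/-- length of blocks of age exactly `K` -/
theorem block_bound (h : Dat σ u) (hF : Thr σ u F) (G : ℕ → ℝ) (hG0 : ∀ m, 0 ≤ G m)
    (hG : ∀ b, ¬ F b → ∀ m, ((pw σ m b).length : ℝ) ≤ G m) (M : ℕ)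
    (hM : ∀ b, (pw σ 1 b).length ≤ M) (K : ℕ) {q : ℕ} (hq : 1 ≤ q)
    (h1 : hasCut σ u F K q) (h2 : ¬ hasCut σ u F (K + 1) q) :
    ((wd u F q).length : ℝ) ≤ Bd G M K := by
  obtain ⟨j, hj, hj1, e1, e2⟩ := age_img h hF K hq h1 h2
  have hlt := pf_lt (u := u) (F := F) q hq
  have hnf := (nf_spec hF q).1
  have hjlt := pf_lt (u := u) (F := F) j hj
  obtain ⟨hjnf, hjF⟩ := nf_spec hF j
  obtain ⟨i, hi1, hi2⟩ := age_zero_in h hj1
  rw [cc_succ h] at hi2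
  have hMi := hM (u i)
  have hh := head_bound h hF G hG0 hG M hM K _ hjF
  have ht := tail_bound h hF G hG0 hG M hM K _ (pf_fast hF j)
  have hmid := cc_slow_le h G hG K (pf u F j + 1) (nf u F j) (by omega) (fun i hi1 hi2 => by
    rcases Nat.lt_or_ge i j with h3 | h3
    · exact pf_slow (by omega) h3
    · exact nf_slow hF h3 hi2)
  rw [← nf_cc h hF K j, ← e2] at hh
  rw [← pf_cc h hF K j hj, ← e1] at ht
  have h7 : ((nf u F j : ℝ) - (pf u F j + 1 : ℕ)) ≤ M := by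
    have : nf u F j ≤ (pf u F j + 1) + M := by omega
    have h8 : (nf u F j : ℝ) ≤ (pf u F j + 1 : ℕ) + M := by exact_mod_cast this
    linarith
  have h9 := mul_le_mul_of_nonneg_right h7 (hG0 K)
  rw [wd_length]
  have h10 : ((nf u F q - pf u F q + 1 : ℕ) : ℝ) = nf u F q - pf u F q + 1 := by
    push_cast [Nat.cast_sub (show pf u F q ≤ nf u F q by omega)]
    ring
  rw [h10]
  unfold Bd
  rw [Finset.sum_range_succ]
  have h11 : (0 : ℝ) ≤ (M : ℝ) * G K := mul_nonneg (Nat.cast_nonneg _) (hG0 K)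
  nlinarith

theorem head_le_Bd (h : Dat σ u) (hF : Thr σ u F) (G : ℕ → ℝ) (hG0 : ∀ m, 0 ≤ G m)
    (hG : ∀ b, ¬ F b → ∀ m, ((pw σ m b).length : ℝ) ≤ G m) (M : ℕ)
    (hM : ∀ b, (pw σ 1 b).length ≤ M) (K : ℕ) (e : ℕ) (he : F (u e)) :
    (nf u F (cc σ u K e) : ℝ) - cc σ u K e ≤ Bd G M K := by
  have h1 := head_bound h hF G hG0 hG M hM K e he
  have h2 : (0 : ℝ) ≤ (M : ℝ) * ∑ j ∈ Finset.range K, G j :=
    mul_nonneg (Nat.cast_nonneg _) (Finset.sum_nonneg fun j _ => hG0 j)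
  have h3 : (0 : ℝ) ≤ (M : ℝ) * G K := mul_nonneg (Nat.cast_nonneg _) (hG0 K)
  unfold Bd
  rw [Finset.sum_range_succ]
  nlinarith

theorem tail_le_Bd (h : Dat σ u) (hF : Thr σ u F) (G : ℕ → ℝ) (hG0 : ∀ m, 0 ≤ G m)
    (hG : ∀ b, ¬ F b → ∀ m, ((pw σ m b).length : ℝ) ≤ G m) (M : ℕ)
    (hM : ∀ b, (pw σ 1 b).length ≤ M) (K : ℕ) (s : ℕ) (hs : F (u s)) :
    (cc σ u K (s + 1) : ℝ) - pf u F (cc σ u K (s + 1)) ≤ Bd G M K := by
  have h1 := tail_bound h hF G hG0 hG M hM K s hs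
  have h2 : (0 : ℝ) ≤ (M : ℝ) * ∑ j ∈ Finset.range K, G j :=
    mul_nonneg (Nat.cast_nonneg _) (Finset.sum_nonneg fun j _ => hG0 j)
  have h3 : (0 : ℝ) ≤ (M : ℝ) * G K := mul_nonneg (Nat.cast_nonneg _) (hG0 K)
  unfold Bd
  rw [Finset.sum_range_succ]
  nlinarith

theorem slow_le_Bd (G : ℕ → ℝ) (hG0 : ∀ m, 0 ≤ G m)
    (hG : ∀ b, ¬ F b → ∀ m, ((pw σ m b).length : ℝ) ≤ G m) (M : ℕ) (hM1 : 1 ≤ M) (K : ℕ)
    (b : A) (hb : ¬ F b) : ((pw σ K b).length : ℝ) ≤ Bd G M K := by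
  have h1 := hG b hb K
  have h2 : (0 : ℝ) ≤ (M : ℝ) * ∑ j ∈ Finset.range K, G j :=
    mul_nonneg (Nat.cast_nonneg _) (Finset.sum_nonneg fun j _ => hG0 j)
  have h3 : (1 : ℝ) * G K ≤ (M : ℝ) * G K :=
    mul_le_mul_of_nonneg_right (by exact_mod_cast hM1) (hG0 K)
  have h4 := hG0 K
  unfold Bd
  rw [Finset.sum_range_succ]
  nlinarith

end

end Cnt

end FC
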