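import Pool.Agent.LibFC.CntUpper
import Pool.Agent.LibFC.CntGrowth
import Pool.Agent.LibFC.CntLev

/-!
# One threshold: the counting estimates
-/

set_option autoImplicit false

open Filter

namespace FC

namespace Cnt

/-- the data of a fixed point -/
theorem dat_of_fix {k : ℕ} {σ : Fin k → List (Fin k)} {u : ℕ → Fin k} (h : Fix σ u) : Dat σ u where
  im := h.im
  pos := by
    intro b hb
    have h1 := h.grow b
    have h2 : ∀ m : ℕ, (pw σ (m + 1) b).length = 0 := by
      intro m
      rw [add_comm, pw_add, pw_one, hb]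
      rfl
    obtain ⟨m, hm⟩ := (h1.eventually (Filter.eventually_ge_atTop 1)).exists_forall_of_atTop
    have h3 := hm (m + 1) (by omega)
    rw [h2 m] at h3
    omega

theorem hub_of_fix {k : ℕ} {σ : Fin k → List (Fin k)} {u : ℕ → Fin k} (h : Fix σ u) :
    ∀ N, ∃ K, N < cc σ u K 1 := by
  intro N
  obtain ⟨m, hm⟩ := ((h.grow (u 0)).eventually
    (Filter.eventually_ge_atTop (N + 1))).exists_forall_of_atTop
  refine ⟨m, ?_⟩
  have h1 := hm m le_rfl
  have h2 := cc_succ (dat_of_fix h) m 0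
  rw [cc_at_zero] at h2
  simp only [zero_add] at h2
  omega

theorem thr_of_fix {k : ℕ} {σ : Fin k → List (Fin k)} {u : ℕ → Fin k} (h : Fix σ u) (gr : Gr σ)
    (i j : Fin gr.R) (hij : j.val = i.val + 1) : Thr σ u (fun b => i < gr.lev b) where
  slow := by
    intro b hb c hc
    have := lev_im gr b c hc
    simp only [not_lt] at hb ⊢
    exact le_trans this hb
  fast := by
    intro b hb
    obtain ⟨c, hc, he⟩ := lev_ex gr b
    exact ⟨c, hc, by rw [he]; exact hb⟩
  zero := by
    obtain ⟨b, hb⟩ := gr.lev_surj j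
    have h1 := lev_u0 h gr b
    rw [hb] at h1
    have h2 : i < j := by rw [Fin.lt_def]; omega
    exact lt_of_lt_of_le h2 h1
  inf := by
    intro N
    obtain ⟨t, ht, he⟩ := top_inf h gr N
    refine ⟨t, ht, ?_⟩
    obtain ⟨b, hb⟩ := gr.lev_surj j
    have h1 := lev_u0 h gr b
    rw [hb] at h1
    have h2 : i < j := by rw [Fin.lt_def]; omega
    rw [he]
    exact lt_of_lt_of_le h2 h1

section
variable {A : Type*} {σ : A → List A} {u : ℕ → A} {F : A → Prop}

/-- block words become arbitrarily long, so there are always new ones -/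
theorem new_nonempty [DecidableEq A] (h : Dat σ u) (hF : Thr σ u F)
    (hub : ∀ N, ∃ K, N < cc σ u K 1) (S : Finset (List A)) (hS : ∀ V, V ∈ S ↔ V ∈ S0 σ u F)
    {t : ℕ} (ht : ¬ F (u t)) (hgrow : ∀ N, ∃ L, N ≤ (pw σ L (u t)).length) (K : ℕ) :
    (newS (th σ u F) S K).Nonempty := by
  classical
  by_contra hcon
  rw [Finset.not_nonempty_iff_eq_empty] at hcon
  set 𝒰 : Finset (List A) := (Finset.range K).biUnion (fun K' => S.image ((th σ u F)^[K']))
    with h𝒰
  have hsub : S.image ((th σ u F)^[K]) ⊆ 𝒰 := by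
    intro W hW
    by_contra hW'
    have : W ∈ newS (th σ u F) S K := by
      unfold newS
      exact Finset.mem_sdiff.2 ⟨hW, hW'⟩
    rw [hcon] at this
    exact absurd this (Finset.notMem_empty _)
  have hall : ∀ L : ℕ, ∀ V ∈ S, (th σ u F)^[L] V ∈ 𝒰 := by
    intro L
    induction L using Nat.strong_induction_on with
    | _ L ih =>
      intro V hV
      rcases Nat.lt_or_ge L K with hlt | hge
      · rw [h𝒰, Finset.mem_biUnion]
        exact ⟨L, Finset.mem_range.2 hlt, Finset.mem_image_of_mem _ hV⟩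
      · have h1 := hsub (Finset.mem_image_of_mem ((th σ u F)^[K]) hV)
        rw [h𝒰, Finset.mem_biUnion] at h1
        obtain ⟨K', hK', h2⟩ := h1
        rw [Finset.mem_range] at hK'
        obtain ⟨V', hV', h3⟩ := Finset.mem_image.1 h2
        have h4 : (th σ u F)^[L] V = (th σ u F)^[L - K + K'] V' := by
          rw [Function.iterate_add_apply, h3, ← Function.iterate_add_apply,
            Nat.sub_add_cancel hge]
        rw [h4]
        exact ih _ (by omega) V' hV'
  have hword : ∀ q, 1 ≤ q → wd u F q ∈ 𝒰 := by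
    intro q hq
    obtain ⟨L, h1, h2⟩ := exists_exact h hF hub hq
    obtain ⟨V, hV, he⟩ := mem_S0_of_age h hF L hq h1 h2
    rw [← he]
    exact hall L V ((hS V).2 hV)
  -- lengths are bounded
  obtain ⟨L, hL⟩ := hgrow (∑ W ∈ 𝒰, W.length)
  have ht1 : 1 ≤ t := by
    by_contra hcon'
    have : t = 0 := by omega
    rw [this] at ht
    exact ht hF.zero
  have hq : 1 ≤ cc σ u L t := le_trans ht1 (cc_ge h L t)
  have h1 := hword _ hq
  have h2 : (wd u F (cc σ u L t)).length ≤ ∑ W ∈ 𝒰, W.length :=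
    Finset.single_le_sum (f := fun W : List A => W.length) (fun _ _ => Nat.zero_le _) h1
  rw [wd_length] at h2
  have i1 := pf_img h hF L t ht1
  have i2 := nf_img h hF L t
  have h3 := pf_lt (u := u) (F := F) t ht1
  have h4 := nf_spec hF t
  have h5 : t + 1 ≤ nf u F t := by
    by_contra hcon'
    have : nf u F t = t := by omega
    rw [this] at h4
    exact ht h4.2
  have m1 := (cc_strict h L).monotone (show pf u F t + 1 ≤ t by omega)
  have m2 := (cc_strict h L).monotone h5
  rw [cc_succ h] at m2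
  omega

end

theorem iter_inj_le {X : Type*} (f : X → X) {N N' : ℕ} (hN : N ≤ N')
    (h : ∀ (D : ℕ) (x y : X), f^[D] (f^[N] x) = f^[D] (f^[N] y) → f^[N] x = f^[N] y) :
    ∀ (D : ℕ) (x y : X), f^[D] (f^[N'] x) = f^[D] (f^[N'] y) → f^[N'] x = f^[N'] y := by
  intro D x y hxy
  obtain ⟨d, rfl⟩ := Nat.exists_eq_add_of_le hN
  rw [Function.iterate_add_apply, Function.iterate_add_apply] at hxy ⊢
  exact h D _ _ hxy

/-- the estimates for one threshold -/
theorem per_threshold {k : ℕ} {σ : Fin k → List (Fin k)} {u : ℕ → Fin k} (h : Fix σ u)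
    (gr : Gr σ) (i j : Fin gr.R) (hij : j.val = i.val + 1) :
    ∃ (ν : ℕ) (C : ℝ) (D0 : ℕ), 1 ≤ ν ∧ 0 ≤ C ∧ ∀ n : ℕ, 1 ≤ n →
      (∀ K, kf (gr.al j) (gr.be j) n + D0 ≤ K →
        ∃ MF : Finset (List (Fin k)), (∀ w ∈ MF,
          (∃ p, win u p n = w ∧ wcut σ u K p n ∧ ¬ wcut σ u (K + 1) p n) ∧
          ∀ p, win u p n = w → wcut σ u K p n) ∧
          (ν : ℝ) * n - C * gf (gr.al i) (gr.be i) K ≤ MF.card) ∧
      (∀ D1, D0 ≤ D1 → ∃ U : Finset (List (Fin k)),
        (∀ K ∈ Finset.Ico (kf (gr.al j) (gr.be j) n + D1) (kf (gr.al i) (gr.be i) n), ∀ p,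
          wcut σ u K p n → ¬ wcut σ u (K + 1) p n → win u p n ∈ U) ∧
        (U.card : ℝ) ≤ ν * ((kf (gr.al i) (gr.be i) n -
          (kf (gr.al j) (gr.be j) n + D1) : ℕ) : ℝ) * n + C * n) := by
  classical
  set F : Fin k → Prop := fun b => i < gr.lev b with hFdef
  have hd := dat_of_fix h
  have hF : Thr σ u F := thr_of_fix h gr i j hij
  have hub := hub_of_fix h
  set S : Finset (List (Fin k)) := (S0_finite hd hF).toFinset with hSdef
  have hS : ∀ V, V ∈ S ↔ V ∈ S0 σ u F := fun V => Set.Finite.mem_toFinset _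
  -- a slow letter
  obtain ⟨b0, hb0⟩ := gr.lev_surj i
  obtain ⟨t0, ht0⟩ := h.all b0
  have hslow0 : ¬ F (u t0) := by
    intro hcon
    have h1 : i < gr.lev (u t0) := hcon
    rw [ht0, hb0] at h1
    exact lt_irrefl _ h1
  have hne : ∀ K, (newS (th σ u F) S K).Nonempty :=
    new_nonempty hd hF hub S hS hslow0 (by
      intro N
      obtain ⟨m, hm⟩ := ((h.grow (u t0)).eventually
        (Filter.eventually_ge_atTop N)).exists_forall_of_atTop
      exact ⟨m, hm m le_rfl⟩)
  obtain ⟨ν, C1, hν1, hν2, hν3⟩ := orbit_count (th σ u F) S hne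
  -- sizes
  obtain ⟨Cs, hCs, hslow⟩ := gr_slow gr
  set G : ℕ → ℝ := fun m => Cs * gf (gr.al i) (gr.be i) m with hG
  have hgpos : ∀ m, 0 < gf (gr.al i) (gr.be i) m := gf_pos _ _ (gr.one_lt_be i)
  have hg1 : ∀ m, 1 ≤ gf (gr.al i) (gr.be i) m := by
    intro m
    refine le_trans ?_ (gf_ge_pow _ _ (gr.one_lt_be i) m)
    exact one_le_pow₀ (gr.one_lt_be i).le
  have hG0 : ∀ m, 0 ≤ G m := fun m => mul_nonneg hCs.le (hgpos m).le
  have hGs : ∀ b, ¬ F b → ∀ m, ((pw σ m b).length : ℝ) ≤ G m := by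
    intro b hb m
    apply hslow i b m
    rw [hFdef] at hb
    simpa using hb
  set M : ℕ := ∑ b, (pw σ 1 b).length + 1 with hMdef
  have hM : ∀ b, (pw σ 1 b).length ≤ M := by
    intro b
    have hsl : (pw σ 1 b).length ≤ ∑ b, (pw σ 1 b).length :=
      Finset.single_le_sum (f := fun b => (pw σ 1 b).length)
        (fun _ _ => Nat.zero_le _) (Finset.mem_univ b)
    omega
  obtain ⟨K1, hK1, hsum⟩ := gf_sum_le (gr.al i) (gr.be i) (gr.one_lt_be i)
  set H : ℝ := 2 * M * Cs * K1 + 2 with hH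
  have hH0 : 0 ≤ H := by
    have : (0 : ℝ) ≤ 2 * M * Cs * K1 := by positivity
    linarith
  have hBd : ∀ K, Bd G M K ≤ H * gf (gr.al i) (gr.be i) K := by
    intro K
    unfold Bd
    rw [hG, ← Finset.mul_sum]
    have h1 := hsum K
    have h2 : (0 : ℝ) ≤ 2 * M * Cs := by positivity
    have h3 := mul_le_mul_of_nonneg_left h1 h2
    have h4 := hg1 K
    calc 2 * (M : ℝ) * (Cs * ∑ j ∈ Finset.range (K + 1), gf (gr.al i) (gr.be i) j) + 2
        = 2 * M * Cs * ∑ j ∈ Finset.range (K + 1), gf (gr.al i) (gr.be i) j + 2 := by ring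
      _ ≤ 2 * M * Cs * (K1 * gf (gr.al i) (gr.be i) K) + 2 * gf (gr.al i) (gr.be i) K := by
          linarith
      _ = H * gf (gr.al i) (gr.be i) K := by rw [hH]; ring
  obtain ⟨Dg, hfast⟩ := gr_fast gr H
  obtain ⟨Cq, hsumkf⟩ := sum_kf gr
  obtain ⟨N1, hN1⟩ := iter_inj (lam σ u F)
  obtain ⟨N2, hN2⟩ := iter_inj (rho σ u F)
  have hN1' := iter_inj_le (lam σ u F) (le_max_left N1 N2) hN1
  have hN2' := iter_inj_le (rho σ u F) (le_max_right N1 N2) hN2
  set N := max N1 N2 with hNdef
  -- consequences of sizes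
  have hFj : ∀ b, F b → j ≤ gr.lev b := by
    intro b hb
    have h1 : i < gr.lev b := hb
    rw [Fin.le_def]
    rw [Fin.lt_def] at h1
    omega
  have room : ∀ n m : ℕ, 1 ≤ n → kf (gr.al j) (gr.be j) n + Dg ≤ m → ∀ s, F (u s) →
      cc σ u m s + n ≤ pf u F (cc σ u m (s + 1)) := by
    intro n m hn hm s hs
    have h1 := hfast i j hij n m (u s) hn hm (hFj _ hs)
    have h2 := tail_le_Bd hd hF G hG0 hGs M hM m s hs
    have h3 := hBd m
    have h4 := cc_succ hd m s
    have h5 : (cc σ u m (s + 1) : ℝ) = cc σ u m s + (pw σ m (u s)).length := by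
      rw [h4]; push_cast; ring
    have h6 : (cc σ u m s : ℝ) + n ≤ pf u F (cc σ u m (s + 1)) := by linarith
    exact_mod_cast h6
  have room' : ∀ n m : ℕ, 1 ≤ n → kf (gr.al j) (gr.be j) n + Dg ≤ m → ∀ e, F (u e) →
      nf u F (cc σ u m e) + n ≤ cc σ u m (e + 1) := by
    intro n m hn hm e he
    have h1 := hfast i j hij n m (u e) hn hm (hFj _ he)
    have h2 := head_le_Bd hd hF G hG0 hGs M hM m e he
    have h3 := hBd m
    have h4 := cc_succ hd m e
    have h5 : (cc σ u m (e + 1) : ℝ) = cc σ u m e + (pw σ m (u e)).length := by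
      rw [h4]; push_cast; ring
    have h6 : (nf u F (cc σ u m e) : ℝ) + n ≤ cc σ u m (e + 1) := by linarith
    exact_mod_cast h6
  have hlong : ∀ n m : ℕ, 1 ≤ n → kf (gr.al j) (gr.be j) n + Dg ≤ m → ∀ b, F b →
      n ≤ (pw σ m b).length := by
    intro n m hn hm b hb
    have h1 := hfast i j hij n m b hn hm (hFj _ hb)
    have h2 : 0 ≤ H * gf (gr.al i) (gr.be i) m := mul_nonneg hH0 (hgpos m).le
    have h3 : (n : ℝ) ≤ (pw σ m b).length := by linarith
    exact_mod_cast h3
  set T : ℝ := 2 * (Fintype.card (Fin k) * M * (H + 1)) with hT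
  have hT0 : 0 ≤ T := by positivity
  refine ⟨ν, max (ν * H) (C1 + T * |Cq|), Dg + N, hν1, le_max_of_le_left (by positivity), ?_⟩
  intro n hn
  have hnR : (1 : ℝ) ≤ n := by exact_mod_cast hn
  constructor
  · -- lower
    intro K hK
    obtain ⟨MF, hMF1, hMF2⟩ := lower_one hd hF hub S hS n K (hlong n K hn (by omega))
      (room n K hn (by omega)) (H * gf (gr.al i) (gr.be i) K) (fun q hq h1 h2 =>
        le_trans (block_bound hd hF G hG0 hGs M hM K hq h1 h2) (hBd K))
    refine ⟨MF, hMF1, ?_⟩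
    have h1 : (ν : ℝ) ≤ (newS (th σ u F) S K).card := by exact_mod_cast hν2 K
    have h2 : (ν : ℝ) * H * gf (gr.al i) (gr.be i) K ≤
        max (ν * H) (C1 + T * |Cq|) * gf (gr.al i) (gr.be i) K :=
      mul_le_mul_of_nonneg_right (le_max_left _ _) (hgpos K).le
    rcases le_or_gt (H * gf (gr.al i) (gr.be i) K) n with h3 | h3
    · have h4 := mul_le_mul_of_nonneg_right h1 (show 0 ≤ (n : ℝ) - H * gf (gr.al i) (gr.be i) K by
        linarith)
      nlinarith
    · have h4 : (ν : ℝ) * n - ν * H * gf (gr.al i) (gr.be i) K ≤ 0 := by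
        have h5 : (0 : ℝ) ≤ ν := Nat.cast_nonneg _
        nlinarith
      have h6 : (0 : ℝ) ≤ MF.card := Nat.cast_nonneg _
      linarith
  · -- upper
    intro D1 hD1
    set a : ℕ := kf (gr.al j) (gr.be j) n + D1 with ha
    set b : ℕ := kf (gr.al i) (gr.be i) n with hb
    obtain ⟨UM, hUM1, hUM2⟩ := upper_main hd hF N hN1' hN2' (kf (gr.al j) (gr.be j) n + Dg) n
      (room n _ hn le_rfl) (room' n _ hn le_rfl)
      ((Finset.Ico a b).biUnion (fun K => S.image ((th σ u F)^[K])))
    have hcut : ∀ K, a ≤ K → ∃ U : Finset (List (Fin k)),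
        (∀ p, wcut σ u K p n → ¬ wcut σ u (K + 1) p n →
          (∃ q, 1 ≤ q ∧ p ≤ pf u F q ∧ nf u F q < p + n ∧ hasCut σ u F K q ∧
            ¬ hasCut σ u F (K + 1) q) ∨ win u p n ∈ U) ∧
        (U.card : ℝ) ≤ T * gf (gr.al i) (gr.be i) K := by
      intro K hK
      have hBn : (⌊H * gf (gr.al i) (gr.be i) K⌋₊ : ℝ) ≤ H * gf (gr.al i) (gr.be i) K :=
        Nat.floor_le (mul_nonneg hH0 (hgpos K).le)
      obtain ⟨U, hU1, hU2⟩ := upper_cut hd hF M hM n K ⌊H * gf (gr.al i) (gr.be i) K⌋₊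
        (fun b hb => by
          apply Nat.le_floor
          exact le_trans (slow_le_Bd G hG0 hGs M (by omega) K b hb) (hBd K))
        (fun e he => by
          have h1 := head_le_Bd hd hF G hG0 hGs M hM K e he
          have h2 := hBd K
          have h3 := (nf_range hd hF K he).1
          have h4 : nf u F (cc σ u K e) - cc σ u K e ≤ ⌊H * gf (gr.al i) (gr.be i) K⌋₊ := by
            apply Nat.le_floor
            rw [Nat.cast_sub h3]
            linarith
          omega)
        (fun s hs => by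
          have h1 := tail_le_Bd hd hF G hG0 hGs M hM K s hs
          have h2 := hBd K
          have h3 := (pf_range hd hF K hs).2
          have h4 : cc σ u K (s + 1) - pf u F (cc σ u K (s + 1)) ≤
              ⌊H * gf (gr.al i) (gr.be i) K⌋₊ := by
            apply Nat.le_floor
            rw [Nat.cast_sub h3.le]
            linarith
          omega)
      refine ⟨U, hU1, ?_⟩
      have h5 : (U.card : ℝ) ≤ 2 * (Fintype.card (Fin k) * M *
          ((⌊H * gf (gr.al i) (gr.be i) K⌋₊ : ℝ) + 1)) := by exact_mod_cast hU2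
      refine le_trans h5 ?_
      have h6 : ((⌊H * gf (gr.al i) (gr.be i) K⌋₊ : ℝ) + 1) ≤
          (H + 1) * gf (gr.al i) (gr.be i) K := by
        have := hg1 K
        linarith
      have h7 : (0 : ℝ) ≤ Fintype.card (Fin k) * M := by positivity
      have h8 := mul_le_mul_of_nonneg_left h6 h7
      rw [hT]
      linarith
    choose! UC hUC1 hUC2 using hcut
    refine ⟨UM ∪ (Finset.Ico a b).biUnion UC, ?_, ?_⟩
    · intro K hK p hp hp'
      have hK' := Finset.mem_Ico.1 hK
      rcases hUC1 K hK'.1 p hp hp' with ⟨q, q1, q2, q3, q4, q5⟩ | hmem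
      · apply Finset.mem_union_left
        apply hUM1 p q q1 q2 q3 (hasCut_mono (by omega) q4)
        rw [Finset.mem_biUnion]
        obtain ⟨V, hV, he⟩ := mem_S0_of_age hd hF K q1 q4 q5
        exact ⟨K, hK, Finset.mem_image.2 ⟨V, (hS V).2 hV, he⟩⟩
      · apply Finset.mem_union_right
        rw [Finset.mem_biUnion]
        exact ⟨K, hK, hmem⟩
    · have h1 : ((UM ∪ (Finset.Ico a b).biUnion UC).card : ℝ) ≤
          UM.card + ((Finset.Ico a b).biUnion UC).card := by
        exact_mod_cast Finset.card_union_le _ _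
      have h2 : (((Finset.Ico a b).biUnion UC).card : ℝ) ≤
          ∑ K ∈ Finset.Ico a b, ((UC K).card : ℝ) := by
        exact_mod_cast Finset.card_biUnion_le
      have h3 : ∑ K ∈ Finset.Ico a b, ((UC K).card : ℝ) ≤
          ∑ K ∈ Finset.Ico a b, T * gf (gr.al i) (gr.be i) K :=
        Finset.sum_le_sum fun K hK => hUC2 K (Finset.mem_Ico.1 hK).1
      have h4 : ∑ K ∈ Finset.Ico a b, T * gf (gr.al i) (gr.be i) K ≤ T * (|Cq| * n) := by
        rw [← Finset.mul_sum]
        apply mul_le_mul_of_nonneg_left _ hT0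
        calc ∑ K ∈ Finset.Ico a b, gf (gr.al i) (gr.be i) K
            ≤ ∑ K ∈ Finset.range b, gf (gr.al i) (gr.be i) K := by
              apply Finset.sum_le_sum_of_subset_of_nonneg
              · intro K hK
                exact Finset.mem_range.2 (Finset.mem_Ico.1 hK).2
              · intro K _ _; exact (hgpos K).le
          _ ≤ Cq * n := hsumkf i n hn
          _ ≤ |Cq| * n := mul_le_mul_of_nonneg_right (le_abs_self _) (by linarith)
      have h5 : (((Finset.Ico a b).biUnion (fun K => S.image ((th σ u F)^[K]))).card : ℝ) ≤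
          ν * ((b - a : ℕ) : ℝ) + C1 := by
        rcases le_or_gt a b with hab | hab
        · exact_mod_cast hν3 a b hab
        · rw [Finset.Ico_eq_empty (by omega)]
          simp only [Finset.biUnion_empty, Finset.card_empty, Nat.cast_zero]
          positivity
      have h6 : (UM.card : ℝ) ≤ (ν * ((b - a : ℕ) : ℝ) + C1) * n := by
        have h7 : (UM.card : ℝ) ≤
            (((Finset.Ico a b).biUnion (fun K => S.image ((th σ u F)^[K]))).card : ℝ) * n := by
          exact_mod_cast hUM2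
        exact le_trans h7 (mul_le_mul_of_nonneg_right h5 (by linarith))
      have h8 : (C1 + T * |Cq|) * n ≤ max (ν * H) (C1 + T * |Cq|) * n :=
        mul_le_mul_of_nonneg_right (le_max_right _ _) (by linarith)
      calc ((UM ∪ (Finset.Ico a b).biUnion UC).card : ℝ)
          ≤ (ν * ((b - a : ℕ) : ℝ) + C1) * n + T * (|Cq| * n) := by linarith
        _ = ν * ((b - a : ℕ) : ℝ) * n + (C1 + T * |Cq|) * n := by ring
        _ ≤ _ := by linarith

end Cnt

end FC
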