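import Pool.Agent.LibFC.CntLower

/-!
# Upper bounds for the number of factors, sorted by window age
-/

set_option autoImplicit false

namespace FC

namespace Cnt

section
variable {A : Type*} {σ : A → List A} {u : ℕ → A} {F : A → Prop}

/-- windows with a cut of a level at which all images are longer than `n` -/
theorem upper_all [Fintype A] [DecidableEq A] (h : Dat σ u) (n Ka : ℕ)
    (hn : ∀ b, n ≤ (pw σ Ka b).length) :
    ∃ U : Finset (List A), (∀ p, wcut σ u Ka p n → win u p n ∈ U) ∧
      U.card ≤ Fintype.card A * Fintype.card A * n := by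
  classical
  have hex : ∃ r2 : A × A → ℕ, ∀ j, u (r2 (u j, u (j + 1))) = u j ∧
      u (r2 (u j, u (j + 1)) + 1) = u (j + 1) := by
    refine ⟨fun x => if hx : ∃ j, u j = x.1 ∧ u (j + 1) = x.2 then hx.choose else 0, fun j => ?_⟩
    have hx : ∃ j', u j' = ((u j, u (j + 1)) : A × A).1 ∧
        u (j' + 1) = ((u j, u (j + 1)) : A × A).2 := ⟨j, rfl, rfl⟩
    beta_reduce
    rw [dif_pos hx]
    exact hx.choose_spec
  obtain ⟨r2, hr2⟩ := hex
  refine ⟨((Finset.univ : Finset (A × A)) ×ˢ Finset.range n).image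
    (fun x => win u (cc σ u Ka (r2 x.1 + 1) - x.2) n), ?_, ?_⟩
  · rintro p ⟨j, hj1, hj2⟩
    have hj : 1 ≤ j := by
      by_contra hcon
      have : j = 0 := by omega
      rw [this, cc_at_zero] at hj1
      omega
    obtain ⟨j0, rfl⟩ := Nat.exists_eq_add_of_le' hj
    rw [Finset.mem_image]
    refine ⟨((u j0, u (j0 + 1)), cc σ u Ka (j0 + 1) - p), ?_, ?_⟩
    · rw [Finset.mem_product]
      exact ⟨Finset.mem_univ _, Finset.mem_range.2 (by omega)⟩
    · obtain ⟨h1, h2⟩ := hr2 j0
      set j' := r2 (u j0, u (j0 + 1)) with hj'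
      have hag : ∀ t, t < 2 → u (j0 + t) = u (j' + t) := by
        intro t ht
        have : t = 0 ∨ t = 1 := by omega
        rcases this with rfl | rfl
        · simpa using h1.symm
        · exact h2.symm
      have hlen := agree_len h Ka hag 1 (by omega)
      have hval := agree_val h Ka hag
      have e1 := cc_succ h Ka j0
      have e2 := cc_succ h Ka (j0 + 1)
      have e3 := hn (u j0)
      have e4 := hn (u (j0 + 1))
      rw [win_eq_iff]
      intro t ht
      have h3 := hval (p + t - cc σ u Ka j0) (by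
        have : j0 + 2 = j0 + 1 + 1 := rfl
        rw [this]
        omega)
      rw [Nat.add_sub_cancel' (by omega)] at h3
      rw [h3]
      congr 1
      omega
  · refine le_trans Finset.card_image_le ?_
    rw [Finset.card_product, Finset.card_univ, Fintype.card_prod, Finset.card_range]

/-- representatives of letters -/
theorem exists_rep (u : ℕ → A) : ∃ rep : A → ℕ, ∀ i, u (rep (u i)) = u i := by
  classical
  refine ⟨fun b => if hx : ∃ j, u j = b then hx.choose else 0, fun i => ?_⟩
  have hx : ∃ j, u j = u i := ⟨i, rfl⟩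
  simp only
  rw [dif_pos hx]
  exact hx.choose_spec

/-- a window inside one image of level `K+1`, with a cut of level `K` -/
theorem loc (h : Dat σ u) (rep : A → ℕ) (hrep : ∀ i, u (rep (u i)) = u i) (M : ℕ)
    (hM : ∀ b, (pw σ 1 b).length ≤ M) (K n i p j : ℕ) (h1 : cc σ u (K + 1) i ≤ p)
    (h2 : p + n ≤ cc σ u (K + 1) (i + 1)) (hj1 : p < cc σ u K j) (hj2 : cc σ u K j < p + n) :
    ∃ r, r < M ∧
      win u p n = win u (cc σ u K (cc σ u 1 (rep (u i)) + r) - (cc σ u K j - p)) n := by
  rw [cc_add K 1 i] at h1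
  rw [cc_add K 1 (i + 1)] at h2
  have hm := cc_strict h K
  have k1 : cc σ u 1 i < j := hm.lt_iff_lt.1 (by omega)
  have k2 : j < cc σ u 1 (i + 1) := hm.lt_iff_lt.1 (by omega)
  have e1 := cc_succ h 1 i
  have e2 := hM (u i)
  obtain ⟨r, rfl⟩ := Nat.exists_eq_add_of_le k1.le
  refine ⟨r, by omega, ?_⟩
  set i' := rep (u i) with hi'
  have hag : ∀ t, t < 1 → u (i + t) = u (i' + t) := by
    intro t ht
    have : t = 0 := by omega
    subst this
    simpa using (hrep i).symm
  have hval1 := agree_val h 1 hag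
  have hag1 : ∀ t, t < (pw σ 1 (u i)).length → u (cc σ u 1 i + t) = u (cc σ u 1 i' + t) := by
    intro t ht
    exact hval1 t (by omega)
  have hlen := agree_len h K hag1 r (by omega)
  have hval := agree_val h K hag1
  rw [← e1] at hval
  rw [win_eq_iff]
  intro t ht
  have h3 := hval (p + t - cc σ u K (cc σ u 1 i)) (by omega)
  rw [Nat.add_sub_cancel' (by omega)] at h3
  rw [h3]
  congr 1
  omega

/-- a window of exact age `K` lies in one image of level `K+1` -/
theorem exists_in (h : Dat σ u) (K n p : ℕ) (hc : ¬ wcut σ u (K + 1) p n) :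
    ∃ i, cc σ u (K + 1) i ≤ p ∧ p + n ≤ cc σ u (K + 1) (i + 1) := by
  obtain ⟨i, h1, h2⟩ := exists_idx h (K + 1) p
  refine ⟨i, h1, ?_⟩
  by_contra hcon
  push Not at hcon
  exact hc ⟨i + 1, h2, hcon⟩

theorem upper_level [Fintype A] [DecidableEq A] (h : Dat σ u) (M : ℕ)
    (hM : ∀ b, (pw σ 1 b).length ≤ M) (n K : ℕ) :
    ∃ U : Finset (List A), (∀ p, wcut σ u K p n → ¬ wcut σ u (K + 1) p n → win u p n ∈ U) ∧
      U.card ≤ Fintype.card A * M * n := by
  classical
  obtain ⟨rep, hrep⟩ := exists_rep u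
  refine ⟨(((Finset.univ : Finset A) ×ˢ Finset.range M) ×ˢ Finset.range n).image
    (fun x => win u (cc σ u K (cc σ u 1 (rep x.1.1) + x.1.2) - x.2) n), ?_, ?_⟩
  · rintro p ⟨j, hj1, hj2⟩ hc
    obtain ⟨i, h1, h2⟩ := exists_in h K n p hc
    obtain ⟨r, hr, he⟩ := loc h rep hrep M hM K n i p j h1 h2 hj1 hj2
    rw [Finset.mem_image]
    refine ⟨((u i, r), cc σ u K j - p), ?_, he.symm⟩
    simp only [Finset.mem_product, Finset.mem_univ, Finset.mem_range, true_and]
    exact ⟨hr, by omega⟩
  · refine le_trans Finset.card_image_le ?_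
    rw [Finset.card_product, Finset.card_product, Finset.card_univ, Finset.card_range,
      Finset.card_range]

/-- windows of exact age `K`: the block of the first cut is inside, or few windows -/
theorem upper_cut [Fintype A] [DecidableEq A] (h : Dat σ u) (hF : Thr σ u F) (M : ℕ)
    (hM : ∀ b, (pw σ 1 b).length ≤ M) (n K Bn : ℕ)
    (hslow : ∀ b, ¬ F b → (pw σ K b).length ≤ Bn)
    (hhead : ∀ e, F (u e) → nf u F (cc σ u K e) ≤ cc σ u K e + Bn)
    (htail : ∀ s, F (u s) → cc σ u K (s + 1) ≤ pf u F (cc σ u K (s + 1)) + Bn) :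
    ∃ U : Finset (List A), (∀ p, wcut σ u K p n → ¬ wcut σ u (K + 1) p n →
        (∃ q, 1 ≤ q ∧ p ≤ pf u F q ∧ nf u F q < p + n ∧ hasCut σ u F K q ∧
          ¬ hasCut σ u F (K + 1) q) ∨ win u p n ∈ U) ∧
      U.card ≤ 2 * (Fintype.card A * M * (Bn + 1)) := by
  classical
  obtain ⟨rep, hrep⟩ := exists_rep u
  set U1 := (((Finset.univ : Finset A) ×ˢ Finset.range M) ×ˢ Finset.range (Bn + 1)).image
    (fun x => win u (cc σ u K (cc σ u 1 (rep x.1.1) + x.1.2) - x.2) n) with hU1
  set U2 := (((Finset.univ : Finset A) ×ˢ Finset.range M) ×ˢ Finset.range (Bn + 1)).image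
    (fun x => win u (cc σ u K (cc σ u 1 (rep x.1.1) + x.1.2) - (n - x.2)) n) with hU2
  have hcard : ∀ f : (A × ℕ) × ℕ → List A,
      ((((Finset.univ : Finset A) ×ˢ Finset.range M) ×ˢ Finset.range (Bn + 1)).image f).card ≤
        Fintype.card A * M * (Bn + 1) := by
    intro f
    refine le_trans Finset.card_image_le ?_
    rw [Finset.card_product, Finset.card_product, Finset.card_univ, Finset.card_range,
      Finset.card_range]
  refine ⟨U1 ∪ U2, ?_, ?_⟩
  · rintro p ⟨j, hj1, hj2⟩ hc
    obtain ⟨i, h1, h2⟩ := exists_in h K n p hc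
    -- first cut
    have hex : ∃ j, p < cc σ u K j := ⟨j, hj1⟩
    have f1 := Nat.find_spec hex
    have f2 : Nat.find hex ≤ j := Nat.find_min' hex hj1
    have f3 : 1 ≤ Nat.find hex := by
      by_contra hcon
      have : Nat.find hex = 0 := by omega
      rw [this, cc_at_zero] at f1
      omega
    obtain ⟨j0, hj0⟩ := Nat.exists_eq_add_of_le' f3
    have f4 : cc σ u K j0 ≤ p := by
      by_contra hcon
      push Not at hcon
      have := Nat.find_min' hex hcon
      omega
    rw [hj0] at f1 f2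
    have f5 := (cc_strict h K).monotone f2
    have hq1 : 1 ≤ cc σ u K (j0 + 1) := by omega
    have hplt := pf_lt (u := u) (F := F) (cc σ u K (j0 + 1)) hq1
    have hnle := (nf_spec hF (cc σ u K (j0 + 1))).1
    rcases Nat.lt_or_ge (pf u F (cc σ u K (j0 + 1))) p with c1 | c1
    · -- left part cut
      right
      obtain ⟨r, hr, he⟩ := loc h rep hrep M hM K n i p (j0 + 1) h1 h2 f1 (by omega)
      apply Finset.mem_union_left
      rw [hU1, Finset.mem_image]
      refine ⟨((u i, r), cc σ u K (j0 + 1) - p), ?_, he.symm⟩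
      simp only [Finset.mem_product, Finset.mem_univ, Finset.mem_range, true_and]
      refine ⟨hr, ?_⟩
      by_cases hFj : F (u j0)
      · have := htail j0 hFj
        omega
      · have := hslow _ hFj
        have e := cc_succ h K j0
        omega
    · rcases Nat.lt_or_ge (nf u F (cc σ u K (j0 + 1))) (p + n) with c2 | c2
      · left
        refine ⟨cc σ u K (j0 + 1), hq1, c1, c2, ⟨j0 + 1, hplt, hnle⟩, ?_⟩
        rintro ⟨j', hj1', hj2'⟩
        exact hc ⟨j', by omega, by omega⟩
      · right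
        -- last cut
        obtain ⟨j2, g1, g2⟩ : ∃ j2, cc σ u K j2 < p + n ∧ p + n ≤ cc σ u K (j2 + 1) := by
          obtain ⟨i2, a1, a2⟩ := exists_idx h K (p + n - 1)
          exact ⟨i2, by omega, by omega⟩
        have g3 : j0 + 1 ≤ j2 := by
          by_contra hcon
          push Not at hcon
          have := (cc_strict h K).monotone (show j2 + 1 ≤ j0 + 1 by omega)
          omega
        have g4 := (cc_strict h K).monotone g3
        obtain ⟨r, hr, he⟩ := loc h rep hrep M hM K n i p j2 h1 h2 (by omega) g1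
        apply Finset.mem_union_right
        rw [hU2, Finset.mem_image]
        refine ⟨((u i, r), p + n - cc σ u K j2), ?_, ?_⟩
        · simp only [Finset.mem_product, Finset.mem_univ, Finset.mem_range, true_and]
          refine ⟨hr, ?_⟩
          by_cases hFj : F (u j2)
          · have h5 := hhead j2 hFj
            have h6 := (blk_eq hF hq1 (show pf u F (cc σ u K (j0 + 1)) < cc σ u K j2 by omega)
              (by omega)).2
            omega
          · have := hslow _ hFj
            have e := cc_succ h K j2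
            omega
        · rw [he]
          congr 2
          omega
  · refine le_trans (Finset.card_union_le _ _) ?_
    have a1 := hcard (fun x => win u (cc σ u K (cc σ u 1 (rep x.1.1) + x.1.2) - x.2) n)
    have a2 := hcard (fun x => win u (cc σ u K (cc σ u 1 (rep x.1.1) + x.1.2) - (n - x.2)) n)
    rw [← hU1] at a1
    rw [← hU2] at a2
    omega

/-- windows around old blocks with words in a given finite set -/
theorem upper_main [DecidableEq A] (h : Dat σ u) (hF : Thr σ u F) (N : ℕ)
    (hN : ∀ (D : ℕ) (x y : A), (lam σ u F)^[D] ((lam σ u F)^[N] x) =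
      (lam σ u F)^[D] ((lam σ u F)^[N] y) → (lam σ u F)^[N] x = (lam σ u F)^[N] y)
    (hN' : ∀ (D : ℕ) (x y : A), (rho σ u F)^[D] ((rho σ u F)^[N] x) =
      (rho σ u F)^[D] ((rho σ u F)^[N] y) → (rho σ u F)^[N] x = (rho σ u F)^[N] y)
    (D n : ℕ) (hD : ∀ s, F (u s) → cc σ u D s + n ≤ pf u F (cc σ u D (s + 1)))
    (hD' : ∀ e, F (u e) → nf u F (cc σ u D e) + n ≤ cc σ u D (e + 1))
    (𝒲 : Finset (List A)) :
    ∃ U : Finset (List A), (∀ p q, 1 ≤ q → p ≤ pf u F q → nf u F q < p + n →
        hasCut σ u F (D + N) q → wd u F q ∈ 𝒲 → win u p n ∈ U) ∧ U.card ≤ 𝒲.card * n := by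
  classical
  obtain ⟨Q, hQ⟩ : ∃ Q : List A → ℕ, ∀ q, 1 ≤ q → hasCut σ u F (D + N) q →
      1 ≤ Q (wd u F q) ∧ hasCut σ u F (D + N) (Q (wd u F q)) ∧
        wd u F (Q (wd u F q)) = wd u F q := by
    refine ⟨fun W => if hx : ∃ q, 1 ≤ q ∧ hasCut σ u F (D + N) q ∧ wd u F q = W then hx.choose
      else 0, fun q hq hc => ?_⟩
    have hx : ∃ q', 1 ≤ q' ∧ hasCut σ u F (D + N) q' ∧ wd u F q' = wd u F q := ⟨q, hq, hc, rfl⟩
    simp only
    rw [dif_pos hx]
    exact hx.choose_spec
  refine ⟨(𝒲 ×ˢ Finset.range n).image (fun x => win u (pf u F (Q x.1) - x.2) n), ?_, ?_⟩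
  · intro p q hq hp hn hc hW
    obtain ⟨q1, q2, q3⟩ := hQ q hq hc
    have hlt := pf_lt (u := u) (F := F) q hq
    have hle := (nf_spec hF q).1
    rw [Finset.mem_image]
    refine ⟨(wd u F q, pf u F q - p), ?_, ?_⟩
    · rw [Finset.mem_product]
      exact ⟨hW, Finset.mem_range.2 (by omega)⟩
    · have h1 := det_win h hF N hN hN' D n hD hD' q1 hq q2 hc q3 (pf u F q - p) (by omega)
      simp only
      rw [h1]
      congr 1
      omega
  · refine le_trans Finset.card_image_le ?_
    rw [Finset.card_product, Finset.card_range]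

end

end Cnt

end FC
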