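import Pool.Agent.LibFC.PW

/-! Abstract descent: bounded number of objects per dyadic scale. -/

set_option autoImplicit false

open Relation

namespace FC

/-- dyadic boundedness -/
def DB {X : Type*} (S : Set X) (len : X → ℕ) : Prop :=
  ∃ B : ℕ, ∀ n : ℕ, {x | x ∈ S ∧ n ≤ len x ∧ len x < 2 * n}.encard ≤ B

theorem encard_le_of_rel {X Y : Type*} (S : Set X) (T : Set Y) (Rel : Y → X → Prop)
    (hfun : ∀ y ∈ T, ∀ x ∈ S, ∀ x' ∈ S, Rel y x → Rel y x' → x = x')
    (hex : ∀ x ∈ S, ∃ y ∈ T, Rel y x) : S.encard ≤ T.encard := by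
  classical
  rcases S.eq_empty_or_nonempty with rfl | ⟨x0, hx0⟩
  · simp
  obtain ⟨y0, _⟩ := hex x0 hx0
  have : Nonempty Y := ⟨y0⟩
  choose! g hg using hex
  have hinj : Set.InjOn g S := by
    intro x hx x' hx' hxx
    have h1 := hg x hx
    have h2 := hg x' hx'
    rw [← hxx] at h2
    exact hfun _ h1.1 x hx x' hx' h1.2 h2.2
  rw [← hinj.encard_image]
  apply Set.encard_le_encard
  rintro _ ⟨x, hx, rfl⟩
  exact (hg x hx).1

theorem descent {X : Type*} (S : Set X) (len : X → ℕ) (R : X → X → Prop)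
    (hfun : ∀ y ∈ S, ∀ x ∈ S, ∀ x' ∈ S, R y x → R y x' → x = x')
    (N0 : ℕ) (hN0 : 1 ≤ N0) (hfin : {x | x ∈ S ∧ len x < N0}.Finite)
    (hpar : ∀ x ∈ S, N0 ≤ len x → ∃ y ∈ S, R y x ∧ 2 * len y ≤ len x) : DB S len := by
  set R' : X → X → Prop := fun y x => y ∈ S ∧ x ∈ S ∧ R y x ∧ 2 * len y ≤ len x with hR'
  have hdesc : ∀ m : ℕ, ∀ x ∈ S, len x = m → ∃ y, (y ∈ S ∧ len y < N0) ∧ ReflTransGen R' y x := by
    intro m
    induction m using Nat.strong_induction_on with
    | _ m ih =>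
      intro x hx hm
      by_cases hlt : len x < N0
      · exact ⟨x, ⟨hx, hlt⟩, ReflTransGen.refl⟩
      · push Not at hlt
        obtain ⟨y, hy, hyx, h2⟩ := hpar x hx hlt
        obtain ⟨z, hz, hzy⟩ := ih (len y) (by omega) y hy rfl
        exact ⟨z, hz, hzy.tail ⟨hy, hx, hyx, h2⟩⟩
  have hru : Relator.RightUnique R' := by
    intro y x x' h h'
    exact hfun y h.1 x h.2.1 x' h'.2.1 h.2.2.1 h'.2.2.1
  have hgrow : ∀ x x', ReflTransGen R' x x' → x = x' ∨ 2 * len x ≤ len x' := by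
    intro x x' h
    induction h with
    | refl => left; rfl
    | tail h1 h2 ih =>
      right
      have := h2.2.2.2
      rcases ih with rfl | h3 <;> omega
  obtain ⟨B, hB⟩ : ∃ B : ℕ, {x | x ∈ S ∧ len x < N0}.encard = B :=
    ⟨_, hfin.encard_eq_coe_toFinset_card⟩
  refine ⟨B, fun n => ?_⟩
  rw [← hB]
  apply encard_le_of_rel _ _ (fun y x => ReflTransGen R' y x)
  · intro y hy x hx x' hx' h h'
    rcases ReflTransGen.total_of_right_unique hru h h' with h1 | h1
    · rcases hgrow _ _ h1 with h2 | h2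
      · exact h2
      · have := hx.2; have := hx'.2; omega
    · rcases hgrow _ _ h1 with h2 | h2
      · exact h2.symm
      · have := hx.2; have := hx'.2; omega
  · intro x hx
    obtain ⟨y, hy, h⟩ := hdesc (len x) x hx.1 rfl
    exact ⟨y, hy, h⟩

theorem DB.pow {X : Type*} {S : Set X} {len : X → ℕ} (h : DB S len) (k : ℕ) :
    ∃ B : ℕ, ∀ n : ℕ, {x | x ∈ S ∧ n ≤ len x ∧ len x < 2 ^ k * n}.encard ≤ B := by
  obtain ⟨B, hB⟩ := h
  refine ⟨k * B, ?_⟩
  induction k with
  | zero =>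
    intro n
    simp only [pow_zero, one_mul]
    have : {x | x ∈ S ∧ n ≤ len x ∧ len x < n} = ∅ := by
      ext x; simp only [Set.mem_ofPred_eq, Set.mem_empty_iff_false, iff_false]; omega
    rw [this]; simp
  | succ k ih =>
    intro n
    have h1 : {x | x ∈ S ∧ n ≤ len x ∧ len x < 2 ^ (k + 1) * n} ⊆
        {x | x ∈ S ∧ n ≤ len x ∧ len x < 2 ^ k * n} ∪
        {x | x ∈ S ∧ 2 ^ k * n ≤ len x ∧ len x < 2 * (2 ^ k * n)} := by
      intro x hx
      simp only [Set.mem_ofPred_eq, Set.mem_union] at hx ⊢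
      rcases lt_or_ge (len x) (2 ^ k * n) with h | h
      · left; exact ⟨hx.1, hx.2.1, h⟩
      · right
        refine ⟨hx.1, h, ?_⟩
        have := hx.2.2
        rw [pow_succ] at this
        linarith
    refine (Set.encard_le_encard h1).trans ((Set.encard_union_le _ _).trans ?_)
    refine (add_le_add (ih n) (hB _)).trans ?_
    push_cast
    rw [add_mul, one_mul]

end FC
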