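import Pool.Agent.LibFC.Runs
import Pool.Agent.LibFC.Descent

/-! Dyadic boundedness of exact runs and of maximal pairs that are not near-periodic. -/

set_option autoImplicit false

namespace FC

variable {C A : Type*} {f : C → List A}

/-- window with margins `D` -/
def rdat {A : Type*} (V : ℤ → A) (D : ℕ) (s e : ℤ) : List A := zw V (s - D) (e - s + 2 * D).toNat

lemma rdat_length {A : Type*} (V : ℤ → A) (D : ℕ) {s e : ℤ} (h : s ≤ e) :
    (rdat V D s e).length = (e - s).toNat + 2 * D := by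
  simp only [rdat, zw_length]; omega

lemma rdat_eq_iff {A : Type*} (V V' : ℤ → A) (D : ℕ) {s e s' e' : ℤ} (h : s ≤ e) (h' : s' ≤ e') :
    rdat V D s e = rdat V' D s' e' ↔ e - s = e' - s' ∧ Agr V V' s s' (-D) (e - s + D) := by
  unfold rdat
  rw [zw_eq_iff']
  constructor
  · rintro ⟨h1, h2⟩
    refine ⟨by omega, ?_⟩
    have := (h2.shift D).mono (a' := -D) (b' := e - s + D) (by omega) (by omega)
    simpa using this
  · rintro ⟨h1, h2⟩
    refine ⟨by omega, ?_⟩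
    have := (h2.shift (-D)).mono (a' := 0) (b' := ((e - s + 2 * D).toNat : ℤ)) (by omega) (by omega)
    simpa [sub_eq_add_neg] using this

/-- data of a pair -/
def mdat {A : Type*} (V : ℤ → A) (D : ℕ) (i j n : ℤ) : List A × List A :=
  (rdat V D i (i + n), rdat V D j (j + n))

lemma mdat_eq_iff {A : Type*} (V V' : ℤ → A) (D : ℕ) {i j n i' j' n' : ℤ} (h : 0 ≤ n) (h' : 0 ≤ n') :
    mdat V D i j n = mdat V' D i' j' n' ↔
      n = n' ∧ Agr V V' i i' (-D) (n + D) ∧ Agr V V' j j' (-D) (n + D) := by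
  unfold mdat
  rw [Prod.mk.injEq, rdat_eq_iff _ _ _ (by omega) (by omega), rdat_eq_iff _ _ _ (by omega) (by omega)]
  rw [show i + n - i = n by ring, show i' + n' - i' = n' by ring, show j + n - j = n by ring,
    show j' + n' - j' = n' by ring]
  tauto

/-- exact runs -/
def SRun (V : ℤ → C) (P2 L1 D : ℕ) : Set (List C) :=
  {x | ∃ π s e : ℤ, π ≤ P2 ∧ ER V π s e ∧ (L1 : ℤ) ≤ e - s ∧ x = rdat V D s e}

def rlen (D : ℕ) (x : List C) : ℕ := x.length - 2 * D

theorem runs_DB [Finite C] (τ : C → List C) (h2 : ∀ c, 2 ≤ (τ c).length) (M : ℕ)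
    (hM : ∀ c, (τ c).length ≤ M) {N P : ℕ} (hs : Sync τ N P) (p : PWord τ) (hself : p.U = p.V)
    (P2 Q L1 D : ℕ) (hQ : ∀ π : ℕ, 1 ≤ π → π ≤ P2 → π ∣ Q) (hQ1 : 1 ≤ Q) (hQL : Q ≤ L1)
    (hD : N ≤ D) : DB (SRun p.V P2 L1 D) (rlen D) := by
  have hne : ∀ c, τ c ≠ [] := fun c h => by have := h2 c; rw [h] at this; simp at this
  apply descent (SRun p.V P2 L1 D) (rlen D)
    (fun y x => ∃ s1 e1 s e : ℤ, y = rdat p.V D s1 e1 ∧ x = rdat p.V D s e ∧ s1 + Q ≤ e1 ∧
      RAnc p.F p.U N Q s e s1 e1)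
    (N0 := M * (L1 + Q + P2 + 2) + 2 * N + 1)
  · rintro y _ x _ x' _ ⟨s1, e1, s, e, h1, h2', h3, h4⟩ ⟨s1', e1', s', e', h1', h2'', h3', h4'⟩
    rw [h1] at h1'
    rw [rdat_eq_iff _ _ _ (by omega) (by omega)] at h1'
    have he1 : e1' = s1' + (e1 - s1) := by omega
    rw [he1] at h4'
    have := ranc_fun p p 2 D D h2 (by omega) (by omega) h3 h4 h4' h1'.2
    rw [h2', h2'']
    have hmono := p.F_strictMono hne
    have m1 : p.F s1 ≤ p.F e1 := hmono.monotone (by omega)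
    have m2 : p.F s1' ≤ p.F (s1' + (e1 - s1)) := hmono.monotone (by omega)
    obtain ⟨a1, a2, a3, a4, -⟩ := h4
    obtain ⟨b1, b2, b3, b4, -⟩ := h4'
    rw [rdat_eq_iff _ _ _ (by omega) (by omega)]
    rw [hself] at this
    exact this
  · omega
  · apply (List.finite_length_lt C (M * (L1 + Q + P2 + 2) + 2 * N + 1 + 2 * D)).subset
    rintro x ⟨⟨π, s, e, h1, h2', h3, rfl⟩, hx⟩
    simp only [rlen] at hx
    simp only [Set.mem_ofPred_eq]
    omega
  · rintro x ⟨π, s, e, h1, h2', h3, rfl⟩ hx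
    have hl := rdat_length p.V D (s := s) (e := e) (by omega)
    have hle : rlen D (rdat p.V D s e) = (e - s).toNat := by
      simp only [rlen]; omega
    rw [hle] at hx ⊢
    have hx' : (M : ℤ) * (L1 + Q + P2 + 2) + 2 * N ≤ e - s := by
      have : ((M * (L1 + Q + P2 + 2) + 2 * N + 1 : ℕ) : ℤ) ≤ e - s := by omega
      push_cast at this
      omega
    rw [← hself] at h2'
    obtain ⟨π1, s1, e1, g1, g2, g3, g4⟩ := run_anc hne M hM hs p P2 Q L1 hQ hQ1 hQL h2' h1 hx'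
    refine ⟨rdat p.V D s1 e1, ⟨π1, s1, e1, g1, g2, g3, rfl⟩, ⟨s1, e1, s, e, rfl, rfl, by omega, g4⟩, ?_⟩
    have hl' := rdat_length p.V D (s := s1) (e := e1) (by omega)
    have hle' : rlen D (rdat p.V D s1 e1) = (e1 - s1).toNat := by
      simp only [rlen]; omega
    rw [hle']
    obtain ⟨a1, a2, a3, a4, -⟩ := g4
    have := p.F_sub_ge' 2 h2 (a := s1) (b := e1) (by omega)
    push_cast at this
    omega

/-- maximal pairs that are not near-periodic or short -/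
def SMP (V : ℤ → C) (P1 h N1 D : ℕ) : Set (List C × List C) :=
  {x | ∃ i j n : ℤ, MP V i j n ∧ (¬ NP V P1 h i n ∨ n < N1) ∧ x = mdat V D i j n}

def mlen (D : ℕ) (x : List C × List C) : ℕ := x.1.length - 2 * D

lemma mlen_mdat {V : ℤ → C} {D : ℕ} {i j n : ℤ} (h : 0 ≤ n) : mlen D (mdat V D i j n) = n.toNat := by
  have := rdat_length V D (s := i) (e := i + n) (by omega)
  simp only [mlen, mdat]; omega

lemma rlen_rdat {V : ℤ → C} {D : ℕ} {s e : ℤ} (h : s ≤ e) : rlen D (rdat V D s e) = (e - s).toNat := by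
  have := rdat_length V D h
  simp only [rlen]; omega

theorem cc_of_not_NP {N P P1 h : ℕ} (hs : Sync f N P) (p : PWord f) {i j n : ℤ}
    (hm : MP p.U i j n) (hN : N ≤ h) (hP : P ≤ P1) (hnp : ¬ NP p.U P1 h i n) : CC p.F i j n := by
  by_contra hcc
  apply hnp
  obtain ⟨π, h1, h2, h3⟩ := hs.reco p p i j n hm.2.1 (by
    intro r r' e1 e2 e3
    exact hcc ⟨r, r', e1, e2, e3⟩)
  exact ⟨π, h1, by omega, fun t ht ht2 => h3 t (by omega) (by omega)⟩

theorem mp_DB [Finite C] (τ : C → List C) (h2 : ∀ c, 2 ≤ (τ c).length)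
    {N P : ℕ} (hs : Sync τ N P) (p : PWord τ) (hself : p.U = p.V)
    (h P1 N1 D : ℕ) (hN : N ≤ h) (hP : P ≤ P1) (hD : N ≤ D)
    (hstep : ∀ i j n i1 j1 n1 : ℤ,
      MP p.V i j n → MP p.V i1 j1 n1 → Anc p.F N i j n i1 j1 n1 → (N1 : ℤ) ≤ n1 →
      NP p.V P1 h i1 n1 → NP p.V P1 h i n) : DB (SMP p.V P1 h N1 D) (mlen D) := by
  have hne : ∀ c, τ c ≠ [] := fun c h => by have := h2 c; rw [h] at this; simp at this
  apply descent (SMP p.V P1 h N1 D) (mlen D)
    (fun y x => ∃ i1 j1 n1 i j n : ℤ, y = mdat p.V D i1 j1 n1 ∧ x = mdat p.V D i j n ∧ 0 ≤ n1 ∧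
      MP p.V i j n ∧ Anc p.F N i j n i1 j1 n1)
    (N0 := N1 + 1)
  · rintro y _ x _ x' _ ⟨i1, j1, n1, i, j, n, h1, h2', h3, h4, h5⟩
      ⟨i1', j1', n1', i', j', n', h1', h2'', h3', h4', h5'⟩
    rw [h1] at h1'
    rw [mdat_eq_iff _ _ _ h3 h3'] at h1'
    obtain ⟨rfl, g1, g2⟩ := h1'
    rw [← hself] at h4 h4'
    have := anc_fun p p 2 D D h2 (by omega) (by omega) h3 h4 h4' h5 h5' g1 g2
    rw [h2', h2'', mdat_eq_iff _ _ _ h4.1 h4'.1]
    rw [hself] at this
    exact this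
  · omega
  · apply ((List.finite_length_lt C (N1 + 1 + 2 * D)).prod
      (List.finite_length_lt C (N1 + 1 + 2 * D))).subset
    rintro x ⟨⟨i, j, n, h1, h2', rfl⟩, hx⟩
    rw [mlen_mdat h1.1] at hx
    simp only [Set.mem_prod, Set.mem_ofPred_eq, mdat]
    have h3 := rdat_length p.V D (s := i) (e := i + n) (by have := h1.1; omega)
    have h4 := rdat_length p.V D (s := j) (e := j + n) (by have := h1.1; omega)
    have := h1.1
    omega
  · rintro x ⟨i, j, n, h1, h2', rfl⟩ hx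
    rw [mlen_mdat h1.1] at hx ⊢
    have hnp : ¬ NP p.V P1 h i n := by
      rcases h2' with h | h
      · exact h
      · omega
    have hcc : CC p.F i j n := by
      apply cc_of_not_NP hs p (by rw [hself]; exact h1) hN hP
      rw [hself]; exact hnp
    obtain ⟨i1, j1, n1, hm1, ha1⟩ := pull_back hne hs p (by rw [hself]; exact h1) hcc
    refine ⟨mdat p.V D i1 j1 n1, ⟨i1, j1, n1, hm1, ?_, rfl⟩,
      ⟨i1, j1, n1, i, j, n, rfl, rfl, hm1.1, h1, ha1⟩, ?_⟩
    · by_cases hlt : n1 < N1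
      · right; exact hlt
      · left
        intro hcon
        exact hnp (hstep i j n i1 j1 n1 h1 hm1 ha1 (by omega) hcon)
    · rw [mlen_mdat hm1.1]
      obtain ⟨a1, a2, a3, a4, a5, a6⟩ := ha1
      have h0 := hm1.1
      have := p.F_sub_ge' 2 h2 (a := i1) (b := i1 + n1) (by omega)
      push_cast at this
      omega

end FC
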