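import Pool.Agent.LibFC.SyncB

/-! Functional dependence of children on the context of the parent. -/

set_option autoImplicit false

namespace FC

variable {C A : Type*} {f : C → List A}

/-- agreement of two words around two positions -/
def Agr {A : Type*} (U U' : ℤ → A) (i i' a b : ℤ) : Prop :=
  ∀ t, a ≤ t → t < b → U (i + t) = U' (i' + t)

/-- finite window of a bi-infinite word -/
def zw {A : Type*} (V : ℤ → A) (a : ℤ) (l : ℕ) : List A := List.ofFn (fun t : Fin l => V (a + t.val))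

@[simp] lemma zw_length {A : Type*} (V : ℤ → A) (a : ℤ) (l : ℕ) : (zw V a l).length = l := by
  simp [zw]

lemma zw_eq_iff {A : Type*} (V V' : ℤ → A) (a a' : ℤ) (l : ℕ) :
    zw V a l = zw V' a' l ↔ Agr V V' a a' 0 l := by
  constructor
  · intro h t h0 h1
    obtain ⟨k, rfl⟩ : ∃ k : ℕ, t = k := ⟨t.toNat, by omega⟩
    have h2 : k < l := by omega
    have := congrArg (fun w => w[k]?) h
    simpa [zw, h2] using this
  · intro h
    apply List.ext_getElem
    · simp
    · intro k h1 h2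
      simp only [zw, List.getElem_ofFn]
      simp at h1
      exact h k (by omega) (by omega)

lemma zw_eq_iff' {A : Type*} (V V' : ℤ → A) (a a' : ℤ) (l l' : ℕ) :
    zw V a l = zw V' a' l' ↔ l = l' ∧ Agr V V' a a' 0 l := by
  constructor
  · intro h
    have h1 : l = l' := by simpa using congrArg List.length h
    subst h1
    exact ⟨rfl, (zw_eq_iff _ _ _ _ _).1 h⟩
  · rintro ⟨rfl, h⟩
    exact (zw_eq_iff _ _ _ _ _).2 h

lemma Agr.shift {U U' : ℤ → A} {i i' a b : ℤ} (h : Agr U U' i i' a b) (c : ℤ) :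
    Agr U U' (i + c) (i' + c) (a - c) (b - c) := by
  intro t h0 h1
  have := h (t + c) (by omega) (by omega)
  rw [show i + c + t = i + (t + c) by ring, show i' + c + t = i' + (t + c) by ring]
  exact this

lemma Agr.mono {U U' : ℤ → A} {i i' a b a' b' : ℤ} (h : Agr U U' i i' a b) (ha : a ≤ a')
    (hb : b' ≤ b) : Agr U U' i i' a' b' := fun t h0 h1 => h t (by omega) (by omega)

lemma Agr.symm {U U' : ℤ → A} {i i' a b : ℤ} (h : Agr U U' i i' a b) : Agr U' U i' i a b :=
  fun t h0 h1 => (h t h0 h1).symm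

namespace PWord

lemma F_agr (p q : PWord f) {i i' a b : ℤ} (h : Agr p.V q.V i i' a b) {s t : ℤ} (hs : a ≤ s)
    (hst : s ≤ t) (ht : t ≤ b) : p.F (i + t) - p.F (i + s) = q.F (i' + t) - q.F (i' + s) := by
  have := F_agree p q (i + s) (i' + s) (t - s).toNat (by
    intro x hx
    have := h (s + x) (by omega) (by omega)
    rw [← add_assoc, ← add_assoc] at this
    exact this)
  rw [show i + s + ((t - s).toNat : ℤ) = i + t by omega,
    show i' + s + ((t - s).toNat : ℤ) = i' + t by omega] at this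
  exact this

lemma F_agr0 (p q : PWord f) {i i' a b : ℤ} (h : Agr p.V q.V i i' a b) (ha : a ≤ 0) (hb : 0 ≤ b)
    {t : ℤ} (hs : a ≤ t) (ht : t ≤ b) : p.F (i + t) - p.F i = q.F (i' + t) - q.F i' := by
  rcases le_total 0 t with h0 | h0
  · simpa using F_agr p q h ha h0 ht
  · have := F_agr p q h hs h0 hb
    simp only [add_zero] at this
    omega

lemma U_agr (p q : PWord f) {i i' a b : ℤ} (h : Agr p.V q.V i i' a b) (ha : a ≤ 0) (hb : 0 ≤ b) :
    Agr p.U q.U (p.F i) (q.F i') (p.F (i + a) - p.F i) (p.F (i + b) - p.F i) := by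
  intro x h0 h1
  have := U_agree p q (i + a) (i' + a) (b - a).toNat (by
    intro x hx
    have := h (a + x) (by omega) (by omega)
    rw [← add_assoc, ← add_assoc] at this
    exact this) (x - (p.F (i + a) - p.F i)) (by omega) (by
      rw [show i + a + ((b - a).toNat : ℤ) = i + b by omega]; omega)
  have e := F_agr0 p q h ha hb (t := a) le_rfl (by omega)
  rw [show p.F (i + a) + (x - (p.F (i + a) - p.F i)) = p.F i + x by ring,
    show q.F (i' + a) + (x - (p.F (i + a) - p.F i)) = q.F i' + x by omega] at this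
  exact this

lemma F_sub_ge' (p : PWord f) (g : ℕ) (hg : ∀ c, g ≤ (f c).length) {a b : ℤ} (h : a ≤ b) :
    g * (b - a) ≤ p.F b - p.F a := by
  obtain ⟨k, rfl⟩ : ∃ k : ℕ, b = a + k := ⟨(b - a).toNat, by omega⟩
  induction k with
  | zero => simp
  | succ k ih =>
    have h1 := ih (by omega)
    have h2 := hg (p.V (a + k))
    push_cast
    rw [← add_assoc, p.step]
    nlinarith

lemma F_sub_le (p : PWord f) (M : ℕ) (hM : ∀ c, (f c).length ≤ M) {a b : ℤ} (h : a ≤ b) :
    p.F b - p.F a ≤ M * (b - a) := by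
  obtain ⟨k, rfl⟩ : ∃ k : ℕ, b = a + k := ⟨(b - a).toNat, by omega⟩
  induction k with
  | zero => simp
  | succ k ih =>
    have h1 := ih (by omega)
    have h2 := hM (p.V (a + k))
    push_cast
    rw [← add_assoc, p.step]
    nlinarith

end PWord

lemma left_le {U U' : ℤ → A} {x y x' y' a lam lam' : ℤ} (h0 : 0 ≤ lam)
    (hx : Agr U U' x x' a 0) (hy : Agr U U' y y' a 0) (ha : a ≤ -lam - 1)
    (hstop : U (x - lam - 1) ≠ U (y - lam - 1))
    (hag : ∀ t, 0 < t → t ≤ lam' → U' (x' - t) = U' (y' - t)) : lam' ≤ lam := by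
  by_contra hcon
  push Not at hcon
  apply hstop
  have h1 := hx (-lam - 1) ha (by omega)
  have h2 := hy (-lam - 1) ha (by omega)
  have h3 := hag (lam + 1) (by omega) (by omega)
  rw [show x - lam - 1 = x + (-lam - 1) by ring, show y - lam - 1 = y + (-lam - 1) by ring, h1, h2,
    show x' + (-lam - 1) = x' - (lam + 1) by ring, show y' + (-lam - 1) = y' - (lam + 1) by ring]
  exact h3

lemma right_le {U U' : ℤ → A} {x y x' y' b rho rho' : ℤ} (h0 : 0 ≤ rho)
    (hx : Agr U U' x x' 0 b) (hy : Agr U U' y y' 0 b) (hb : rho < b)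
    (hstop : U (x + rho) ≠ U (y + rho))
    (hag : ∀ t, 0 ≤ t → t < rho' → U' (x' + t) = U' (y' + t)) : rho' ≤ rho := by
  by_contra hcon
  push Not at hcon
  apply hstop
  rw [hx rho h0 hb, hy rho h0 hb]
  exact hag rho h0 hcon

/-- children of pairs with the same contexts have the same contexts -/
theorem anc_fun {N : ℕ} (p q : PWord f) (g D D' : ℕ) (hg : ∀ c, g ≤ (f c).length) (hg1 : 1 ≤ g)
    (hD : D' + N ≤ g * D) {i j n i1 j1 n1 i' j' n' i1' j1' : ℤ} (hn1 : 0 ≤ n1)
    (hm : MP p.U i j n) (hm' : MP q.U i' j' n')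
    (ha : Anc p.F N i j n i1 j1 n1) (ha' : Anc q.F N i' j' n' i1' j1' n1)
    (hi : Agr p.V q.V i1 i1' (-D) (n1 + D)) (hj : Agr p.V q.V j1 j1' (-D) (n1 + D)) :
    n = n' ∧ Agr p.U q.U i i' (-D') (n + D') ∧ Agr p.U q.U j j' (-D') (n + D') := by
  obtain ⟨a1, a2, a3, a4, a5, a6⟩ := ha
  obtain ⟨b1, b2, b3, b4, b5, b6⟩ := ha'
  obtain ⟨hn0, hag, hl, hr⟩ := hm
  obtain ⟨hn0', hag', hl', hr'⟩ := hm'
  have ui := PWord.U_agr p q hi (by omega) (by omega)
  have uj := PWord.U_agr p q hj (by omega) (by omega)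
  have fi := PWord.F_agr0 p q hi (by omega) (by omega) (t := n1) (by omega) (by omega)
  have fj := PWord.F_agr0 p q hj (by omega) (by omega) (t := n1) (by omega) (by omega)
  have gi1 := p.F_sub_ge' g hg (a := i1 + (-D)) (b := i1) (by omega)
  have gi2 := p.F_sub_ge' g hg (a := i1 + n1) (b := i1 + (n1 + D)) (by omega)
  have gj1 := p.F_sub_ge' g hg (a := j1 + (-D)) (b := j1) (by omega)
  have gj2 := p.F_sub_ge' g hg (a := j1 + n1) (b := j1 + (n1 + D)) (by omega)
  have gg : ((g : ℤ) * D) ≥ D' + N := by exact_mod_cast hD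
  have ri1 : (g : ℤ) * (i1 - (i1 + (-D))) = g * D := by ring
  have ri2 : (g : ℤ) * (i1 + (n1 + D) - (i1 + n1)) = g * D := by ring
  have rj1 : (g : ℤ) * (j1 - (j1 + (-D))) = g * D := by ring
  have rj2 : (g : ℤ) * (j1 + (n1 + D) - (j1 + n1)) = g * D := by ring
  rw [ri1] at gi1; rw [ri2] at gi2; rw [rj1] at gj1; rw [rj2] at gj2
  have mono : p.F i1 ≤ p.F (i1 + n1) := by
    have h1 := p.F_sub_ge' g hg (a := i1) (b := i1 + n1) (by omega)
    have h2 : 0 ≤ (g : ℤ) * (i1 + n1 - i1) := mul_nonneg (by omega) (by omega)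
    omega
  -- left
  have hl1 : q.F i1' - i' ≤ p.F i1 - i := by
    apply left_le a2 (ui.mono (a' := -(D' + N)) (b' := 0) (by omega) (by omega))
      (uj.mono (a' := -(D' + N)) (b' := 0) (by omega) (by omega)) (by omega)
    · rw [show p.F i1 - (p.F i1 - i) - 1 = i - 1 by ring,
        show p.F j1 - (p.F i1 - i) - 1 = j - 1 by omega]
      exact hl
    · intro t h0 h1
      have := hag' (q.F i1' - i' - t) (by omega) (by omega)
      rw [show i' + (q.F i1' - i' - t) = q.F i1' - t by ring,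
        show j' + (q.F i1' - i' - t) = q.F j1' - t by omega] at this
      exact this
  have hl2 : p.F i1 - i ≤ q.F i1' - i' := by
    apply left_le b2 (ui.symm.mono (a' := -(D' + N)) (b' := 0) (by omega) (by omega))
      (uj.symm.mono (a' := -(D' + N)) (b' := 0) (by omega) (by omega)) (by omega)
    · rw [show q.F i1' - (q.F i1' - i') - 1 = i' - 1 by ring,
        show q.F j1' - (q.F i1' - i') - 1 = j' - 1 by omega]
      exact hl'
    · intro t h0 h1
      have := hag (p.F i1 - i - t) (by omega) (by omega)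
      rw [show i + (p.F i1 - i - t) = p.F i1 - t by ring,
        show j + (p.F i1 - i - t) = p.F j1 - t by omega] at this
      exact this
  -- right
  have vi : Agr p.U q.U (p.F (i1 + n1)) (q.F (i1' + n1)) 0 (D' + N) := by
    have := (ui.shift (p.F (i1 + n1) - p.F i1)).mono (a' := 0) (b' := D' + N) (by omega) (by omega)
    rwa [show p.F i1 + (p.F (i1 + n1) - p.F i1) = p.F (i1 + n1) by ring,
      show q.F i1' + (p.F (i1 + n1) - p.F i1) = q.F (i1' + n1) by omega] at this
  have vj : Agr p.U q.U (p.F (j1 + n1)) (q.F (j1' + n1)) 0 (D' + N) := by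
    have := (uj.shift (p.F (j1 + n1) - p.F j1)).mono (a' := 0) (b' := D' + N) (by omega) (by omega)
    rwa [show p.F j1 + (p.F (j1 + n1) - p.F j1) = p.F (j1 + n1) by ring,
      show q.F j1' + (p.F (j1 + n1) - p.F j1) = q.F (j1' + n1) by omega] at this
  have hr1 : i' + n' - q.F (i1' + n1) ≤ i + n - p.F (i1 + n1) := by
    apply right_le a5 vi vj (by omega)
    · rw [show p.F (i1 + n1) + (i + n - p.F (i1 + n1)) = i + n by ring,
        show p.F (j1 + n1) + (i + n - p.F (i1 + n1)) = j + n by omega]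
      exact hr
    · intro t h0 h1
      have := hag' (q.F (i1' + n1) - i' + t) (by omega) (by omega)
      rw [show i' + (q.F (i1' + n1) - i' + t) = q.F (i1' + n1) + t by ring,
        show j' + (q.F (i1' + n1) - i' + t) = q.F (j1' + n1) + t by omega] at this
      exact this
  have hr2 : i + n - p.F (i1 + n1) ≤ i' + n' - q.F (i1' + n1) := by
    apply right_le b5 vi.symm vj.symm (by omega)
    · rw [show q.F (i1' + n1) + (i' + n' - q.F (i1' + n1)) = i' + n' by ring,
        show q.F (j1' + n1) + (i' + n' - q.F (i1' + n1)) = j' + n' by omega]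
      exact hr'
    · intro t h0 h1
      have := hag (p.F (i1 + n1) - i + t) (by omega) (by omega)
      rw [show i + (p.F (i1 + n1) - i + t) = p.F (i1 + n1) + t by ring,
        show j + (p.F (i1 + n1) - i + t) = p.F (j1 + n1) + t by omega] at this
      exact this
  refine ⟨by omega, ?_, ?_⟩
  · have := (ui.shift (i - p.F i1)).mono (a' := -D') (b' := n + D') (by omega) (by omega)
    rwa [show p.F i1 + (i - p.F i1) = i by ring,
      show q.F i1' + (i - p.F i1) = i' by omega] at this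
  · have := (uj.shift (i - p.F i1)).mono (a' := -D') (b' := n + D') (by omega) (by omega)
    rwa [show p.F j1 + (i - p.F i1) = j by omega,
      show q.F j1' + (i - p.F i1) = j' by omega] at this

/-! ### Exact runs -/

/-- exact run -/
def ER {A : Type*} (U : ℤ → A) (π s e : ℤ) : Prop :=
  1 ≤ π ∧ s + π ≤ e ∧ PerOn U π s e ∧ U (s - 1) ≠ U (s - 1 + π) ∧ U e ≠ U (e - π)

/-- ancestor relation for runs -/
def RAnc (F : ℤ → ℤ) (U : ℤ → A) (N Q : ℕ) (s e s1 e1 : ℤ) : Prop :=
  0 ≤ F s1 - s ∧ F s1 - s < N ∧ 0 ≤ e - F e1 ∧ e - F e1 < N ∧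
  (∀ t, s ≤ t → t < F s1 → U t = U (t + (F (s1 + Q) - F s1))) ∧
  U (s - 1) ≠ U (s - 1 + (F (s1 + Q) - F s1)) ∧
  (∀ t, F e1 ≤ t → t < e → U t = U (t - (F e1 - F (e1 - Q)))) ∧
  U e ≠ U (e - (F e1 - F (e1 - Q)))

theorem ranc_fun {N Q : ℕ} (p q : PWord f) (g D D' : ℕ) (hg : ∀ c, g ≤ (f c).length) (hg1 : 1 ≤ g)
    (hD : D' + N ≤ g * D) {s e s1 e1 s' e' s1' : ℤ} (hQ : s1 + Q ≤ e1)
    (ha : RAnc p.F p.U N Q s e s1 e1) (ha' : RAnc q.F q.U N Q s' e' s1' (s1' + (e1 - s1)))
    (hi : Agr p.V q.V s1 s1' (-D) (e1 - s1 + D)) :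
    e - s = e' - s' ∧ Agr p.U q.U s s' (-D') (e - s + D') := by
  obtain ⟨a1, a2, a3, a4, a5, a6, a7, a8⟩ := ha
  obtain ⟨b1, b2, b3, b4, b5, b6, b7, b8⟩ := ha'
  obtain ⟨l, rfl⟩ : ∃ l, e1 = s1 + l := ⟨e1 - s1, by ring⟩
  rw [show s1 + l - s1 = l by ring] at *
  have hQ0 : (0 : ℤ) ≤ Q := by omega
  have ui := PWord.U_agr p q hi (by omega) (by omega)
  have fl := PWord.F_agr0 p q hi (by omega) (by omega) (t := l) (by omega) (by omega)
  have fQ := PWord.F_agr0 p q hi (by omega) (by omega) (t := Q) (by omega) (by omega)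
  have flQ := PWord.F_agr0 p q hi (by omega) (by omega) (t := l - Q) (by omega) (by omega)
  rw [show s1 + (l - (Q : ℤ)) = s1 + l - Q by ring, show s1' + (l - (Q : ℤ)) = s1' + l - Q by ring] at flQ
  have gi1 := p.F_sub_ge' g hg (a := s1 + (-D)) (b := s1) (by omega)
  have gi2 := p.F_sub_ge' g hg (a := s1 + l) (b := s1 + (l + D)) (by omega)
  have gg : ((g : ℤ) * D) ≥ D' + N := by exact_mod_cast hD
  have ri1 : (g : ℤ) * (s1 - (s1 + (-D))) = g * D := by ring
  have ri2 : (g : ℤ) * (s1 + (l + D) - (s1 + l)) = g * D := by ring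
  rw [ri1] at gi1; rw [ri2] at gi2
  have m1 : p.F s1 ≤ p.F (s1 + Q) := by
    have h1 := p.F_sub_ge' g hg (a := s1) (b := s1 + Q) (by omega)
    have h2 : 0 ≤ (g : ℤ) * (s1 + Q - s1) := mul_nonneg (by omega) (by omega)
    omega
  have m2 : p.F (s1 + Q) ≤ p.F (s1 + l) := by
    have h1 := p.F_sub_ge' g hg (a := s1 + Q) (b := s1 + l) (by omega)
    have h2 : 0 ≤ (g : ℤ) * (s1 + l - (s1 + Q)) := mul_nonneg (by omega) (by omega)
    omega
  have m3 : p.F s1 ≤ p.F (s1 + l - Q) := by
    have h1 := p.F_sub_ge' g hg (a := s1) (b := s1 + l - Q) (by omega)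
    have h2 : 0 ≤ (g : ℤ) * (s1 + l - Q - s1) := mul_nonneg (by omega) (by omega)
    omega
  have m4 : p.F (s1 + l - Q) ≤ p.F (s1 + l) := by
    have h1 := p.F_sub_ge' g hg (a := s1 + l - Q) (b := s1 + l) (by omega)
    have h2 : 0 ≤ (g : ℤ) * (s1 + l - (s1 + l - Q)) := mul_nonneg (by omega) (by omega)
    omega
  -- four windows
  have w1 : Agr p.U q.U (p.F s1) (q.F s1') (-(D' + N)) 0 := ui.mono (by omega) (by omega)
  have w2 : Agr p.U q.U (p.F (s1 + Q)) (q.F (s1' + Q)) (-(D' + N)) 0 := by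
    have := (ui.shift (p.F (s1 + Q) - p.F s1)).mono (a' := -(D' + N)) (b' := 0)
      (by omega) (by omega)
    rwa [show p.F s1 + (p.F (s1 + Q) - p.F s1) = p.F (s1 + Q) by ring,
      show q.F s1' + (p.F (s1 + Q) - p.F s1) = q.F (s1' + Q) by omega] at this
  have w3 : Agr p.U q.U (p.F (s1 + l)) (q.F (s1' + l)) 0 (D' + N) := by
    have := (ui.shift (p.F (s1 + l) - p.F s1)).mono (a' := 0) (b' := D' + N)
      (by omega) (by omega)
    rwa [show p.F s1 + (p.F (s1 + l) - p.F s1) = p.F (s1 + l) by ring,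
      show q.F s1' + (p.F (s1 + l) - p.F s1) = q.F (s1' + l) by omega] at this
  have w4 : Agr p.U q.U (p.F (s1 + l - Q)) (q.F (s1' + l - Q)) 0 (D' + N) := by
    have := (ui.shift (p.F (s1 + l - Q) - p.F s1)).mono (a' := 0) (b' := D' + N)
      (by omega) (by omega)
    rwa [show p.F s1 + (p.F (s1 + l - Q) - p.F s1) = p.F (s1 + l - Q) by ring,
      show q.F s1' + (p.F (s1 + l - Q) - p.F s1) = q.F (s1' + l - Q) by omega] at this
  have hl1 : q.F s1' - s' ≤ p.F s1 - s := by
    apply left_le a1 w1 w2 (by omega)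
    · rw [show p.F s1 - (p.F s1 - s) - 1 = s - 1 by ring,
        show p.F (s1 + Q) - (p.F s1 - s) - 1 = s - 1 + (p.F (s1 + Q) - p.F s1) by ring]
      exact a6
    · intro t h0 h1
      have := b5 (q.F s1' - t) (by omega) (by omega)
      rw [show q.F s1' - t + (q.F (s1' + Q) - q.F s1') = q.F (s1' + Q) - t by ring] at this
      exact this
  have hl2 : p.F s1 - s ≤ q.F s1' - s' := by
    apply left_le b1 w1.symm w2.symm (by omega)
    · rw [show q.F s1' - (q.F s1' - s') - 1 = s' - 1 by ring,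
        show q.F (s1' + Q) - (q.F s1' - s') - 1 = s' - 1 + (q.F (s1' + Q) - q.F s1') by ring]
      exact b6
    · intro t h0 h1
      have := a5 (p.F s1 - t) (by omega) (by omega)
      rw [show p.F s1 - t + (p.F (s1 + Q) - p.F s1) = p.F (s1 + Q) - t by ring] at this
      exact this
  have hr1 : e' - q.F (s1' + l) ≤ e - p.F (s1 + l) := by
    apply right_le a3 w3 w4 (by omega)
    · rw [show p.F (s1 + l) + (e - p.F (s1 + l)) = e by ring,
        show p.F (s1 + l - Q) + (e - p.F (s1 + l)) = e - (p.F (s1 + l) - p.F (s1 + l - Q)) by ring]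
      exact a8
    · intro t h0 h1
      have := b7 (q.F (s1' + l) + t) (by omega) (by omega)
      rw [show q.F (s1' + l) + t - (q.F (s1' + l) - q.F (s1' + l - Q)) = q.F (s1' + l - Q) + t by
        ring] at this
      exact this
  have hr2 : e - p.F (s1 + l) ≤ e' - q.F (s1' + l) := by
    apply right_le b3 w3.symm w4.symm (by omega)
    · rw [show q.F (s1' + l) + (e' - q.F (s1' + l)) = e' by ring,
        show q.F (s1' + l - Q) + (e' - q.F (s1' + l)) =
          e' - (q.F (s1' + l) - q.F (s1' + l - Q)) by ring]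
      exact b8
    · intro t h0 h1
      have := a7 (p.F (s1 + l) + t) (by omega) (by omega)
      rw [show p.F (s1 + l) + t - (p.F (s1 + l) - p.F (s1 + l - Q)) = p.F (s1 + l - Q) + t by
        ring] at this
      exact this
  refine ⟨by omega, ?_⟩
  have := (ui.shift (s - p.F s1)).mono (a' := -D') (b' := e - s + D') (by omega) (by omega)
  rwa [show p.F s1 + (s - p.F s1) = s by ring,
    show q.F s1' + (s - p.F s1) = s' by omega] at this

end FC
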