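import Pool.Agent.LibFC.Base

/-!
# Recognizability of elementary morphisms on non-periodic stretches

A short proof through a minimal choice of cuts.
-/

set_option autoImplicit false

open Filter

namespace FC

namespace Defect

variable {C A : Type*}

/-! ### Basic facts on parsed words -/

section Basic

variable {f : C → List A}

theorem F_lt (hne : ∀ c, f c ≠ []) (p : PWord f) (n : ℤ) : p.F n < p.F (n + 1) := by
  rw [p.step]
  have := List.length_pos_of_ne_nil (hne (p.V n))
  omega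

theorem F_mono (hne : ∀ c, f c ≠ []) (p : PWord f) : StrictMono p.F :=
  strictMono_int_of_lt_succ (F_lt hne p)

theorem F_add (hne : ∀ c, f c ≠ []) (p : PWord f) (a : ℤ) (k : ℕ) :
    p.F a + k ≤ p.F (a + k) := by
  induction k with
  | zero => simp
  | succ k ih =>
    have h := F_lt hne p (a + k)
    have h2 : a + ((k + 1 : ℕ) : ℤ) = a + k + 1 := by push_cast; ring
    rw [h2]
    push_cast
    omega

theorem exists_idx (hne : ∀ c, f c ≠ []) (p : PWord f) (t : ℤ) :
    ∃ r, p.F r ≤ t ∧ t < p.F (r + 1) := by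
  obtain ⟨r, hr, hmax⟩ := Int.exists_greatest_of_bdd (P := fun r => p.F r ≤ t)
    ⟨(t - p.F 0).natAbs, fun z hz => by
      rcases Int.le_total 0 z with h0 | h0
      · have h1 := F_add hne p 0 z.toNat
        rw [zero_add, Int.toNat_of_nonneg h0] at h1
        omega
      · omega⟩
    ⟨-((p.F 0 - t).natAbs : ℤ), by
      have h1 := F_add hne p (-((p.F 0 - t).natAbs : ℤ)) (p.F 0 - t).natAbs
      rw [neg_add_cancel] at h1
      omega⟩
  refine ⟨r, hr, ?_⟩
  by_contra hcon
  push Not at hcon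
  have := hmax (r + 1) hcon
  omega

theorem idx_unique (hne : ∀ c, f c ≠ []) (p : PWord f) {t r r' : ℤ} (h1 : p.F r ≤ t)
    (h2 : t < p.F (r + 1)) (h1' : p.F r' ≤ t) (h2' : t < p.F (r' + 1)) : r = r' := by
  have h3 : r < r' + 1 := (F_mono hne p).lt_iff_lt.1 (lt_of_le_of_lt h1 h2')
  have h4 : r' < r + 1 := (F_mono hne p).lt_iff_lt.1 (lt_of_le_of_lt h1' h2)
  omega

/-- Words of a bi-infinite sequence. -/
def wd (U : ℤ → A) (t : ℤ) (n : ℕ) : List A := (List.range n).map (fun k : ℕ => U (t + k))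

@[simp] theorem wd_length (U : ℤ → A) (t : ℤ) (n : ℕ) : (wd U t n).length = n := by simp [wd]

theorem wd_congr {U U' : ℤ → A} {t : ℤ} {n : ℕ} (h : ∀ k : ℕ, k < n → U (t + k) = U' (t + k)) :
    wd U t n = wd U' t n := by
  unfold wd
  apply List.map_congr_left
  intro k hk
  exact h k (List.mem_range.1 hk)

end Basic

/-! ### Cuts and pieces -/

/-- Admissible sets of cuts. -/
structure OkD (f : C → List A) (D : C → Finset ℕ) : Prop where
  zero : ∀ c, 0 ∈ D c
  lt : ∀ c, ∀ d ∈ D c, d < (f c).length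

/-- The next cut. -/
noncomputable def nx (f : C → List A) (D : C → Finset ℕ) (c : C) (d : ℕ) : ℕ :=
  sInf {e | d < e ∧ (e ∈ D c ∨ e = (f c).length)}

/-- The piece starting at `d`. -/
noncomputable def pc (f : C → List A) (D : C → Finset ℕ) (c : C) (d : ℕ) : List A :=
  ((f c).drop d).take (nx f D c d - d)

/-- Cuts of a parsed word. -/
def cutAt {f : C → List A} (D : C → Finset ℕ) (p : PWord f) (t : ℤ) : Prop :=
  ∃ r : ℤ, ∃ d ∈ D (p.V r), t = p.F r + d

/-- The cuts of `p` and `q` agree on `[0,h]`. -/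
def Good {f : C → List A} (D : C → Finset ℕ) (p q : PWord f) (h : ℤ) : Prop :=
  ∀ t : ℤ, 0 ≤ t → t ≤ h → (cutAt D p t ↔ cutAt D q t)

section Pieces

variable {f : C → List A} {D : C → Finset ℕ}

theorem nx_spec {c : C} {d : ℕ} (hd : d < (f c).length) :
    d < nx f D c d ∧ (nx f D c d ∈ D c ∨ nx f D c d = (f c).length) :=
  Nat.sInf_mem (s := {e | d < e ∧ (e ∈ D c ∨ e = (f c).length)}) ⟨(f c).length, hd, Or.inr rfl⟩

theorem nx_le {c : C} {d e : ℕ} (h : d < e) (he : e ∈ D c ∨ e = (f c).length) :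
    nx f D c d ≤ e := Nat.sInf_le (s := {e | d < e ∧ (e ∈ D c ∨ e = (f c).length)}) ⟨h, he⟩

theorem nx_le_len {c : C} {d : ℕ} (hd : d < (f c).length) : nx f D c d ≤ (f c).length :=
  nx_le hd (Or.inr rfl)

theorem pc_length {c : C} {d : ℕ} (hd : d < (f c).length) :
    (pc f D c d).length = nx f D c d - d := by
  have := nx_le_len (D := D) hd
  simp only [pc, List.length_take, List.length_drop]
  omega

theorem pc_eq_wd (p : PWord f) (r : ℤ) {d : ℕ} (hd : d < (f (p.V r)).length) :
    pc f D (p.V r) d = wd p.U (p.F r + d) (nx f D (p.V r) d - d) := by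
  apply List.ext_getElem
  · rw [pc_length hd, wd_length]
  · intro k h1 h2
    have h3 := nx_le_len (D := D) hd
    rw [wd_length] at h2
    have h4 : d + k < (f (p.V r)).length := by omega
    simp only [pc, wd, List.getElem_take, List.getElem_drop, List.getElem_map,
      List.getElem_range]
    rw [← p.val r (d + k) h4]
    congr 1
    push_cast
    ring

theorem decompose (hD : OkD f D) (c : C) : ∃ l : List (List A),
    (∀ z ∈ l, ∃ d ∈ D c, z = pc f D c d) ∧ l.flatten = f c := by
  have key : ∀ k d : ℕ, (f c).length - d = k → (d ∈ D c ∨ d = (f c).length) →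
      ∃ l : List (List A), (∀ z ∈ l, ∃ d ∈ D c, z = pc f D c d) ∧ l.flatten = (f c).drop d := by
    intro k
    induction k using Nat.strong_induction_on with
    | _ k ih =>
      intro d hk hd
      rcases hd with hd | hd
      · have hlt := hD.lt c d hd
        obtain ⟨h1, h2⟩ := nx_spec (D := D) hlt
        have h3 := nx_le_len (D := D) hlt
        obtain ⟨l, hl1, hl2⟩ := ih ((f c).length - nx f D c d) (by omega) (nx f D c d) rfl h2
        refine ⟨pc f D c d :: l, ?_, ?_⟩
        · intro z hz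
          rcases List.mem_cons.1 hz with rfl | hz
          · exact ⟨d, hd, rfl⟩
          · exact hl1 z hz
        · rw [List.flatten_cons, hl2, pc]
          have h4 : (f c).drop (nx f D c d) = ((f c).drop d).drop (nx f D c d - d) := by
            rw [List.drop_drop]
            congr 1
            omega
          rw [h4, List.take_append_drop]
      · refine ⟨[], by simp, ?_⟩
        rw [hd]; simp
  obtain ⟨l, h1, h2⟩ := key _ 0 rfl (Or.inl (hD.zero c))
  exact ⟨l, h1, by simpa using h2⟩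

theorem cut_next (hD : OkD f D) (p : PWord f) (r : ℤ) {d : ℕ} (hd : d ∈ D (p.V r)) :
    cutAt D p (p.F r + nx f D (p.V r) d) := by
  have hlt := hD.lt _ d hd
  obtain ⟨h1, h2⟩ := nx_spec (D := D) hlt
  rcases h2 with h2 | h2
  · exact ⟨r, _, h2, rfl⟩
  · refine ⟨r + 1, 0, hD.zero _, ?_⟩
    rw [h2, p.step]; simp

theorem no_cut (hne : ∀ c, f c ≠ []) (hD : OkD f D) (p : PWord f) (r : ℤ) {d : ℕ}
    (hd : d ∈ D (p.V r)) {s : ℤ} (hs : cutAt D p s) (h1 : p.F r + d < s) :
    p.F r + nx f D (p.V r) d ≤ s := by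
  obtain ⟨r2, d2, hd2, rfl⟩ := hs
  have hlt := hD.lt _ d hd
  have hlt2 := hD.lt _ d2 hd2
  have h3 := nx_le_len (D := D) hlt
  have hs1 := p.step r
  have hs2 := p.step r2
  rcases lt_trichotomy r2 r with h | h | h
  · have h4 : p.F (r2 + 1) ≤ p.F r := (F_mono hne p).monotone (by omega)
    omega
  · subst h
    have h5 : nx f D (p.V r2) d ≤ d2 := nx_le (by omega) (Or.inl hd2)
    omega
  · have h4 : p.F (r + 1) ≤ p.F r2 := (F_mono hne p).monotone (by omega)
    omega

theorem nx_sub_le {M : ℕ} (hM : ∀ c, (f c).length ≤ M) {c : C} {d : ℕ} (hd : d < (f c).length) :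
    nx f D c d - d ≤ M := by
  have := nx_le_len (D := D) hd
  have := hM c
  omega

theorem same_piece (hne : ∀ c, f c ≠ []) (hD : OkD f D) {M : ℕ} (hM : ∀ c, (f c).length ≤ M)
    (p q : PWord f) {n h : ℤ} (hn : ∀ t : ℤ, 0 ≤ t → t < n → p.U t = q.U t) (hhn : h ≤ n)
    (hg : Good D p q h) {r r' : ℤ} {d d' : ℕ} (hd : d ∈ D (p.V r)) (hd' : d' ∈ D (q.V r'))
    (he : p.F r + d = q.F r' + d') (h0 : 0 ≤ p.F r + d) (hh : p.F r + d + M ≤ h) :
    pc f D (p.V r) d = pc f D (q.V r') d' := by
  have hlt := hD.lt _ d hd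
  have hlt' := hD.lt _ d' hd'
  have hs := (nx_spec (D := D) hlt).1
  have hs' := (nx_spec (D := D) hlt').1
  have hb := nx_sub_le (D := D) hM hlt
  have hb' := nx_sub_le (D := D) hM hlt'
  have h1 : cutAt D q (p.F r + nx f D (p.V r) d) :=
    (hg _ (by omega) (by omega)).1 (cut_next hD p r hd)
  have h2 : cutAt D p (q.F r' + nx f D (q.V r') d') :=
    (hg _ (by omega) (by omega)).2 (cut_next hD q r' hd')
  have h3 := no_cut hne hD q r' hd' h1 (by omega)
  have h4 := no_cut hne hD p r hd h2 (by omega)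
  rw [pc_eq_wd p r hlt, pc_eq_wd q r' hlt', he]
  have h5 : nx f D (p.V r) d - d = nx f D (q.V r') d' - d' := by omega
  rw [h5]
  apply wd_congr
  intro k hk
  apply hn <;> omega

end Pieces

/-! ### The minimal choice of cuts -/

section Min

variable {f : C → List A} [Fintype C] [DecidableEq C] [DecidableEq A]

/-- Number of cuts. -/
def Sn (D : C → Finset ℕ) : ℕ := ∑ c, (D c).card

/-- Number of all cuts. -/
def Sf (f : C → List A) : ℕ := ∑ c, (f c).length

omit [DecidableEq C] [DecidableEq A] in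
theorem Sn_le {D : C → Finset ℕ} (hD : OkD f D) : Sn D ≤ Sf f := by
  apply Finset.sum_le_sum
  intro c _
  have h1 : D c ⊆ Finset.range (f c).length := fun d hd => Finset.mem_range.2 (hD.lt c d hd)
  have := Finset.card_le_card h1
  simpa using this

omit [Fintype C] [DecidableEq C] in
theorem good_filter (hne : ∀ c, f c ≠ []) {D : C → Finset ℕ} (hD : OkD f D) {M : ℕ}
    (hM : ∀ c, (f c).length ≤ M) (p q : PWord f) {n h h' : ℤ}
    (hn : ∀ t : ℤ, 0 ≤ t → t < n → p.U t = q.U t) (hhn : h ≤ n) (hg : Good D p q h) (z : List A)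
    (hh' : h' + M ≤ h) :
    Good (fun c => (D c).filter (fun d => pc f D c d ≠ z)) p q h' := by
  have one : ∀ p q : PWord f, (∀ t : ℤ, 0 ≤ t → t < n → p.U t = q.U t) → Good D p q h →
      ∀ t : ℤ, 0 ≤ t → t ≤ h' → cutAt (fun c => (D c).filter (fun d => pc f D c d ≠ z)) p t →
      cutAt (fun c => (D c).filter (fun d => pc f D c d ≠ z)) q t := by
    intro p q hn hg t ht0 ht ⟨r, d, hd, he⟩
    rw [Finset.mem_filter] at hd
    obtain ⟨r', d', hd', he'⟩ := (hg t ht0 (by omega)).1 ⟨r, d, hd.1, he⟩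
    refine ⟨r', d', Finset.mem_filter.2 ⟨hd', ?_⟩, he'⟩
    rw [← same_piece hne hD hM p q hn hhn hg hd.1 hd' (by rw [← he, ← he']) (by omega) (by omega)]
    exact hd.2
  intro t ht0 ht
  exact ⟨one p q hn hg t ht0 ht, one q p (fun t h1 h2 => (hn t h1 h2).symm)
    (fun t h1 h2 => (hg t h1 h2).symm) t ht0 ht⟩

omit [DecidableEq C] in
theorem exists_D (hne : ∀ c, f c ≠ []) (hel : Elem f) {M : ℕ}
    (hM : ∀ c, (f c).length ≤ M) (p q : PWord f) (n : ℤ)
    (hn : ∀ t : ℤ, 0 ≤ t → t < n → p.U t = q.U t) :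
    ∃ D : C → Finset ℕ, OkD f D ∧ Good D p q (n - M * (Sf f - Sn D)) ∧
      Function.Injective (fun c => pc f D c 0) := by
  classical
  have hex : ∃ s : ℕ, ∃ D : C → Finset ℕ, OkD f D ∧ Good D p q (n - M * (Sf f - Sn D)) ∧
      Sn D = s := by
    refine ⟨Sf f, fun c => Finset.range (f c).length, ⟨fun c => ?_, fun c d hd => ?_⟩, ?_, ?_⟩
    · exact Finset.mem_range.2 (List.length_pos_of_ne_nil (hne c))
    · exact Finset.mem_range.1 hd
    · have hall : ∀ (p : PWord f) (t : ℤ), cutAt (fun c => Finset.range (f c).length) p t := by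
        intro p t
        obtain ⟨r, h1, h2⟩ := exists_idx hne p t
        rw [p.step] at h2
        refine ⟨r, (t - p.F r).toNat, ?_, ?_⟩
        · apply Finset.mem_range.2; omega
        · omega
      intro t _ _
      exact ⟨fun _ => hall q t, fun _ => hall p t⟩
    · simp [Sn, Sf]
  obtain ⟨D, hD, hg, hs⟩ := Nat.find_spec hex
  have hmin : ∀ D' : C → Finset ℕ, OkD f D' → Good D' p q (n - M * (Sf f - Sn D')) →
      Sn D ≤ Sn D' := by
    intro D' hD' hg'
    by_contra hcon
    push Not at hcon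
    exact Nat.find_min hex (hs ▸ hcon) ⟨D', hD', hg', rfl⟩
  refine ⟨D, hD, hg, ?_⟩
  have hfirst : ∀ c, ∀ d ∈ D c, ∃ c', pc f D c d = pc f D c' 0 := by
    intro c d hd
    by_contra hcon
    push Not at hcon
    set z := pc f D c d with hz
    set D' : C → Finset ℕ := fun c => (D c).filter (fun d => pc f D c d ≠ z) with hD'
    have hlt : Sn D' < Sn D := by
      apply Finset.sum_lt_sum
      · intro c _
        exact Finset.card_le_card (Finset.filter_subset _ _)
      · refine ⟨c, Finset.mem_univ _, Finset.card_lt_card ?_⟩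
        rw [Finset.ssubset_iff_of_subset (Finset.filter_subset _ _)]
        exact ⟨d, hd, by simp [← hz]⟩
    have hD'ok : OkD f D' := by
      refine ⟨fun c' => ?_, fun c' d' hd' => ?_⟩
      · exact Finset.mem_filter.2 ⟨hD.zero c', fun h => hcon c' h.symm⟩
      · exact hD.lt c' d' (Finset.mem_filter.1 hd').1
    have hle := Sn_le hD
    have hgood : Good D' p q (n - M * (Sf f - Sn D')) := by
      apply good_filter hne hD hM p q hn _ hg z
      · have h1 : (Sn D' : ℤ) + 1 ≤ Sn D := by exact_mod_cast hlt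
        have h2 : (M : ℤ) * 1 ≤ M * ((Sn D : ℤ) - Sn D') :=
          mul_le_mul_of_nonneg_left (by omega) (by omega)
        have h3 : (M : ℤ) * ((Sf f : ℤ) - Sn D') = M * ((Sf f : ℤ) - Sn D) +
          M * ((Sn D : ℤ) - Sn D') := by ring
        rw [h3]
        linarith
      · have h1 : (0 : ℤ) ≤ M * ((Sf f : ℤ) - Sn D) :=
          mul_nonneg (by omega) (by have : (Sn D : ℤ) ≤ Sf f := by exact_mod_cast hle
                                    omega)
        linarith
    exact absurd (hmin D' hD'ok hgood) (by omega)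
  have hcard := hel (Finset.univ.image (fun c => pc f D c 0)) (by
    intro c
    obtain ⟨l, hl1, hl2⟩ := decompose hD c
    refine ⟨l, fun z hz => ?_, hl2⟩
    obtain ⟨d, hd, rfl⟩ := hl1 z hz
    obtain ⟨c', hc'⟩ := hfirst c d hd
    rw [hc']
    exact Finset.mem_image_of_mem _ (Finset.mem_univ _))
  have h2 : (Finset.univ.image (fun c => pc f D c 0)).card = (Finset.univ : Finset C).card :=
    le_antisymm Finset.card_image_le (by rw [Finset.card_univ]; exact hcard)
  have h3 := Finset.card_image_iff.1 h2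
  intro a b hab
  exact h3 (by simp) (by simp) hab

/-! ### First letter -/

omit [DecidableEq C] in
theorem first_letter (hne : ∀ c, f c ≠ []) (hel : Elem f) {M : ℕ}
    (hM : ∀ c, (f c).length ≤ M) (p q : PWord f) (r r' : ℤ) (hr : p.F r = 0) (hr' : q.F r' = 0)
    (hn : ∀ t : ℤ, 0 ≤ t → t < (M * (Sf f + 1) : ℕ) → p.U t = q.U t) : p.V r = q.V r' := by
  obtain ⟨D, hD, hg, hinj⟩ := exists_D hne hel hM p q _ hn
  have hle := Sn_le hD
  have h1 : (0 : ℤ) ≤ M * ((Sf f : ℤ) - Sn D) :=
    mul_nonneg (by omega) (by have : (Sn D : ℤ) ≤ Sf f := by exact_mod_cast hle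
                              omega)
  have h2 : (M : ℤ) * ((Sf f : ℤ) - Sn D) ≤ M * Sf f :=
    mul_le_mul_of_nonneg_left (by omega) (by omega)
  apply hinj
  apply same_piece hne hD hM p q hn _ hg (hD.zero _) (hD.zero _)
  · simp [hr, hr']
  · simp [hr]
  · simp only [hr]
    push_cast
    have h3 : (M : ℤ) * (Sf f + 1) = M * Sf f + M := by ring
    rw [h3]
    linarith
  · linarith

/-! ### Stretches without common cuts -/

/-- The state at a position. -/
noncomputable def st (hne : ∀ c, f c ≠ []) (p : PWord f) (t : ℤ) : C × ℕ :=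
  (p.V (exists_idx hne p t).choose, (t - p.F (exists_idx hne p t).choose).toNat)

omit [Fintype C] [DecidableEq C] [DecidableEq A] in
theorem st_spec (hne : ∀ c, f c ≠ []) (p : PWord f) (t : ℤ) : ∃ r : ℤ, p.F r ≤ t ∧
    t < p.F (r + 1) ∧ t = p.F r + (st hne p t).2 ∧ p.V r = (st hne p t).1 ∧
    (st hne p t).2 < (f (st hne p t).1).length := by
  obtain ⟨h1, h2⟩ := (exists_idx hne p t).choose_spec
  refine ⟨(exists_idx hne p t).choose, h1, h2, ?_, rfl, ?_⟩
  · simp only [st]
    omega
  · rw [p.step] at h2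
    simp only [st]
    omega

omit [Fintype C] [DecidableEq C] [DecidableEq A] in
theorem st_eq (hne : ∀ c, f c ≠ []) (p : PWord f) (t r : ℤ) (d : ℕ)
    (h1 : t = p.F r + d) (h2 : d < (f (p.V r)).length) : st hne p t = (p.V r, d) := by
  obtain ⟨r', h1', h2', h3', h4', h5'⟩ := st_spec hne p t
  have hr : r = r' := by
    apply idx_unique hne p (t := t) _ _ h1' h2'
    · omega
    · rw [p.step]; omega
  subst hr
  apply Prod.ext
  · exact h4'.symm
  · simp only; omega

omit [Fintype C] [DecidableEq C] [DecidableEq A] in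
theorem U_of_st (hne : ∀ c, f c ≠ []) (p : PWord f) (t t' : ℤ)
    (h : st hne p t = st hne p t') : p.U t = p.U t' := by
  have key : ∀ t, (f (st hne p t).1)[(st hne p t).2]? = some (p.U t) := by
    intro t
    obtain ⟨r, -, -, h3, h4, h5⟩ := st_spec hne p t
    rw [List.getElem?_eq_getElem h5]
    congr 1
    have h6 : (st hne p t).2 < (f (p.V r)).length := by rw [h4]; exact h5
    have h7 := p.val r _ h6
    rw [← h3] at h7
    rw [h7]
    congr 1
    rw [h4]
  have h1 := key t
  rw [h, key t'] at h1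
  exact (Option.some.inj h1).symm

omit [Fintype C] [DecidableEq C] [DecidableEq A] in
/-- The state at the next position. -/
theorem st_succ (hne : ∀ c, f c ≠ []) (p : PWord f) (t : ℤ) :
    ((st hne p t).2 + 1 < (f (st hne p t).1).length ∧
      st hne p (t + 1) = ((st hne p t).1, (st hne p t).2 + 1)) ∨
    ((st hne p t).2 + 1 = (f (st hne p t).1).length ∧ (st hne p (t + 1)).2 = 0) := by
  obtain ⟨r, h1, h2, h3, h4, h5⟩ := st_spec hne p t
  rcases Nat.lt_or_ge ((st hne p t).2 + 1) (f (st hne p t).1).length with h | h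
  · refine Or.inl ⟨h, ?_⟩
    rw [st_eq hne p (t + 1) r ((st hne p t).2 + 1) (by push_cast; omega) (by rw [h4]; exact h)]
    rw [h4]
  · refine Or.inr ⟨by omega, ?_⟩
    rw [st_eq hne p (t + 1) (r + 1) 0 ?_ ?_]
    · rw [p.step, h4]
      push_cast
      omega
    · exact List.length_pos_of_ne_nil (hne _)

omit [Fintype C] [DecidableEq C] [DecidableEq A] in
/-- Determinism, one side. -/
theorem det_one (hne : ∀ c, f c ≠ []) {D : C → Finset ℕ} (hD : OkD f D) {M : ℕ}
    (hM : ∀ c, (f c).length ≤ M) (hinj : Function.Injective (fun c => pc f D c 0))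
    (p q : PWord f) {n h : ℤ} (hn : ∀ t : ℤ, 0 ≤ t → t < n → p.U t = q.U t) (hhn : h ≤ n)
    (hg : Good D p q h)
    (hnc : ∀ r r' : ℤ, p.F r = q.F r' → 0 ≤ p.F r → p.F r ≤ n → False)
    {t t' : ℤ} (ht : 0 ≤ t) (ht' : 0 ≤ t') (hth : t + 1 + M ≤ h) (hth' : t' + 1 + M ≤ h)
    (e1 : st hne p t = st hne p t') (e2 : st hne q t = st hne q t') :
    st hne p (t + 1) = st hne p (t' + 1) := by
  rcases st_succ hne p t with ⟨h1, h2⟩ | ⟨h1, h2⟩
  · rcases st_succ hne p t' with ⟨h1', h2'⟩ | ⟨h1', h2'⟩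
    · rw [h2, h2', e1]
    · rw [e1] at h1; omega
  · rcases st_succ hne p t' with ⟨h1', h2'⟩ | ⟨h1', h2'⟩
    · rw [e1] at h1; omega
    · -- a new letter of `p` starts at `t+1` and at `t'+1`
      have key : ∀ s : ℤ, 0 ≤ s → s + 1 + M ≤ h → (st hne p (s + 1)).2 = 0 →
          pc f D (st hne p (s + 1)).1 0 = pc f D (st hne q s).1 ((st hne q s).2 + 1) := by
        intro s hs hsh hs0
        obtain ⟨r, -, -, h3, h4, h5⟩ := st_spec hne p (s + 1)
        obtain ⟨r', -, -, h3', h4', h5'⟩ := st_spec hne q s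
        rw [hs0, Nat.cast_zero, add_zero] at h3
        rcases st_succ hne q s with ⟨g1, g2⟩ | ⟨g1, g2⟩
        · have hcut : cutAt D q (s + 1) :=
            (hg (s + 1) (by omega) (by omega)).1 ⟨r, 0, hD.zero _, by simpa using h3⟩
          obtain ⟨r2, d2, hd2, he2⟩ := hcut
          have h6 := st_eq hne q (s + 1) r2 d2 he2 (hD.lt _ _ hd2)
          rw [g2] at h6
          have h7 : (st hne q s).1 = q.V r2 := congrArg Prod.fst h6
          have h8 : (st hne q s).2 + 1 = d2 := congrArg Prod.snd h6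
          rw [← h4, h7, h8]
          apply same_piece hne hD hM p q hn hhn hg (hD.zero _) hd2
          · rw [← he2, Nat.cast_zero, add_zero]; exact h3.symm
          · rw [Nat.cast_zero, add_zero, ← h3]; omega
          · rw [Nat.cast_zero, add_zero, ← h3]; exact hsh
        · exfalso
          obtain ⟨r2, -, -, h3'', -, -⟩ := st_spec hne q (s + 1)
          rw [g2, Nat.cast_zero, add_zero] at h3''
          exact hnc r r2 (by rw [← h3, ← h3'']) (by rw [← h3]; omega) (by rw [← h3]; omega)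
      have k1 := key t ht hth h2
      have k2 := key t' ht' hth' h2'
      rw [← e2, ← k1] at k2
      exact Prod.ext (hinj k2.symm) (by rw [h2, h2'])

omit [DecidableEq C] in
theorem stretch (hne : ∀ c, f c ≠ []) (hel : Elem f) {M : ℕ}
    (hM : ∀ c, (f c).length ≤ M) (p q : PWord f) (n : ℤ)
    (hn : ∀ t : ℤ, 0 ≤ t → t < n → p.U t = q.U t)
    (hnc : ∀ r r' : ℤ, p.F r = q.F r' → 0 ≤ p.F r → p.F r ≤ n → False) :
    ∃ π : ℤ, 1 ≤ π ∧ π ≤ ((Fintype.card C * M) * (Fintype.card C * M) : ℕ) ∧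
      ∀ t : ℤ, (((Fintype.card C * M) * (Fintype.card C * M) + M * (Sf f + 2) + 2 : ℕ) : ℤ) ≤ t →
        t + π < n - ((Fintype.card C * M) * (Fintype.card C * M) + M * (Sf f + 2) + 2 : ℕ) →
        p.U t = p.U (t + π) := by
  classical
  obtain ⟨D, hD, hg, hinj⟩ := exists_D hne hel hM p q n hn
  have hle := Sn_le hD
  have h1 : (0 : ℤ) ≤ M * ((Sf f : ℤ) - Sn D) :=
    mul_nonneg (by omega) (by have : (Sn D : ℤ) ≤ Sf f := by exact_mod_cast hle
                              omega)
  have h2 : (M : ℤ) * ((Sf f : ℤ) - Sn D) ≤ M * Sf f :=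
    mul_le_mul_of_nonneg_left (by omega) (by omega)
  set h : ℤ := n - M * ((Sf f : ℤ) - Sn D) with hh
  have hhn : h ≤ n := by omega
  set B : ℕ := (Fintype.card C * M) * (Fintype.card C * M) with hB
  have hlt : ∀ (p : PWord f) (t : ℤ), (st hne p t).2 < M := by
    intro p t
    obtain ⟨r, -, -, -, -, h5⟩ := st_spec hne p t
    have := hM (st hne p t).1
    omega
  obtain ⟨i, j, hij, hst⟩ := Fintype.exists_ne_map_eq_of_card_lt
    (fun i : Fin (B + 1) => (((st hne p (i.val : ℤ)).1, (⟨_, hlt p (i.val : ℤ)⟩ : Fin M)),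
      ((st hne q (i.val : ℤ)).1, (⟨_, hlt q (i.val : ℤ)⟩ : Fin M)))) (by
      simp [hB])
  have hpair : ∃ i j : ℕ, i < j ∧ j ≤ B ∧ st hne p (i : ℤ) = st hne p (j : ℤ) ∧
      st hne q (i : ℤ) = st hne q (j : ℤ) := by
    simp only [Prod.mk.injEq, Fin.mk.injEq] at hst
    obtain ⟨⟨a1, a2⟩, ⟨a3, a4⟩⟩ := hst
    rcases Nat.lt_or_gt_of_ne (fun h => hij (Fin.ext h) : i.val ≠ j.val) with h | h
    · exact ⟨i.val, j.val, h, by have := j.isLt; omega, Prod.ext a1 a2, Prod.ext a3 a4⟩
    · exact ⟨j.val, i.val, h, by have := i.isLt; omega, Prod.ext a1.symm a2.symm,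
        Prod.ext a3.symm a4.symm⟩
  obtain ⟨i, j, hij, hjB, hp, hq⟩ := hpair
  have hstep : ∀ s : ℕ, (j : ℤ) + s + M ≤ h → st hne p ((i : ℤ) + s) = st hne p ((j : ℤ) + s) ∧
      st hne q ((i : ℤ) + s) = st hne q ((j : ℤ) + s) := by
    intro s
    induction s with
    | zero => intro _; simpa using ⟨hp, hq⟩
    | succ s ih =>
      intro hs
      push_cast at hs
      obtain ⟨ih1, ih2⟩ := ih (by omega)
      have e1 : (i : ℤ) + ((s + 1 : ℕ) : ℤ) = i + s + 1 := by push_cast; ring
      have e2 : (j : ℤ) + ((s + 1 : ℕ) : ℤ) = j + s + 1 := by push_cast; ring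
      rw [e1, e2]
      exact ⟨det_one hne hD hM hinj p q hn hhn hg hnc (by omega) (by omega) (by omega) (by omega)
        ih1 ih2,
        det_one hne hD hM hinj q p (fun t h1 h2 => (hn t h1 h2).symm) hhn
          (fun t h1 h2 => (hg t h1 h2).symm)
          (fun r r' e e0 e1 => hnc r' r e.symm (by omega) (by omega))
          (by omega) (by omega) (by omega) (by omega) ih2 ih1⟩
  refine ⟨(j : ℤ) - i, by omega, by omega, fun t ht htn => ?_⟩
  have e3 : ((B + M * (Sf f + 2) + 2 : ℕ) : ℤ) = B + (M * Sf f + 2 * M) + 2 := by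
    push_cast; ring
  rw [e3] at ht htn
  have h3 : (0 : ℤ) ≤ (M : ℤ) * Sf f := by positivity
  obtain ⟨s, hs⟩ : ∃ s : ℕ, t = i + s := ⟨(t - i).toNat, by omega⟩
  have h4 := (hstep s (by omega)).1
  have e4 : t + ((j : ℤ) - i) = j + s := by omega
  rw [e4, hs]
  exact U_of_st hne p _ _ h4

end Min

/-! ### Reversal -/

section Rev

variable {f : C → List A}

/-- The reversed morphism. -/
def rv (f : C → List A) : C → List A := fun c => (f c).reverse

/-- The reversed word. -/
def prv (p : PWord f) : PWord (rv f) where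
  V n := p.V (-1 - n)
  F n := -p.F (-n)
  U n := p.U (-1 - n)
  step n := by
    have h := p.step (-1 - n)
    have e : (-1 - n + 1 : ℤ) = -n := by ring
    have e2 : (-(n + 1) : ℤ) = -1 - n := by ring
    rw [e] at h
    rw [e2, h, rv, List.length_reverse]
    ring
  val n k hk := by
    have hk' : k < (f (p.V (-1 - n))).length := by
      simpa [rv] using hk
    have h := p.step (-1 - n)
    have e : (-1 - n + 1 : ℤ) = -n := by ring
    rw [e] at h
    have h2 := p.val (-1 - n) ((f (p.V (-1 - n))).length - 1 - k) (by omega)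
    simp only [rv, List.getElem_reverse]
    rw [← h2]
    congr 1
    omega

theorem elem_rv [Fintype C] (hel : Elem f) : Elem (rv f) := by
  classical
  intro Z hZ
  refine le_trans (hel (Z.image List.reverse) (fun c => ?_)) Finset.card_image_le
  obtain ⟨l, h1, h2⟩ := hZ c
  refine ⟨(l.map List.reverse).reverse, ?_, ?_⟩
  · intro z hz
    rw [List.mem_reverse, List.mem_map] at hz
    obtain ⟨y, hy, rfl⟩ := hz
    exact Finset.mem_image_of_mem _ (h1 y hy)
  · rw [← List.reverse_flatten, h2]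
    simp [rv]

end Rev

end Defect

open Defect in
/-- Recognizability of elementary morphisms. -/
theorem defect {C A : Type*} [Fintype C] [DecidableEq C] [DecidableEq A] (f : C → List A)
    (hne : ∀ c, f c ≠ []) (hel : Elem f) :
    ∃ N P : ℕ, ∀ p q : PWord f,
      (∀ r r' : ℤ, p.F r = 0 → q.F r' = 0 → (∀ t : ℤ, 0 ≤ t → t < N → p.U t = q.U t) →
        p.V r = q.V r') ∧
      (∀ r r' : ℤ, p.F r = 0 → q.F r' = 0 → (∀ t : ℤ, -N ≤ t → t < 0 → p.U t = q.U t) →
        p.V (r - 1) = q.V (r' - 1)) ∧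
      (∀ n : ℤ, (∀ t : ℤ, 0 ≤ t → t < n → p.U t = q.U t) →
        (∀ r r' : ℤ, p.F r = q.F r' → 0 ≤ p.F r → p.F r ≤ n → False) →
        ∃ π : ℤ, 1 ≤ π ∧ π ≤ P ∧ ∀ t : ℤ, N ≤ t → t + π < n - N → p.U t = p.U (t + π)) := by
  obtain ⟨M, hM⟩ : ∃ M : ℕ, ∀ c, (f c).length ≤ M :=
    ⟨∑ c, (f c).length, fun c => Finset.single_le_sum (f := fun c => (f c).length)
      (fun _ _ => Nat.zero_le _) (Finset.mem_univ c)⟩
  set N1 : ℕ := M * (Sf f + 1) with hN1
  set N2 : ℕ := M * (Sf (rv f) + 1) with hN2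
  set B : ℕ := (Fintype.card C * M) * (Fintype.card C * M) with hB
  set N3 : ℕ := B + M * (Sf f + 2) + 2 with hN3
  refine ⟨N1 + N2 + N3, B, fun p q => ⟨?_, ?_, ?_⟩⟩
  · intro r r' hr hr' h
    exact first_letter hne hel hM p q r r' hr hr' (fun t h1 h2 => h t h1 (by push_cast; omega))
  · intro r r' hr hr' h
    have hne' : ∀ c, rv f c ≠ [] := by
      intro c hc
      exact hne c (List.reverse_eq_nil_iff.1 hc)
    have hM' : ∀ c, (rv f c).length ≤ M := by
      intro c
      simpa [rv] using hM c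
    have h1 := first_letter hne' (elem_rv hel) hM' (prv p) (prv q) (-r) (-r')
      (by simp [prv, hr]) (by simp [prv, hr']) (fun t h1 h2 => by
        show p.U (-1 - t) = q.U (-1 - t)
        apply h
        · push_cast; omega
        · omega)
    have e1 : (-1 - -r : ℤ) = r - 1 := by ring
    have e2 : (-1 - -r' : ℤ) = r' - 1 := by ring
    have h2 : p.V (-1 - -r) = q.V (-1 - -r') := h1
    rwa [e1, e2] at h2
  · intro n h hnc
    obtain ⟨π, h1, h2, h3⟩ := stretch hne hel hM p q n h hnc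
    have e : ((N1 + N2 + N3 : ℕ) : ℤ) = N1 + N2 + N3 := by push_cast; ring
    rw [← hB, ← hN3] at h3
    refine ⟨π, h1, h2, fun t ht htn => h3 t ?_ ?_⟩
    · rw [e] at ht; omega
    · rw [e] at htn; omega

end FC
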