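import Pool.Agent.LibFC.GrowthGf

/-! # Growth of the iterates of an everywhere growing morphism -/

set_option autoImplicit false

open Filter

namespace FC.Growth

open FC

/-! ### Fekete type lemma -/

theorem fekete (a : ℕ → ℝ) (C : ℝ) (h1 : ∀ m, 1 ≤ a m) (hsub : ∀ m l, a (m + l) ≤ a m * a l)
    (hsup : ∀ m l, a m * a l ≤ C * a (m + l)) :
    ∃ ρ : ℝ, 1 ≤ ρ ∧ ∀ m, ρ ^ m ≤ a m ∧ a m ≤ C * ρ ^ m := by
  have hpos : ∀ m, 0 < a m := fun m => by linarith [h1 m]
  have hC : 1 ≤ C := by
    have := hsup 0 0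
    have h0 := h1 0
    simp only [add_zero] at this
    nlinarith
  have hCpos : 0 < C := by linarith
  set u : ℕ → ℝ := fun m => Real.log (a m) with hu
  have hu0 : ∀ m, 0 ≤ u m := fun m => Real.log_nonneg (h1 m)
  have hus : Subadditive u := by
    intro m l
    simp only [hu]
    rw [← Real.log_mul (hpos m).ne' (hpos l).ne']
    exact Real.log_le_log (hpos _) (hsub m l)
  have hub : BddBelow (Set.range fun n => u n / n) := by
    refine ⟨0, ?_⟩
    rintro _ ⟨n, rfl⟩
    exact div_nonneg (hu0 n) (by positivity)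
  set w : ℕ → ℝ := fun m => Real.log C - u m with hw
  have hlc : 0 ≤ Real.log C := Real.log_nonneg hC
  have hws : Subadditive w := by
    intro m l
    simp only [hw, hu]
    have : Real.log (a m) + Real.log (a l) ≤ Real.log C + Real.log (a (m + l)) := by
      rw [← Real.log_mul (hpos m).ne' (hpos l).ne', ← Real.log_mul hCpos.ne' (hpos _).ne']
      exact Real.log_le_log (mul_pos (hpos _) (hpos _)) (hsup m l)
    linarith
  have hun : ∀ n : ℕ, u n ≤ n * u 1 + u 0 := by
    intro n
    have := hus.apply_mul_add_le n 1 0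
    simpa using this
  have hwb : BddBelow (Set.range fun n => w n / n) := by
    refine ⟨-(u 1) - u 0, ?_⟩
    rintro _ ⟨n, rfl⟩
    simp only
    rcases Nat.eq_zero_or_pos n with hn | hn
    · subst hn
      simp only [CharP.cast_eq_zero, div_zero]
      linarith [hu0 1, hu0 0]
    · have hn' : (1 : ℝ) ≤ n := by exact_mod_cast hn
      rw [le_div_iff₀ (by linarith)]
      simp only [hw]
      have := hun n
      nlinarith [hu0 0, hu0 1]
  have hlim : hws.lim = -hus.lim := by
    have t1 := hws.tendsto_lim hwb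
    have t2 := hus.tendsto_lim hub
    have t3 : Tendsto (fun n : ℕ => Real.log C / (n : ℝ) - u n / n) atTop (nhds (0 - hus.lim)) :=
      (tendsto_const_div_atTop_nhds_zero_nat (Real.log C)).sub t2
    have t4 : Tendsto (fun n => w n / n) atTop (nhds (0 - hus.lim)) := by
      refine t3.congr ?_
      intro n
      simp only [hw]
      rw [sub_div]
    have := tendsto_nhds_unique t1 t4
    rw [this, zero_sub]
  refine ⟨Real.exp hus.lim, ?_, ?_⟩
  · rw [← Real.exp_zero]
    apply Real.exp_le_exp.mpr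
    have t2 := hus.tendsto_lim hub
    apply ge_of_tendsto' t2
    intro n
    exact div_nonneg (hu0 n) (by positivity)
  · intro m
    rw [← Real.exp_nat_mul]
    rcases Nat.eq_zero_or_pos m with hm | hm
    · subst hm
      simp only [CharP.cast_eq_zero, zero_mul, Real.exp_zero, mul_one]
      refine ⟨h1 0, ?_⟩
      have := hsup 0 0
      simp only [add_zero] at this
      have h0 := hpos 0
      exact le_of_mul_le_mul_right this h0
    · have hm' : (0 : ℝ) < m := by exact_mod_cast hm
      constructor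
      · have := hus.lim_le_div hub (Nat.pos_iff_ne_zero.mp hm)
        rw [le_div_iff₀ hm'] at this
        have h2 : Real.exp (m * hus.lim) ≤ Real.exp (u m) := by
          apply Real.exp_le_exp.mpr
          linarith
        simp only [hu] at h2
        rwa [Real.exp_log (hpos m)] at h2
      · have := hws.lim_le_div hwb (Nat.pos_iff_ne_zero.mp hm)
        rw [le_div_iff₀ hm', hlim] at this
        simp only [hw] at this
        have h2 : Real.exp (u m) ≤ Real.exp (Real.log C + m * hus.lim) := by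
          apply Real.exp_le_exp.mpr
          linarith
        rw [Real.exp_add, Real.exp_log hCpos] at h2
        simp only [hu] at h2
        rwa [Real.exp_log (hpos m)] at h2

/-! ### Abstract powers of a nonnegative integer matrix -/

/-- powers of a nonnegative integer matrix. -/
structure Mat (A : Type*) [Fintype A] [DecidableEq A] where
  N : ℕ → A → A → ℝ
  zero : ∀ b c, N 0 b c = if b = c then 1 else 0
  add : ∀ m l b c, N (m + l) b c = ∑ e, N m b e * N l e c
  int : ∀ m b c, N m b c = 0 ∨ 1 ≤ N m b c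

namespace Mat

variable {A : Type*} [Fintype A] [DecidableEq A] (M : Mat A)

theorem nonneg (m : ℕ) (b c : A) : 0 ≤ M.N m b c := by
  rcases M.int m b c with h | h <;> linarith

/-- reachability. -/
def Reach (b c : A) : Prop := ∃ m, 1 ≤ M.N m b c

theorem mul_le (m l : ℕ) (b e c : A) : M.N m b e * M.N l e c ≤ M.N (m + l) b c := by
  rw [M.add]
  exact Finset.single_le_sum (f := fun e => M.N m b e * M.N l e c)
    (fun e _ => mul_nonneg (M.nonneg _ _ _) (M.nonneg _ _ _)) (Finset.mem_univ e)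

theorem reach_refl (b : A) : M.Reach b b := ⟨0, by rw [M.zero]; simp⟩

theorem reach_trans {b c d : A} (h1 : M.Reach b c) (h2 : M.Reach c d) : M.Reach b d := by
  obtain ⟨m, hm⟩ := h1
  obtain ⟨l, hl⟩ := h2
  refine ⟨m + l, ?_⟩
  have := M.mul_le m l b c d
  nlinarith

/-- row sums. -/
def W (m : ℕ) (b : A) : ℝ := ∑ c, M.N m b c

theorem W_add (m l : ℕ) (b : A) : M.W (m + l) b = ∑ e, M.N m b e * M.W l e := by
  unfold W
  simp_rw [M.add, Finset.mul_sum]
  rw [Finset.sum_comm]

theorem W_nonneg (m : ℕ) (b : A) : 0 ≤ M.W m b := Finset.sum_nonneg fun _ _ => M.nonneg _ _ _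

/-- a strongly connected class. -/
structure Cls (Q : Finset A) : Prop where
  ne : Q.Nonempty
  conn : ∀ x ∈ Q, ∀ y ∈ Q, M.Reach x y
  conv : ∀ x ∈ Q, ∀ z ∈ Q, ∀ y, M.Reach x y → M.Reach y z → y ∈ Q

variable {M} {Q : Finset A}

theorem Cls.add (hQ : M.Cls Q) (m l : ℕ) {x z : A} (hx : x ∈ Q) (hz : z ∈ Q) :
    M.N (m + l) x z = ∑ y ∈ Q, M.N m x y * M.N l y z := by
  rw [M.add]
  symm
  apply Finset.sum_subset (Finset.subset_univ Q)
  intro y _ hy
  rcases M.int m x y with h | h
  · rw [h, zero_mul]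
  · rcases M.int l y z with h' | h'
    · rw [h', mul_zero]
    · exact absurd (hQ.conv x hx z hz y ⟨m, h⟩ ⟨l, h'⟩) hy

/-- a common bound for connecting path lengths. -/
theorem Cls.exists_D (hQ : M.Cls Q) : ∃ D : ℕ, ∀ x ∈ Q, ∀ y ∈ Q, ∃ d, d ≤ D ∧ 1 ≤ M.N d x y := by
  classical
  choose! f hf using hQ.conn
  refine ⟨∑ x ∈ Q, ∑ y ∈ Q, (f x y), ?_⟩
  intro x hx y hy
  obtain ⟨d, hd⟩ := hQ.conn x hx y hy
  have h1 := hf x hx y hy
  refine ⟨f x y, ?_, h1⟩
  calc f x y ≤ ∑ y ∈ Q, f x y := Finset.single_le_sum (f := fun y => f x y) (fun _ _ => Nat.zero_le _) hy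
    _ ≤ _ := Finset.single_le_sum (f := fun x => ∑ y ∈ Q, f x y) (fun _ _ => Nat.zero_le _) hx

/-- internal row sums. -/
def r (M : Mat A) (Q : Finset A) (m : ℕ) (x : A) : ℝ := ∑ y ∈ Q, M.N m x y

theorem r_nonneg (m : ℕ) (x : A) : 0 ≤ r M Q m x := Finset.sum_nonneg fun _ _ => M.nonneg _ _ _

theorem r_le_W (m : ℕ) (x : A) : r M Q m x ≤ M.W m x := by
  unfold r W
  exact Finset.sum_le_sum_of_subset_of_nonneg (Finset.subset_univ Q) fun _ _ _ => M.nonneg _ _ _

theorem Cls.r_add (hQ : M.Cls Q) (m l : ℕ) {x : A} (hx : x ∈ Q) :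
    r M Q (m + l) x = ∑ y ∈ Q, M.N m x y * r M Q l y := by
  unfold r
  rw [Finset.sum_congr rfl fun z hz => hQ.add m l hx hz]
  rw [Finset.sum_comm]
  apply Finset.sum_congr rfl
  intro y _
  rw [Finset.mul_sum]

/-- every letter of the class has a successor in the class. -/
def Nontriv (M : Mat A) (Q : Finset A) : Prop := ∀ x ∈ Q, ∃ y ∈ Q, 1 ≤ M.N 1 x y

theorem Cls.r_mono (hQ : M.Cls Q) (hn : M.Nontriv Q) (m : ℕ) {x : A} (hx : x ∈ Q) :
    r M Q m x ≤ r M Q (m + 1) x := by
  rw [hQ.r_add m 1 hx]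
  unfold r
  apply Finset.sum_le_sum
  intro y hy
  obtain ⟨z, hz, hz1⟩ := hn y hy
  have h1 : (1 : ℝ) ≤ ∑ z ∈ Q, M.N 1 y z :=
    le_trans hz1 (Finset.single_le_sum (f := fun z => M.N 1 y z) (fun _ _ => M.nonneg _ _ _) hz)
  have h2 := M.nonneg m x y
  nlinarith

theorem Cls.r_mono' (hQ : M.Cls Q) (hn : M.Nontriv Q) {m l : ℕ} (hml : m ≤ l) {x : A} (hx : x ∈ Q) :
    r M Q m x ≤ r M Q l x := by
  induction l, hml using Nat.le_induction with
  | base => exact le_refl _
  | succ l _ ih => exact le_trans ih (hQ.r_mono hn l hx)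

theorem Cls.one_le_r (hQ : M.Cls Q) (hn : M.Nontriv Q) (m : ℕ) {x : A} (hx : x ∈ Q) :
    1 ≤ r M Q m x := by
  refine le_trans ?_ (hQ.r_mono' hn (Nat.zero_le m) hx)
  unfold r
  simp_rw [M.zero]
  rw [Finset.sum_ite_eq]
  simp [hx]

/-- growth rate of a nontrivial class. -/
theorem Cls.rate (hQ : M.Cls Q) (hn : M.Nontriv Q) :
    ∃ (ρ C c : ℝ) (D : ℕ), 1 ≤ ρ ∧ 0 < C ∧ 0 < c ∧
      (∀ m, ∀ x ∈ Q, c * ρ ^ m ≤ r M Q m x ∧ r M Q m x ≤ C * ρ ^ m) ∧
      (∀ x ∈ Q, ∀ y ∈ Q, ∃ d, d ≤ D ∧ 1 ≤ M.N d x y) ∧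
      (∀ m, ∀ x ∈ Q, ∀ y ∈ Q, c * ρ ^ m ≤ ∑ d ∈ Finset.range (D + 1), M.N (m + d) x y) := by
  classical
  obtain ⟨D, hD⟩ := hQ.exists_D
  set s : ℕ → ℝ := fun m => ∑ x ∈ Q, r M Q m x with hs
  have hq : (1 : ℝ) ≤ (Q.card : ℝ) := by exact_mod_cast hQ.ne.card_pos
  have hq0 : (0 : ℝ) < (Q.card : ℝ) := by linarith
  have hs1 : ∀ m, 1 ≤ s m := by
    intro m
    obtain ⟨x, hx⟩ := hQ.ne
    exact le_trans (hQ.one_le_r hn m hx)
      (Finset.single_le_sum (f := fun x => r M Q m x) (fun _ _ => r_nonneg _ _) hx)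
  have hrs : ∀ m, ∀ x ∈ Q, r M Q m x ≤ s m := fun m x hx =>
    Finset.single_le_sum (f := fun x => r M Q m x) (fun _ _ => r_nonneg _ _) hx
  have hNr : ∀ m, ∀ x, ∀ y ∈ Q, M.N m x y ≤ r M Q m x := fun m x y hy =>
    Finset.single_le_sum (f := fun y => M.N m x y) (fun _ _ => M.nonneg _ _ _) hy
  have hsub : ∀ m l, s (m + l) ≤ s m * s l := by
    intro m l
    simp only [hs]
    rw [Finset.sum_congr rfl fun x hx => hQ.r_add m l hx]
    rw [Finset.sum_mul]
    apply Finset.sum_le_sum
    intro x hx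
    unfold r
    rw [Finset.sum_mul]
    apply Finset.sum_le_sum
    intro y hy
    apply mul_le_mul_of_nonneg_left _ (M.nonneg _ _ _)
    exact Finset.single_le_sum (f := fun x => ∑ y ∈ Q, M.N l x y)
      (fun _ _ => Finset.sum_nonneg fun _ _ => M.nonneg _ _ _) hy
  -- supermultiplicativity
  set E : ℝ := ∑ d ∈ Finset.range (D + 1), s d with hE
  have hsd : ∀ d, d ≤ D → s d ≤ E := fun d hd =>
    Finset.single_le_sum (f := s) (fun d _ => by linarith [hs1 d])
      (Finset.mem_range.mpr (by omega))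
  have hkey : ∀ m l, ∀ x ∈ Q, ∀ e ∈ Q, ∀ e' ∈ Q, ∀ z ∈ Q,
      M.N m x e * M.N l e' z ≤ E * s (m + l) := by
    intro m l x hx e he e' he' z hz
    obtain ⟨d, hd, hd1⟩ := hD e he e' he'
    have h1 : M.N m x e * M.N l e' z ≤ M.N m x e * M.N (d + l) e z := by
      apply mul_le_mul_of_nonneg_left _ (M.nonneg _ _ _)
      refine le_trans ?_ (M.mul_le d l e e' z)
      have := M.nonneg l e' z
      nlinarith
    have h2 := M.mul_le m (d + l) x e z
    have h3 : M.N (m + (d + l)) x z ≤ s (m + (d + l)) :=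
      le_trans (hNr _ x z hz) (hrs _ x hx)
    have h4 : s (m + (d + l)) ≤ s d * s (m + l) := by
      have := hsub d (m + l)
      rw [show m + (d + l) = d + (m + l) by ring]
      exact this
    have h5 : s d * s (m + l) ≤ E * s (m + l) :=
      mul_le_mul_of_nonneg_right (hsd d hd) (by linarith [hs1 (m + l)])
    linarith
  have hsup : ∀ m l, s m * s l ≤ ((Q.card : ℝ) ^ 4 * E) * s (m + l) := by
    intro m l
    have e1 : s m * s l = ∑ x ∈ Q, ∑ e ∈ Q, ∑ e' ∈ Q, ∑ z ∈ Q, M.N m x e * M.N l e' z := by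
      simp only [hs, r]
      rw [Finset.sum_mul]
      apply Finset.sum_congr rfl; intro x _
      rw [Finset.sum_mul]
      apply Finset.sum_congr rfl; intro e _
      rw [Finset.mul_sum]
      apply Finset.sum_congr rfl; intro e' _
      rw [Finset.mul_sum]
    rw [e1]
    calc ∑ x ∈ Q, ∑ e ∈ Q, ∑ e' ∈ Q, ∑ z ∈ Q, M.N m x e * M.N l e' z
        ≤ ∑ x ∈ Q, ∑ e ∈ Q, ∑ e' ∈ Q, ∑ z ∈ Q, E * s (m + l) := by
          apply Finset.sum_le_sum; intro x hx
          apply Finset.sum_le_sum; intro e he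
          apply Finset.sum_le_sum; intro e' he'
          apply Finset.sum_le_sum; intro z hz
          exact hkey m l x hx e he e' he' z hz
      _ = _ := by
          simp only [Finset.sum_const, nsmul_eq_mul]
          ring
  obtain ⟨ρ, hρ1, hρ⟩ := fekete s _ hs1 hsub hsup
  have hE1 : 1 ≤ E := le_trans (hs1 0) (hsd 0 (Nat.zero_le _))
  have hρ0 : 0 < ρ := by linarith
  have hρD : 1 ≤ ρ ^ D := one_le_pow₀ hρ1
  set c1 : ℝ := 1 / ((Q.card : ℝ) * ρ ^ D) with hc1
  have hc1pos : 0 < c1 := by positivity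
  have hlow : ∀ m, ∀ x ∈ Q, c1 * ρ ^ m ≤ r M Q m x := by
    intro m x hx
    rcases le_or_gt D m with hDm | hDm
    · obtain ⟨m', rfl⟩ := Nat.exists_eq_add_of_le hDm
      -- best row at m'
      obtain ⟨x', hx', hmax⟩ := Finset.exists_max_image Q (fun x => r M Q m' x) hQ.ne
      have h1 : s m' ≤ Q.card * r M Q m' x' := by
        simp only [hs]
        have := Finset.sum_le_card_nsmul Q (fun x => r M Q m' x) _ hmax
        simpa [nsmul_eq_mul] using this
      obtain ⟨d, hd, hd1⟩ := hD x hx x' hx'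
      have h2 : r M Q m' x' ≤ r M Q (d + m') x := by
        rw [hQ.r_add d m' hx]
        refine le_trans ?_ (Finset.single_le_sum (f := fun y => M.N d x y * r M Q m' y)
          (fun _ _ => mul_nonneg (M.nonneg _ _ _) (r_nonneg _ _)) hx')
        have := r_nonneg (M := M) (Q := Q) m' x'
        nlinarith
      have h3 : r M Q (d + m') x ≤ r M Q (D + m') x := hQ.r_mono' hn (by omega) hx
      have h4 := (hρ m').1
      have h5 : c1 * ρ ^ (D + m') = ρ ^ m' / Q.card := by
        rw [hc1, pow_add]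
        field_simp
      rw [h5, div_le_iff₀ hq0]
      nlinarith
    · have h1 := hQ.one_le_r hn m hx
      have h2 : ρ ^ m ≤ ρ ^ D := pow_le_pow_right₀ hρ1 hDm.le
      have h3 : c1 * ρ ^ m ≤ 1 := by
        rw [hc1, div_mul_eq_mul_div, one_mul, div_le_one (by positivity)]
        nlinarith
      linarith
  set C1 : ℝ := (Q.card : ℝ) ^ 4 * E with hC1
  have hC1pos : 0 < C1 := by positivity
  refine ⟨ρ, C1, c1 / Q.card, D, hρ1, hC1pos, by positivity, ?_, hD, ?_⟩
  · intro m x hx
    constructor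
    · refine le_trans ?_ (hlow m x hx)
      apply mul_le_mul_of_nonneg_right _ (by positivity)
      exact div_le_self hc1pos.le hq
    · exact le_trans (hrs m x hx) (hρ m).2
  · intro m x hx y hy
    obtain ⟨e, he, hmax⟩ := Finset.exists_max_image Q (fun e => M.N m x e) hQ.ne
    have h1 : r M Q m x ≤ Q.card * M.N m x e := by
      have := Finset.sum_le_card_nsmul Q (fun e => M.N m x e) _ hmax
      simpa [nsmul_eq_mul, r] using this
    obtain ⟨d, hd, hd1⟩ := hD e he y hy
    have h2 : M.N m x e ≤ M.N (m + d) x y := by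
      refine le_trans ?_ (M.mul_le m d x e y)
      have := M.nonneg m x e
      nlinarith
    have h3 : M.N (m + d) x y ≤ ∑ d ∈ Finset.range (D + 1), M.N (m + d) x y :=
      Finset.single_le_sum (f := fun d => M.N (m + d) x y) (fun _ _ => M.nonneg _ _ _)
        (Finset.mem_range.mpr (by omega))
    have h4 := hlow m x hx
    rw [div_mul_eq_mul_div, div_le_iff₀ hq0]
    nlinarith

/-- contribution of the exits. -/
def X (M : Mat A) (Q : Finset A) (l : ℕ) (y : A) : ℝ := ∑ z ∈ Qᶜ, M.N 1 y z * M.W l z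

theorem X_nonneg (l : ℕ) (y : A) : 0 ≤ X M Q l y :=
  Finset.sum_nonneg fun _ _ => mul_nonneg (M.nonneg _ _ _) (M.W_nonneg _ _)

theorem Cls.decomp (hQ : M.Cls Q) (m : ℕ) : ∀ x ∈ Q,
    M.W m x = r M Q m x +
      ∑ j ∈ Finset.range m, ∑ y ∈ Q, M.N j x y * X M Q (m - 1 - j) y := by
  induction m with
  | zero =>
    intro x hx
    simp only [Finset.range_zero, Finset.sum_empty, add_zero]
    unfold W r
    simp_rw [M.zero]
    rw [Finset.sum_ite_eq, Finset.sum_ite_eq]
    simp [hx]
  | succ m ih =>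
    intro x hx
    have e1 : M.W (m + 1) x = ∑ e ∈ Q, M.N 1 x e * M.W m e + X M Q m x := by
      rw [add_comm m 1, M.W_add]
      unfold X
      rw [Finset.sum_add_sum_compl Q (fun e => M.N 1 x e * M.W m e)]
    have e2 : ∑ e ∈ Q, M.N 1 x e * M.W m e = r M Q (m + 1) x +
        ∑ j ∈ Finset.range m, ∑ y ∈ Q, M.N (j + 1) x y * X M Q (m - 1 - j) y := by
      rw [Finset.sum_congr rfl fun e he => by rw [ih e he]]
      simp_rw [mul_add]
      rw [Finset.sum_add_distrib, add_comm m 1, hQ.r_add 1 m hx]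
      congr 1
      simp_rw [Finset.mul_sum]
      rw [Finset.sum_comm]
      apply Finset.sum_congr rfl
      intro j _
      rw [Finset.sum_comm]
      apply Finset.sum_congr rfl
      intro y hy
      rw [add_comm j 1, hQ.add 1 j hx hy, Finset.sum_mul]
      apply Finset.sum_congr rfl
      intro e _
      ring
    have e3 : ∑ y ∈ Q, M.N 0 x y * X M Q (m + 1 - 1 - 0) y = X M Q m x := by
      simp_rw [M.zero]
      rw [Finset.sum_eq_single x]
      · simp
      · intro y _ hy
        rw [if_neg (Ne.symm hy), zero_mul]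
      · intro h; exact absurd hx h
    rw [e1, e2, Finset.sum_range_succ', e3, add_assoc]
    congr 2
    apply Finset.sum_congr rfl
    intro j _
    apply Finset.sum_congr rfl
    intro y _
    congr 2
    omega

end Mat

/-! ### Convolution estimates -/

theorem geom_le (q : ℝ) (h0 : 0 ≤ q) (h1 : q < 1) (m : ℕ) :
    ∑ j ∈ Finset.range m, q ^ j ≤ 1 / (1 - q) := by
  have h := geom_sum_mul q m
  have h2 : 0 < 1 - q := by linarith
  rw [le_div_iff₀ h2]
  have h3 : 0 ≤ q ^ m := by positivity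
  nlinarith

theorem conv_lt (α : ℕ) (ρ β : ℝ) (hρ : 1 ≤ ρ) (h : ρ < β) : ∃ K : ℝ, 0 < K ∧ ∀ m,
    ∑ j ∈ Finset.range m, ρ ^ j * gf α β (m - 1 - j) ≤ K * gf α β m := by
  have hβ : 1 < β := by linarith
  have hβ0 : 0 < β := by linarith
  have hq : ρ / β < 1 := by rw [div_lt_one hβ0]; exact h
  have hq0 : 0 ≤ ρ / β := by positivity
  refine ⟨1 / (1 - ρ / β), by apply one_div_pos.mpr; linarith, ?_⟩
  intro m
  have hg := geom_le (ρ / β) hq0 hq m
  calc ∑ j ∈ Finset.range m, ρ ^ j * gf α β (m - 1 - j)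
      ≤ ∑ j ∈ Finset.range m, (ρ / β) ^ j * gf α β m := by
        apply Finset.sum_le_sum
        intro j hj
        rw [Finset.mem_range] at hj
        have h1 := gf_iter_ge α β hβ (m - 1 - j) (j + 1)
        rw [show m - 1 - j + (j + 1) = m by omega] at h1
        have h2 := gf_pos α β hβ (m - 1 - j)
        have h3 : β ^ j * gf α β (m - 1 - j) ≤ gf α β m := by
          refine le_trans ?_ h1
          apply mul_le_mul_of_nonneg_right _ h2.le
          exact pow_le_pow_right₀ hβ.le (by omega)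
        have h4 : gf α β (m - 1 - j) ≤ gf α β m / β ^ j := by
          rw [le_div_iff₀ (by positivity)]
          linarith
        calc ρ ^ j * gf α β (m - 1 - j) ≤ ρ ^ j * (gf α β m / β ^ j) :=
              mul_le_mul_of_nonneg_left h4 (by positivity)
          _ = (ρ / β) ^ j * gf α β m := by rw [div_pow]; ring
    _ = (∑ j ∈ Finset.range m, (ρ / β) ^ j) * gf α β m := by rw [Finset.sum_mul]
    _ ≤ 1 / (1 - ρ / β) * gf α β m :=
        mul_le_mul_of_nonneg_right hg (gf_pos α β hβ m).le

theorem bdd_of_tendsto_zero (f : ℕ → ℝ) (h : Tendsto f atTop (nhds 0)) :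
    ∃ K : ℝ, 0 < K ∧ ∀ m, f m ≤ K := by
  obtain ⟨K, hK⟩ := h.bddAbove_range
  refine ⟨|K| + 1, by positivity, ?_⟩
  intro m
  have := hK ⟨m, rfl⟩
  linarith [le_abs_self K]

theorem gf_dom (α α' : ℕ) (β β' : ℝ) (hβ : 1 < β) (h : β < β' ∨ (β = β' ∧ α ≤ α')) :
    ∃ K : ℝ, 0 < K ∧ ∀ m, gf α β m ≤ K * gf α' β' m := by
  have hβ' : 1 < β' := by
    rcases h with h | ⟨h, _⟩ <;> linarith
  by_cases hc : β < β' ∨ (β = β' ∧ α < α')
  · obtain ⟨K, hK, hb⟩ := bdd_of_tendsto_zero _ (gf_lex α α' β β' hβ hc)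
    refine ⟨K, hK, fun m => ?_⟩
    have := hb m
    rwa [div_le_iff₀ (gf_pos α' β' hβ' m)] at this
  · refine ⟨1, one_pos, fun m => ?_⟩
    rcases h with h | ⟨h, h'⟩
    · exact absurd (Or.inl h) hc
    · rcases h'.lt_or_eq with h'' | h''
      · exact absurd (Or.inr ⟨h, h''⟩) hc
      · subst h; subst h''; rw [one_mul]

theorem conv_gt (α : ℕ) (ρ β : ℝ) (hβ : 1 < β) (h : β < ρ) : ∃ K : ℝ, 0 < K ∧ ∀ m,
    ∑ j ∈ Finset.range m, ρ ^ j * gf α β (m - 1 - j) ≤ K * ρ ^ m := by
  set γ := (β + ρ) / 2 with hγ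
  have h1 : β < γ := by rw [hγ]; linarith
  have h2 : γ < ρ := by rw [hγ]; linarith
  have hρ0 : 0 < ρ := by linarith
  obtain ⟨K, hK, hb⟩ := gf_dom α 0 β γ hβ (Or.inl h1)
  have hb' : ∀ m, gf α β m ≤ K * γ ^ m := by
    intro m
    have := hb m
    simpa [gf] using this
  have hq : γ / ρ < 1 := by rw [div_lt_one hρ0]; exact h2
  have hq0 : 0 ≤ γ / ρ := by apply div_nonneg <;> linarith
  have hq1 : 0 < 1 / (1 - γ / ρ) := by apply one_div_pos.mpr; linarith
  refine ⟨K * (1 / (1 - γ / ρ)), by positivity, ?_⟩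
  intro m
  rw [← Finset.sum_range_reflect]
  calc ∑ j ∈ Finset.range m, ρ ^ (m - 1 - j) * gf α β (m - 1 - (m - 1 - j))
      ≤ ∑ j ∈ Finset.range m, K * ρ ^ m * (γ / ρ) ^ j := by
        apply Finset.sum_le_sum
        intro j hj
        rw [Finset.mem_range] at hj
        rw [show m - 1 - (m - 1 - j) = j by omega]
        have e1 : ρ ^ (m - 1 - j) ≤ ρ ^ (m - j) := pow_le_pow_right₀ (by linarith) (by omega)
        have e2 : K * ρ ^ m * (γ / ρ) ^ j = ρ ^ (m - j) * (K * γ ^ j) := by
          rw [div_pow]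
          have : ρ ^ m = ρ ^ (m - j) * ρ ^ j := by rw [← pow_add]; congr 1; omega
          rw [this]
          field_simp
        rw [e2]
        apply mul_le_mul e1 (hb' j) (gf_pos α β hβ j).le (by positivity)
    _ = K * ρ ^ m * ∑ j ∈ Finset.range m, (γ / ρ) ^ j := by rw [Finset.mul_sum]
    _ ≤ K * ρ ^ m * (1 / (1 - γ / ρ)) :=
        mul_le_mul_of_nonneg_left (geom_le _ hq0 hq m) (by positivity)
    _ = _ := by ring

theorem conv_eq (α : ℕ) (β : ℝ) (hβ : 1 < β) : ∀ m,
    ∑ j ∈ Finset.range m, β ^ j * gf α β (m - 1 - j) ≤ gf (α + 1) β m := by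
  intro m
  have hβ0 : 0 < β := by linarith
  calc ∑ j ∈ Finset.range m, β ^ j * gf α β (m - 1 - j)
      ≤ ∑ j ∈ Finset.range m, ((m : ℝ) + 1) ^ α * β ^ m := by
        apply Finset.sum_le_sum
        intro j hj
        rw [Finset.mem_range] at hj
        unfold gf
        have h1 : (((m - 1 - j : ℕ) : ℝ) + 1) ^ α ≤ ((m : ℝ) + 1) ^ α := by
          apply pow_le_pow_left₀ (by positivity)
          have : ((m - 1 - j : ℕ) : ℝ) ≤ (m : ℝ) := by exact_mod_cast (by omega : m - 1 - j ≤ m)
          linarith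
        have h2 : β ^ j * β ^ (m - 1 - j) ≤ β ^ m := by
          rw [← pow_add]
          exact pow_le_pow_right₀ hβ.le (by omega)
        calc β ^ j * ((((m - 1 - j : ℕ) : ℝ) + 1) ^ α * β ^ (m - 1 - j))
            = (((m - 1 - j : ℕ) : ℝ) + 1) ^ α * (β ^ j * β ^ (m - 1 - j)) := by ring
          _ ≤ ((m : ℝ) + 1) ^ α * β ^ m := by
              apply mul_le_mul h1 h2 (by positivity) (by positivity)
    _ = m * (((m : ℝ) + 1) ^ α * β ^ m) := by simp
    _ ≤ ((m : ℝ) + 1) * (((m : ℝ) + 1) ^ α * β ^ m) := by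
        apply mul_le_mul_of_nonneg_right (by linarith) (by positivity)
    _ = gf (α + 1) β m := by unfold gf; ring

/-- lower bound in the resonant case. -/
theorem conv_eq_low (α D : ℕ) (β c : ℝ) (hβ : 1 < β) (hc : 0 < c) (n : ℕ → ℝ)
    (hn : ∀ j, 0 ≤ n j) (hw : ∀ m, c * β ^ m ≤ ∑ d ∈ Finset.range (D + 1), n (m + d)) :
    ∃ c' : ℝ, 0 < c' ∧ ∀ m, 4 * (D + 1) ≤ m →
      c' * gf (α + 1) β m ≤ ∑ j ∈ Finset.range m, n j * gf α β (m - 1 - j) := by
  have hβ0 : 0 < β := by linarith
  refine ⟨c / (β ^ (D + 2) * 4 ^ (α + 1) * (4 * (D + 1))), by positivity, ?_⟩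
  intro m hm
  set T := m / (2 * (D + 1)) with hT
  have hT1 : T * (D + 1) ≤ m / 2 := by
    rw [Nat.le_div_iff_mul_le (by norm_num)]
    calc T * (D + 1) * 2 = T * (2 * (D + 1)) := by ring
      _ ≤ m := Nat.div_mul_le_self m _
  have hT2 : m < (T + 1) * (2 * (D + 1)) := by
    rw [hT]
    exact Nat.lt_mul_of_div_lt (Nat.lt_succ_self _) (by positivity)
  have hT3 : 2 ≤ T := by
    rw [hT, Nat.le_div_iff_mul_le (by positivity)]
    linarith
  -- block decomposition
  have hblock : ∑ t ∈ Finset.range T, ∑ d ∈ Finset.range (D + 1),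
      n (t * (D + 1) + d) * gf α β (m - 1 - (t * (D + 1) + d)) =
      ∑ j ∈ Finset.range (T * (D + 1)), n j * gf α β (m - 1 - j) := by
    clear_value T
    clear hT hT1 hT2 hT3
    induction T with
    | zero => simp
    | succ T ih =>
      rw [Finset.sum_range_succ, ih, Nat.succ_mul]
      exact (Finset.sum_range_add (fun j => n j * gf α β (m - 1 - j)) (T * (D + 1)) (D + 1)).symm
  have hsub : ∑ j ∈ Finset.range (T * (D + 1)), n j * gf α β (m - 1 - j) ≤
      ∑ j ∈ Finset.range m, n j * gf α β (m - 1 - j) := by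
    apply Finset.sum_le_sum_of_subset_of_nonneg
    · intro j hj
      rw [Finset.mem_range] at hj ⊢
      omega
    · intro j _ _
      exact mul_nonneg (hn j) (gf_pos α β hβ _).le
  refine le_trans ?_ hsub
  rw [← hblock]
  have hm0 : (0 : ℝ) < m := by
    have : 0 < m := by omega
    exact_mod_cast this
  have hlow : ∀ t ∈ Finset.range T, c / β ^ (D + 1) * (((m : ℝ) / 2) ^ α * β ^ m) ≤
      ∑ d ∈ Finset.range (D + 1),
        n (t * (D + 1) + d) * gf α β (m - 1 - (t * (D + 1) + d)) * β := by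
    intro t ht
    rw [Finset.mem_range] at ht
    have ht' : (t + 1) * (D + 1) ≤ m / 2 := le_trans (Nat.mul_le_mul_right _ ht) hT1
    have ht'' : t * (D + 1) + (D + 1) ≤ m / 2 := by
      calc t * (D + 1) + (D + 1) = (t + 1) * (D + 1) := by ring
        _ ≤ _ := ht'
    have hterm : ∀ d ∈ Finset.range (D + 1),
        n (t * (D + 1) + d) * (((m : ℝ) / 2) ^ α * β ^ (m - (t * (D + 1) + (D + 1)))) ≤
        n (t * (D + 1) + d) * gf α β (m - 1 - (t * (D + 1) + d)) * β := by
      intro d hd
      rw [Finset.mem_range] at hd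
      rw [mul_assoc]
      apply mul_le_mul_of_nonneg_left _ (hn _)
      unfold gf
      have h1 : ((m : ℝ) / 2) ^ α ≤ (((m - 1 - (t * (D + 1) + d) : ℕ) : ℝ) + 1) ^ α := by
        apply pow_le_pow_left₀ (by positivity)
        have h3 : m ≤ 2 * ((m - 1 - (t * (D + 1) + d)) + 1) := by omega
        have h4 : (m : ℝ) ≤ 2 * (((m - 1 - (t * (D + 1) + d) : ℕ) : ℝ) + 1) := by exact_mod_cast h3
        linarith
      have h2 : β ^ (m - (t * (D + 1) + (D + 1))) ≤ β ^ (m - 1 - (t * (D + 1) + d)) * β := by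
        rw [← pow_succ]
        exact pow_le_pow_right₀ hβ.le (by omega)
      calc ((m : ℝ) / 2) ^ α * β ^ (m - (t * (D + 1) + (D + 1)))
          ≤ (((m - 1 - (t * (D + 1) + d) : ℕ) : ℝ) + 1) ^ α *
            (β ^ (m - 1 - (t * (D + 1) + d)) * β) := by
            apply mul_le_mul h1 h2 (by positivity) (by positivity)
        _ = _ := by ring
    refine le_trans ?_ (Finset.sum_le_sum hterm)
    rw [← Finset.sum_mul]
    have h5 := hw (t * (D + 1))
    have h6 : c / β ^ (D + 1) * (((m : ℝ) / 2) ^ α * β ^ m) =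
        (c * β ^ (t * (D + 1))) * (((m : ℝ) / 2) ^ α * β ^ (m - (t * (D + 1) + (D + 1)))) := by
      have : β ^ m = β ^ (t * (D + 1)) * β ^ (D + 1) * β ^ (m - (t * (D + 1) + (D + 1))) := by
        rw [← pow_add, ← pow_add]
        congr 1
        omega
      rw [this]
      field_simp
    rw [h6]
    exact mul_le_mul_of_nonneg_right h5 (by positivity)
  have hsum := Finset.sum_le_sum hlow
  rw [Finset.sum_const, Finset.card_range, nsmul_eq_mul] at hsum
  simp_rw [← Finset.sum_mul] at hsum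
  set S := ∑ t ∈ Finset.range T, ∑ d ∈ Finset.range (D + 1),
      n (t * (D + 1) + d) * gf α β (m - 1 - (t * (D + 1) + d)) with hS
  -- hsum : T * (c / β^(D+1) * ((m/2)^α * β^m)) ≤ S * β
  have hTm : (m : ℝ) / (4 * (D + 1)) ≤ T := by
    have h7 : m ≤ T * (4 * (D + 1)) := by nlinarith
    rw [div_le_iff₀ (by positivity)]
    exact_mod_cast h7
  have hm1 : (1 : ℝ) ≤ m := by
    have : 1 ≤ m := by omega
    exact_mod_cast this
  have hg : gf (α + 1) β m ≤ 4 ^ (α + 1) * (((m : ℝ) / 2) ^ α * ((m : ℝ) / 2)) * β ^ m := by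
    unfold gf
    have h8 : ((m : ℝ) + 1) ^ (α + 1) ≤ (4 * ((m : ℝ) / 2)) ^ (α + 1) := by
      apply pow_le_pow_left₀ (by positivity)
      linarith
    rw [mul_pow, pow_succ ((m : ℝ) / 2)] at h8
    exact mul_le_mul_of_nonneg_right h8 (by positivity)
  have h9 : c / (β ^ (D + 2) * 4 ^ (α + 1) * (4 * (D + 1))) * gf (α + 1) β m ≤
      c / (β ^ (D + 2)) * (((m : ℝ) / 2) ^ α * β ^ m) * ((m : ℝ) / (4 * (D + 1))) := by
    calc c / (β ^ (D + 2) * 4 ^ (α + 1) * (4 * (D + 1))) * gf (α + 1) β m
        ≤ c / (β ^ (D + 2) * 4 ^ (α + 1) * (4 * (D + 1))) *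
          (4 ^ (α + 1) * (((m : ℝ) / 2) ^ α * ((m : ℝ) / 2)) * β ^ m) :=
          mul_le_mul_of_nonneg_left hg (by positivity)
      _ = c / (β ^ (D + 2)) * (((m : ℝ) / 2) ^ α * β ^ m) * ((m : ℝ) / (4 * (D + 1))) / 2 := by
          field_simp
      _ ≤ _ := by
          apply half_le_self
          positivity
  have h10 : c / (β ^ (D + 2)) * (((m : ℝ) / 2) ^ α * β ^ m) * ((m : ℝ) / (4 * (D + 1))) ≤
      c / (β ^ (D + 2)) * (((m : ℝ) / 2) ^ α * β ^ m) * T :=
    mul_le_mul_of_nonneg_left hTm (by positivity)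
  have h11 : c / (β ^ (D + 2)) * (((m : ℝ) / 2) ^ α * β ^ m) * T ≤ S := by
    have h12 : c / (β ^ (D + 2)) * (((m : ℝ) / 2) ^ α * β ^ m) * T * β =
        T * (c / β ^ (D + 1) * (((m : ℝ) / 2) ^ α * β ^ m)) := by
      rw [pow_succ β (D + 1)]
      field_simp
    have h13 : c / (β ^ (D + 2)) * (((m : ℝ) / 2) ^ α * β ^ m) * T * β ≤ S * β := by
      rw [h12]; exact hsum
    exact le_of_mul_le_mul_right h13 hβ0
  linarith

/-- extend an eventual lower bound to all indices. -/
theorem low_ext (f g : ℕ → ℝ) (hf : ∀ m, 1 ≤ f m) (hg : ∀ m, 0 < g m) (c : ℝ) (hc : 0 < c) (m0 : ℕ)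
    (h : ∀ m, m0 ≤ m → c * g m ≤ f m) : ∃ c' : ℝ, 0 < c' ∧ ∀ m, c' * g m ≤ f m := by
  set G := ∑ i ∈ Finset.range m0, g i + 1 with hG
  have hG1 : 1 ≤ G := by
    have : 0 ≤ ∑ i ∈ Finset.range m0, g i := Finset.sum_nonneg fun i _ => (hg i).le
    linarith
  refine ⟨min c (1 / G), by apply lt_min hc; positivity, ?_⟩
  intro m
  rcases le_or_gt m0 m with hm | hm
  · refine le_trans ?_ (h m hm)
    exact mul_le_mul_of_nonneg_right (min_le_left _ _) (hg m).le
  · have h1 : g m ≤ G := by
      have : g m ≤ ∑ i ∈ Finset.range m0, g i :=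
        Finset.single_le_sum (f := g) (fun i _ => (hg i).le) (Finset.mem_range.mpr hm)
      linarith
    have h2 : min c (1 / G) * g m ≤ 1 / G * g m :=
      mul_le_mul_of_nonneg_right (min_le_right _ _) (hg m).le
    have h3 : 1 / G * g m ≤ 1 := by
      rw [div_mul_eq_mul_div, one_mul, div_le_one (by linarith)]
      exact h1
    linarith [hf m]

/-- growth statement for a sequence. -/
def IsGr (f : ℕ → ℝ) (α : ℕ) (β : ℝ) : Prop :=
  1 < β ∧ ∃ c K : ℝ, 0 < c ∧ 0 < K ∧ ∀ m, c * gf α β m ≤ f m ∧ f m ≤ K * gf α β m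

namespace Mat

variable {A : Type*} [Fintype A] [DecidableEq A] {M : Mat A} {Q : Finset A}

theorem one_le_W (hW : ∀ b, Tendsto (fun m => M.W m b) atTop atTop) (m : ℕ) (b : A) :
    1 ≤ M.W m b := by
  by_contra hcon
  push Not at hcon
  have h0 : ∀ c, M.N m b c = 0 := by
    intro c
    rcases M.int m b c with h | h
    · exact h
    · have : M.N m b c ≤ M.W m b :=
        Finset.single_le_sum (f := fun c => M.N m b c) (fun _ _ => M.nonneg _ _ _) (Finset.mem_univ c)
      linarith
  have h1 : ∀ l, M.W (m + l) b = 0 := by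
    intro l
    rw [M.W_add]
    apply Finset.sum_eq_zero
    intro e _
    rw [h0, zero_mul]
  have h2 := (hW b).eventually (eventually_ge_atTop (1 : ℝ))
  obtain ⟨l, hl⟩ := eventually_atTop.mp h2
  have h3 := hl (m + l) (by omega)
  rw [h1] at h3
  linarith

/-- the growth theorem for one letter, given the growth of all exit letters. -/
theorem growth_step (hW : ∀ b, Tendsto (fun m => M.W m b) atTop atTop) (hQ : M.Cls Q)
    (hE : ∀ z, z ∉ Q → (∃ y ∈ Q, 1 ≤ M.N 1 y z) → ∃ α β, IsGr (fun m => M.W m z) α β) :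
    ∀ b ∈ Q, ∃ α β, IsGr (fun m => M.W m b) α β := by
  classical
  set E : Finset A := Qᶜ.filter (fun z => ∃ y ∈ Q, 1 ≤ M.N 1 y z) with hEdef
  have hE' : ∀ z ∈ E, ∃ α β, IsGr (fun m => M.W m z) α β := by
    intro z hz
    rw [hEdef, Finset.mem_filter, Finset.mem_compl] at hz
    exact hE z hz.1 hz.2
  have hN0 : ∀ y ∈ Q, ∀ z, z ∉ Q → z ∉ E → M.N 1 y z = 0 := by
    intro y hy z hz hzE
    rcases M.int 1 y z with h | h
    · exact h
    · exfalso
      apply hzE
      rw [hEdef, Finset.mem_filter, Finset.mem_compl]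
      exact ⟨hz, y, hy, h⟩
  have hone := M.one_le_W hW
  intro b hb
  by_cases hEe : E = ∅
  · -- no exits
    have hX : ∀ l, ∀ y ∈ Q, X M Q l y = 0 := by
      intro l y hy
      unfold X
      apply Finset.sum_eq_zero
      intro z hz
      rw [Finset.mem_compl] at hz
      rw [hN0 y hy z hz (by rw [hEe]; simp), zero_mul]
    have hWr : ∀ m, ∀ x ∈ Q, M.W m x = r M Q m x := by
      intro m x hx
      rw [hQ.decomp m x hx]
      rw [Finset.sum_eq_zero, add_zero]
      intro j _
      apply Finset.sum_eq_zero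
      intro y hy
      rw [hX _ y hy, mul_zero]
    have hn : M.Nontriv Q := by
      intro x hx
      by_contra hcon
      push Not at hcon
      have h1 : r M Q 1 x = 0 := by
        unfold r
        apply Finset.sum_eq_zero
        intro y hy
        rcases M.int 1 x y with h | h
        · exact h
        · linarith [hcon y hy]
      have h2 := hone 1 x
      rw [hWr 1 x hx, h1] at h2
      linarith
    obtain ⟨ρ, C, c, D, hρ, hC, hc, h1, _, _⟩ := hQ.rate hn
    have hρ1 : 1 < ρ := by
      rcases hρ.lt_or_eq with h | h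
      · exact h
      · exfalso
        have h2 := (hW b).eventually (eventually_ge_atTop (C + 1))
        obtain ⟨l, hl⟩ := eventually_atTop.mp h2
        have h3 := hl l (le_refl _)
        rw [hWr l b hb] at h3
        have h4 := (h1 l b hb).2
        rw [← h] at h4
        simp at h4
        linarith
    refine ⟨0, ρ, hρ1, c, C, hc, hC, ?_⟩
    intro m
    have h2 := h1 m b hb
    simp only [gf, pow_zero, one_mul]
    rw [hWr m b hb]
    exact h2
  · -- exits present
    have hEne : E.Nonempty := Finset.nonempty_iff_ne_empty.mpr hEe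
    choose! α β hgr using hE'
    -- lexicographic maximum
    obtain ⟨z0, hz0, hmax⟩ := Finset.exists_max_image E (fun z => toLex (β z, α z)) hEne
    have hlex : ∀ z ∈ E, β z < β z0 ∨ (β z = β z0 ∧ α z ≤ α z0) := by
      intro z hz
      have := hmax z hz
      rw [Prod.Lex.toLex_le_toLex] at this
      exact this
    set a0 := α z0 with ha0
    set b0 := β z0 with hb0
    obtain ⟨hb1, c0, K0, hc0, hK0, hz0b⟩ := hgr z0 hz0
    rw [← hb0, ← ha0] at *
    have hup : ∀ z ∈ E, ∃ K : ℝ, 0 < K ∧ ∀ m, M.W m z ≤ K * gf a0 b0 m := by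
      intro z hz
      obtain ⟨hb2, c2, K2, hc2, hK2, h2⟩ := hgr z hz
      obtain ⟨K3, hK3, h3⟩ := gf_dom (α z) a0 (β z) b0 hb2 (hlex z hz)
      refine ⟨K2 * K3, by positivity, ?_⟩
      intro m
      calc M.W m z ≤ K2 * gf (α z) (β z) m := (h2 m).2
        _ ≤ K2 * (K3 * gf a0 b0 m) := mul_le_mul_of_nonneg_left (h3 m) hK2.le
        _ = _ := by ring
    choose! Kz hKz hKzb using hup
    have hg0 : ∀ m, 0 < gf a0 b0 m := fun m => gf_pos a0 b0 hb1 m
    -- upper bound for X
    obtain ⟨K1, hK1, hXup⟩ : ∃ K1 : ℝ, 0 < K1 ∧ ∀ l, ∀ y ∈ Q, X M Q l y ≤ K1 * gf a0 b0 l := by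
      refine ⟨∑ y ∈ Q, ∑ z ∈ E, M.N 1 y z * Kz z + 1, ?_, ?_⟩
      · have : 0 ≤ ∑ y ∈ Q, ∑ z ∈ E, M.N 1 y z * Kz z :=
          Finset.sum_nonneg fun y _ => Finset.sum_nonneg fun z hz =>
            mul_nonneg (M.nonneg _ _ _) (hKz z hz).le
        linarith
      · intro l y hy
        have e1 : X M Q l y = ∑ z ∈ E, M.N 1 y z * M.W l z := by
          unfold X
          symm
          apply Finset.sum_subset
          · intro z hz
            rw [hEdef, Finset.mem_filter] at hz
            exact hz.1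
          · intro z hz hzE
            rw [Finset.mem_compl] at hz
            rw [hN0 y hy z hz hzE, zero_mul]
        rw [e1]
        have e2 : ∑ z ∈ E, M.N 1 y z * M.W l z ≤ ∑ z ∈ E, M.N 1 y z * Kz z * gf a0 b0 l := by
          apply Finset.sum_le_sum
          intro z hz
          rw [mul_assoc]
          exact mul_le_mul_of_nonneg_left (hKzb z hz l) (M.nonneg _ _ _)
        rw [← Finset.sum_mul] at e2
        have e3 : ∑ z ∈ E, M.N 1 y z * Kz z ≤ ∑ y ∈ Q, ∑ z ∈ E, M.N 1 y z * Kz z :=
          Finset.single_le_sum (f := fun y => ∑ z ∈ E, M.N 1 y z * Kz z)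
            (fun y _ => Finset.sum_nonneg fun z hz =>
              mul_nonneg (M.nonneg _ _ _) (hKz z hz).le) hy
        have e4 := mul_le_mul_of_nonneg_right e3 (hg0 l).le
        have := hg0 l
        nlinarith
    -- lower bound for X
    obtain ⟨y0, hy0, hXlow⟩ : ∃ y0 ∈ Q, ∀ l, c0 * gf a0 b0 l ≤ X M Q l y0 := by
      have hz0' := hz0
      rw [hEdef, Finset.mem_filter, Finset.mem_compl] at hz0'
      obtain ⟨hz0Q, y0, hy0, hy01⟩ := hz0'
      refine ⟨y0, hy0, ?_⟩
      intro l
      have h1 : M.N 1 y0 z0 * M.W l z0 ≤ X M Q l y0 :=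
        Finset.single_le_sum (f := fun z => M.N 1 y0 z * M.W l z)
          (fun _ _ => mul_nonneg (M.nonneg _ _ _) (M.W_nonneg _ _)) (Finset.mem_compl.mpr hz0Q)
      have h2 := (hz0b l).1
      have h3 := M.W_nonneg l z0
      simp only at h2
      nlinarith
    by_cases hn : M.Nontriv Q
    · obtain ⟨ρ, C, c, D, hρ, hC, hc, h1, h2, h3⟩ := hQ.rate hn
      -- general upper bound
      have hupper : ∀ m, M.W m b ≤ C * ρ ^ m +
          C * K1 * ∑ j ∈ Finset.range m, ρ ^ j * gf a0 b0 (m - 1 - j) := by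
        intro m
        rw [hQ.decomp m b hb]
        apply add_le_add (h1 m b hb).2
        rw [Finset.mul_sum]
        apply Finset.sum_le_sum
        intro j _
        have e1 : ∑ y ∈ Q, M.N j b y * X M Q (m - 1 - j) y ≤
            ∑ y ∈ Q, M.N j b y * (K1 * gf a0 b0 (m - 1 - j)) := by
          apply Finset.sum_le_sum
          intro y hy
          exact mul_le_mul_of_nonneg_left (hXup _ y hy) (M.nonneg _ _ _)
        rw [← Finset.sum_mul] at e1
        refine le_trans e1 ?_
        have e2 := (h1 j b hb).2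
        unfold r at e2
        have e3 : 0 ≤ K1 * gf a0 b0 (m - 1 - j) := by
          have := hg0 (m - 1 - j)
          positivity
        calc (∑ y ∈ Q, M.N j b y) * (K1 * gf a0 b0 (m - 1 - j))
            ≤ (C * ρ ^ j) * (K1 * gf a0 b0 (m - 1 - j)) := mul_le_mul_of_nonneg_right e2 e3
          _ = _ := by ring
      -- general lower bound
      have hlower : ∀ m, c0 * ∑ j ∈ Finset.range m, M.N j b y0 * gf a0 b0 (m - 1 - j) ≤ M.W m b := by
        intro m
        rw [hQ.decomp m b hb, Finset.mul_sum]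
        have e0 := r_nonneg (M := M) (Q := Q) m b
        have e1 : ∑ j ∈ Finset.range m, c0 * (M.N j b y0 * gf a0 b0 (m - 1 - j)) ≤
            ∑ j ∈ Finset.range m, ∑ y ∈ Q, M.N j b y * X M Q (m - 1 - j) y := by
          apply Finset.sum_le_sum
          intro j _
          refine le_trans ?_ (Finset.single_le_sum (f := fun y => M.N j b y * X M Q (m - 1 - j) y)
            (fun _ _ => mul_nonneg (M.nonneg _ _ _) (X_nonneg _ _)) hy0)
          have e2 := mul_le_mul_of_nonneg_left (hXlow (m - 1 - j)) (M.nonneg j b y0)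
          calc c0 * (M.N j b y0 * gf a0 b0 (m - 1 - j))
              = M.N j b y0 * (c0 * gf a0 b0 (m - 1 - j)) := by ring
            _ ≤ _ := e2
        linarith
      have hpow : ∀ m, b0 ^ m ≤ gf a0 b0 m := gf_ge_pow a0 b0 hb1
      rcases lt_trichotomy ρ b0 with hlt | heq | hgt
      · -- ρ < b0
        refine ⟨a0, b0, hb1, ?_⟩
        obtain ⟨K2, hK2, hcv⟩ := conv_lt a0 ρ b0 hρ hlt
        obtain ⟨d, hd, hd1⟩ := h2 b hb y0 hy0
        have hlow1 : ∀ m, d + 1 ≤ m → c0 / ((2 ^ a0 * b0) ^ (d + 1)) * gf a0 b0 m ≤ M.W m b := by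
          intro m hm
          have e1 : M.N d b y0 * gf a0 b0 (m - 1 - d) ≤
              ∑ j ∈ Finset.range m, M.N j b y0 * gf a0 b0 (m - 1 - j) :=
            Finset.single_le_sum (f := fun j => M.N j b y0 * gf a0 b0 (m - 1 - j))
              (fun j _ => mul_nonneg (M.nonneg _ _ _) (hg0 _).le)
              (Finset.mem_range.mpr (by omega))
          have e2 : ∀ e l, gf a0 b0 (l + e) ≤ (2 ^ a0 * b0) ^ e * gf a0 b0 l := by
            intro e
            induction e with
            | zero => intro l; simp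
            | succ e ih =>
              intro l
              have q1 := gf_succ_le a0 b0 hb1 (l + e)
              have q2 := ih l
              have q3 : (0 : ℝ) < 2 ^ a0 * b0 := by
                have : 0 < b0 := by linarith
                positivity
              calc gf a0 b0 (l + (e + 1)) ≤ 2 ^ a0 * b0 * gf a0 b0 (l + e) := q1
                _ ≤ 2 ^ a0 * b0 * ((2 ^ a0 * b0) ^ e * gf a0 b0 l) :=
                  mul_le_mul_of_nonneg_left q2 q3.le
                _ = _ := by ring
          have e3 := e2 (d + 1) (m - 1 - d)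
          rw [show m - 1 - d + (d + 1) = m by omega] at e3
          have q3 : (0 : ℝ) < (2 ^ a0 * b0) ^ (d + 1) := by
            have : 0 < b0 := by linarith
            positivity
          have e4 := hlower m
          have e5 := hg0 (m - 1 - d)
          have e6 : c0 * gf a0 b0 (m - 1 - d) ≤ M.W m b := by
            refine le_trans ?_ e4
            apply mul_le_mul_of_nonneg_left _ hc0.le
            refine le_trans ?_ e1
            nlinarith
          refine le_trans ?_ e6
          rw [div_mul_eq_mul_div, div_le_iff₀ q3]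
          nlinarith
        obtain ⟨c', hc', hlow2⟩ := low_ext (fun m => M.W m b) (fun m => gf a0 b0 m)
          (fun m => hone m b) hg0 _ (by
            have : 0 < b0 := by linarith
            positivity) _ hlow1
        refine ⟨c', C + C * K1 * K2, hc', by positivity, ?_⟩
        intro m
        refine ⟨hlow2 m, ?_⟩
        have e1 := hupper m
        have e2 := mul_le_mul_of_nonneg_left (hcv m) (by positivity : 0 ≤ C * K1)
        have e3 : ρ ^ m ≤ gf a0 b0 m :=
          le_trans (pow_le_pow_left₀ (by linarith) hlt.le m) (hpow m)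
        have e4 := mul_le_mul_of_nonneg_left e3 hC.le
        simp only
        nlinarith
      · -- equal rates
        subst heq
        refine ⟨a0 + 1, b0, hb1, ?_⟩
        obtain ⟨c', hc', hlow1⟩ := conv_eq_low a0 D b0 c hb1 hc (fun j => M.N j b y0)
          (fun j => M.nonneg _ _ _) (fun m => h3 m b hb y0 hy0)
        have hlow1' : ∀ m, 4 * (D + 1) ≤ m → c0 * c' * gf (a0 + 1) b0 m ≤ M.W m b := by
          intro m hm
          have e1 := mul_le_mul_of_nonneg_left (hlow1 m hm) hc0.le
          have e2 := hlower m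
          linarith
        obtain ⟨c'', hc'', hlow2⟩ := low_ext (fun m => M.W m b) (fun m => gf (a0 + 1) b0 m)
          (fun m => hone m b) (fun m => gf_pos _ _ hb1 m) _ (mul_pos hc0 hc') _ hlow1'
        refine ⟨c'', C + C * K1, hc'', by positivity, ?_⟩
        intro m
        refine ⟨hlow2 m, ?_⟩
        have e1 := hupper m
        have e2 := mul_le_mul_of_nonneg_left (conv_eq a0 b0 hb1 m) (by positivity : 0 ≤ C * K1)
        have e3 : b0 ^ m ≤ gf (a0 + 1) b0 m := gf_ge_pow _ _ hb1 m
        have e4 := mul_le_mul_of_nonneg_left e3 hC.le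
        simp only
        nlinarith
      · -- ρ > b0
        obtain ⟨K2, hK2, hcv⟩ := conv_gt a0 ρ b0 hb1 hgt
        refine ⟨0, ρ, by linarith, c, C + C * K1 * K2, hc, by positivity, ?_⟩
        intro m
        simp only [gf, pow_zero, one_mul]
        constructor
        · exact le_trans (h1 m b hb).1 (r_le_W m b)
        · have e1 := hupper m
          have e2 := mul_le_mul_of_nonneg_left (hcv m) (by positivity : 0 ≤ C * K1)
          nlinarith
    · -- trivial class
      have hQ1 : ∀ x ∈ Q, ∀ y ∈ Q, M.N 1 x y = 0 := by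
        unfold Nontriv at hn
        push Not at hn
        obtain ⟨x, hx, hx1⟩ := hn
        have hx0 : ∀ y ∈ Q, M.N 1 x y = 0 := by
          intro y hy
          rcases M.int 1 x y with h | h
          · exact h
          · linarith [hx1 y hy]
        have hxm : ∀ m, ∀ y ∈ Q, M.N (m + 1) x y = 0 := by
          intro m y hy
          rw [add_comm, hQ.add 1 m hx hy]
          apply Finset.sum_eq_zero
          intro e he
          rw [hx0 e he, zero_mul]
        have hxy : ∀ y ∈ Q, y = x := by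
          intro y hy
          obtain ⟨m, hm⟩ := hQ.conn x hx y hy
          rcases m with _ | m
          · rw [M.zero] at hm
            by_contra hcon
            rw [if_neg (Ne.symm hcon)] at hm
            linarith
          · rw [hxm m y hy] at hm
            linarith
        intro x' hx' y hy
        rw [hxy x' hx']
        exact hx0 y hy
      have hWX : ∀ m, M.W (m + 1) b = X M Q m b := by
        intro m
        rw [add_comm, M.W_add]
        rw [← Finset.sum_add_sum_compl Q (fun e => M.N 1 b e * M.W m e)]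
        rw [Finset.sum_eq_zero, zero_add]
        · rfl
        · intro e he
          rw [hQ1 b hb e he, zero_mul]
      have hby : b = y0 := by
        by_contra hcon
        obtain ⟨m, hm⟩ := hQ.conn b hb y0 hy0
        rcases m with _ | m
        · rw [M.zero, if_neg hcon] at hm
          linarith
        · rw [add_comm, hQ.add 1 m hb hy0, Finset.sum_eq_zero] at hm
          · linarith
          · intro e he
            rw [hQ1 b hb e he, zero_mul]
      subst hby
      refine ⟨a0, b0, hb1, ?_⟩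
      have hb0pos : 0 < b0 := by linarith
      have hlow1 : ∀ m, 1 ≤ m → c0 / (2 ^ a0 * b0) * gf a0 b0 m ≤ M.W m b := by
        intro m hm
        obtain ⟨l, rfl⟩ := Nat.exists_eq_add_of_le' hm
        rw [hWX]
        refine le_trans ?_ (hXlow l)
        have := gf_succ_le a0 b0 hb1 l
        rw [div_mul_eq_mul_div, div_le_iff₀ (by positivity)]
        nlinarith
      obtain ⟨c', hc', hlow2⟩ := low_ext (fun m => M.W m b) (fun m => gf a0 b0 m)
        (fun m => hone m b) hg0 _ (by positivity) _ hlow1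
      refine ⟨c', K1 + M.W 0 b, hc', by have := hone 0 b; linarith, ?_⟩
      intro m
      refine ⟨hlow2 m, ?_⟩
      have hW0 := hone 0 b
      rcases m with _ | m
      · have h5 : gf a0 b0 0 = 1 := by simp [gf]
        simp only
        rw [h5]
        linarith
      · simp only
        rw [hWX]
        have e1 := hXup m b hb
        have e2 := gf_mono a0 b0 hb1 (Nat.lt_succ_self m)
        have e3 := hg0 m
        have e4 := hg0 (m + 1)
        have e5 : K1 * gf a0 b0 m ≤ K1 * gf a0 b0 (m + 1) :=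
          mul_le_mul_of_nonneg_left e2.le hK1.le
        have e6 : 0 ≤ M.W 0 b * gf a0 b0 (m + 1) := by positivity
        nlinarith

theorem growth (hW : ∀ b, Tendsto (fun m => M.W m b) atTop atTop) :
    ∀ b, ∃ α β, IsGr (fun m => M.W m b) α β := by
  classical
  have key : ∀ n : ℕ, ∀ b, (Finset.univ.filter (fun c => M.Reach b c)).card = n →
      ∃ α β, IsGr (fun m => M.W m b) α β := by
    intro n
    induction n using Nat.strong_induction_on with
    | _ n ih =>
      intro b hbn
      set Q : Finset A := Finset.univ.filter (fun c => M.Reach b c ∧ M.Reach c b) with hQdef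
      have hmem : ∀ x, x ∈ Q ↔ M.Reach b x ∧ M.Reach x b := by
        intro x; simp [hQdef]
      have hbQ : b ∈ Q := (hmem b).mpr ⟨M.reach_refl b, M.reach_refl b⟩
      have hQ : M.Cls Q := by
        refine ⟨⟨b, hbQ⟩, ?_, ?_⟩
        · intro x hx y hy
          exact M.reach_trans ((hmem x).mp hx).2 ((hmem y).mp hy).1
        · intro x hx z hz y hxy hyz
          rw [hmem]
          exact ⟨M.reach_trans ((hmem x).mp hx).1 hxy, M.reach_trans hyz ((hmem z).mp hz).2⟩
      refine growth_step hW hQ ?_ b hbQ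
      intro z hz hyz
      obtain ⟨y, hy, hyz⟩ := hyz
      have hbz : M.Reach b z := M.reach_trans ((hmem y).mp hy).1 ⟨1, hyz⟩
      have hzb : ¬ M.Reach z b := by
        intro h
        exact hz ((hmem z).mpr ⟨hbz, h⟩)
      refine ih _ ?_ z rfl
      rw [← hbn]
      apply Finset.card_lt_card
      refine Finset.ssubset_iff_of_subset ?_ |>.mpr ?_
      · intro c hc
        simp only [Finset.mem_filter, Finset.mem_univ, true_and] at hc ⊢
        exact M.reach_trans hbz hc
      · refine ⟨b, ?_, ?_⟩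
        · simp only [Finset.mem_filter, Finset.mem_univ, true_and]
          exact M.reach_refl b
        · simpa using hzb
  intro b
  exact key _ b rfl

end Mat

end FC.Growth
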