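import Pool.Agent.LibFC.Growth

set_option autoImplicit false

open Filter

namespace FC

/-! ### Existence of growth data -/

theorem it_append {A : Type*} (σ : A → List A) (m : ℕ) (v w : List A) :
    (fun w : List A => w.flatMap σ)^[m] (v ++ w) =
      (fun w : List A => w.flatMap σ)^[m] v ++ (fun w : List A => w.flatMap σ)^[m] w := by
  induction m generalizing v w with
  | zero => rfl
  | succ m ih =>
    simp only [Function.iterate_succ_apply, List.flatMap_append]
    exact ih _ _

theorem it_nil {A : Type*} (σ : A → List A) (m : ℕ) :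
    (fun w : List A => w.flatMap σ)^[m] [] = [] := by
  induction m with
  | zero => rfl
  | succ m ih =>
    simp only [Function.iterate_succ_apply, List.flatMap_nil]
    exact ih

theorem it_flatMap {A : Type*} (σ : A → List A) (m : ℕ) (w : List A) :
    (fun w : List A => w.flatMap σ)^[m] w = w.flatMap (pw σ m) := by
  induction w with
  | nil => rw [it_nil]; rfl
  | cons b w ih =>
    have h := it_append σ m [b] w
    rw [List.singleton_append] at h
    rw [h, ih, List.flatMap_cons]
    rfl

theorem pw_zero {A : Type*} (σ : A → List A) (b : A) : pw σ 0 b = [b] := rfl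

theorem pw_one {A : Type*} (σ : A → List A) (b : A) : pw σ 1 b = σ b := by
  simp [pw]

theorem pw_add {A : Type*} (σ : A → List A) (m l : ℕ) (b : A) :
    pw σ (m + l) b = (pw σ m b).flatMap (pw σ l) := by
  unfold pw
  rw [add_comm, Function.iterate_add_apply]
  exact it_flatMap σ l _

theorem sum_map_eq {A : Type*} [Fintype A] [DecidableEq A] (w : List A) (f : A → ℝ) :
    (w.map f).sum = ∑ e, (w.count e : ℝ) * f e := by
  induction w with
  | nil => simp
  | cons b w ih =>
    rw [List.map_cons, List.sum_cons, ih]
    simp only [List.count_cons, beq_iff_eq, Nat.cast_add, add_mul, Finset.sum_add_distrib]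
    rw [add_comm]
    congr 1
    rw [Finset.sum_eq_single b]
    · simp
    · intro c _ hc
      rw [if_neg (Ne.symm hc)]
      simp
    · intro h
      exact absurd (Finset.mem_univ b) h

/-- the counting matrix of a morphism. -/
noncomputable def mat {A : Type*} [Fintype A] [DecidableEq A] (σ : A → List A) : Growth.Mat A where
  N m b c := ((pw σ m b).count c : ℝ)
  zero b c := by
    rw [pw_zero]
    simp only [List.count_cons, List.count_nil, beq_iff_eq, zero_add]
    split_ifs <;> simp
  add m l b c := by
    rw [pw_add, List.count_flatMap, ← sum_map_eq, Nat.cast_list_sum, List.map_map]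
    rfl
  int m b c := by
    rcases Nat.eq_zero_or_pos ((pw σ m b).count c) with h | h
    · left; rw [h]; simp
    · right; exact_mod_cast h

theorem mat_W {A : Type*} [Fintype A] [DecidableEq A] (σ : A → List A) (m : ℕ) (b : A) :
    (mat σ).W m b = ((pw σ m b).length : ℝ) := by
  unfold Growth.Mat.W
  have h := sum_map_eq (pw σ m b) (fun _ => (1 : ℝ))
  simp only [mul_one, List.map_const', List.sum_replicate, nsmul_eq_mul] at h
  rw [h]
  rfl

theorem exists_gr {A : Type*} [Fintype A] [DecidableEq A] [Nonempty A] (σ : A → List A)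
    (hg : ∀ b, Tendsto (fun m => (pw σ m b).length) atTop atTop) : Nonempty (Gr σ) := by
  classical
  have hW : ∀ b, Tendsto (fun m => (mat σ).W m b) atTop atTop := by
    intro b
    simp only [mat_W]
    exact tendsto_natCast_atTop_atTop.comp (hg b)
  have hgr := (mat σ).growth hW
  choose α β hgr using hgr
  choose h1 c K hc hK hcK using hgr
  simp only [mat_W] at hcK
  let v : A → Lex (ℝ × ℕ) := fun b => toLex (β b, α b)
  let P : Finset (Lex (ℝ × ℕ)) := Finset.univ.image v
  let e := P.orderIsoOfFin rfl
  have hv : ∀ b, v b ∈ P := fun b => Finset.mem_image_of_mem _ (Finset.mem_univ b)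
  let lev : A → Fin P.card := fun b => e.symm ⟨v b, hv b⟩
  have hlev : ∀ b, ((e (lev b) : P) : Lex (ℝ × ℕ)) = v b := by
    intro b
    simp [lev]
  have hsurj : Function.Surjective lev := by
    intro i
    have := (e i).2
    obtain ⟨b, -, hb⟩ := Finset.mem_image.mp this
    refine ⟨b, ?_⟩
    simp only [lev]
    rw [OrderIso.symm_apply_eq]
    exact Subtype.ext hb
  let al : Fin P.card → ℕ := fun i => (ofLex ((e i : P) : Lex (ℝ × ℕ))).2
  let be : Fin P.card → ℝ := fun i => (ofLex ((e i : P) : Lex (ℝ × ℕ))).1
  have hal : ∀ b, al (lev b) = α b := by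
    intro b
    simp only [al, hlev b]
    rfl
  have hbe : ∀ b, be (lev b) = β b := by
    intro b
    simp only [be, hlev b]
    rfl
  have huniv : (Finset.univ : Finset A).Nonempty := Finset.univ_nonempty
  refine ⟨{ R := P.card, lev := lev, lev_surj := hsurj, al := al, be := be,
            one_lt_be := ?_, lex := ?_, c := Finset.univ.inf' huniv c,
            K := Finset.univ.sup' huniv K, c_pos := ?_, K_pos := ?_,
            lower := ?_, upper := ?_ }⟩
  · intro i
    obtain ⟨b, rfl⟩ := hsurj i
    rw [hbe]
    exact h1 b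
  · intro i j hij
    have h : ((e i : P) : Lex (ℝ × ℕ)) < ((e j : P) : Lex (ℝ × ℕ)) := by
      exact_mod_cast e.strictMono hij
    rwa [Prod.Lex.lt_iff] at h
  · rw [Finset.lt_inf'_iff]
    exact fun b _ => hc b
  · obtain ⟨b, hb⟩ := huniv
    exact lt_of_lt_of_le (hK b) (Finset.le_sup' K hb)
  · intro b m
    rw [hal, hbe]
    refine le_trans ?_ (hcK b m).1
    exact mul_le_mul_of_nonneg_right (Finset.inf'_le c (Finset.mem_univ b)) (gf_pos _ _ (h1 b) m).le
  · intro b m
    rw [hal, hbe]
    refine le_trans (hcK b m).2 ?_
    exact mul_le_mul_of_nonneg_right (Finset.le_sup' K (Finset.mem_univ b))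
      (gf_pos _ _ (h1 b) m).le

end FC
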