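import Pool.Agent.LibFC.Base

/-! # Growth functions `gf` and their counting functions -/

set_option autoImplicit false

open Filter

namespace FC

theorem gf_pos (α : ℕ) (β : ℝ) (hβ : 1 < β) (m : ℕ) : 0 < gf α β m := by
  unfold gf
  have : (0 : ℝ) < (m : ℝ) + 1 := by positivity
  have h2 : (0 : ℝ) < β := by linarith
  positivity

theorem gf_succ_ge (α : ℕ) (β : ℝ) (hβ : 1 < β) (m : ℕ) : β * gf α β m ≤ gf α β (m + 1) := by
  unfold gf
  have h2 : (0 : ℝ) < β := by linarith
  have h3 : ((m : ℝ) + 1) ^ α ≤ (((m + 1 : ℕ) : ℝ) + 1) ^ α := by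
    apply pow_le_pow_left₀ (by positivity)
    push_cast
    linarith
  have h4 : β * (((m : ℝ) + 1) ^ α * β ^ m) = ((m : ℝ) + 1) ^ α * β ^ (m + 1) := by ring
  rw [h4]
  exact mul_le_mul_of_nonneg_right h3 (by positivity)

theorem gf_succ_le (α : ℕ) (β : ℝ) (hβ : 1 < β) (m : ℕ) :
    gf α β (m + 1) ≤ 2 ^ α * β * gf α β m := by
  unfold gf
  have h2 : (0 : ℝ) < β := by linarith
  have h3 : (((m + 1 : ℕ) : ℝ) + 1) ^ α ≤ (2 * ((m : ℝ) + 1)) ^ α := by
    apply pow_le_pow_left₀ (by positivity)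
    push_cast
    have : (0 : ℝ) ≤ m := by positivity
    linarith
  rw [mul_pow] at h3
  have h4 : (2 : ℝ) ^ α * β * (((m : ℝ) + 1) ^ α * β ^ m) =
      (2 ^ α * ((m : ℝ) + 1) ^ α) * β ^ (m + 1) := by ring
  rw [h4]
  exact mul_le_mul_of_nonneg_right h3 (by positivity)

theorem gf_mono (α : ℕ) (β : ℝ) (hβ : 1 < β) : StrictMono (gf α β) := by
  apply strictMono_nat_of_lt_succ
  intro m
  have h1 := gf_succ_ge α β hβ m
  have h2 := gf_pos α β hβ m
  nlinarith

theorem gf_ge_pow (α : ℕ) (β : ℝ) (hβ : 1 < β) (m : ℕ) : β ^ m ≤ gf α β m := by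
  unfold gf
  have h2 : (0 : ℝ) < β := by linarith
  have h1 : (1 : ℝ) ≤ ((m : ℝ) + 1) ^ α := by
    apply one_le_pow₀
    have : (0 : ℝ) ≤ m := by positivity
    linarith
  have h3 : (0 : ℝ) < β ^ m := by positivity
  nlinarith

theorem gf_iter_ge (α : ℕ) (β : ℝ) (hβ : 1 < β) (m d : ℕ) :
    β ^ d * gf α β m ≤ gf α β (m + d) := by
  induction d with
  | zero => simp
  | succ d ih =>
    have h1 := gf_succ_ge α β hβ (m + d)
    have h2 : (0 : ℝ) < β := by linarith
    calc β ^ (d + 1) * gf α β m = β * (β ^ d * gf α β m) := by ring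
      _ ≤ β * gf α β (m + d) := by
        apply mul_le_mul_of_nonneg_left ih h2.le
      _ ≤ gf α β (m + (d + 1)) := h1

theorem gf_finite (α : ℕ) (β : ℝ) (hβ : 1 < β) (x : ℝ) : {m : ℕ | gf α β m ≤ x}.Finite := by
  obtain ⟨n, hn⟩ := pow_unbounded_of_one_lt x hβ
  apply (Set.finite_lt_nat n).subset
  intro m hm
  simp only [Set.mem_setOf_eq] at hm ⊢
  by_contra hcon
  push Not at hcon
  have h1 : β ^ n ≤ β ^ m := pow_le_pow_right₀ hβ.le hcon
  have h2 := gf_ge_pow α β hβ m
  linarith

theorem gf_sum_le (α : ℕ) (β : ℝ) (hβ : 1 < β) : ∃ K : ℝ, 0 < K ∧ ∀ m,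
    ∑ j ∈ Finset.range (m + 1), gf α β j ≤ K * gf α β m := by
  refine ⟨β / (β - 1), by apply div_pos <;> linarith, ?_⟩
  intro m
  have hb : (0 : ℝ) < β - 1 := by linarith
  induction m with
  | zero =>
    simp only [zero_add, Finset.sum_range_one]
    have h1 := gf_pos α β hβ 0
    rw [div_mul_eq_mul_div, le_div_iff₀ hb]
    nlinarith
  | succ m ih =>
    rw [Finset.sum_range_succ]
    have h1 := gf_succ_ge α β hβ m
    have h2 := gf_pos α β hβ m
    have h4 := gf_pos α β hβ (m+1)
    have h3 : β / (β - 1) * gf α β m ≤ 1 / (β - 1) * gf α β (m + 1) := by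
      rw [div_mul_eq_mul_div, div_mul_eq_mul_div, div_le_div_iff_of_pos_right hb]
      linarith
    have h5 : β / (β - 1) * gf α β (m + 1) = 1 / (β - 1) * gf α β (m + 1) + gf α β (m + 1) := by
      field_simp
      ring
    linarith

theorem gf_lex (α α' : ℕ) (β β' : ℝ) (hβ : 1 < β) (h : β < β' ∨ (β = β' ∧ α < α')) :
    Tendsto (fun m => gf α β m / gf α' β' m) atTop (nhds 0) := by
  rcases h with h | ⟨h, h'⟩
  · have hb : (0 : ℝ) < β := by linarith
    have hb' : (0 : ℝ) < β' := by linarith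
    have hr0 : 0 ≤ β / β' := by positivity
    have hr1 : β / β' < 1 := by rw [div_lt_one hb']; exact h
    have h1 : Tendsto (fun m : ℕ => ((m : ℝ)) ^ α * (β / β') ^ m) atTop (nhds 0) :=
      tendsto_pow_const_mul_const_pow_of_lt_one α hr0 hr1
    have h2 : Tendsto (fun m : ℕ => ((m + 1 : ℕ) : ℝ) ^ α * (β / β') ^ (m + 1)) atTop (nhds 0) :=
      h1.comp (tendsto_add_atTop_nat 1)
    have h3 : Tendsto (fun m : ℕ => (β' / β) * (((m + 1 : ℕ) : ℝ) ^ α * (β / β') ^ (m + 1)))
        atTop (nhds 0) := by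
      simpa using h2.const_mul (β' / β)
    apply squeeze_zero _ _ h3
    · intro m
      exact (div_pos (gf_pos α β hβ m) (gf_pos α' β' (by linarith) m)).le
    · intro m
      unfold gf
      have hm : (1 : ℝ) ≤ ((m : ℝ) + 1) ^ α' := by
        apply one_le_pow₀
        have : (0 : ℝ) ≤ m := by positivity
        linarith
      have e1 : (β' / β) * (((m + 1 : ℕ) : ℝ) ^ α * (β / β') ^ (m + 1)) =
          (((m : ℝ) + 1) ^ α * β ^ m) / β' ^ m := by
        push_cast
        rw [pow_succ, div_pow]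
        field_simp
      rw [e1]
      apply div_le_div_of_nonneg_left (by positivity) (by positivity)
      have : (0 : ℝ) < β' ^ m := by positivity
      nlinarith
  · subst h
    have hb : (0 : ℝ) < β := by linarith
    have h1 : Tendsto (fun m : ℕ => 1 / ((m : ℝ) + 1)) atTop (nhds 0) :=
      tendsto_one_div_add_atTop_nhds_zero_nat
    apply squeeze_zero _ _ h1
    · intro m
      exact (div_pos (gf_pos α β hβ m) (gf_pos α' β hβ m)).le
    · intro m
      unfold gf
      have hm : (0 : ℝ) < (m : ℝ) + 1 := by positivity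
      have hp : (0 : ℝ) < β ^ m := by positivity
      rw [mul_div_mul_right _ _ hp.ne']
      rw [div_le_div_iff₀ (by positivity) hm]
      obtain ⟨d, rfl⟩ := Nat.exists_eq_add_of_lt h'
      have h5 : (1 : ℝ) ≤ ((m : ℝ) + 1) ^ d := by
        apply one_le_pow₀
        have : (0 : ℝ) ≤ m := by positivity
        linarith
      have h6 : ((m : ℝ) + 1) ^ (α + d + 1) = ((m : ℝ) + 1) ^ α * ((m : ℝ) + 1) * ((m : ℝ) + 1) ^ d := by
        ring
      rw [h6, one_mul]
      have h7 : (0 : ℝ) < ((m : ℝ) + 1) ^ α * ((m : ℝ) + 1) := by positivity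
      nlinarith

/-- description of the counting function for `1 ≤ x`. -/
theorem kf_spec (α : ℕ) (β : ℝ) (hβ : 1 < β) (x : ℝ) (hx : 1 ≤ x) :
    ∃ M : ℕ, kf α β x = M + 1 ∧ gf α β M ≤ x ∧ x < gf α β (M + 1) := by
  classical
  have hex : ∃ n : ℕ, x < gf α β n := by
    obtain ⟨n, hn⟩ := pow_unbounded_of_one_lt x hβ
    exact ⟨n, lt_of_lt_of_le hn (gf_ge_pow α β hβ n)⟩
  have h0 : gf α β 0 = 1 := by simp [gf]
  have hpos : 0 < Nat.find hex := by
    rw [Nat.pos_iff_ne_zero]
    intro h
    have := Nat.find_spec hex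
    rw [h, h0] at this
    linarith
  obtain ⟨M, hM⟩ : ∃ M, Nat.find hex = M + 1 := ⟨Nat.find hex - 1, by omega⟩
  refine ⟨M, ?_, ?_, ?_⟩
  · unfold kf
    have : {m : ℕ | gf α β m ≤ x} = (Finset.range (M + 1) : Set ℕ) := by
      ext m
      simp only [Set.mem_setOf_eq, Finset.coe_range, Set.mem_Iio]
      constructor
      · intro h
        by_contra hcon
        push Not at hcon
        have h1 : x < gf α β (M + 1) := by rw [← hM]; exact Nat.find_spec hex
        have h2 : gf α β (M + 1) ≤ gf α β m := (gf_mono α β hβ).monotone hcon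
        linarith
      · intro h
        have := Nat.find_min hex (m := m) (by omega)
        linarith
    rw [this, Set.ncard_coe_finset, Finset.card_range]
  · have := Nat.find_min hex (m := M) (by omega)
    linarith
  · rw [← hM]; exact Nat.find_spec hex

theorem kf_asymp (α : ℕ) (β : ℝ) (hβ : 1 < β) : ∃ K : ℝ, ∀ x : ℝ, 3 ≤ x →
    |(kf α β x : ℝ) - (Real.log x / Real.log β - α * Real.log (Real.log x) / Real.log β)| ≤ K := by
  have hL : 0 < Real.log β := Real.log_pos hβ
  set L := Real.log β with hLdef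
  -- constants
  set A : ℝ := 1 / L + 1 with hA
  set B : ℝ := 2 * ((α : ℝ) + L + 1) with hB
  have hApos : 0 < A := by positivity
  have hBpos : 0 < B := by positivity
  refine ⟨2 + (α / L) * (|Real.log A| + |Real.log B| + Real.log 2), ?_⟩
  intro x hx
  obtain ⟨M, hM, h1, h2⟩ := kf_spec α β hβ x (by linarith)
  rw [hM]
  have hx0 : 0 < x := by linarith
  have hb : 0 < β := by linarith
  have hlog3 : 1 ≤ Real.log 3 := by
    have : Real.exp 1 < 3 := lt_trans Real.exp_one_lt_d9 (by norm_num)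
    have h := Real.log_lt_log (Real.exp_pos 1) this
    rw [Real.log_exp] at h
    exact h.le
  have hlx : 1 ≤ Real.log x := le_trans hlog3 (Real.log_le_log (by norm_num) hx)
  have hM0 : (0 : ℝ) ≤ M := by positivity
  -- take logs
  have e1 : Real.log (gf α β M) = α * Real.log ((M : ℝ) + 1) + M * L := by
    unfold gf
    rw [Real.log_mul (by positivity) (by positivity), Real.log_pow, Real.log_pow]
  have e2 : Real.log (gf α β (M + 1)) = α * Real.log ((M : ℝ) + 2) + (M + 1) * L := by
    unfold gf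
    rw [Real.log_mul (by positivity) (by positivity), Real.log_pow, Real.log_pow]
    push_cast
    have e3 : (M : ℝ) + 1 + 1 = (M : ℝ) + 2 := by ring
    rw [e3]
  have l1 : α * Real.log ((M : ℝ) + 1) + M * L ≤ Real.log x := by
    rw [← e1]; exact Real.log_le_log (gf_pos α β hβ M) h1
  have l2 : Real.log x ≤ α * Real.log ((M : ℝ) + 2) + (M + 1) * L := by
    rw [← e2]; exact Real.log_le_log hx0 h2.le
  have lM1 : 0 ≤ Real.log ((M : ℝ) + 1) := Real.log_nonneg (by linarith)
  have hα : (0 : ℝ) ≤ α := by positivity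
  -- M + 1 ≤ A log x
  have u1 : (M : ℝ) + 1 ≤ A * Real.log x := by
    have : (M : ℝ) * L ≤ Real.log x := by nlinarith [mul_nonneg hα lM1]
    have h3 : (M : ℝ) ≤ Real.log x / L := by rw [le_div_iff₀ hL]; exact this
    have h4 : A * Real.log x = Real.log x / L + Real.log x := by rw [hA]; ring
    rw [h4]; linarith
  -- log x ≤ B (M+1)
  have u2 : Real.log x ≤ B * ((M : ℝ) + 1) := by
    have h3 : Real.log ((M : ℝ) + 2) ≤ (M : ℝ) + 2 - 1 := Real.log_le_sub_one_of_pos (by linarith)
    have h4 : α * Real.log ((M : ℝ) + 2) ≤ α * ((M : ℝ) + 1) := by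
      apply mul_le_mul_of_nonneg_left _ hα
      linarith
    rw [hB]
    nlinarith
  -- logs of these
  have v1 : Real.log ((M : ℝ) + 1) ≤ Real.log A + Real.log (Real.log x) := by
    rw [← Real.log_mul hApos.ne' (by linarith)]
    exact Real.log_le_log (by linarith) u1
  have v2 : Real.log (Real.log x) ≤ Real.log B + Real.log ((M : ℝ) + 1) := by
    rw [← Real.log_mul hBpos.ne' (by linarith)]
    exact Real.log_le_log (by linarith) u2
  have v3 : Real.log ((M : ℝ) + 2) ≤ Real.log 2 + Real.log ((M : ℝ) + 1) := by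
    rw [← Real.log_mul (by norm_num) (by linarith)]
    exact Real.log_le_log (by linarith) (by linarith)
  have a1 := le_abs_self (Real.log A)
  have a3 := le_abs_self (Real.log B)
  have a4 := abs_nonneg (Real.log A)
  have a5 := abs_nonneg (Real.log B)
  have a6 : 0 ≤ Real.log 2 := Real.log_nonneg (by norm_num)
  set P := |Real.log A| with hP
  set Q := |Real.log B| with hQ
  set T := Real.log (Real.log x) with hT
  set X := Real.log x with hX
  set Y := Real.log ((M : ℝ) + 1) with hY
  set Z := Real.log 2 with hZ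
  -- bounds: X ≤ αY + αZ + (M+1)L ; αY + M L ≤ X
  have w1 : X ≤ α * Y + α * Z + (M + 1) * L := by
    have := mul_le_mul_of_nonneg_left v3 hα
    nlinarith
  have w2 : α * Y ≤ α * P + α * T := by nlinarith
  have w3 : α * T ≤ α * Q + α * Y := by nlinarith
  push_cast
  have key1 : L * (((M : ℝ) + 1) - (X / L - α * T / L)) = L * (M + 1) - X + α * T := by
    field_simp
    ring
  have key : |L * (((M : ℝ) + 1) - (X / L - α * T / L))| ≤ L * (2 + (α / L) * (P + Q + Z)) := by
    rw [key1]
    have e3 : L * (2 + (α / L) * (P + Q + Z)) = 2 * L + α * (P + Q + Z) := by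
      field_simp
    rw [e3, abs_le]
    constructor <;> nlinarith [mul_nonneg hα a4, mul_nonneg hα a5, mul_nonneg hα a6]
  rw [abs_mul, abs_of_pos hL] at key
  exact le_of_mul_le_mul_left key hL

end FC
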