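import Pool.Agent.LibFC.SyncB

/-! From one-sided words to bi-infinite parsed words. -/

set_option autoImplicit false

namespace FC

variable {C A : Type*}

/-- extension of a word by a marker on the left -/
def zx {A : Type*} (u : ℕ → A) (n : ℤ) : A ⊕ Bool :=
  if 0 ≤ n then Sum.inl (u n.toNat) else if n = -1 then Sum.inr true else Sum.inr false

/-- extension of a morphism -/
def hat (g : ℕ) (f : C → List A) : C ⊕ Bool → List (A ⊕ Bool)
  | Sum.inl c => (f c).map Sum.inl
  | Sum.inr b => List.replicate (g - 1) (Sum.inr false) ++ [Sum.inr b]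

lemma pre_succ (u : ℕ → A) (n : ℕ) : pre u (n + 1) = pre u n ++ [u n] := by
  simp [pre, List.range_succ]

/-- cut function of the lift -/
def hF (g : ℕ) (f : C → List A) (v : ℕ → C) (n : ℤ) : ℤ :=
  if 0 ≤ n then (((pre v n.toNat).flatMap f).length : ℤ) else g * n

lemma hF_nonneg (g : ℕ) (f : C → List A) (v : ℕ → C) (n : ℕ) :
    hF g f v n = (((pre v n).flatMap f).length : ℤ) := by
  simp [hF]

lemma hF_nonpos (g : ℕ) (f : C → List A) (v : ℕ → C) (n : ℤ) (hn : n ≤ 0) :
    hF g f v n = g * n := by
  unfold hF
  split_ifs with h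
  · have : n = 0 := by omega
    subst this
    simp [pre]
  · rfl

lemma zx_nonneg (u : ℕ → A) (n : ℕ) : zx u n = Sum.inl (u n) := by simp [zx]

lemma Im_get {f : C → List A} {v : ℕ → C} {u : ℕ → A} (h : Im f v u) (n k : ℕ)
    (hk : k < (f (v n)).length) : u (((pre v n).flatMap f).length + k) = (f (v n))[k] := by
  have h1 := h (n + 1)
  rw [pre_succ, List.flatMap_append] at h1
  have h2 := congrArg (fun l => l[((pre v n).flatMap f).length + k]?) h1
  rw [List.getElem?_append_right (by omega)] at h2
  simp only [Nat.add_sub_cancel_left, List.flatMap_cons, List.flatMap_nil, List.append_nil,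
    List.length_append] at h2
  rw [List.getElem?_eq_getElem hk] at h2
  simp only [pre, List.getElem?_map] at h2
  rw [List.getElem?_range (by
    have : ((List.map v (List.range n)).flatMap f).length = ((pre v n).flatMap f).length := rfl
    omega)] at h2
  simp only [Option.map_some, Option.some.injEq] at h2
  rw [h2]; rfl

/-- the lifted parsed word -/
def lift (g : ℕ) (hg : 1 ≤ g) (f : C → List A) (v : ℕ → C) (u : ℕ → A) (h : Im f v u) :
    PWord (hat g f) where
  V := zx v
  U := zx u
  F := hF g f v
  step := by
    intro n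
    rcases le_or_gt 0 n with hn | hn
    · obtain ⟨m, rfl⟩ : ∃ m : ℕ, n = m := ⟨n.toNat, by omega⟩
      rw [zx_nonneg, show (m : ℤ) + 1 = ((m + 1 : ℕ) : ℤ) by push_cast; rfl, hF_nonneg, hF_nonneg,
        pre_succ]
      simp [hat]
    · rw [hF_nonpos _ _ _ _ (by omega), hF_nonpos _ _ _ _ (by omega)]
      have : (hat g f (zx v n)).length = g := by
        unfold zx
        rw [if_neg (by omega)]
        split_ifs <;> simp [hat] <;> omega
      rw [this]; ring
  val := by
    intro n k hk
    rcases le_or_gt 0 n with hn | hn
    · obtain ⟨m, rfl⟩ : ∃ m : ℕ, n = m := ⟨n.toNat, by omega⟩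
      simp only [zx_nonneg, hat, hF_nonneg] at hk ⊢
      rw [List.length_map] at hk
      rw [show (((pre v m).flatMap f).length : ℤ) + (k : ℤ) =
        ((((pre v m).flatMap f).length + k : ℕ) : ℤ) by push_cast; rfl, zx_nonneg, Im_get h m k hk]
      simp
    · have hlen : (hat g f (zx v n)).length = g := by
        unfold zx
        rw [if_neg (by omega)]
        split_ifs <;> simp [hat] <;> omega
      rw [hlen] at hk
      rw [hF_nonpos _ _ _ _ (by omega)]
      have h1 : (g : ℤ) * n + k < 0 := by nlinarith
      by_cases hn1 : n = -1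
      · subst hn1
        simp only [zx, hat]
        by_cases hk1 : k = g - 1
        · subst hk1
          have e1 : (g : ℤ) * (-1) + ((g - 1 : ℕ) : ℤ) = -1 := by omega
          rw [e1]
          simp
        · have e1 : ¬ (0 : ℤ) ≤ (g : ℤ) * (-1) + k := by omega
          have e2 : ¬ (g : ℤ) * (-1) + k = -1 := by omega
          rw [if_neg e1, if_neg e2]
          simp only [show ¬ (0 : ℤ) ≤ -1 by omega, if_false, if_true]
          rw [List.getElem_append_left (by simp; omega)]
          simp
      · have e1 : ¬ (0 : ℤ) ≤ (g : ℤ) * n + k := by omega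
        have e2 : ¬ (g : ℤ) * n + k = -1 := by
          intro hcon
          have : (g : ℤ) * (n + 1) ≤ g * (-1) := mul_le_mul_of_nonneg_left (by omega) (by omega)
          have h3 : (g : ℤ) * (n + 1) = g * n + g := by ring
          omega
        simp only [zx]
        rw [if_neg e1, if_neg e2]
        simp only [if_neg (show ¬ (0 : ℤ) ≤ n by omega), if_neg hn1, hat]
        by_cases hk1 : k = g - 1
        · subst hk1; simp
        · rw [List.getElem_append_left (by simp; omega)]
          simp

end FC
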