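import Pool.Agent.LibFC.DCount

/-! Non-neutral near-periodic words come from exact runs. -/

set_option autoImplicit false

namespace FC

/-- multiplicity of a set of pairs -/
noncomputable def mm {X Y : Type*} (E : Set (X × Y)) : ℤ :=
  (E.ncard : ℤ) - ((Prod.fst '' E).ncard : ℤ) - ((Prod.snd '' E).ncard : ℤ) + 1

theorem mm_cross {X Y : Type*} (E : Set (X × Y)) (hE : E.Finite) (x0 : X × Y) (h0 : x0 ∈ E)
    (hc : ∀ x ∈ E, x.1 = x0.1 ∨ x.2 = x0.2) : mm E = 0 := by
  classical
  set E1 : Set (X × Y) := {x | x ∈ E ∧ x.1 = x0.1} with hE1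
  set E2 : Set (X × Y) := {x | x ∈ E ∧ x.2 = x0.2} with hE2
  have hf1 : E1.Finite := hE.subset (fun x hx => hx.1)
  have hf2 : E2.Finite := hE.subset (fun x hx => hx.1)
  have hu : E = E1 ∪ E2 := by
    ext x
    constructor
    · intro hx
      rcases hc x hx with h | h
      · left; exact ⟨hx, h⟩
      · right; exact ⟨hx, h⟩
    · rintro (h | h) <;> exact h.1
  have hi : E1 ∩ E2 = {x0} := by
    ext x
    constructor
    · rintro ⟨h1, h2⟩
      exact Prod.ext h1.2 h2.2
    · rintro rfl
      exact ⟨⟨h0, rfl⟩, ⟨h0, rfl⟩⟩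
  have hcard := Set.ncard_union_add_ncard_inter E1 E2 hf1 hf2
  rw [← hu, hi, Set.ncard_singleton] at hcard
  have h1 : Prod.snd '' E = Prod.snd '' E1 := by
    ext y
    constructor
    · rintro ⟨x, hx, rfl⟩
      rcases hc x hx with h | h
      · exact ⟨x, ⟨hx, h⟩, rfl⟩
      · exact ⟨x0, ⟨h0, rfl⟩, h.symm⟩
    · rintro ⟨x, hx, rfl⟩
      exact ⟨x, hx.1, rfl⟩
  have h2 : Prod.fst '' E = Prod.fst '' E2 := by
    ext y
    constructor
    · rintro ⟨x, hx, rfl⟩
      rcases hc x hx with h | h
      · exact ⟨x0, ⟨h0, rfl⟩, h.symm⟩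
      · exact ⟨x, ⟨hx, h⟩, rfl⟩
    · rintro ⟨x, hx, rfl⟩
      exact ⟨x, hx.1, rfl⟩
  have h3 : (Prod.snd '' E1).ncard = E1.ncard := by
    apply Set.InjOn.ncard_image
    intro x hx y hy hxy
    exact Prod.ext (hx.2.trans hy.2.symm) hxy
  have h4 : (Prod.fst '' E2).ncard = E2.ncard := by
    apply Set.InjOn.ncard_image
    intro x hx y hy hxy
    exact Prod.ext hxy (hx.2.trans hy.2.symm)
  unfold mm
  rw [h1, h2, h3, h4]
  omega

/-- extension set in a bi-infinite word -/
def BExt {A : Type*} (U : ℤ → A) (w : List A) : Set (A × A) :=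
  {ab | ∃ i : ℤ, zw U i w.length = w ∧ ab = (U (i - 1), U (i + w.length))}

lemma BExt_ne {A : Type*} [Finite A] {U : ℤ → A} {w : List A} (hm : mm (BExt U w) ≠ 0) {x0 : A × A}
    (h0 : x0 ∈ BExt U w) : ∃ x ∈ BExt U w, x.1 ≠ x0.1 ∧ x.2 ≠ x0.2 := by
  by_contra hcon
  push Not at hcon
  apply hm
  apply mm_cross _ (Set.toFinite _) x0 h0
  intro x hx
  by_cases h : x.1 = x0.1
  · left; exact h
  · right; exact hcon x hx h

lemma exists_MP {A : Type*} [Finite A] {U : ℤ → A} {w : List A} (hm : mm (BExt U w) ≠ 0) {i : ℤ}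
    (hi : zw U i w.length = w) : ∃ j : ℤ, zw U j w.length = w ∧ MP U i j w.length := by
  obtain ⟨x, ⟨j, hj, rfl⟩, h1, h2⟩ := BExt_ne hm (x0 := (U (i - 1), U (i + w.length))) ⟨i, hi, rfl⟩
  refine ⟨j, hj, by omega, ?_, Ne.symm h1, Ne.symm h2⟩
  intro t h0 h1'
  have : zw U i w.length = zw U j w.length := by rw [hi, hj]
  rw [zw_eq_iff] at this
  exact this t h0 h1'

theorem np_to_run {A : Type*} [Finite A] (U : ℤ → A) (P2 h : ℕ) (w : List A)
    (hm : mm (BExt U w) ≠ 0) (i0 : ℤ) (h0 : zw U i0 w.length = w)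
    (hnp : NP U P2 h i0 w.length) (hlen : 2 * h + 2 * P2 + 2 ≤ w.length) :
    ∃ i π s e : ℤ, zw U i w.length = w ∧ π ≤ P2 ∧ ER U π s e ∧ 0 ≤ s - i ∧ s - i ≤ h ∧
      -(h : ℤ) ≤ e - (i + w.length) ∧ e - (i + w.length) ≤ P2 := by
  classical
  obtain ⟨n, hn⟩ : ∃ n : ℕ, n = w.length := ⟨_, rfl⟩
  rw [← hn] at h0 hnp hlen ⊢
  obtain ⟨π, hπ1, hπ2, hper⟩ := hnp
  -- all occurrences look the same
  have hocc : ∀ i : ℤ, zw U i n = w → ∀ t : ℤ, 0 ≤ t → t < n → U (i + t) = U (i0 + t) := by
    intro i hi t h1 h2
    have : zw U i n = zw U i0 n := by rw [hi, h0]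
    rw [zw_eq_iff] at this
    exact this t h1 h2
  -- left break
  obtain ⟨a, ha0, hah, hab, haper⟩ : ∃ a : ℤ, 0 ≤ a ∧ a ≤ h ∧
      (a = 0 ∨ U (i0 + a - 1) ≠ U (i0 + a - 1 + π)) ∧ PerOn U π (i0 + a) (i0 + n - h) := by
    by_cases hex : ∃ t : ℤ, 0 ≤ t ∧ t < h ∧ U (i0 + t) ≠ U (i0 + t + π)
    · obtain ⟨t, ⟨ht0, ht1, ht2⟩, hmax⟩ := Int.exists_greatest_of_bdd
        (P := fun t => 0 ≤ t ∧ t < h ∧ U (i0 + t) ≠ U (i0 + t + π))
        ⟨h, fun z hz => by omega⟩ hex
      refine ⟨t + 1, by omega, by omega, Or.inr ?_, ?_⟩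
      · rw [show i0 + (t + 1) - 1 = i0 + t by ring]; exact ht2
      · intro x hx0 hx1
        by_cases hxh : x < i0 + h
        · by_contra hcon
          have := hmax (x - i0) ⟨by omega, by omega, by
            rw [show i0 + (x - i0) = x by ring]; exact hcon⟩
          omega
        · exact hper x (by omega) (by omega)
    · push Not at hex
      refine ⟨0, le_rfl, by omega, Or.inl rfl, ?_⟩
      intro x hx0 hx1
      by_cases hxh : x < i0 + h
      · have := hex (x - i0) (by omega) (by omega)
        rw [show i0 + (x - i0) = x by ring] at this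
        exact this
      · exact hper x (by omega) (by omega)
  -- right break
  obtain ⟨b, hb0, hbn, hbb, hbper⟩ : ∃ b : ℤ, (n : ℤ) - h ≤ b ∧ b ≤ n ∧
      (b = n ∨ U (i0 + b) ≠ U (i0 + b - π)) ∧ PerOn U π (i0 + a) (i0 + b) := by
    by_cases hex : ∃ t : ℤ, (n : ℤ) - h ≤ t ∧ t < n ∧ U (i0 + t) ≠ U (i0 + t - π)
    · obtain ⟨t, ⟨ht0, ht1, ht2⟩, hmin⟩ := Int.exists_least_of_bdd
        (P := fun t => (n : ℤ) - h ≤ t ∧ t < n ∧ U (i0 + t) ≠ U (i0 + t - π))
        ⟨(n : ℤ) - h, fun z hz => by omega⟩ hex
      refine ⟨t, by omega, by omega, Or.inr ht2, ?_⟩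
      intro x hx0 hx1
      by_cases hxh : x + π < i0 + n - h
      · exact haper x (by omega) (by omega)
      · by_contra hcon
        have := hmin (x + π - i0) ⟨by omega, by omega, by
          rw [show i0 + (x + π - i0) = x + π by ring, show x + π - π = x by ring]
          exact Ne.symm hcon⟩
        omega
    · push Not at hex
      refine ⟨n, by omega, by omega, Or.inl rfl, ?_⟩
      intro x hx0 hx1
      by_cases hxh : x + π < i0 + n - h
      · exact haper x (by omega) (by omega)
      · have := hex (x + π - i0) (by omega) (by omega)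
        rw [show i0 + (x + π - i0) = x + π by ring, show x + π - π = x by ring] at this
        exact this.symm
  -- periodicity at every occurrence
  have hperi : ∀ i, zw U i n = w → PerOn U π (i + a) (i + b) := by
    intro i hi t h1 h2
    have e1 := hocc i hi (t - i) (by omega) (by omega)
    have e2 := hocc i hi (t + π - i) (by omega) (by omega)
    rw [show i + (t - i) = t by ring] at e1
    rw [show i + (t + π - i) = t + π by ring] at e2
    rw [e1, e2]
    have := hbper (i0 + (t - i)) (by omega) (by omega)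
    rw [this]; congr 1; ring
  have hleft : ∀ i, zw U i n = w → a ≠ 0 → U (i + a - 1) ≠ U (i + a - 1 + π) := by
    intro i hi ha
    have e1 := hocc i hi (a - 1) (by omega) (by omega)
    have e2 := hocc i hi (a - 1 + π) (by omega) (by omega)
    rw [show i + a - 1 = i + (a - 1) by ring, e1, show i + (a - 1) + π = i + (a - 1 + π) by ring, e2]
    have := hab.resolve_left ha
    rw [show i0 + a - 1 = i0 + (a - 1) by ring,
      show i0 + (a - 1) + π = i0 + (a - 1 + π) by ring] at this
    exact this
  have hright : ∀ i, zw U i n = w → b ≠ n → U (i + b) ≠ U (i + b - π) := by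
    intro i hi hb
    have e1 := hocc i hi b (by omega) (by omega)
    have e2 := hocc i hi (b - π) (by omega) (by omega)
    rw [e1, show i + b - π = i + (b - π) by ring, e2]
    have := hbb.resolve_left hb
    rw [show i0 + b - π = i0 + (b - π) by ring] at this
    exact this
  obtain ⟨j0, hj0, hMP⟩ := exists_MP hm (i := i0) (by rw [← hn]; exact h0)
  rw [← hn] at hj0 hMP
  obtain ⟨-, -, hMl, hMr⟩ := hMP
  by_cases ha : a = 0
  · by_cases hb : b = n
    · -- purely periodic
      subst ha; subst hb
      simp only [add_zero] at hperi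
      by_cases hex : ∃ i, zw U i n = w ∧ U (i - 1) ≠ U (i - 1 + π) ∧ U (i + n) ≠ U (i + n - π)
      · obtain ⟨i, hi, h1, h2⟩ := hex
        exact ⟨i, π, i, i + n, hi, hπ2, ⟨hπ1, by omega, hperi i hi, h1, h2⟩, by omega, by omega,
          by omega, by omega⟩
      · push Not at hex
        have hl' : ∀ i, zw U i n = w → U (i - 1 + π) = U (i0 - 1 + π) := by
          intro i hi
          have := hocc i hi (π - 1) (by omega) (by omega)
          rw [show i - 1 + π = i + (π - 1) by ring, this]; congr 1; ring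
        have hr' : ∀ i, zw U i n = w → U (i + n - π) = U (i0 + n - π) := by
          intro i hi
          have := hocc i hi (n - π) (by omega) (by omega)
          rw [show i + n - π = i + (n - π) by ring, this]; congr 1; ring
        have hnot : (U (i0 - 1 + π), U (i0 + n - π)) ∉ BExt U w := by
          intro hin
          apply hm
          apply mm_cross _ (Set.toFinite _) _ hin
          rintro x ⟨i, hi, rfl⟩
          rw [← hn] at hi ⊢
          by_cases h1 : U (i - 1) = U (i - 1 + π)
          · left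
            simp only
            rw [h1, hl' i hi]
          · right
            simp only
            rw [hex i hi h1, hr' i hi]
        obtain ⟨i, hi, h1⟩ : ∃ i, zw U i n = w ∧ U (i - 1) ≠ U (i - 1 + π) := by
          by_cases h : U (i0 - 1) = U (i0 - 1 + π)
          · refine ⟨j0, hj0, ?_⟩
            rw [hl' j0 hj0, ← h]; exact hMl.symm
          · exact ⟨i0, h0, h⟩
        have h2 := hex i hi h1
        have hbr : ∃ e : ℤ, i + n ≤ e ∧ e ≤ i + n + π ∧ U e ≠ U (e - π) := by
          by_contra hcon
          push Not at hcon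
          apply hnot
          refine ⟨i + π, ?_, ?_⟩
          · rw [← hn, ← hi, zw_eq_iff]
            intro t h3 h4
            by_cases h5 : t + π < n
            · have := hperi i hi (i + t) (by omega) (by omega)
              rw [show i + π + t = i + t + π by ring]; exact this.symm
            · have := hcon (i + t + π) (by omega) (by omega)
              rw [show i + t + π - π = i + t by ring] at this
              rw [show i + π + t = i + t + π by ring]; exact this
          · rw [← hn]
            have e1 : U (i + π - 1) = U (i0 - 1 + π) := by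
              rw [show i + π - 1 = i - 1 + π by ring]; exact hl' i hi
            have e2 : U (i + π + n) = U (i0 + n - π) := by
              have := hcon (i + n + π) (by omega) (by omega)
              rw [show i + n + π - π = i + n by ring] at this
              rw [show i + π + n = i + n + π by ring, this, h2]; exact hr' i hi
            rw [e1, e2]
        obtain ⟨e, ⟨he0, he1, he2⟩, hmin⟩ := Int.exists_least_of_bdd
          (P := fun e => i + n ≤ e ∧ e ≤ i + n + π ∧ U e ≠ U (e - π))
          ⟨i + n, fun z hz => by omega⟩ hbr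
        refine ⟨i, π, i, e, hi, hπ2, ⟨hπ1, by omega, ?_, h1, he2⟩, by omega, by omega, by omega,
          by omega⟩
        intro t h3 h4
        by_cases h5 : t + π < i + n
        · exact hperi i hi t h3 h5
        · by_contra hcon
          have := hmin (t + π) ⟨by omega, by omega, by
            rw [show t + π - π = t by ring]; exact Ne.symm hcon⟩
          omega
    · -- a = 0, b < n
      subst ha
      simp only [add_zero] at hperi
      obtain ⟨i, hi, h1⟩ : ∃ i, zw U i n = w ∧ U (i - 1) ≠ U (i - 1 + π) := by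
        by_cases h : U (i0 - 1) = U (i0 - 1 + π)
        · refine ⟨j0, hj0, ?_⟩
          have := hocc j0 hj0 (π - 1) (by omega) (by omega)
          rw [show j0 - 1 + π = j0 + (π - 1) by ring, this,
            show i0 + (π - 1) = i0 - 1 + π by ring, ← h]; exact hMl.symm
        · exact ⟨i0, h0, h⟩
      exact ⟨i, π, i, i + b, hi, hπ2, ⟨hπ1, by omega, hperi i hi, h1, hright i hi hb⟩, by omega,
        by omega, by omega, by omega⟩
  · by_cases hb : b = n
    · subst hb
      obtain ⟨i, hi, h1⟩ : ∃ i, zw U i n = w ∧ U (i + n) ≠ U (i + n - π) := by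
        by_cases h : U (i0 + n) = U (i0 + n - π)
        · refine ⟨j0, hj0, ?_⟩
          have := hocc j0 hj0 (n - π) (by omega) (by omega)
          rw [show j0 + n - π = j0 + (n - π) by ring, this,
            show i0 + (n - π) = i0 + n - π by ring, ← h]; exact hMr.symm
        · exact ⟨i0, h0, h⟩
      refine ⟨i, π, i + a, i + n, hi, hπ2, ⟨hπ1, by omega, hperi i hi, ?_, h1⟩, by omega,
        by omega, by omega, by omega⟩
      exact hleft i hi ha
    · refine ⟨i0, π, i0 + a, i0 + b, h0, hπ2, ⟨hπ1, by omega, hperi i0 h0, hleft i0 h0 ha,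
        hright i0 h0 hb⟩, by omega, by omega, by omega, by omega⟩

end FC
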