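import Pool.Agent.LibFC.Lift
import Pool.Agent.LibFC.Neutral

/-! Elementarity of the lift, and extension sets in the lift. -/

set_option autoImplicit false

namespace FC

variable {C A : Type*}

theorem Elem_hat [Fintype C] (g : ℕ) (f : C → List A) (hf : Elem f) : Elem (hat g f) := by
  classical
  intro Z hZ
  set φ : List (A ⊕ Bool) → List A := fun z => z.filterMap Sum.getLeft? with hφ
  set Z1 := Z.filter (fun z => ∀ x ∈ z, ∃ y : A, x = Sum.inl y) with hZ1
  have h1 : Fintype.card C ≤ (Z1.image φ).card := by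
    apply hf
    intro c
    obtain ⟨l, hl, hfl⟩ := hZ (Sum.inl c)
    refine ⟨l.map φ, ?_, ?_⟩
    · intro z hz
      rw [List.mem_map] at hz
      obtain ⟨y, hy, rfl⟩ := hz
      apply Finset.mem_image_of_mem
      rw [hZ1, Finset.mem_filter]
      refine ⟨hl y hy, ?_⟩
      intro x hx
      have : x ∈ l.flatten := List.mem_flatten.2 ⟨y, hy, hx⟩
      rw [hfl] at this
      simp only [hat, List.mem_map] at this
      obtain ⟨a, _, rfl⟩ := this
      exact ⟨a, rfl⟩
    · have : (l.map φ).flatten = φ l.flatten := by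
        rw [hφ]; simp only; rw [List.filterMap_flatten]
      rw [this, hfl]
      simp only [hat, hφ, List.filterMap_map]
      have : (Sum.getLeft? ∘ (Sum.inl : A → A ⊕ Bool) : A → Option A) = some := by
        funext a; rfl
      rw [this, List.filterMap_some]
  have h2 : (Z1.image φ).card ≤ Z1.card := Finset.card_image_le
  obtain ⟨l0, hl0, e0⟩ := hZ (Sum.inr false)
  obtain ⟨l1, hl1, e1⟩ := hZ (Sum.inr true)
  have m0 : (Sum.inr false : A ⊕ Bool) ∈ l0.flatten := by rw [e0]; simp [hat]
  have m1 : (Sum.inr true : A ⊕ Bool) ∈ l1.flatten := by rw [e1]; simp [hat]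
  obtain ⟨z0, hz0, hm0⟩ := List.mem_flatten.1 m0
  obtain ⟨z1, hz1, hm1⟩ := List.mem_flatten.1 m1
  have hne : z0 ≠ z1 := by
    intro h
    rw [← h] at hm1
    have : (Sum.inr true : A ⊕ Bool) ∈ l0.flatten := List.mem_flatten.2 ⟨z0, hz0, hm1⟩
    rw [e0] at this
    simp [hat] at this
  have h3 : ({z0, z1} : Finset (List (A ⊕ Bool))) ⊆ Z.filter (fun z => ¬ ∀ x ∈ z, ∃ y : A, x = Sum.inl y) := by
    intro z hz
    simp only [Finset.mem_insert, Finset.mem_singleton] at hz
    rw [Finset.mem_filter]
    rcases hz with rfl | rfl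
    · refine ⟨hl0 _ hz0, fun h => ?_⟩
      obtain ⟨y, hy⟩ := h _ hm0
      exact absurd hy (by simp)
    · refine ⟨hl1 _ hz1, fun h => ?_⟩
      obtain ⟨y, hy⟩ := h _ hm1
      exact absurd hy (by simp)
  have h4 := Finset.card_le_card h3
  rw [Finset.card_pair hne] at h4
  have h5 := Finset.card_filter_add_card_filter_not (s := Z) (fun z => ∀ x ∈ z, ∃ y : A, x = Sum.inl y)
  rw [Fintype.card_sum, Fintype.card_bool]
  rw [hZ1] at h2
  rw [hZ1] at h1
  omega

lemma mm_image {X Y X' Y' : Type*} (α : X → X') (β : Y → Y') (hα : Function.Injective α)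
    (hβ : Function.Injective β) (E : Set (X × Y)) : mm (Prod.map α β '' E) = mm E := by
  unfold mm
  have h1 : Prod.fst '' (Prod.map α β '' E) = α '' (Prod.fst '' E) := by
    rw [Set.image_image, Set.image_image]; rfl
  have h2 : Prod.snd '' (Prod.map α β '' E) = β '' (Prod.snd '' E) := by
    rw [Set.image_image, Set.image_image]; rfl
  rw [h1, h2, Set.ncard_image_of_injective _ (hα.prodMap hβ),
    Set.ncard_image_of_injective _ hα, Set.ncard_image_of_injective _ hβ]

end FC
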