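import Pool.Agent.LibFC.SyncB

/-! Rigidity of contexts of long runs. -/

set_option autoImplicit false

namespace FC

namespace Rig

variable {C : Type*}

/-- bi-infinite words with a period at most `P`. -/
def Pd (P : ℕ) (y : ℤ → C) : Prop := ∃ π : ℤ, 1 ≤ π ∧ π ≤ P ∧ ∀ t, y (t + π) = y t

lemma per_mul {y : ℤ → C} {π : ℤ} (h : ∀ t, y (t + π) = y t) (u t : ℤ) : y (t + π * u) = y t := by
  have h' : Function.Periodic y π := h
  have := h'.int_mul u t
  rwa [mul_comm] at this

lemma Pd.shift {P : ℕ} {y : ℤ → C} (h : Pd P y) (s : ℤ) : Pd P (fun t => y (t + s)) := by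
  obtain ⟨π, h1, h2, h3⟩ := h
  exact ⟨π, h1, h2, fun t => by
    change y (t + π + s) = y (t + s)
    rw [show t + π + s = t + s + π by ring, h3]⟩

lemma per_emod {y : ℤ → C} {π : ℤ} (h : ∀ t, y (t + π) = y t) (t : ℤ) : y (t % π) = y t := by
  have h1 := per_mul h (t / π) (t % π)
  rw [Int.emod_add_mul_ediv] at h1
  exact h1.symm

lemma Pd.eq_of_agree {P : ℕ} {y y' : ℤ → C} (h : Pd P y) (h' : Pd P y')
    (h0 : ∀ t : ℤ, 0 ≤ t → t < P * P → y t = y' t) : ∀ t, y t = y' t := by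
  obtain ⟨π, h1, h2, h3⟩ := h
  obtain ⟨π', h1', h2', h3'⟩ := h'
  intro t
  have e1 : ∀ t, y (t + π * π') = y t := fun t => per_mul h3 π' t
  have e2 : ∀ t, y' (t + π * π') = y' t := fun t => by
    rw [mul_comm]; exact per_mul h3' π t
  rw [← per_emod e1 t, ← per_emod e2 t]
  have hpos : 0 < π * π' := by positivity
  apply h0
  · exact Int.emod_nonneg _ hpos.ne'
  · have := Int.emod_lt_of_pos t hpos
    have : π * π' ≤ P * P := mul_le_mul h2 h2' (by omega) (by omega)
    omega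

lemma finite_Pd [Finite C] (P : ℕ) : Finite {y : ℤ → C // Pd P y} := by
  have : {y : ℤ → C | Pd P y} ⊆ ⋃ n ∈ Finset.range (P + 1),
      Set.range (fun (w : Fin (n + 1) → C) (t : ℤ) => w ⟨(t % (n + 1 : ℕ)).toNat, by
        have := Int.emod_lt_of_pos t (b := ((n + 1 : ℕ) : ℤ)) (by positivity)
        have := Int.emod_nonneg t (b := ((n + 1 : ℕ) : ℤ)) (by positivity)
        omega⟩) := by
    rintro y ⟨π, h1, h2, h3⟩
    simp only [Set.mem_iUnion, Finset.mem_range]
    refine ⟨(π - 1).toNat, by omega, fun i => y i, ?_⟩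
    have hπ : (((π - 1).toNat + 1 : ℕ) : ℤ) = π := by omega
    funext t
    simp only
    rw [← per_emod h3 t]
    congr 1
    have := Int.emod_nonneg t (b := π) (by omega)
    rw [Int.toNat_of_nonneg] <;> rw [hπ]
    exact this
  have hf : Set.Finite (⋃ n ∈ Finset.range (P + 1),
      Set.range (fun (w : Fin (n + 1) → C) (t : ℤ) => w ⟨(t % (n + 1 : ℕ)).toNat, by
        have := Int.emod_lt_of_pos t (b := ((n + 1 : ℕ) : ℤ)) (by positivity)
        have := Int.emod_nonneg t (b := ((n + 1 : ℕ) : ℤ)) (by positivity)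
        omega⟩)) := by
    apply Set.Finite.biUnion (Finset.finite_toSet _)
    intro n _
    exact Set.finite_range _
  exact (hf.subset this).to_subtype

/-- compactness for finite types. -/
lemma exists_forall {α : Type*} [Finite α] (Q : ℕ → α → Prop)
    (hm : ∀ m m' x, m ≤ m' → Q m' x → Q m x) (h : ∀ m, ∃ x, Q m x) : ∃ x, ∀ m, Q m x := by
  classical
  by_contra hcon
  push Not at hcon
  choose g hg using hcon
  have := Fintype.ofFinite α
  obtain ⟨x, hx⟩ := h (Finset.univ.sup g)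
  exact hg x (hm _ _ x (Finset.le_sup (Finset.mem_univ x)) hx)

/-- uniform threshold for finite types. -/
lemma exists_threshold {α : Type*} [Finite α] (Q : ℕ → α → Prop)
    (hm : ∀ m m' x, m ≤ m' → Q m' x → Q m x) : ∃ M, ∀ x, Q M x → ∀ m, Q m x := by
  classical
  have := Fintype.ofFinite α
  have : ∀ x : α, ∃ M, Q M x → ∀ m, Q m x := by
    intro x
    by_cases hx : ∀ m, Q m x
    · exact ⟨0, fun _ => hx⟩
    · push Not at hx
      obtain ⟨m, hm⟩ := hx
      exact ⟨m, fun h => absurd h hm⟩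
  choose g hg using this
  refine ⟨Finset.univ.sup g, fun x hx => hg x (hm _ _ x (Finset.le_sup (Finset.mem_univ x)) hx)⟩

section run

variable {τ : C → List C} {N P K : ℕ}

lemma F_ge2 (h2 : ∀ c, 2 ≤ (τ c).length) (p : PWord τ) (a : ℤ) (k : ℕ) :
    2 * (k : ℤ) ≤ p.F (a + k) - p.F a := by
  induction k with
  | zero => simp
  | succ k ih =>
    have := p.step (a + k)
    have h := h2 (p.V (a + k))
    push_cast
    rw [← add_assoc, this]
    omega

lemma F_leK (hK : ∀ c, (τ c).length ≤ K) (p : PWord τ) (a : ℤ) (k : ℕ) :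
    p.F (a + k) - p.F a ≤ K * k := by
  induction k with
  | zero => simp
  | succ k ih =>
    have := p.step (a + k)
    have h := hK (p.V (a + k))
    push_cast
    rw [← add_assoc, this, mul_add, mul_one]
    omega

lemma F_ge2' (h2 : ∀ c, 2 ≤ (τ c).length) (p : PWord τ) {a b : ℤ} (h : a ≤ b) :
    2 * (b - a) ≤ p.F b - p.F a := by
  have := F_ge2 h2 p a (b - a).toNat
  rw [show a + ((b - a).toNat : ℤ) = b by omega] at this
  omega

lemma F_leK' (hK : ∀ c, (τ c).length ≤ K) (p : PWord τ) {a b : ℤ} (h : a ≤ b) :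
    p.F b - p.F a ≤ K * (b - a) := by
  have := F_leK hK p a (b - a).toNat
  rw [show a + ((b - a).toNat : ℤ) = b by omega] at this
  rwa [show (((b - a).toNat : ℕ) : ℤ) = b - a by omega] at this

/-- multiples of a local period -/
lemma per_on_mul {V : ℤ → C} {a π M0 : ℤ} (hπ : 1 ≤ π)
    (hper : ∀ t, 0 ≤ t → t + π < M0 → V (a + t) = V (a + t + π)) (u : ℕ) :
    ∀ t, 0 ≤ t → t + π * u < M0 → V (a + t) = V (a + t + π * u) := by
  induction u with
  | zero => intro t _ _; simp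
  | succ u ih =>
    intro t h0 h1
    push_cast at h1 ⊢
    have hu : 0 ≤ π * u := by positivity
    rw [ih t h0 (by linarith), show a + t + π * (u + 1) = a + (t + π * u) + π by ring,
      ← hper (t + π * u) (by linarith) (by linarith)]
    congr 1
    ring

/-- parse of a long run: after at most `π` letters the parse is periodic. -/
lemma runA (hs : Sync τ N P) (h2 : ∀ c, 2 ≤ (τ c).length)
    (p : PWord τ) (hself : p.U = p.V) (a π M0 : ℤ) (hπ : 1 ≤ π)
    (hper : ∀ t, 0 ≤ t → t + π < M0 → p.V (a + t) = p.V (a + t + π)) :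
    ∃ r0 k1 q1 : ℤ, p.F (r0 - 1) < a ∧ a ≤ p.F r0 ∧ r0 ≤ k1 ∧ 1 ≤ q1 ∧ k1 + q1 ≤ r0 + π ∧
      (∃ u : ℤ, p.F (k1 + q1) - p.F k1 = π * u) ∧
      ∀ t : ℕ, p.F (k1 + q1 + t) + N ≤ a + M0 → p.V (k1 + t) = p.V (k1 + q1 + t) := by
  have hne : ∀ c, τ c ≠ [] := by
    intro c h; have := h2 c; rw [h] at this; simp at this
  obtain ⟨r, hr1, hr2⟩ := p.exists_idx hne (a - 1)
  -- pigeonhole
  obtain ⟨x, hx, y, hy, hxy, heq⟩ : ∃ x ∈ Finset.range (π.toNat + 1),
      ∃ y ∈ Finset.range (π.toNat + 1), x ≠ y ∧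
        (p.F (r + 1 + x) - a) % π = (p.F (r + 1 + y) - a) % π := by
    apply Finset.exists_ne_map_eq_of_card_lt_of_maps_to (t := (Finset.Ico (0 : ℤ) π))
    · simp
    · intro x _
      simp only [Finset.coe_Ico, Set.mem_Ico]
      exact ⟨Int.emod_nonneg _ (by omega), Int.emod_lt_of_pos _ (by omega)⟩
  wlog hlt : x < y generalizing x y
  · exact this y hy x hx (Ne.symm hxy) heq.symm (by omega)
  simp only [Finset.mem_range] at hx hy
  have hdvd : π ∣ p.F (r + 1 + y) - p.F (r + 1 + x) := by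
    have := (Int.emod_emod_of_dvd (p.F (r + 1 + y) - a) (dvd_refl π))
    have h3 : (p.F (r + 1 + y) - a - (p.F (r + 1 + x) - a)) % π = 0 :=
      Int.emod_eq_emod_iff_emod_sub_eq_zero.mp heq.symm
    have := Int.dvd_of_emod_eq_zero h3
    rwa [show p.F (r + 1 + y) - a - (p.F (r + 1 + x) - a) = p.F (r + 1 + y) - p.F (r + 1 + x) by
      ring] at this
  refine ⟨r + 1, r + 1 + x, (y : ℤ) - x, by simpa using (by omega : p.F r < a), by omega, by omega,
    by omega, by omega, ?_, ?_⟩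
  · obtain ⟨u, hu⟩ := hdvd
    exact ⟨u, by rw [show r + 1 + (x : ℤ) + (y - x) = r + 1 + y by ring]; exact hu⟩
  · rw [show r + 1 + (x : ℤ) + (y - x) = r + 1 + y by ring]
    have hmono := p.F_strictMono hne
    -- strong induction
    have key : ∀ t : ℕ, p.F (r + 1 + y + t) + N ≤ a + M0 → ∀ t' : ℕ, t' ≤ t →
        p.V (r + 1 + x + t') = p.V (r + 1 + y + t') := by
      intro t
      induction t using Nat.strong_induction_on with
      | _ t ih =>
        intro ht t' ht'
        rcases Nat.lt_or_ge t' t with hl | hl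
        · refine ih t' hl ?_ t' le_rfl
          have := hmono (show r + 1 + (y : ℤ) + t' < r + 1 + y + t by omega)
          omega
        · have htt : t' = t := by omega
          subst htt
          have hag : ∀ s : ℕ, s < t' → p.V (r + 1 + x + s) = p.V (r + 1 + y + s) := by
            intro s hs'
            refine ih s hs' ?_ s le_rfl
            have := hmono (show r + 1 + (y : ℤ) + s < r + 1 + y + t' by omega)
            omega
          have hF := PWord.F_agree p p (r + 1 + x) (r + 1 + y) t' hag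
          apply hs.bdr p p
          intro s hs0 hsN
          rw [hself]
          obtain ⟨u, hu⟩ := hdvd
          have hlt2 := hmono (show r + 1 + (x : ℤ) < r + 1 + y by omega)
          have hupos : 0 < u := by
            by_contra hcon
            push Not at hcon
            have : π * u ≤ 0 := mul_nonpos_of_nonneg_of_nonpos (by omega) hcon
            omega
          have hxpos : a ≤ p.F (r + 1 + x + t') := by
            have := p.F_sub_ge hne (a := r + 1) (b := r + 1 + x + t') (by omega)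
            omega
          have e := per_on_mul hπ hper u.toNat (p.F (r + 1 + x + t') + s - a) (by omega) (by
            rw [Int.toNat_of_nonneg hupos.le]
            omega)
          rw [Int.toNat_of_nonneg hupos.le] at e
          rw [show a + (p.F (r + 1 + x + t') + s - a) = p.F (r + 1 + x + t') + s by ring] at e
          rw [e]
          congr 1
          omega
    intro t ht
    exact key t ht t le_rfl

/-- parse of a long run with a left break. -/
lemma runB (hs : Sync τ N P) (h2 : ∀ c, 2 ≤ (τ c).length) (hK : ∀ c, (τ c).length ≤ K)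
    (p : PWord τ) (hself : p.U = p.V) (y0 : ℤ → C) (hy0 : Pd P y0) (a : ℤ) (m M0 : ℕ)
    (hM : K * (P + m + 1) + N ≤ M0)
    (hrun : ∀ t : ℤ, 0 ≤ t → t < M0 → p.V (a + t) = y0 t) :
    ∃ (b : ℤ) (y1 : ℤ → C), Pd P y1 ∧ (∀ t : ℤ, 0 ≤ t → t < m → p.V (b + t) = y1 t) ∧
      a ≤ p.F b ∧ p.F b ≤ a + K * (P + 1) ∧ (p.V (a - 1) ≠ y0 (-1) → p.V (b - 1) ≠ y1 (-1)) := by
  classical
  have hne : ∀ c, τ c ≠ [] := by
    intro c h; have := h2 c; rw [h] at this; simp at this
  have hmono := p.F_strictMono hne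
  obtain ⟨π, hπ1, hπP, hπ⟩ := hy0
  obtain ⟨r0, k1, q1, hr0, hr0', hk1, hq1, hkq, ⟨u, hu⟩, hag⟩ := runA hs h2 p hself a π M0 hπ1 (by
    intro t h0 h1
    rw [hrun t h0 (by omega), show a + t + π = a + (t + π) by ring, hrun (t + π) (by omega) h1, hπ])
  have hMz : (K : ℤ) * (P + m + 1) + N ≤ M0 := by exact_mod_cast hM
  have hF0 : p.F r0 < a + K := by
    have := F_leK' hK p (a := r0 - 1) (b := r0) (by omega)
    have e : (K : ℤ) * (r0 - (r0 - 1)) = K := by ring
    omega
  have hKt : ∀ x : ℤ, r0 ≤ x → x ≤ r0 + P + m → p.F x + N ≤ a + M0 := by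
    intro x h0 h1
    have h3 := F_leK' hK p h0
    have h4 : (K : ℤ) * (x - r0) ≤ K * (P + m) := mul_le_mul_of_nonneg_left (by omega) (by omega)
    have h5 : (K : ℤ) * (P + m + 1) = K * (P + m) + K := by ring
    omega
  set y1 : ℤ → C := fun t => p.V (k1 + t % q1) with hy1
  have hy1p : ∀ t, y1 (t + q1) = y1 t := by
    intro t; simp only [hy1]; rw [Int.add_emod_right]
  have hrun1 : ∀ t : ℕ, k1 + t ≤ r0 + P + m → p.V (k1 + t) = y1 t := by
    intro t
    induction t using Nat.strong_induction_on with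
    | _ t ih =>
      intro ht
      by_cases htq : (t : ℤ) < q1
      · simp only [hy1]; rw [Int.emod_eq_of_lt (by omega) htq]
      · push Not at htq
        have h1 := hag (t - q1.toNat) (by
          apply hKt <;> omega)
        rw [show k1 + q1 + ((t - q1.toNat : ℕ) : ℤ) = k1 + t by omega] at h1
        rw [← h1, ih (t - q1.toNat) (by omega) (by omega)]
        have := hy1p ((t - q1.toNat : ℕ) : ℤ)
        rw [← this]
        congr 1
        omega
  have hrun1' : ∀ x : ℤ, k1 ≤ x → x ≤ r0 + P + m → p.V x = y1 (x - k1) := by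
    intro x h0 h1
    have := hrun1 (x - k1).toNat (by omega)
    rwa [show k1 + (((x - k1).toNat : ℕ) : ℤ) = x by omega,
      show (((x - k1).toNat : ℕ) : ℤ) = x - k1 by omega] at this
  have hPd1 : Pd P y1 := ⟨q1, hq1, by omega, hy1p⟩
  have hFk : p.F k1 ≤ a + K * (P + 1) := by
    have h3 := F_leK' hK p hk1
    have h4 : (K : ℤ) * (k1 - r0) ≤ K * P := mul_le_mul_of_nonneg_left (by omega) (by omega)
    have h5 : (K : ℤ) * (P + 1) = K * P + K := by ring
    omega
  by_cases hbr : p.V (a - 1) = y0 (-1)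
  · refine ⟨k1, y1, hPd1, ?_, ?_, hFk, fun h => absurd hbr h⟩
    · intro t h0 h1
      rw [hrun1' (k1 + t) (by omega) (by omega)]
      congr 1; ring
    · exact hr0'.trans (hmono.monotone hk1)
  · have hex : ∃ s : ℕ, 1 ≤ s ∧ s ≤ k1 - r0 + 1 ∧ p.V (k1 - s) ≠ y1 (-s) := by
      by_contra hcon
      push Not at hcon
      have hall : ∀ x : ℤ, r0 - 1 ≤ x → x ≤ r0 + P + m → p.V x = y1 (x - k1) := by
        intro x h0 h1
        by_cases hx : k1 ≤ x
        · exact hrun1' x hx h1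
        · push Not at hx
          have := hcon (k1 - x).toNat (by omega) (by omega)
          rwa [show k1 - (((k1 - x).toNat : ℕ) : ℤ) = x by omega,
            show -(((k1 - x).toNat : ℕ) : ℤ) = x - k1 by omega] at this
      have hlet : ∀ t : ℕ, t < (k1 - (r0 - 1)).toNat →
          p.V (r0 - 1 + t) = p.V (r0 - 1 + q1 + t) := by
        intro t ht
        rw [hall _ (by omega) (by omega), hall _ (by omega) (by omega)]
        have := hy1p (r0 - 1 + t - k1)
        rw [← this]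
        congr 1; ring
      have hFa := PWord.F_agree p p (r0 - 1) (r0 - 1 + q1) (k1 - (r0 - 1)).toNat hlet
      rw [show r0 - 1 + (((k1 - (r0 - 1)).toNat : ℕ) : ℤ) = k1 by omega,
        show r0 - 1 + q1 + (((k1 - (r0 - 1)).toNat : ℕ) : ℤ) = k1 + q1 by omega] at hFa
      have hU := PWord.U_agree p p (r0 - 1) (r0 - 1 + q1) 1 (fun t ht => hlet t (by omega))
        (a - 1 - p.F (r0 - 1)) (by omega) (by
          push_cast
          rw [sub_add_cancel]
          omega)
      rw [hself] at hU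
      rw [show p.F (r0 - 1) + (a - 1 - p.F (r0 - 1)) = a - 1 by ring] at hU
      have hΔ2 := F_ge2' h2 p (a := k1) (b := k1 + q1) (by omega)
      have hΔK := F_leK' hK p (a := k1) (b := k1 + q1) (by omega)
      have hKP : (K : ℤ) * (k1 + q1 - k1) ≤ K * (P + m + 1) :=
        mul_le_mul_of_nonneg_left (by omega) (by omega)
      rw [show p.F (r0 - 1 + q1) + (a - 1 - p.F (r0 - 1)) = a + (π * u - 1) by omega] at hU
      rw [hrun (π * u - 1) (by omega) (by omega)] at hU
      apply hbr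
      rw [hU, show π * u - 1 = -1 + π * u by ring]
      exact per_mul hπ u (-1)
    have hsp := Nat.find_spec hex
    have hmin : ∀ s : ℕ, s < Nat.find hex → 1 ≤ s → p.V (k1 - s) = y1 (-s) := by
      intro s hs1 hs2
      have := Nat.find_min hex hs1
      push Not at this
      exact this hs2 (by omega)
    obtain ⟨e1, e2, e3⟩ := hsp
    set s := Nat.find hex with hsdef
    refine ⟨k1 - s + 1, fun t => y1 (t + (-s + 1)), hPd1.shift _, ?_, ?_, ?_, ?_⟩
    · intro t h0 h1
      simp only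
      by_cases hx : k1 ≤ k1 - s + 1 + t
      · rw [hrun1' _ hx (by omega)]
        congr 1; ring
      · push Not at hx
        have := hmin (k1 - (k1 - s + 1 + t)).toNat (by omega) (by omega)
        rw [show k1 - (((k1 - (k1 - s + 1 + t)).toNat : ℕ) : ℤ) = k1 - s + 1 + t by omega,
          show -(((k1 - (k1 - s + 1 + t)).toNat : ℕ) : ℤ) = t + (-s + 1) by omega] at this
        exact this
    · exact hr0'.trans (hmono.monotone (by omega))
    · exact (hmono.monotone (by omega)).trans hFk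
    · intro _
      simp only
      rw [show k1 - (s : ℤ) + 1 - 1 = k1 - s by ring, show (-1 : ℤ) + (-s + 1) = -s by ring]
      exact e3

end run

/-- finite type of run types with left contexts of length `D`. -/
abbrev Ty (C : Type*) (P D : ℕ) := (Fin D → C) × {y : ℤ → C // Pd P y}

/-- a run of `V` starts at `a` with left context of type `x`, of length at least `m`. -/
def LB {P : ℕ} (V : ℤ → C) (D m : ℕ) (x : Ty C P D) (a : ℤ) : Prop :=
  (∀ s : Fin D, V (a - 1 - (s : ℕ)) = x.1 s) ∧ (∀ t : ℤ, 0 ≤ t → t < m → V (a + t) = x.2.1 t) ∧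
    V (a - 1) ≠ x.2.1 (-1)

lemma LB.mono {P : ℕ} {V : ℤ → C} {D m m' : ℕ} {x : Ty C P D} {a : ℤ} (h : LB V D m' x a)
    (hm : m ≤ m') : LB V D m x a :=
  ⟨h.1, fun t h0 h1 => h.2.1 t h0 (by omega), h.2.2⟩

/-- truncation of contexts -/
def tr {P D : ℕ} (x : Ty C P (D + 1)) : Ty C P D := (fun s => x.1 s.castSucc, x.2)

lemma LB.tr {P : ℕ} {V : ℤ → C} {D m : ℕ} {x : Ty C P (D + 1)} {a : ℤ} (h : LB V (D + 1) m x a) :
    LB V D m (tr x) a :=
  ⟨fun s => h.1 s.castSucc, h.2.1, h.2.2⟩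

/-- unbounded types -/
def Unb {P : ℕ} (V : ℤ → C) (D : ℕ) (x : Ty C P D) : Prop := ∀ m : ℕ, ∃ a, LB V D m x a

/-- parent relation -/
def ParL {P : ℕ} {τ : C → List C} (p : PWord τ) (D : ℕ) (x1 x0 : Ty C P D) (o : ℕ) : Prop :=
  ∀ m : ℕ, ∃ a b : ℤ, LB p.V D m x0 a ∧ LB p.V D m x1 b ∧ p.F b = a + o

lemma ParL.tr {P : ℕ} {τ : C → List C} {p : PWord τ} {D : ℕ} {x1 x0 : Ty C P (D + 1)} {o : ℕ}
    (h : ParL p (D + 1) x1 x0 o) : ParL p D (Rig.tr x1) (Rig.tr x0) o := by
  intro m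
  obtain ⟨a, b, h1, h2, h3⟩ := h m
  exact ⟨a, b, h1.tr, h2.tr, h3⟩

section types

variable {τ : C → List C} {N P K : ℕ} [Finite C]

instance : Finite {y : ℤ → C // Pd P y} := finite_Pd P

lemma parent_exists (hs : Sync τ N P) (h2 : ∀ c, 2 ≤ (τ c).length) (hK : ∀ c, (τ c).length ≤ K)
    (p : PWord τ) (hself : p.U = p.V) (D : ℕ) (x0 : Ty C P D) (h : Unb p.V D x0) :
    ∃ (x1 : Ty C P D) (o : ℕ), o ≤ K * (P + 1) ∧ ParL p D x1 x0 o := by
  obtain ⟨⟨x1, o⟩, hx⟩ := exists_forall (α := Ty C P D × Fin (K * (P + 1) + 1))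
    (fun m z => ∃ a b : ℤ, LB p.V D m x0 a ∧ LB p.V D m z.1 b ∧ p.F b = a + (z.2 : ℕ))
    (by
      rintro m m' z hmm ⟨a, b, h1, h2, h3⟩
      exact ⟨a, b, h1.mono hmm, h2.mono hmm, h3⟩)
    (by
      intro m
      obtain ⟨a, ha⟩ := h (K * (P + m + 1) + N + m)
      obtain ⟨b, y1, hy1, hrun, hb1, hb2, hbr⟩ := runB hs h2 hK p hself x0.2.1 x0.2.2 a m
        (K * (P + m + 1) + N + m) (by omega) ha.2.1
      refine ⟨((fun s => p.V (b - 1 - (s : ℕ)), ⟨y1, hy1⟩), ⟨(p.F b - a).toNat, ?_⟩), a, b,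
        ha.mono (by omega), ⟨fun s => rfl, hrun, hbr ha.2.2⟩, ?_⟩
      · have : (K : ℤ) * (P + 1) = ((K * (P + 1) : ℕ) : ℤ) := by push_cast; ring
        rw [this] at hb2
        omega
      · simp only
        omega)
  exact ⟨x1, o, by omega, hx⟩

omit [Finite C] in
lemma child_aux (h2 : ∀ c, 2 ≤ (τ c).length) (p : PWord τ) (hself : p.U = p.V) (D : ℕ)
    (hD : K * (P + 1) + 1 ≤ D) {x1 x0 x0' : Ty C P D} {o o' : ℕ}
    (ho' : o' ≤ K * (P + 1)) (h : ParL p D x1 x0 o)
    (h' : ParL p D x1 x0' o') (hlt : o < o') : False := by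
  obtain ⟨a, b, hx0, hx1, hF⟩ := h (P * P + 2 * D)
  obtain ⟨a', b', hx0', hx1', hF'⟩ := h' (P * P + 2 * D)
  have hU := PWord.U_agree p p b b' (P * P + 2 * D) (by
    intro t ht
    rw [hx1.2.1 t (by omega) (by exact_mod_cast ht), hx1'.2.1 t (by omega) (by exact_mod_cast ht)])
  have hUn := PWord.U_agree_neg p p b b' D (by
    intro t ht
    rw [hx1.1 ⟨t, ht⟩, hx1'.1 ⟨t, ht⟩])
  rw [hself] at hU hUn
  have hPP : (0 : ℤ) ≤ P * P := by positivity
  have g1 := F_ge2 h2 p b (P * P + 2 * D)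
  have g2 := F_ge2' h2 p (a := b - D) (b := b) (by omega)
  push_cast at g1
  have hcomb : ∀ z : ℤ, -(2 * D) ≤ z → z < P * P + 2 * D → p.V (p.F b + z) = p.V (p.F b' + z) := by
    intro z h0 h1
    rcases lt_or_ge z 0 with hz | hz
    · have := hUn (-z) (by omega) (by omega)
      simpa using this
    · exact hU z hz (by push_cast; omega)
  have hy : ∀ t, x0.2.1 t = x0'.2.1 (t + (o' - o)) := by
    apply Pd.eq_of_agree x0.2.2 (x0'.2.2.shift _)
    intro t h0 h1
    rw [← hx0.2.1 t h0 (by push_cast; omega), show a + t = p.F b + (t - o) by omega,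
      hcomb _ (by omega) (by omega), show p.F b' + (t - (o : ℤ)) = a' + (t + (o' - o)) by omega,
      hx0'.2.1 _ (by omega) (by push_cast; omega)]
  apply hx0.2.2
  rw [hy (-1), show a - 1 = p.F b + (-1 - o) by omega, hcomb _ (by omega) (by omega),
    show p.F b' + (-1 - (o : ℤ)) = a' + (-1 + (o' - o)) by omega,
    hx0'.2.1 _ (by omega) (by push_cast; omega)]

omit [Finite C] in
lemma child_unique (h2 : ∀ c, 2 ≤ (τ c).length) (p : PWord τ) (hself : p.U = p.V) (D : ℕ)
    (hD : K * (P + 1) + 1 ≤ D) {x1 x0 x0' : Ty C P D} {o o' : ℕ}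
    (ho : o ≤ K * (P + 1)) (ho' : o' ≤ K * (P + 1)) (h : ParL p D x1 x0 o)
    (h' : ParL p D x1 x0' o') : x0 = x0' ∧ o = o' := by
  have hoo : o = o' := by
    rcases lt_trichotomy o o' with hlt | heq | hlt
    · exact (child_aux (K := K) h2 p hself D hD ho' h h' hlt).elim
    · exact heq
    · exact (child_aux (K := K) h2 p hself D hD ho h' h hlt).elim
  subst hoo
  refine ⟨?_, rfl⟩
  obtain ⟨a, b, hx0, hx1, hF⟩ := h (P * P + 2 * D)
  obtain ⟨a', b', hx0', hx1', hF'⟩ := h' (P * P + 2 * D)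
  have hU := PWord.U_agree p p b b' (P * P + 2 * D) (by
    intro t ht
    rw [hx1.2.1 t (by omega) (by exact_mod_cast ht), hx1'.2.1 t (by omega) (by exact_mod_cast ht)])
  have hUn := PWord.U_agree_neg p p b b' D (by
    intro t ht
    rw [hx1.1 ⟨t, ht⟩, hx1'.1 ⟨t, ht⟩])
  rw [hself] at hU hUn
  have hPP : (0 : ℤ) ≤ P * P := by positivity
  have g1 := F_ge2 h2 p b (P * P + 2 * D)
  have g2 := F_ge2' h2 p (a := b - D) (b := b) (by omega)
  push_cast at g1
  have hcomb : ∀ z : ℤ, -(2 * D) ≤ z → z < P * P + 2 * D → p.V (p.F b + z) = p.V (p.F b' + z) := by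
    intro z h0 h1
    rcases lt_or_ge z 0 with hz | hz
    · have := hUn (-z) (by omega) (by omega)
      simpa using this
    · exact hU z hz (by push_cast; omega)
  apply Prod.ext
  · funext s
    have hs := s.2
    rw [← hx0.1 s, ← hx0'.1 s, show a - 1 - ((s : ℕ) : ℤ) = p.F b + (-1 - o - (s : ℕ)) by omega,
      show a' - 1 - ((s : ℕ) : ℤ) = p.F b' + (-1 - o - (s : ℕ)) by omega]
    exact hcomb _ (by omega) (by omega)
  · apply Subtype.ext
    funext t
    apply Pd.eq_of_agree x0.2.2 x0'.2.2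
    intro t h0 h1
    rw [← hx0.2.1 t h0 (by push_cast; omega), ← hx0'.2.1 t h0 (by push_cast; omega),
      show a + t = p.F b + (t - o) by omega, show a' + t = p.F b' + (t - o) by omega]
    exact hcomb _ (by omega) (by omega)

omit [Finite C] in
lemma ParL.unb {p : PWord τ} {D : ℕ} {x1 x0 : Ty C P D} {o : ℕ}
    (h : ParL p D x1 x0 o) : Unb p.V D x1 := by
  intro m
  obtain ⟨a, b, _, h2, _⟩ := h m
  exact ⟨b, h2⟩

omit [Finite C] in
lemma ParL.unb' {p : PWord τ} {D : ℕ} {x1 x0 : Ty C P D} {o : ℕ}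
    (h : ParL p D x1 x0 o) : Unb p.V D x0 := by
  intro m
  obtain ⟨a, b, h2, _, _⟩ := h m
  exact ⟨a, h2⟩

lemma parent_unique (hs : Sync τ N P) (h2 : ∀ c, 2 ≤ (τ c).length) (hK : ∀ c, (τ c).length ≤ K)
    (p : PWord τ) (hself : p.U = p.V) (D : ℕ) (hD : K * (P + 1) + 1 ≤ D)
    {x1 x1' x0 : Ty C P D} {o o' : ℕ}
    (ho : o ≤ K * (P + 1)) (ho' : o' ≤ K * (P + 1)) (h : ParL p D x1 x0 o)
    (h' : ParL p D x1' x0 o') : x1 = x1' ∧ o = o' := by
  have hex : ∀ x0 : {x : Ty C P D // Unb p.V D x}, ∃ (x1 : {x : Ty C P D // Unb p.V D x}) (o : ℕ),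
      o ≤ K * (P + 1) ∧ ParL p D x1.1 x0.1 o := by
    rintro ⟨x0, hx0⟩
    obtain ⟨x1, o, h1, h2⟩ := parent_exists hs h2 hK p hself D x0 hx0
    exact ⟨⟨x1, h2.unb⟩, o, h1, h2⟩
  choose g ω hω hg using hex
  have hinj : Function.Injective g := by
    intro x y hxy
    have e1 := hg x
    have e2 := hg y
    rw [← hxy] at e2
    exact Subtype.ext (child_unique h2 p hself D hD (hω x) (hω y) e1 e2).1
  have hsurj := Finite.injective_iff_surjective.mp hinj
  have key : ∀ (x1 : Ty C P D) (o : ℕ), o ≤ K * (P + 1) → ParL p D x1 x0 o →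
      x1 = (g ⟨x0, h.unb'⟩).1 ∧ o = ω ⟨x0, h.unb'⟩ := by
    intro x1 o ho hp
    obtain ⟨x', hx'⟩ := hsurj ⟨x1, hp.unb⟩
    have e1 := hg x'
    rw [hx'] at e1
    obtain ⟨e2, e3⟩ := child_unique h2 p hself D hD (hω x') ho e1 hp
    have e4 : x' = ⟨x0, h.unb'⟩ := Subtype.ext e2
    subst e4
    exact ⟨by rw [hx'], e3.symm⟩
  obtain ⟨a1, a2⟩ := key x1 o ho h
  obtain ⟨b1, b2⟩ := key x1' o' ho' h'
  exact ⟨a1.trans b1.symm, a2.trans b2.symm⟩

/-- contexts of length `d` before long runs determine the next letter. -/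
lemma rigid (hs : Sync τ N P) (h2 : ∀ c, 2 ≤ (τ c).length) (hK : ∀ c, (τ c).length ≤ K)
    (p : PWord τ) (hself : p.U = p.V) (d : ℕ) (hd : K * (P + 1) + 1 ≤ d) :
    ∃ M : ℕ, ∀ (a a' : ℤ) (y : ℤ → C), Pd P y → (∀ t : ℤ, 0 ≤ t → t < M → p.V (a + t) = y t) →
      (∀ t : ℤ, 0 ≤ t → t < M → p.V (a' + t) = y t) → p.V (a - 1) ≠ y (-1) →
      (∀ s : ℕ, s < d → p.V (a - 1 - s) = p.V (a' - 1 - s)) →
      p.V (a - 1 - d) = p.V (a' - 1 - d) := by
  obtain ⟨M, hM⟩ := exists_threshold (α := Ty C P (d + 1))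
    (fun m x => ∃ a, LB p.V (d + 1) m x a)
    (by rintro m m' x hm ⟨a, ha⟩; exact ⟨a, ha.mono hm⟩)
  refine ⟨M, ?_⟩
  intro a a' y hy hr hr' hbr hctx
  set x : Ty C P (d + 1) := (fun s => p.V (a - 1 - (s : ℕ)), ⟨y, hy⟩) with hx
  set x' : Ty C P (d + 1) := (fun s => p.V (a' - 1 - (s : ℕ)), ⟨y, hy⟩) with hx'
  have hl : LB p.V (d + 1) M x a := ⟨fun s => rfl, hr, hbr⟩
  have hl' : LB p.V (d + 1) M x' a' := by
    refine ⟨fun s => rfl, hr', ?_⟩
    have := hctx 0 (by omega)
    simp only [Nat.cast_zero, sub_zero] at this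
    rw [← this]
    exact hbr
  obtain ⟨x1, o, ho, hp⟩ := parent_exists hs h2 hK p hself (d + 1) x (hM x ⟨a, hl⟩)
  obtain ⟨x1', o', ho', hp'⟩ := parent_exists hs h2 hK p hself (d + 1) x' (hM x' ⟨a', hl'⟩)
  have htr : tr x = tr x' := by
    apply Prod.ext
    · funext s
      exact hctx s s.2
    · rfl
  have hpt := hp.tr
  have hpt' := hp'.tr
  rw [← htr] at hpt'
  obtain ⟨e1, e2⟩ := parent_unique hs h2 hK p hself d hd ho ho' hpt hpt'
  subst e2
  obtain ⟨a0, b0, c1, c2, c3⟩ := hp 0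
  obtain ⟨a0', b0', c1', c2', c3'⟩ := hp' 0
  have hUn := PWord.U_agree_neg p p b0 b0' d (by
    intro t ht
    have f1 := c2.1 (Fin.castSucc ⟨t, ht⟩)
    have f2 := c2'.1 (Fin.castSucc ⟨t, ht⟩)
    simp only [Fin.val_castSucc] at f1 f2
    rw [f1, f2]
    have := congrFun (congrArg Prod.fst e1) ⟨t, ht⟩
    exact this)
  rw [hself] at hUn
  have g2 := F_ge2' h2 p (a := b0 - d) (b := b0) (by omega)
  have e3 := hUn (o + 1 + d) (by omega) (by omega)
  have e4 := c1.1 (Fin.last d)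
  have e5 := c1'.1 (Fin.last d)
  simp only [Fin.val_last] at e4 e5
  have e6 : x.1 (Fin.last d) = p.V (a - 1 - d) := by simp [hx]
  have e7 : x'.1 (Fin.last d) = p.V (a' - 1 - d) := by simp [hx']
  rw [← e6, ← e7, ← e4, ← e5, show a0 - 1 - (d : ℤ) = p.F b0 - (o + 1 + d) by omega,
    show a0' - 1 - (d : ℤ) = p.F b0' - (o + 1 + d) by omega]
  exact e3

end types

section pure

variable {τ : C → List C} {N P K : ℕ} [Finite C]

/-- `V` follows `y` on a window of length `m` at `a` -/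
def Run (V : ℤ → C) (y : ℤ → C) (a : ℤ) (m : ℕ) : Prop := ∀ t : ℤ, 0 ≤ t → t < m → V (a + t) = y t

/-- unbounded periodic words -/
abbrev UY (V : ℤ → C) (P : ℕ) := {y : ℤ → C // Pd P y ∧ ∀ m : ℕ, ∃ a, Run V y a m}

/-- parent relation for pure runs -/
def ParY (p : PWord τ) (y1 y0 : ℤ → C) (o : ℕ) : Prop :=
  ∀ m : ℕ, ∃ a b : ℤ, Run p.V y0 a m ∧ Run p.V y1 b m ∧ p.F b = a + o

instance (V : ℤ → C) : Finite (UY V P) := by
  have : Finite {y : ℤ → C // Pd P y} := finite_Pd P
  exact Finite.of_injective (fun y : UY V P => (⟨y.1, y.2.1⟩ : {y : ℤ → C // Pd P y}))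
    (by intro a b h; exact Subtype.ext (Subtype.mk.inj h))

lemma parY_exists (hs : Sync τ N P) (h2 : ∀ c, 2 ≤ (τ c).length) (hK : ∀ c, (τ c).length ≤ K)
    (p : PWord τ) (hself : p.U = p.V) (y0 : UY p.V P) :
    ∃ (y1 : UY p.V P) (o : ℕ), ParY p y1.1 y0.1 o := by
  obtain ⟨⟨y1, o⟩, hx⟩ := exists_forall (α := {y : ℤ → C // Pd P y} × Fin (K * (P + 1) + 1))
    (fun m z => ∃ a b : ℤ, Run p.V y0.1 a m ∧ Run p.V z.1.1 b m ∧ p.F b = a + (z.2 : ℕ))
    (by
      rintro m m' z hmm ⟨a, b, h1, h2, h3⟩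
      exact ⟨a, b, fun t h0 ht => h1 t h0 (by omega), fun t h0 ht => h2 t h0 (by omega), h3⟩)
    (by
      intro m
      obtain ⟨a, ha⟩ := y0.2.2 (K * (P + m + 1) + N + m)
      obtain ⟨b, y1, hy1, hrun, hb1, hb2, hbr⟩ := runB hs h2 hK p hself y0.1 y0.2.1 a m
        (K * (P + m + 1) + N + m) (by omega) ha
      refine ⟨(⟨y1, hy1⟩, ⟨(p.F b - a).toNat, ?_⟩), a, b,
        fun t h0 ht => ha t h0 (by omega), hrun, ?_⟩
      · have : (K : ℤ) * (P + 1) = ((K * (P + 1) : ℕ) : ℤ) := by push_cast; ring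
        rw [this] at hb2
        omega
      · simp only
        omega)
  refine ⟨⟨y1.1, y1.2, ?_⟩, o, hx⟩
  intro m
  obtain ⟨a, b, _, h2, _⟩ := hx m
  exact ⟨b, h2⟩

omit [Finite C] in
lemma nonneg_shift {y y' : ℤ → C} (hy : Pd P y) {s : ℤ} (h : ∀ t, y' t = y (t + s)) :
    ∃ s' : ℕ, ∀ t, y' t = y (t + s') := by
  obtain ⟨π, h1, h2, h3⟩ := hy
  have hnn := Int.emod_nonneg s (b := π) (by omega)
  refine ⟨(s % π).toNat, fun t => ?_⟩
  rw [Int.toNat_of_nonneg hnn, h t]
  have := per_mul h3 (s / π) (t + s % π)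
  rw [← this]
  congr 1
  have := Int.emod_add_mul_ediv s π
  linarith

omit [Finite C] in
lemma childY_unique (h2 : ∀ c, 2 ≤ (τ c).length) (hK : ∀ c, (τ c).length ≤ K)
    (p : PWord τ) (hself : p.U = p.V) {y1 y1' y0 y0' : ℤ → C} (hy1 : Pd P y1)
    (hy0 : Pd P y0) (hy0' : Pd P y0') {o o' : ℕ} (h : ParY p y1 y0 o) (h' : ParY p y1' y0' o')
    {s : ℤ} (hsh : ∀ t, y1' t = y1 (t + s)) : ∃ s' : ℤ, ∀ t, y0' t = y0 (t + s') := by
  obtain ⟨s, hsh⟩ := nonneg_shift hy1 hsh
  set m : ℕ := P * P + o + o' + K * s + s + 1 with hm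
  obtain ⟨a, b, r0, r1, hF⟩ := h m
  obtain ⟨a', b', r0', r1', hF'⟩ := h' m
  have hPP : (0 : ℤ) ≤ P * P := by positivity
  have hKs : (0 : ℤ) ≤ K * s := by positivity
  have hmz : (m : ℤ) = P * P + o + o' + K * s + s + 1 := by rw [hm]; push_cast; ring
  have hU := PWord.U_agree p p (b + s) b' (P * P + o + o' + 1) (by
    intro t ht
    rw [show b + (s : ℤ) + t = b + (s + t) by ring, r1 (s + t) (by omega) (by omega),
      r1' t (by omega) (by omega), hsh, add_comm])
  rw [hself] at hU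
  have g1 := F_ge2 h2 p (b + s) (P * P + o + o' + 1)
  have g2 := F_leK hK p b s
  have g3 := F_ge2 h2 p b s
  push_cast at g1
  have key : ∀ t : ℤ, y0' (t + o') = y0 (t + (p.F (b + s) - a)) := by
    refine Pd.eq_of_agree (hy0'.shift (o' : ℤ)) (hy0.shift (p.F (b + s) - a)) ?_
    intro t h0 h1
    rw [← r0' (t + o') (by omega) (by omega), ← r0 (t + (p.F (b + s) - a)) (by omega) (by omega)]
    have := hU t h0 (by push_cast; omega)
    rw [show a + (t + (p.F (b + s) - a)) = p.F (b + s) + t by ring,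
      show a' + (t + (o' : ℤ)) = p.F b' + t by omega]
    exact this.symm
  refine ⟨p.F (b + s) - a - o', fun t => ?_⟩
  have := key (t - o')
  rw [sub_add_cancel] at this
  rw [this]
  congr 1
  ring

/-- shift equivalence -/
def shSetoid (V : ℤ → C) (P : ℕ) : Setoid (UY V P) where
  r y y' := ∃ s : ℤ, ∀ t, y'.1 t = y.1 (t + s)
  iseqv := {
    refl := fun y => ⟨0, fun t => by simp⟩
    symm := by
      rintro y y' ⟨s, h⟩
      exact ⟨-s, fun t => by rw [h]; simp⟩
    trans := by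
      rintro y y' y'' ⟨s, h⟩ ⟨s', h'⟩
      exact ⟨s' + s, fun t => by rw [h', h, add_assoc]⟩ }

/-- images of unbounded runs have a period at most `P`. -/
lemma child_run (hs : Sync τ N P) (h2 : ∀ c, 2 ≤ (τ c).length) (hK : ∀ c, (τ c).length ≤ K)
    (p : PWord τ) (hself : p.U = p.V) (y1 : UY p.V P) (m : ℕ) :
    ∃ (b : ℤ) (y0 : ℤ → C), Pd P y0 ∧ Run p.V y1.1 b m ∧ Run p.V y0 (p.F b) m := by
  choose g o hg using parY_exists hs h2 hK p hself
  let G : Quotient (shSetoid p.V P) → Quotient (shSetoid p.V P) := fun q => ⟦g q.out⟧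
  have hinj : Function.Injective G := by
    intro q q' h
    have h1 : (shSetoid p.V P).r (g q.out) (g q'.out) := Quotient.exact h
    obtain ⟨s, hs'⟩ := h1
    have h3 := childY_unique h2 hK p hself (g q.out).2.1 q.out.2.1 q'.out.2.1 (hg q.out)
      (hg q'.out) hs'
    have h4 : (shSetoid p.V P).r q.out q'.out := h3
    have h5 : (⟦q.out⟧ : Quotient (shSetoid p.V P)) = ⟦q'.out⟧ := Quotient.sound h4
    rwa [Quotient.out_eq, Quotient.out_eq] at h5
  have hfin : Finite (Quotient (shSetoid p.V P)) := inferInstance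
  have hsurj := Finite.injective_iff_surjective.mp hinj
  obtain ⟨q, hq⟩ := hsurj ⟦y1⟧
  have h1 : (shSetoid p.V P).r (g q.out) y1 := Quotient.exact hq
  obtain ⟨s, hs'⟩ := h1
  obtain ⟨s, hs'⟩ := nonneg_shift (g q.out).2.1 hs'
  obtain ⟨a, b, r0, r1, hF⟩ := hg q.out (m + s + o q.out + K * s)
  have g2 := F_leK hK p b s
  have g3 := F_ge2 h2 p b s
  have hKs : (0 : ℤ) ≤ K * s := by positivity
  refine ⟨b + s, fun t => q.out.1 (t + (p.F (b + s) - a)), q.out.2.1.shift _, ?_, ?_⟩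
  · intro t h0 h1
    rw [show b + (s : ℤ) + t = b + (t + s) by ring, r1 (t + s) (by omega) (by push_cast; omega), hs']
  · intro t h0 h1
    simp only
    rw [← r0 (t + (p.F (b + s) - a)) (by omega) (by push_cast; omega)]
    congr 1
    ring

end pure

section final

variable {τ : C → List C} {N P K : ℕ}

/-- the period word of a near periodic window, extended -/
lemma ext_run {V : ℤ → C} {π b c : ℤ} (hπ : 1 ≤ π) (hper : PerOn V π b c) :
    ∃ y : ℤ → C, (∀ t, y (t + π) = y t) ∧ ∀ x, b ≤ x → x < c → V x = y x := by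
  refine ⟨fun t => V (b + (t - b) % π), ?_, ?_⟩
  · intro t
    simp only
    rw [show t + π - b = t - b + π by ring, Int.add_emod_right]
  · intro x h0 h1
    obtain ⟨t, rfl⟩ : ∃ t : ℕ, x = b + t := ⟨(x - b).toNat, by omega⟩
    induction t using Nat.strong_induction_on with
    | _ t ih =>
      simp only [add_sub_cancel_left]
      by_cases htq : (t : ℤ) < π
      · rw [Int.emod_eq_of_lt (by omega) htq]
      · push Not at htq
        have h3 := ih (t - π.toNat) (by omega) (by omega) (by omega)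
        simp only [add_sub_cancel_left] at h3
        have h4 := hper (b + (t - π.toNat : ℕ)) (by omega) (by omega)
        rw [show b + ((t - π.toNat : ℕ) : ℤ) + π = b + t by omega] at h4
        rw [← h4, h3]
        congr 2
        rw [show ((t - π.toNat : ℕ) : ℤ) = t - π by omega]
        exact Int.sub_emod_right _ _

/-- the periodic part of a near periodic maximal pair extends to distance `K (P+1) + 1` of the
left end. -/
lemma left_ext [Finite C] (hs : Sync τ N P) (h2 : ∀ c, 2 ≤ (τ c).length)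
    (hK : ∀ c, (τ c).length ≤ K)
    (p : PWord τ) (hself : p.U = p.V) (h : ℕ) :
    ∃ M : ℕ, ∀ (i j n : ℤ) (π : ℤ), 1 ≤ π → π ≤ P → MP p.V i j n → (M : ℤ) ≤ n →
      PerOn p.V π (i + h) (i + n - h) →
      ∃ y : ℤ → C, (∀ t, y (t + π) = y t) ∧
        ∀ x : ℤ, i + (K * (P + 1) + 1 : ℕ) ≤ x → x < i + n - h → p.V x = y x := by
  classical
  choose M hM using fun d : ℕ => rigid (K := K) hs h2 hK p hself (K * (P + 1) + 1 + d) (by omega)
  refine ⟨(Finset.range (h + 1)).sup M + 2 * h, ?_⟩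
  intro i j n π hπ hπP hmp hn hper
  obtain ⟨y, hy, hyr⟩ := ext_run hπ hper
  refine ⟨y, hy, ?_⟩
  obtain ⟨hn0, hag, hl, hr⟩ := hmp
  by_contra hcon
  push Not at hcon
  obtain ⟨x, hx0, hx1, hx2⟩ := hcon
  have hxh : x < i + h := by
    by_contra hge
    push Not at hge
    exact hx2 (hyr x hge hx1)
  -- last bad position below `i + h`
  obtain ⟨z, hz, hzmax⟩ := Int.exists_greatest_of_bdd (P := fun z => z < i + h ∧ p.V z ≠ y z)
    ⟨i + h, fun z hz => by omega⟩ ⟨x, hxh, hx2⟩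
  have hxz : x ≤ z := hzmax x ⟨hxh, hx2⟩
  set a := z + 1 with ha
  set a' := a + (j - i) with ha'
  set e := (a - i).toNat with he
  have hee : (e : ℤ) = a - i := by omega
  obtain ⟨d, hd⟩ : ∃ d : ℕ, e = K * (P + 1) + 1 + d := ⟨e - (K * (P + 1) + 1), by omega⟩
  have hdh : d < h + 1 := by omega
  have hMd : M d ≤ (Finset.range (h + 1)).sup M := Finset.le_sup (by simpa using hdh)
  have hrun : ∀ t : ℤ, 0 ≤ t → t < M d → p.V (a + t) = y (t + a) := by
    intro t h0 h1
    rw [add_comm t a]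
    by_cases hc : a + t < i + h
    · by_contra hne
      have := hzmax (a + t) ⟨hc, hne⟩
      omega
    · exact hyr _ (by omega) (by omega)
  have := hM d a a' (fun t => y (t + a)) (Pd.shift ⟨π, hπ, hπP, hy⟩ a) hrun (by
      intro t h0 h1
      rw [← hrun t h0 h1]
      have := hag (a - i + t) (by omega) (by omega)
      rw [show i + (a - i + t) = a + t by ring, show j + (a - i + t) = a' + t by omega] at this
      exact this.symm) (by
      rw [show a - 1 = z by omega, show -1 + a = z by omega]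
      exact hz.2) (by
      intro s hs1
      have := hag (a - 1 - s - i) (by omega) (by omega)
      rw [show i + (a - 1 - s - i) = a - 1 - s by ring,
        show j + (a - 1 - s - i) = a' - 1 - s by omega] at this
      exact this)
  rw [← hd] at this
  apply hl
  rwa [show a - 1 - (e : ℤ) = i - 1 by omega, show a' - 1 - (e : ℤ) = j - 1 by omega] at this

end final

end Rig

open Rig in
theorem np_step {C : Type*} [Finite C] (τ : C → List C) (h2 : ∀ c, 2 ≤ (τ c).length)
    (N P : ℕ) (hs : Sync τ N P) (p : PWord τ) (hself : p.U = p.V) :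
    ∃ h N1 P1 : ℕ, N ≤ h ∧ P ≤ P1 ∧ ∀ i j n i1 j1 n1 : ℤ,
      MP p.V i j n → MP p.V i1 j1 n1 → Anc p.F N i j n i1 j1 n1 → (N1 : ℤ) ≤ n1 →
      NP p.V P1 h i1 n1 → NP p.V P1 h i n := by
  classical
  obtain ⟨K, hK⟩ : ∃ K : ℕ, ∀ c, (τ c).length ≤ K := by
    obtain ⟨K, hK⟩ := (Set.finite_range (fun c => (τ c).length)).bddAbove
    exact ⟨K, fun c => hK ⟨c, rfl⟩⟩
  have hne : ∀ c, τ c ≠ [] := by
    intro c h; have := h2 c; rw [h] at this; simp at this
  set D := K * (P + 1) + 1 with hD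
  set h : ℕ := N + K * D + D with hh
  obtain ⟨M1, hM1⟩ := left_ext (K := K) hs h2 hK p hself h
  have hselfr : p.rev.U = p.rev.V := by
    funext t
    simp [hself]
  obtain ⟨M2, hM2⟩ := left_ext (K := K) hs.rev (by intro c; simpa using h2 c)
    (by intro c; simpa using hK c) p.rev hselfr h
  obtain ⟨M3, hM3⟩ := exists_threshold (α := {y : ℤ → C // Pd P y})
    (fun m y => ∃ a, Run p.V y.1 a m)
    (by rintro m m' x hm ⟨a, ha⟩; exact ⟨a, fun t h0 h1 => ha t h0 (by omega)⟩)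
  refine ⟨h, M1 + M2 + M3 + P * P + 2 * h + 2 * D, P, by omega, le_rfl, ?_⟩
  intro i j n i1 j1 n1 hmp hmp1 hanc hn1 hnp
  obtain ⟨π, hπ, hπP, hper⟩ := hnp
  have hPP : (0 : ℤ) ≤ P * P := by positivity
  push_cast at hn1
  have hKD : (h : ℤ) = N + K * D + D := by rw [hh]; push_cast; ring
  obtain ⟨y, hy, hyr⟩ := hM1 i1 j1 n1 π hπ hπP hmp1 (by omega) hper
  obtain ⟨hn10, hag1, hl1, hr1⟩ := hmp1
  have hmpr : MP p.rev.V (-(i1 + n1)) (-(j1 + n1)) n1 := by
    refine ⟨hn10, ?_, ?_, ?_⟩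
    · intro t h0 h1
      simp only [PWord.rev_V]
      have := hag1 (n1 - 1 - t) (by omega) (by omega)
      rw [show -1 - (-(i1 + n1) + t) = i1 + (n1 - 1 - t) by ring,
        show -1 - (-(j1 + n1) + t) = j1 + (n1 - 1 - t) by ring]
      exact this
    · simp only [PWord.rev_V]
      rw [show -1 - (-(i1 + n1) - 1) = i1 + n1 by ring, show -1 - (-(j1 + n1) - 1) = j1 + n1 by ring]
      exact hr1
    · simp only [PWord.rev_V]
      rw [show -1 - (-(i1 + n1) + n1) = i1 - 1 by ring, show -1 - (-(j1 + n1) + n1) = j1 - 1 by ring]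
      exact hl1
  obtain ⟨y', hy', hyr'⟩ := hM2 (-(i1 + n1)) (-(j1 + n1)) n1 π hπ hπP hmpr (by omega) (by
    intro t h0 h1
    simp only [PWord.rev_V]
    have := hper (-1 - (t + π)) (by omega) (by omega)
    rw [show -1 - (t + π) + π = -1 - t by ring] at this
    exact this.symm)
  -- combine
  have hPdy : Pd P y := ⟨π, hπ, hπP, hy⟩
  have hPdy' : Pd P (fun t => y' (-1 - t)) := by
    refine ⟨π, hπ, hπP, fun t => ?_⟩
    simp only
    have := hy' (-1 - (t + π))
    rw [show -1 - (t + π) + π = -1 - t by ring] at this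
    exact this.symm
  have hyr2 : ∀ x : ℤ, i1 + h ≤ x → x < i1 + n1 - D → p.V x = y' (-1 - x) := by
    intro x h0 h1
    have := hyr' (-1 - x) (by omega) (by omega)
    simp only [PWord.rev_V] at this
    rwa [show -1 - (-1 - x) = x by ring] at this
  have heq : ∀ t, y t = y' (-1 - t) := by
    have := Pd.eq_of_agree (hPdy.shift (i1 + h)) (hPdy'.shift (i1 + h)) (by
      intro t h0 h1
      rw [← hyr (t + (i1 + h)) (by omega) (by omega), ← hyr2 (t + (i1 + h)) (by omega) (by omega)])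
    intro t
    have h3 := this (t - (i1 + h))
    rwa [sub_add_cancel] at h3
  have hfull : ∀ x : ℤ, i1 + D ≤ x → x < i1 + n1 - D → p.V x = y x := by
    intro x h0 h1
    by_cases hx : x < i1 + n1 - h
    · exact hyr x h0 hx
    · rw [heq, hyr2 x (by omega) h1]
  set m1 : ℕ := (n1 - 2 * D).toNat with hm1
  have hm1' : (m1 : ℤ) = n1 - 2 * D := by omega
  set ys : {y : ℤ → C // Pd P y} := ⟨fun t => y (t + (i1 + D)), hPdy.shift _⟩ with hys
  have hunb := hM3 ys ⟨i1 + D, fun t h0 h1 => by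
    rw [hfull _ (by omega) (by omega)]
    simp only [hys]
    congr 1
    ring⟩
  obtain ⟨b, y0, hy0, hr1', hr0'⟩ := child_run hs h2 hK p hself ⟨ys.1, ys.2, hunb⟩ (K * m1 + m1)
  have hKm : (0 : ℤ) ≤ K * m1 := by positivity
  have hU := PWord.U_agree p p (i1 + D) b m1 (by
    intro t ht
    rw [hfull _ (by omega) (by omega), hr1' t (by omega) (by push_cast; omega)]
    simp only [hys]
    congr 1
    ring)
  rw [hself] at hU
  have e1 := F_leK hK p (i1 + D) m1
  have e2 := F_leK hK p i1 D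
  have e3 := F_leK hK p (i1 + D + m1) D
  rw [show i1 + D + (m1 : ℤ) + D = i1 + n1 by omega] at e3
  obtain ⟨a1, a2, a3, a4, a5, a6⟩ := hanc
  obtain ⟨π0, hπ0, hπ0P, hp0⟩ := hy0
  refine ⟨π0, hπ0, hπ0P, ?_⟩
  have hval : ∀ x : ℤ, i + h ≤ x → x < i + n - h → p.V x = y0 (x - p.F (i1 + D)) := by
    intro x h0 h1
    have := hU (x - p.F (i1 + D)) (by omega) (by omega)
    rw [show p.F (i1 + D) + (x - p.F (i1 + D)) = x by ring] at this
    rw [this]
    exact hr0' _ (by omega) (by push_cast; omega)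
  intro t h0 h1
  rw [hval t h0 (by omega), hval (t + π0) (by omega) h1]
  rw [show t + π0 - p.F (i1 + D) = t - p.F (i1 + D) + π0 by ring, hp0]

end FC
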