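import Pool.Agent.LibFC.Base

/-! Parsed bi-infinite words: basic lemmas. -/

set_option autoImplicit false

namespace FC

variable {C A : Type*} {f : C → List A}

namespace PWord

/-- shift so that the position `a` of `U` becomes `0`. -/
def shift (p : PWord f) (a : ℤ) : PWord f where
  V := p.V
  F := fun r => p.F r - a
  U := fun t => p.U (t + a)
  step := by intro n; rw [p.step n]; ring
  val := by
    intro n k h
    have := p.val n k h
    rw [← this]; congr 1; ring

@[simp] lemma shift_V (p : PWord f) (a : ℤ) : (p.shift a).V = p.V := rfl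
@[simp] lemma shift_F (p : PWord f) (a r : ℤ) : (p.shift a).F r = p.F r - a := rfl
@[simp] lemma shift_U (p : PWord f) (a t : ℤ) : (p.shift a).U t = p.U (t + a) := rfl

/-- reversal -/
def rev (p : PWord f) : PWord (fun c => (f c).reverse) where
  V := fun n => p.V (-1 - n)
  F := fun n => - p.F (-n)
  U := fun t => p.U (-1 - t)
  step := by
    intro n
    have := p.step (-1 - n)
    rw [show (-1 - n + 1 : ℤ) = -n by ring] at this
    rw [show (-(n + 1) : ℤ) = -1 - n by ring, this]
    simp
  val := by
    intro n k h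
    simp only [List.length_reverse] at h
    have hs := p.step (-1 - n)
    rw [show (-1 - n + 1 : ℤ) = -n by ring] at hs
    have hk : (f (p.V (-1 - n))).length - 1 - k < (f (p.V (-1 - n))).length := by omega
    have := p.val (-1 - n) _ hk
    rw [List.getElem_reverse, ← this]
    congr 1
    rw [hs]
    omega

@[simp] lemma rev_V (p : PWord f) (n : ℤ) : p.rev.V n = p.V (-1 - n) := rfl
@[simp] lemma rev_F (p : PWord f) (n : ℤ) : p.rev.F n = - p.F (-n) := rfl
@[simp] lemma rev_U (p : PWord f) (t : ℤ) : p.rev.U t = p.U (-1 - t) := rfl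

lemma step_pred (p : PWord f) (n : ℤ) : p.F n = p.F (n - 1) + ((f (p.V (n - 1))).length : ℤ) := by
  have := p.step (n - 1)
  rwa [sub_add_cancel] at this

/-- if the letters agree from `r`, `r'` on for `k` letters, so do the images. -/
lemma F_agree (p q : PWord f) (r r' : ℤ) (k : ℕ)
    (h : ∀ t : ℕ, t < k → p.V (r + t) = q.V (r' + t)) :
    p.F (r + k) - p.F r = q.F (r' + k) - q.F r' := by
  induction k with
  | zero => simp
  | succ k ih =>
    have h1 := ih (fun t ht => h t (by omega))
    have h2 := h k (by omega)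
    have a1 := p.step (r + k)
    have a2 := q.step (r' + k)
    push_cast
    rw [← add_assoc, ← add_assoc, a1, a2, h2]
    omega

lemma U_agree (p q : PWord f) (r r' : ℤ) (k : ℕ)
    (h : ∀ t : ℕ, t < k → p.V (r + t) = q.V (r' + t)) :
    ∀ t : ℤ, 0 ≤ t → t < p.F (r + k) - p.F r → p.U (p.F r + t) = q.U (q.F r' + t) := by
  induction k with
  | zero => intro t h0 h1; simp at h1; omega
  | succ k ih =>
    intro t h0 h1
    have e1 := F_agree p q r r' k (fun t ht => h t (by omega))
    by_cases h2 : t < p.F (r + k) - p.F r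
    · exact ih (fun t ht => h t (by omega)) t h0 h2
    · push_cast at h1
      rw [← add_assoc, p.step (r + k)] at h1
      obtain ⟨s, hs⟩ : ∃ s : ℕ, t = p.F (r + k) - p.F r + s := by
        refine ⟨(t - (p.F (r + k) - p.F r)).toNat, by omega⟩
      have hs2 : s < (f (p.V (r + k))).length := by omega
      have b1 := p.val (r + k) s hs2
      have h3 := h k (by omega)
      have hs3 : s < (f (q.V (r' + k))).length := by rw [← h3]; exact hs2
      have b2 := q.val (r' + k) s hs3
      have c1 : p.F r + t = p.F (r + k) + s := by omega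
      have c2 : q.F r' + t = q.F (r' + k) + s := by omega
      rw [c1, c2, b1, b2]
      congr 1
      rw [h3]

lemma F_agree_neg (p q : PWord f) (r r' : ℤ) (k : ℕ)
    (h : ∀ t : ℕ, t < k → p.V (r - 1 - t) = q.V (r' - 1 - t)) :
    p.F r - p.F (r - k) = q.F r' - q.F (r' - k) := by
  have := F_agree p q (r - k) (r' - k) k (by
    intro t ht
    have := h (k - 1 - t) (by omega)
    rw [show r - 1 - ((k - 1 - t : ℕ) : ℤ) = r - k + t by omega,
      show r' - 1 - ((k - 1 - t : ℕ) : ℤ) = r' - k + t by omega] at this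
    exact this)
  simpa using this

lemma U_agree_neg (p q : PWord f) (r r' : ℤ) (k : ℕ)
    (h : ∀ t : ℕ, t < k → p.V (r - 1 - t) = q.V (r' - 1 - t)) :
    ∀ t : ℤ, 0 < t → t ≤ p.F r - p.F (r - k) → p.U (p.F r - t) = q.U (q.F r' - t) := by
  intro t h0 h1
  have h' : ∀ t : ℕ, t < k → p.V (r - k + t) = q.V (r' - k + t) := by
    intro t ht
    have := h (k - 1 - t) (by omega)
    rw [show r - 1 - ((k - 1 - t : ℕ) : ℤ) = r - k + t by omega,
      show r' - 1 - ((k - 1 - t : ℕ) : ℤ) = r' - k + t by omega] at this
    exact this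
  have e1 := F_agree p q (r - k) (r' - k) k h'
  have e2 := U_agree p q (r - k) (r' - k) k h' (p.F r - p.F (r - k) - t) (by omega)
    (by simp; omega)
  simp only [sub_add_cancel] at e1
  rw [show p.F (r - k) + (p.F r - p.F (r - k) - t) = p.F r - t by ring,
    show q.F (r' - k) + (p.F r - p.F (r - k) - t) = q.F r' - t by omega] at e2
  exact e2

section ne
variable (hne : ∀ c, f c ≠ [])
include hne

lemma F_lt_succ (p : PWord f) (n : ℤ) : p.F n < p.F (n + 1) := by
  rw [p.step n]
  have := List.length_pos_of_ne_nil (hne (p.V n))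
  omega

lemma F_strictMono (p : PWord f) : StrictMono p.F :=
  strictMono_int_of_lt_succ (fun n => p.F_lt_succ hne n)

lemma F_sub_ge (p : PWord f) {a b : ℤ} (h : a ≤ b) : b - a ≤ p.F b - p.F a := by
  obtain ⟨k, rfl⟩ : ∃ k : ℕ, b = a + k := ⟨(b - a).toNat, by omega⟩
  induction k with
  | zero => simp
  | succ k ih =>
    have := p.F_lt_succ hne (a + k)
    have h1 := ih (by omega)
    push_cast
    rw [← add_assoc]
    omega

/-- every position lies in a unique image block. -/
lemma exists_idx (p : PWord f) (t : ℤ) : ∃ r, p.F r ≤ t ∧ t < p.F (r + 1) := by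
  have hm := p.F_strictMono hne
  -- find r ≥ something with F r > t
  have h1 : t < p.F (|t - p.F 0| + 1) := by
    have := p.F_sub_ge hne (a := 0) (b := |t - p.F 0| + 1) (by positivity)
    have h2 := le_abs_self (t - p.F 0)
    omega
  have h2 : p.F (-(|t - p.F 0| + 1)) ≤ t := by
    have := p.F_sub_ge hne (a := -(|t - p.F 0| + 1)) (b := 0) (by
      have : (0:ℤ) ≤ |t - p.F 0| := abs_nonneg _
      omega)
    have h2 := neg_abs_le (t - p.F 0)
    omega
  obtain ⟨r, hr, hmax⟩ := Int.exists_greatest_of_bdd (P := fun r => p.F r ≤ t)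
    ⟨|t - p.F 0| + 1, fun z hz => by
      by_contra hlt
      push Not at hlt
      have := hm hlt
      omega⟩ ⟨_, h2⟩
  refine ⟨r, hr, ?_⟩
  by_contra hcon
  push Not at hcon
  have := hmax (r + 1) hcon
  omega

end ne

end PWord

end FC
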