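import Pool.Agent.LibFC.GrowthEx

set_option autoImplicit false

open Filter

namespace FC

theorem gr_two {A : Type*} {σ : A → List A} (gr : Gr σ)
    (hnq : ¬ (∀ b c : A, Asymptotics.IsTheta atTop
        (fun m : ℕ => ((pw σ m b).length : ℝ)) (fun m : ℕ => ((pw σ m c).length : ℝ)))) :
    2 ≤ gr.R := by
  by_contra hR
  push Not at hR
  apply hnq
  intro b c
  have hlev : gr.lev b = gr.lev c := by
    apply Fin.ext
    have h1 := (gr.lev b).2
    have h2 := (gr.lev c).2
    omega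
  have key : ∀ b c : A, gr.lev b = gr.lev c → Asymptotics.IsBigO atTop
      (fun m : ℕ => ((pw σ m b).length : ℝ)) (fun m : ℕ => ((pw σ m c).length : ℝ)) := by
    intro b c hbc
    apply Asymptotics.IsBigO.of_bound (gr.K / gr.c)
    refine Eventually.of_forall ?_
    intro m
    rw [Real.norm_of_nonneg (by positivity), Real.norm_of_nonneg (by positivity)]
    have h1 := gr.upper b m
    have h2 := gr.lower c m
    rw [hbc] at h1
    have hc := gr.c_pos
    have hK := gr.K_pos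
    rw [div_mul_eq_mul_div, le_div_iff₀ hc]
    nlinarith
  exact ⟨key b c hlev, key c b hlev.symm⟩

theorem partA_of_count {k : ℕ} (σ : Fin k → List (Fin k)) (u : ℕ → Fin k) (gr : Gr σ)
    (hcount : ∃ (ν : Fin (gr.R - 1) → ℕ) (K : ℝ), (∀ i, 1 ≤ ν i) ∧ ∀ n : ℕ, 1 ≤ n →
      |(cp u n : ℝ) - n * ∑ i : Fin (gr.R - 1), (ν i : ℝ) *
        ((kf (gr.al ⟨i, by omega⟩) (gr.be ⟨i, by omega⟩) n : ℝ)
          - kf (gr.al ⟨i + 1, by omega⟩) (gr.be ⟨i + 1, by omega⟩) n)| ≤ K * n)
    (hnq : ¬ (∀ b c : Fin k, Asymptotics.IsTheta atTop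
        (fun m : ℕ => ((pw σ m b).length : ℝ)) (fun m : ℕ => ((pw σ m c).length : ℝ)))) :
    ∃ C1 C2 K : ℝ, (0 < C1 ∨ (C1 = 0 ∧ 0 < C2)) ∧ ∀ n : ℕ, 3 ≤ n →
      |(cp u n : ℝ) - n * (C1 * Real.log n + C2 * Real.log (Real.log n))| ≤ K * n := by
  classical
  have hR : 2 ≤ gr.R := gr_two gr hnq
  obtain ⟨ν, K, hν, hcp⟩ := hcount
  have hkf : ∀ i : Fin gr.R, ∃ K : ℝ, ∀ x : ℝ, 3 ≤ x →
      |(kf (gr.al i) (gr.be i) x : ℝ) - (Real.log x / Real.log (gr.be i) -
        gr.al i * Real.log (Real.log x) / Real.log (gr.be i))| ≤ K :=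
    fun i => kf_asymp (gr.al i) (gr.be i) (gr.one_lt_be i)
  choose κ hκ using hkf
  let lo : Fin (gr.R - 1) → Fin gr.R := fun i => ⟨i, by omega⟩
  let hi : Fin (gr.R - 1) → Fin gr.R := fun i => ⟨i + 1, by omega⟩
  let L : Fin gr.R → ℝ := fun i => Real.log (gr.be i)
  have hL : ∀ i, 0 < L i := fun i => Real.log_pos (gr.one_lt_be i)
  have hlohi : ∀ i, lo i < hi i := fun i => by
    simp only [lo, hi, Fin.mk_lt_mk]
    omega
  let C1 : ℝ := ∑ i, (ν i : ℝ) * (1 / L (lo i) - 1 / L (hi i))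
  let C2 : ℝ := ∑ i, (ν i : ℝ) * (gr.al (hi i) / L (hi i) - gr.al (lo i) / L (lo i))
  have hterm : ∀ i, gr.be (lo i) < gr.be (hi i) → 0 < (ν i : ℝ) * (1 / L (lo i) - 1 / L (hi i)) := by
    intro i hi'
    have h1 : (0 : ℝ) < ν i := by exact_mod_cast hν i
    have h2 : L (lo i) < L (hi i) := by
      apply Real.log_lt_log _ hi'
      have := gr.one_lt_be (lo i)
      linarith
    have h3 := one_div_lt_one_div_of_lt (hL _) h2
    apply mul_pos h1
    linarith
  have hterm0 : ∀ i, 0 ≤ (ν i : ℝ) * (1 / L (lo i) - 1 / L (hi i)) := by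
    intro i
    rcases gr.lex _ _ (hlohi i) with h | ⟨h, _⟩
    · exact (hterm i h).le
    · simp only [L]
      rw [h]
      simp
  have hsign : 0 < C1 ∨ (C1 = 0 ∧ 0 < C2) := by
    by_cases hex : ∃ i, gr.be (lo i) < gr.be (hi i)
    · left
      obtain ⟨i, hi'⟩ := hex
      exact Finset.sum_pos' (fun i _ => hterm0 i) ⟨i, Finset.mem_univ i, hterm i hi'⟩
    · right
      push Not at hex
      have heq : ∀ i, gr.be (lo i) = gr.be (hi i) ∧ gr.al (lo i) < gr.al (hi i) := by
        intro i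
        rcases gr.lex _ _ (hlohi i) with h | h
        · exact absurd h (not_lt.mpr (hex i))
        · exact h
      constructor
      · apply Finset.sum_eq_zero
        intro i _
        simp only [L]
        rw [(heq i).1]
        simp
      · apply Finset.sum_pos
        · intro i _
          have h1 : (0 : ℝ) < ν i := by exact_mod_cast hν i
          apply mul_pos h1
          have h2 : L (lo i) = L (hi i) := by simp only [L]; rw [(heq i).1]
          rw [h2, ← sub_div]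
          apply div_pos _ (hL _)
          have : (gr.al (lo i) : ℝ) < gr.al (hi i) := by exact_mod_cast (heq i).2
          linarith
        · exact ⟨⟨0, by omega⟩, Finset.mem_univ _⟩
  refine ⟨C1, C2, K + ∑ i, (ν i : ℝ) * (κ (lo i) + κ (hi i)), hsign, ?_⟩
  intro n hn
  have hn3 : (3 : ℝ) ≤ n := by exact_mod_cast hn
  have h1 := hcp n (by omega)
  have hsum : |∑ i : Fin (gr.R - 1), (ν i : ℝ) *
        ((kf (gr.al (lo i)) (gr.be (lo i)) n : ℝ) - kf (gr.al (hi i)) (gr.be (hi i)) n) -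
      (C1 * Real.log n + C2 * Real.log (Real.log n))| ≤
      ∑ i, (ν i : ℝ) * (κ (lo i) + κ (hi i)) := by
    have hrew : ∑ i : Fin (gr.R - 1), (ν i : ℝ) *
        ((kf (gr.al (lo i)) (gr.be (lo i)) n : ℝ) - kf (gr.al (hi i)) (gr.be (hi i)) n) -
      (C1 * Real.log n + C2 * Real.log (Real.log n)) =
      ∑ i : Fin (gr.R - 1), (ν i : ℝ) *
        (((kf (gr.al (lo i)) (gr.be (lo i)) n : ℝ) - (Real.log n / L (lo i) -
          gr.al (lo i) * Real.log (Real.log n) / L (lo i))) -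
        ((kf (gr.al (hi i)) (gr.be (hi i)) n : ℝ) - (Real.log n / L (hi i) -
          gr.al (hi i) * Real.log (Real.log n) / L (hi i)))) := by
      simp only [C1, C2]
      rw [Finset.sum_mul, Finset.sum_mul, ← Finset.sum_add_distrib, ← Finset.sum_sub_distrib]
      apply Finset.sum_congr rfl
      intro i _
      ring
    rw [hrew]
    refine le_trans (Finset.abs_sum_le_sum_abs _ _) ?_
    apply Finset.sum_le_sum
    intro i _
    rw [abs_mul, abs_of_nonneg (by positivity : (0 : ℝ) ≤ ν i)]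
    apply mul_le_mul_of_nonneg_left _ (by positivity)
    refine le_trans (abs_sub _ _) ?_
    exact add_le_add (hκ (lo i) n hn3) (hκ (hi i) n hn3)
  have hsplit : (cp u n : ℝ) - n * (C1 * Real.log n + C2 * Real.log (Real.log n)) =
      ((cp u n : ℝ) - n * ∑ i : Fin (gr.R - 1), (ν i : ℝ) *
        ((kf (gr.al (lo i)) (gr.be (lo i)) n : ℝ) - kf (gr.al (hi i)) (gr.be (hi i)) n)) +
      n * (∑ i : Fin (gr.R - 1), (ν i : ℝ) *
        ((kf (gr.al (lo i)) (gr.be (lo i)) n : ℝ) - kf (gr.al (hi i)) (gr.be (hi i)) n) -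
      (C1 * Real.log n + C2 * Real.log (Real.log n))) := by ring
  rw [hsplit]
  refine le_trans (abs_add_le _ _) ?_
  rw [abs_mul, abs_of_nonneg (by positivity : (0 : ℝ) ≤ n)]
  have h2 := mul_le_mul_of_nonneg_left hsum (by positivity : (0 : ℝ) ≤ n)
  have h3 : |(cp u n : ℝ) - n * ∑ i : Fin (gr.R - 1), (ν i : ℝ) *
        ((kf (gr.al (lo i)) (gr.be (lo i)) n : ℝ) - kf (gr.al (hi i)) (gr.be (hi i)) n)| ≤ K * n := h1
  linarith

end FC
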