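import Pool.Agent.LibFC.Base

/-!
# Elementary reduction (task R0)

A growing morphism with a fixed infinite word factors through a morphism all of whose powers are
elementary.
-/

set_option autoImplicit false

open Filter

namespace FC

namespace Reduce

variable {A B C : Type*}

/-! ### Powers -/

theorem iter_flatMap (σ : A → List A) (n : ℕ) (w : List A) :
    (fun w : List A => w.flatMap σ)^[n] w = w.flatMap (pw σ n) := by
  induction n generalizing w with
  | zero =>
    change w = w.flatMap (fun a => [a])
    simp
  | succ n ih =>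
    rw [Function.iterate_succ_apply, ih, List.flatMap_assoc]
    congr 1
    funext a
    change (σ a).flatMap (pw σ n) = (fun w : List A => w.flatMap σ)^[n + 1] [a]
    rw [Function.iterate_succ_apply]
    simp only [List.flatMap_cons, List.flatMap_nil, List.append_nil]
    exact (ih (σ a)).symm

theorem pw_zero (σ : A → List A) (a : A) : pw σ 0 a = [a] := rfl

theorem pw_succ (σ : A → List A) (n : ℕ) (a : A) : pw σ (n + 1) a = (pw σ n a).flatMap σ := by
  unfold pw
  rw [Function.iterate_succ_apply']

theorem pw_add (σ : A → List A) (m n : ℕ) (a : A) :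
    pw σ (m + n) a = (pw σ m a).flatMap (pw σ n) := by
  rw [← iter_flatMap]
  unfold pw
  rw [← Function.iterate_add_apply, Nat.add_comm]

theorem pw_pw (σ : A → List A) (J n : ℕ) (a : A) : pw (pw σ J) n a = pw σ (J * n) a := by
  have h : (fun w : List A => w.flatMap (pw σ J)) = (fun w : List A => w.flatMap σ)^[J] := by
    funext w
    rw [iter_flatMap]
  unfold pw
  unfold pw at h
  rw [h, ← Function.iterate_mul]

/-! ### Products of words from a finite set -/

/-- `w` is a product of words of `Z`. -/
def Star (Z : Finset (List A)) (w : List A) : Prop :=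
  ∃ l : List (List A), (∀ z ∈ l, z ∈ Z) ∧ l.flatten = w

theorem Star.nil (Z : Finset (List A)) : Star Z [] := ⟨[], by simp, rfl⟩

theorem Star.append {Z : Finset (List A)} {w w' : List A} (h : Star Z w) (h' : Star Z w') :
    Star Z (w ++ w') := by
  obtain ⟨l, hl, rfl⟩ := h
  obtain ⟨l', hl', rfl⟩ := h'
  refine ⟨l ++ l', ?_, by simp⟩
  intro z hz
  rcases List.mem_append.1 hz with h | h
  · exact hl z h
  · exact hl' z h

theorem Star.single {Z : Finset (List A)} {w : List A} (h : w ∈ Z) : Star Z w :=
  ⟨[w], by simpa using h, by simp⟩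

theorem Star.flatMap {Z : Finset (List A)} (f : B → List A) (w : List B)
    (h : ∀ c ∈ w, Star Z (f c)) : Star Z (w.flatMap f) := by
  induction w with
  | nil => exact Star.nil Z
  | cons c w ih =>
    rw [List.flatMap_cons]
    exact (h c (by simp)).append (ih (fun c' hc' => h c' (by simp [hc'])))

theorem Star.flatten {Z : Finset (List A)} (l : List (List A))
    (h : ∀ w ∈ l, Star Z w) : Star Z l.flatten := by
  induction l with
  | nil => exact Star.nil Z
  | cons c w ih =>
    rw [List.flatten_cons]
    exact (h c (by simp)).append (ih (fun c' hc' => h c' (by simp [hc'])))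

theorem Star.trans {Z Z' : Finset (List A)} {w : List A} (h : Star Z w)
    (h' : ∀ z ∈ Z, Star Z' z) : Star Z' w := by
  obtain ⟨l, hl, rfl⟩ := h
  exact Star.flatten l (fun z hz => h' z (hl z hz))

theorem Star.map [DecidableEq B] {Z : Finset (List A)} {w : List A} (h : Star Z w)
    (f : A → List B) : Star (Z.image (fun z => z.flatMap f)) (w.flatMap f) := by
  obtain ⟨l, hl, rfl⟩ := h
  induction l with
  | nil => exact Star.nil _
  | cons z l ih =>
    rw [List.flatten_cons, List.flatMap_append]
    refine Star.append (Star.single ?_) (ih (fun z' hz' => hl z' (by simp [hz'])))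
    exact Finset.mem_image.2 ⟨z, hl z (by simp), rfl⟩

theorem Star.erase_nil [DecidableEq A] {Z : Finset (List A)} {w : List A} (h : Star Z w) :
    Star (Z.erase []) w := by
  refine h.trans (fun z hz => ?_)
  by_cases h0 : z = []
  · subst h0; exact Star.nil _
  · exact Star.single (Finset.mem_erase.2 ⟨h0, hz⟩)

/-! ### Infinite words -/

theorem pre_length (u : ℕ → A) (n : ℕ) : (pre u n).length = n := by simp [pre]

theorem pre_getElem (u : ℕ → A) (n i : ℕ) (h : i < (pre u n).length) : (pre u n)[i] = u i := by
  simp [pre]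

theorem pre_prefix (u : ℕ → A) {n m : ℕ} (h : n ≤ m) : pre u n <+: pre u m := by
  obtain ⟨d, rfl⟩ := Nat.exists_eq_add_of_le h
  unfold pre
  rw [List.range_add, List.map_append]
  exact List.prefix_append _ _

theorem eq_pre_of_prefix (u : ℕ → A) {w : List A} {n : ℕ} (h : w <+: pre u n) :
    w = pre u w.length := by
  have h1 : w.length ≤ n := by
    have := h.length_le
    rwa [pre_length] at this
  have h2 := pre_prefix u h1
  exact (List.prefix_of_prefix_length_le h h2 (by rw [pre_length])).eq_of_length
    (by rw [pre_length])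

theorem flatMap_prefix {f : A → List B} {w w' : List A} (h : w <+: w') :
    w.flatMap f <+: w'.flatMap f := by
  obtain ⟨t, rfl⟩ := h
  rw [List.flatMap_append]
  exact List.prefix_append _ _

theorem Im.comp {f : A → List B} {g : B → List C} {v : ℕ → A} {u : ℕ → B} {w : ℕ → C}
    (h : Im f v u) (h' : Im g u w) : Im (fun c => (f c).flatMap g) v w := by
  intro n
  rw [← List.flatMap_assoc, h n]
  exact h' _

theorem Im.refl (u : ℕ → A) : Im (fun a : A => [a]) u u := by
  intro n
  have : (pre u n).flatMap (fun a : A => [a]) = pre u n := by simp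
  rw [this, pre_length]

theorem Im.pw {σ : A → List A} {u : ℕ → A} (h : Im σ u u) (n : ℕ) : Im (pw σ n) u u := by
  induction n with
  | zero => exact Im.refl u
  | succ n ih =>
    have h1 := Im.comp ih h
    have h2 : (FC.pw σ (n + 1)) = fun c => (FC.pw σ n c).flatMap σ := by
      funext c; exact pw_succ σ n c
    rw [h2]
    exact h1

theorem length_le_flatMap {f : A → List B} (hf : ∀ a, f a ≠ []) (w : List A) :
    w.length ≤ (w.flatMap f).length := by
  induction w with
  | nil => simp
  | cons a w ih =>
    rw [List.flatMap_cons, List.length_append, List.length_cons]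
    have := List.length_pos_iff.2 (hf a)
    omega

theorem flatMap_length_le {f : A → List B} {M : ℕ} (hf : ∀ a, (f a).length ≤ M) (w : List A) :
    (w.flatMap f).length ≤ M * w.length := by
  induction w with
  | nil => simp
  | cons a w ih =>
    rw [List.flatMap_cons, List.length_append, List.length_cons, Nat.mul_add]
    have := hf a
    omega

/-- The image of an infinite word under a non-erasing morphism. -/
theorem exists_im {f : A → List B} (hf : ∀ a, f a ≠ []) (u : ℕ → A) : ∃ v : ℕ → B, Im f u v := by
  have hlen : ∀ n, n ≤ ((pre u n).flatMap f).length := by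
    intro n
    have := length_le_flatMap hf (pre u n)
    rwa [pre_length] at this
  refine ⟨fun n => ((pre u (n + 1)).flatMap f)[n]'(by have := hlen (n + 1); omega), ?_⟩
  intro n
  apply List.ext_getElem
  · rw [pre_length]
  · intro i h1 h2
    rw [pre_getElem]
    rcases Nat.le_total n (i + 1) with h | h
    · exact (flatMap_prefix (pre_prefix u h)).getElem h1
    · exact ((flatMap_prefix (pre_prefix u h)).getElem _).symm

theorem Im.cancel {f : A → List B} {g : B → List C} (hf : ∀ a, f a ≠ []) {u : ℕ → A} {v : ℕ → B}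
    {w : ℕ → C} (h : Im f u v) (h' : Im (fun a => (f a).flatMap g) u w) : Im g v w := by
  intro n
  have h1 : n ≤ ((pre u n).flatMap f).length := by
    have := length_le_flatMap hf (pre u n)
    rwa [pre_length] at this
  have h2 : pre v n <+: (pre u n).flatMap f := by
    rw [h n]
    exact pre_prefix v h1
  have h3 := flatMap_prefix (f := g) h2
  rw [List.flatMap_assoc, h' n] at h3
  exact eq_pre_of_prefix w h3

end Reduce

open Reduce in
theorem reduction {k : ℕ} (σ : Fin k → List (Fin k)) (u : ℕ → Fin k) (h : Fix σ u) :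
    ∃ (m : ℕ) (τ : Fin m → List (Fin m)) (β : Fin m → List (Fin k)) (v : ℕ → Fin m),
      (∀ c, 2 ≤ (τ c).length) ∧ (∀ c, β c ≠ []) ∧ (∀ n, 1 ≤ n → Elem (pw τ n)) ∧ Elem β ∧
      Im τ v v ∧ Im β v u := by
  classical
  -- the minimal number of words
  let P : ℕ → Prop := fun m => ∃ K : ℕ, 1 ≤ K ∧ ∃ Z : Finset (List (Fin k)), Z.card = m ∧
    ∀ a, Star Z (pw σ K a)
  have hP : ∃ m, P m := by
    refine ⟨(Finset.univ.image (pw σ 1)).card, 1, le_rfl, Finset.univ.image (pw σ 1), rfl, ?_⟩
    intro a
    exact Star.single (Finset.mem_image.2 ⟨a, Finset.mem_univ _, rfl⟩)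
  let m := Nat.find hP
  obtain ⟨K, hK, Z, hZ, hstar⟩ : P m := Nat.find_spec hP
  have hmin : ∀ (K' : ℕ) (Z' : Finset (List (Fin k))), 1 ≤ K' → (∀ a, Star Z' (pw σ K' a)) →
      m ≤ Z'.card := by
    intro K' Z' hK' hZ'
    exact Nat.find_min' hP ⟨K', hK', Z', rfl, hZ'⟩
  -- the empty word is not in Z
  have hnil : [] ∉ Z := by
    intro h0
    have h1 := hmin K (Z.erase []) hK (fun a => (hstar a).erase_nil)
    have h2 := Finset.card_erase_lt_of_mem h0
    omega
  -- enumerate Z
  let e : Fin m ≃ Z := (Z.equivFinOfCardEq hZ).symm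
  let β : Fin m → List (Fin k) := fun c => (e c).1
  have hβne : ∀ c, β c ≠ [] := by
    intro c h0
    apply hnil
    rw [← h0]
    exact (e c).2
  have hβmem : ∀ z ∈ Z, ∃ c, β c = z := by
    intro z hz
    exact ⟨e.symm ⟨z, hz⟩, by simp [β]⟩
  have hal : ∀ a, ∃ l : List (Fin m), l.flatMap β = pw σ K a := by
    intro a
    obtain ⟨l, hl, hl2⟩ := hstar a
    rw [← hl2]
    clear hl2
    induction l with
    | nil => exact ⟨[], rfl⟩
    | cons z l ih =>
      obtain ⟨l', hl'⟩ := ih (fun z' hz' => hl z' (by simp [hz']))
      obtain ⟨c, hc⟩ := hβmem z (hl z (by simp))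
      exact ⟨c :: l', by rw [List.flatMap_cons, hl', hc, List.flatten_cons]⟩
  choose al hal using hal
  -- powers of σ are nonerasing
  have hne : ∀ (j : ℕ) (a : Fin k), pw σ j a ≠ [] := by
    intro j a h0
    have h1 : ∀ i, pw σ (j + i) a = [] := by
      intro i
      rw [pw_add, h0]; rfl
    have h2 := (h.grow a).eventually (eventually_ge_atTop 1)
    obtain ⟨N, hN⟩ := eventually_atTop.1 h2
    have h3 := hN (j + N) (by omega)
    rw [h1 N] at h3
    simp at h3
  have halne : ∀ a, al a ≠ [] := by
    intro a h0
    have := hal a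
    rw [h0] at this
    exact hne K a this.symm
  let τ₀ : Fin m → List (Fin m) := fun c => (β c).flatMap al
  have hτβ : ∀ w : List (Fin m), (w.flatMap τ₀).flatMap β = (w.flatMap β).flatMap (pw σ K) := by
    intro w
    rw [List.flatMap_assoc, List.flatMap_assoc]
    congr 1
    funext c
    change ((β c).flatMap al).flatMap β = _
    rw [List.flatMap_assoc]
    congr 1
    funext a
    exact hal a
  have hτβn : ∀ (n : ℕ) (c : Fin m), (pw τ₀ n c).flatMap β = (β c).flatMap (pw σ (K * n)) := by
    intro n
    induction n with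
    | zero =>
      intro c
      rw [pw_zero, Nat.mul_zero]
      have : pw σ 0 = fun a => [a] := by funext a; rfl
      rw [this]
      simp
    | succ n ih =>
      intro c
      rw [pw_succ, hτβ, ih, List.flatMap_assoc, Nat.mul_succ]
      congr 1
      funext a
      rw [pw_add]
  -- all powers of τ₀ are elementary
  have helem : ∀ n, Elem (pw τ₀ n) := by
    intro n Z' hZ'
    rw [Fintype.card_fin]
    have h1 : ∀ a, Star (Z'.image (fun z => z.flatMap β)) (pw σ (K * (n + 1)) a) := by
      intro a
      have h2 : pw σ (K * (n + 1)) a = ((al a).flatMap (pw τ₀ n)).flatMap β := by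
        rw [Nat.mul_succ, Nat.add_comm, pw_add, ← hal a, List.flatMap_assoc, List.flatMap_assoc]
        congr 1
        funext c
        rw [hτβn]
      rw [h2]
      exact (Star.flatMap (pw τ₀ n) (al a) (fun c _ => hZ' c)).map β
    have h3 := hmin (K * (n + 1)) _ (Nat.mul_pos hK (Nat.succ_pos n)) h1
    exact h3.trans Finset.card_image_le
  have helemβ : Elem β := by
    intro Z' hZ'
    rw [Fintype.card_fin]
    apply hmin K Z' hK
    intro a
    rw [← hal a]
    exact Star.flatMap β (al a) (fun c _ => hZ' c)
  -- growth of τ₀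
  have hgrow : ∀ c, ∀ᶠ j in atTop, 2 ≤ (pw τ₀ j c).length := by
    intro c
    obtain ⟨b, hb⟩ := List.exists_mem_of_ne_nil _ (hβne c)
    obtain ⟨M, hM⟩ : ∃ M : ℕ, ∀ c, (β c).length ≤ M := by
      refine ⟨∑ c, (β c).length, fun c => ?_⟩
      exact Finset.single_le_sum (f := fun c => (β c).length) (fun _ _ => Nat.zero_le _)
        (Finset.mem_univ c)
    have h1 := (h.grow b).eventually (eventually_ge_atTop (2 * M))
    obtain ⟨N, hN⟩ := eventually_atTop.1 h1
    filter_upwards [eventually_ge_atTop N] with j hj
    by_contra hlt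
    have h2 : (pw τ₀ j c).length ≤ 1 := by omega
    have h3 := flatMap_length_le hM (pw τ₀ j c)
    rw [hτβn] at h3
    have hKj : N ≤ K * j := hj.trans (Nat.le_mul_of_pos_left j hK)
    have h4 := hN (K * j) hKj
    have h5 : (pw σ (K * j) b).length ≤ ((β c).flatMap (pw σ (K * j))).length := by
      obtain ⟨s, t, hst⟩ := List.append_of_mem hb
      rw [hst, List.flatMap_append, List.flatMap_cons]
      simp only [List.length_append]
      omega
    have hMpos : 1 ≤ M := (List.length_pos_iff.2 (hβne c)).trans_le (hM c)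
    have h6 : M * (pw τ₀ j c).length ≤ M * 1 := Nat.mul_le_mul_left M h2
    omega
  obtain ⟨J, hJ⟩ : ∃ J, ∀ c, 2 ≤ (pw τ₀ J c).length := by
    have := (eventually_all.2 hgrow).exists
    exact this
  -- the infinite word v
  obtain ⟨v, hv⟩ := exists_im halne u
  have hβv : Im β v u := by
    apply Im.cancel halne hv
    have h1 : (fun a => (al a).flatMap β) = pw σ K := by funext a; exact hal a
    rw [h1]
    exact Im.pw h.im K
  have hτv : Im τ₀ v v := Im.comp hβv hv
  refine ⟨m, pw τ₀ J, β, v, hJ, hβne, ?_, helemβ, Im.pw hτv J, hβv⟩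
  intro n _
  have h1 : pw (pw τ₀ J) n = pw τ₀ (J * n) := by funext c; exact pw_pw τ₀ J n c
  rw [h1]
  exact helem _

end FC
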