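import Pool.Agent.LibFC.Neutral

/-! Bounded number of non-neutral words per dyadic scale in the image word. -/

set_option autoImplicit false

namespace FC

variable {C A : Type*}

/-- non-neutral words of a bi-infinite word -/
def NN {A : Type*} (U : ℤ → A) : Set (List A) :=
  {w | (∃ i : ℤ, zw U i w.length = w) ∧ mm (BExt U w) ≠ 0}

lemma per_image {f : C → List A} (hne : ∀ c, f c ≠ []) (p : PWord f) {π a b : ℤ}
    (h : PerOn p.V π a b) (hab : a + π ≤ b) :
    PerOn p.U (p.F (a + π) - p.F a) (p.F a) (p.F b) := by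
  intro t h0 h1
  obtain ⟨r, hr1, hr2⟩ := p.exists_idx hne t
  have hmono := p.F_strictMono hne
  have har : a ≤ r := by
    by_contra hcon
    push Not at hcon
    have : p.F (r + 1) ≤ p.F a := hmono.monotone (by omega)
    omega
  have hrb : r + π < b := by
    by_contra hcon
    push Not at hcon
    have h2 := F_per p h (x := b - π) (by omega) (by omega)
    rw [sub_add_cancel] at h2
    have h3 : p.F (b - π) ≤ p.F r := hmono.monotone (by omega)
    omega
  have hF := F_per p h (x := r) har (by omega)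
  have hV := h r har hrb
  obtain ⟨k, hk⟩ : ∃ k : ℕ, t = p.F r + k := ⟨(t - p.F r).toNat, by omega⟩
  have hk2 : k < (f (p.V r)).length := by
    have := p.step r
    omega
  have hk3 : k < (f (p.V (r + π))).length := by rw [← hV]; exact hk2
  have v1 := p.val r k hk2
  have v2 := p.val (r + π) k hk3
  rw [hk, show p.F r + k + (p.F (a + π) - p.F a) = p.F (r + π) + k by omega, v1, v2]
  congr 1
  rw [hV]

/-- relation between data of a pair in `V` and a word in the image -/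
def RelA {f : C → List A} (q : PWord f) (N D : ℕ) (x : List C × List C) (w : List A) : Prop :=
  ∃ i j i1 j1 n1 : ℤ, x = mdat q.V D i1 j1 n1 ∧ 0 ≤ n1 ∧ MP q.U i j w.length ∧
    Anc q.F N i j w.length i1 j1 n1 ∧ zw q.U i w.length = w

lemma RelA_fun {f : C → List A} (hne : ∀ c, f c ≠ []) (q : PWord f) (N D : ℕ) (hD : N ≤ D)
    (x : List C × List C) (w w' : List A) (h : RelA q N D x w) (h' : RelA q N D x w') : w = w' := by
  obtain ⟨i, j, i1, j1, n1, h1, h2, h3, h4, h5⟩ := h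
  obtain ⟨i', j', i1', j1', n1', h1', h2', h3', h4', h5'⟩ := h'
  rw [h1, mdat_eq_iff _ _ _ h2 h2'] at h1'
  obtain ⟨rfl, g1, g2⟩ := h1'
  obtain ⟨k1, k2, -⟩ := anc_fun q q 1 D 0 (fun c => List.length_pos_of_ne_nil (hne c)) le_rfl
    (by omega) h2 h3 h3' h4 h4' g1 g2
  rw [← h5, ← h5', zw_eq_iff']
  refine ⟨by omega, ?_⟩
  simpa using k2

/-- relation between data of a run in `V` (with offsets) and a word in the image -/
def RelB {f : C → List A} (q : PWord f) (N Q D h' : ℕ) (y : List C × (ℕ × ℕ)) (w : List A) : Prop :=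
  ∃ i s e s1 e1 : ℤ, y.1 = rdat q.V D s1 e1 ∧ s1 + Q ≤ e1 ∧ RAnc q.F q.U N Q s e s1 e1 ∧
    s - i = y.2.1 ∧ e - (i + w.length) + h' = y.2.2 ∧ zw q.U i w.length = w

lemma RelB_fun {f : C → List A} (hne : ∀ c, f c ≠ []) (q : PWord f) (N Q D h' : ℕ)
    (hD : N + h' ≤ D) (y : List C × (ℕ × ℕ)) (hy : y.2.1 ≤ h') (w w' : List A)
    (h : RelB q N Q D h' y w) (h1' : RelB q N Q D h' y w') : w = w' := by
  obtain ⟨i, s, e, s1, e1, h1, h2, h3, h4, h5, h6⟩ := h
  obtain ⟨i', s', e', s1', e1', h1', h2', h3', h4', h5', h6'⟩ := h1'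
  rw [h1, rdat_eq_iff _ _ _ (by omega) (by omega)] at h1'
  have he1 : e1' = s1' + (e1 - s1) := by omega
  rw [he1] at h3'
  obtain ⟨k1, k2⟩ := ranc_fun q q 1 D h' (fun c => List.length_pos_of_ne_nil (hne c)) le_rfl
    (by omega) h2 h3 h3' h1'.2
  have hlen : w.length = w'.length := by omega
  rw [← h6, ← h6', zw_eq_iff']
  refine ⟨hlen, ?_⟩
  have := (k2.shift (i - s)).mono (a' := 0) (b' := (w.length : ℤ)) (by omega) (by omega)
  rwa [show s + (i - s) = i by ring, show s' + (i - s) = i' by omega] at this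

theorem U_count [Finite C] [Finite A] (τ : C → List C) (h2 : ∀ c, 2 ≤ (τ c).length)
    {N P : ℕ} (hs : Sync τ N P) (p : PWord τ) (hself : p.U = p.V)
    (β : C → List A) (hne : ∀ c, β c ≠ []) {Nb Pb : ℕ} (hsb : Sync β Nb Pb) (q : PWord β)
    (hq : q.V = p.V)
    (h P1 N1 : ℕ) (hN : N ≤ h) (hP : P ≤ P1)
    (hstep : ∀ i j n i1 j1 n1 : ℤ,
      MP p.V i j n → MP p.V i1 j1 n1 → Anc p.F N i j n i1 j1 n1 → (N1 : ℤ) ≤ n1 →
      NP p.V P1 h i1 n1 → NP p.V P1 h i n) :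
    ∃ B n0 : ℕ, ∀ n : ℕ,
      {w | w ∈ NN q.U ∧ n0 ≤ w.length ∧ n ≤ w.length ∧ w.length < 2 * n}.encard ≤ B := by
  classical
  -- bounds on image lengths
  obtain ⟨M, hM⟩ : ∃ M : ℕ, ∀ c, (τ c).length ≤ M := by
    obtain ⟨M, hM⟩ := (Set.finite_range (fun c => (τ c).length)).bddAbove
    exact ⟨M, fun c => hM ⟨c, rfl⟩⟩
  obtain ⟨Mb, hMb⟩ : ∃ M : ℕ, ∀ c, (β c).length ≤ M := by
    obtain ⟨M, hM⟩ := (Set.finite_range (fun c => (β c).length)).bddAbove
    exact ⟨M, fun c => hM ⟨c, rfl⟩⟩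
  have hb1 : ∀ c, 1 ≤ (β c).length := fun c => List.length_pos_of_ne_nil (hne c)
  have hMb1 : 1 ≤ Mb := (hb1 (p.V 0)).trans (hMb (p.V 0))
  -- constants
  obtain ⟨P2, hP2⟩ : ∃ P2 : ℕ, P2 = Mb * P1 + Pb := ⟨_, rfl⟩
  obtain ⟨h', hh'⟩ : ∃ h' : ℕ, h' = Mb * h + Nb := ⟨_, rfl⟩
  obtain ⟨Q, hQd⟩ : ∃ Q : ℕ, Q = P2.factorial := ⟨_, rfl⟩
  have hQ : ∀ π : ℕ, 1 ≤ π → π ≤ P2 → π ∣ Q := fun π h1 h3 => by
    rw [hQd]; exact Nat.dvd_factorial h1 h3
  have hQ1 : 1 ≤ Q := by rw [hQd]; exact Nat.factorial_pos _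
  obtain ⟨D, hD⟩ : ∃ D : ℕ, D = N + Nb + h' := ⟨_, rfl⟩
  obtain ⟨B1, hB1⟩ := (mp_DB τ h2 hs p hself h P1 N1 D hN hP (by omega) hstep).pow (12 * Mb)
  obtain ⟨B2, hB2⟩ := (runs_DB τ h2 M hM hs p hself P2 Q Q D hQ hQ1 le_rfl (by omega)).pow (12 * Mb)
  obtain ⟨T0, hT0⟩ : ∃ T0 : ℕ, T0 = Mb * (Q + Q + P2 + 2) := ⟨_, rfl⟩
  obtain ⟨T1, hT1⟩ : ∃ T1 : ℕ, T1 = Mb * (2 * h + P1 + 1) := ⟨_, rfl⟩
  obtain ⟨T, hT⟩ : ∃ T : ℕ, T = T0 + T1 + 4 * h' + 8 * Nb + 4 * P2 + 10 + 2 * Mb := ⟨_, rfl⟩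
  refine ⟨B1 + B2 * ((h' + 1) * (h' + P2 + 1)), 2 * T, fun n => ?_⟩
  rcases lt_or_ge n T with hnT | hnT
  · have : {w | w ∈ NN q.U ∧ 2 * T ≤ w.length ∧ n ≤ w.length ∧ w.length < 2 * n} = ∅ := by
      ext w; simp only [Set.mem_ofPred_eq, Set.mem_empty_iff_false, iff_false]; omega
    rw [this]; simp
  obtain ⟨n', hn'⟩ : ∃ n' : ℕ, n' = n / (2 * Mb) := ⟨_, rfl⟩
  have hn'1 : Mb * n' * 2 ≤ n := by
    have := Nat.div_mul_le_self n (2 * Mb)
    rw [← hn'] at this
    nlinarith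
  have hn'2 : n < 2 * Mb * (n' + 1) := by
    have := Nat.lt_mul_div_succ n (show 0 < 2 * Mb by omega)
    rw [← hn'] at this
    exact this
  have hn'3 : 1 ≤ n' := by
    rw [hn']
    exact (Nat.one_le_div_iff (by omega)).2 (by omega)
  have hpow : 3 * n < 2 ^ (12 * Mb) * n' := by
    have h1 : 12 * Mb < 2 ^ (12 * Mb) := Nat.lt_two_pow_self
    have h3 : n < 4 * Mb * n' := by nlinarith
    have h4 : 12 * Mb * n' ≤ 2 ^ (12 * Mb) * n' := Nat.mul_le_mul_right _ h1.le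
    nlinarith
  set TA : Set (List C × List C) := {x | x ∈ SMP p.V P1 h N1 D ∧ n' ≤ mlen D x ∧
    mlen D x < 2 ^ (12 * Mb) * n'} with hTA
  set TB : Set (List C × (ℕ × ℕ)) := {x | x ∈ SRun p.V P2 Q D ∧ n' ≤ rlen D x ∧
    rlen D x < 2 ^ (12 * Mb) * n'} ×ˢ (((Finset.range (h' + 1) : Finset ℕ) : Set ℕ) ×ˢ
      ((Finset.range (h' + P2 + 1) : Finset ℕ) : Set ℕ)) with hTB
  have hkey : {w | w ∈ NN q.U ∧ 2 * T ≤ w.length ∧ n ≤ w.length ∧ w.length < 2 * n} ⊆
      {w | ∃ x ∈ TA, RelA q Nb D x w} ∪ {w | ∃ y ∈ TB, RelB q Nb Q D h' y w} := by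
    rintro w ⟨⟨⟨i, hi⟩, hmm⟩, hw1, hw2, hw3⟩
    obtain ⟨l, hl⟩ : ∃ l : ℕ, l = w.length := ⟨_, rfl⟩
    obtain ⟨j, hj, hMP⟩ := exists_MP hmm hi
    by_cases hA : ∃ i1 j1 n1 : ℤ, MP p.V i1 j1 n1 ∧ Anc q.F Nb i j w.length i1 j1 n1 ∧
        (¬ NP p.V P1 h i1 n1 ∨ n1 < N1)
    · left
      obtain ⟨i1, j1, n1, g1, g2, g3⟩ := hA
      refine ⟨mdat p.V D i1 j1 n1, ⟨⟨i1, j1, n1, g1, g3, rfl⟩, ?_, ?_⟩,
        ⟨i, j, i1, j1, n1, by rw [hq], g1.1, hMP, g2, hi⟩⟩
      · rw [mlen_mdat g1.1]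
        obtain ⟨a1, a2, a3, a4, a5, a6⟩ := g2
        have h0 := g1.1
        have b1 := q.F_sub_le Mb hMb (a := i1) (b := i1 + n1) (by omega)
        rw [show i1 + n1 - i1 = n1 by ring] at b1
        by_contra hcon
        have b2 : (Mb : ℤ) * n1 ≤ Mb * n' := mul_le_mul_of_nonneg_left (by omega) (by omega)
        have b3 : (Mb : ℤ) * n' * 2 ≤ n := by exact_mod_cast hn'1
        omega
      · rw [mlen_mdat g1.1]
        obtain ⟨a1, a2, a3, a4, a5, a6⟩ := g2
        have h0 := g1.1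
        have b1 := q.F_sub_ge hne (a := i1) (b := i1 + n1) (by omega)
        omega
    · right
      have hNP : NP q.U P2 h' i w.length := by
        by_contra hnp
        have hcc := cc_of_not_NP hsb q hMP (show Nb ≤ h' by omega) (show Pb ≤ P2 by omega) hnp
        obtain ⟨i1, j1, n1, g1, g2⟩ := pull_back hne hsb q hMP hcc
        rw [hq] at g1
        apply hA
        refine ⟨i1, j1, n1, g1, g2, Or.inl ?_⟩
        rintro ⟨π, hπ1, hπ2, hper⟩
        apply hnp
        obtain ⟨a1, a2, a3, a4, a5, a6⟩ := g2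
        have h0 := g1.1
        have b1 := q.F_sub_le Mb hMb (a := i1) (b := i1 + n1) (by omega)
        rw [show i1 + n1 - i1 = n1 by ring] at b1
        have hn1 : (2 * h + P1 + 1 : ℤ) ≤ n1 := by
          by_contra hcon
          push Not at hcon
          have b2 : (Mb : ℤ) * n1 ≤ Mb * (2 * h + P1 + 1) :=
            mul_le_mul_of_nonneg_left (by omega) (by omega)
          have b3 : (T1 : ℤ) = Mb * (2 * h + P1 + 1) := by rw [hT1]; push_cast; ring
          omega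
        rw [← hq] at hper
        have hpi := per_image hne q hper (by omega)
        have c1 := q.F_sub_le Mb hMb (a := i1 + h) (b := i1 + h + π) (by omega)
        rw [show i1 + (h : ℤ) + π - (i1 + h) = π by ring] at c1
        have c2 := q.F_sub_ge hne (a := i1 + h) (b := i1 + h + π) (by omega)
        have c3 : (Mb : ℤ) * π ≤ Mb * P1 := mul_le_mul_of_nonneg_left (by omega) (by omega)
        have c4 := q.F_sub_le Mb hMb (a := i1) (b := i1 + h) (by omega)
        rw [show i1 + (h : ℤ) - i1 = h by ring] at c4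
        have c5 := q.F_sub_le Mb hMb (a := i1 + n1 - h) (b := i1 + n1) (by omega)
        rw [show i1 + n1 - (i1 + n1 - (h : ℤ)) = h by ring] at c5
        have c6 : (P2 : ℤ) = Mb * P1 + Pb := by rw [hP2]; push_cast; ring
        have c7 : (h' : ℤ) = Mb * h + Nb := by rw [hh']; push_cast; ring
        exact ⟨q.F (i1 + h + π) - q.F (i1 + h), by omega, by omega,
          hpi.mono (by omega) (by omega)⟩
      obtain ⟨i', π, s, e, hi', hπ, hER, k1, k2, k3, k4⟩ := np_to_run q.U P2 h' w hmm i hi hNP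
        (by omega)
      have hlen : (Mb : ℤ) * (Q + Q + P2 + 2) + 2 * Nb ≤ e - s := by
        have b3 : (T0 : ℤ) = Mb * (Q + Q + P2 + 2) := by rw [hT0]; push_cast; ring
        omega
      obtain ⟨π1, s1, e1, r1, r2, r3, r4⟩ := run_anc hne Mb hMb hsb q P2 Q Q hQ hQ1 le_rfl hER hπ hlen
      have hse1 : s1 ≤ e1 := by omega
      have hr4 := r4
      obtain ⟨a1, a2, a3, a4, -⟩ := hr4
      have b1 := q.F_sub_le Mb hMb hse1
      have b2 := q.F_sub_ge hne hse1
      refine ⟨(rdat p.V D s1 e1, ((s - i').toNat, (e - (i' + w.length) + h').toNat)), ?_, ?_⟩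
      · rw [hTB]
        refine ⟨⟨⟨π1, s1, e1, r1, by rw [← hq]; exact r2, r3, rfl⟩, ?_, ?_⟩, ?_, ?_⟩
        · simp only
          rw [rlen_rdat hse1]
          by_contra hcon
          have b2 : (Mb : ℤ) * (e1 - s1) ≤ Mb * n' :=
            mul_le_mul_of_nonneg_left (by omega) (by omega)
          have b3 : (Mb : ℤ) * n' * 2 ≤ n := by exact_mod_cast hn'1
          omega
        · simp only
          rw [rlen_rdat hse1]
          omega
        · simp only [Finset.coe_range, Set.mem_Iio]; omega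
        · simp only [Finset.coe_range, Set.mem_Iio]; omega
      · refine ⟨i', s, e, s1, e1, by rw [hq], by omega, r4, ?_, ?_, hi'⟩
        · simp only; omega
        · simp only; omega
  refine (Set.encard_le_encard hkey).trans ((Set.encard_union_le _ _).trans ?_)
  push_cast
  apply add_le_add
  · refine le_trans ?_ (hB1 n')
    apply encard_le_of_rel _ _ (fun x w => RelA q Nb D x w)
    · intro x _ w _ w' _ h1 h1'
      exact RelA_fun hne q Nb D (by omega) x w w' h1 h1'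
    · rintro w ⟨x, hx, hxw⟩
      exact ⟨x, hx, hxw⟩
  · have : TB.encard ≤ B2 * (((h' : ℕ∞) + 1) * (h' + P2 + 1)) := by
      rw [hTB, Set.encard_prod, Set.encard_prod, Set.encard_coe_eq_coe_finsetCard,
        Set.encard_coe_eq_coe_finsetCard, Finset.card_range, Finset.card_range]
      push_cast
      gcongr
      exact hB2 n'
    refine le_trans ?_ this
    apply encard_le_of_rel _ _ (fun x w => RelB q Nb Q D h' x w)
    · intro x hx w _ w' _ h1 h1'
      refine RelB_fun hne q Nb Q D h' (by omega) x ?_ w w' h1 h1'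
      have := hx.2.1
      simp only [Finset.coe_range, Set.mem_Iio] at this
      omega
    · rintro w ⟨x, hx, hxw⟩
      exact ⟨x, hx, hxw⟩

end FC
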