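import Pool.Agent.LibFC.LiftElem
import Pool.Agent.LibFC.Transfer
import Pool.Agent.LibFC.Defect
import Pool.Agent.LibFC.Bisp
import Pool.Agent.LibFC.Reduce
import Pool.Agent.LibFC.NPStep

/-! Part B: bounded variation of the first difference on dyadic scales. -/

set_option autoImplicit false

namespace FC

/-- coding of left letters -/
def lcode {A : Type*} (o : Option A) : A ⊕ Bool := o.elim (Sum.inr true) Sum.inl

lemma lcode_injective {A : Type*} : Function.Injective (lcode : Option A → A ⊕ Bool) := by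
  intro a b h
  cases a <;> cases b <;> simp_all [lcode]

lemma zw_zx {A : Type*} (u : ℕ → A) (i n : ℕ) : zw (zx u) (i : ℤ) n = (win u i n).map Sum.inl := by
  apply List.ext_getElem
  · simp [win]
  · intro k h1 h2
    simp only [zw, win, List.getElem_ofFn, List.getElem_map]
    rw [show (i : ℤ) + (k : ℤ) = ((i + k : ℕ) : ℤ) by push_cast; rfl, zx_nonneg]

lemma zx_pred {A : Type*} (u : ℕ → A) (i : ℕ) : zx u ((i : ℤ) - 1) = lcode (lc u i) := by
  unfold lc lcode
  split_ifs with h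
  · subst h; simp [zx]
  · rw [show (i : ℤ) - 1 = ((i - 1 : ℕ) : ℤ) by omega, zx_nonneg]; rfl

lemma BExt_zx {A : Type*} (u : ℕ → A) (w : List A) (hw : 1 ≤ w.length) :
    BExt (zx u) (w.map Sum.inl) = Prod.map lcode Sum.inl '' Ext u w := by
  ext x
  constructor
  · rintro ⟨i, hi, rfl⟩
    rw [List.length_map] at hi ⊢
    have hi0 : 0 ≤ i := by
      by_contra hcon
      have h1 := congrArg (fun l => l[0]?) hi
      rw [List.getElem?_eq_getElem (by simp; omega), List.getElem?_eq_getElem (by simp; omega)] at h1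
      simp only [zw, List.getElem_ofFn, List.getElem_map, Option.some.injEq] at h1
      simp only [zx, Nat.cast_zero, add_zero, if_neg hcon] at h1
      split_ifs at h1
    obtain ⟨m, rfl⟩ : ∃ m : ℕ, i = m := ⟨i.toNat, by omega⟩
    rw [zw_zx] at hi
    have hi' : win u m w.length = w := List.map_injective_iff.2 Sum.inl_injective hi
    refine ⟨(lc u m, u (m + w.length)), ⟨m, hi', rfl⟩, ?_⟩
    simp only [Prod.map]
    rw [zx_pred, show (m : ℤ) + (w.length : ℤ) = ((m + w.length : ℕ) : ℤ) by push_cast; rfl,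
      zx_nonneg]
  · rintro ⟨ab, ⟨m, hm, rfl⟩, rfl⟩
    refine ⟨m, ?_, ?_⟩
    · rw [List.length_map, zw_zx, hm]
    · simp only [Prod.map]
      rw [List.length_map, zx_pred,
        show (m : ℤ) + (w.length : ℤ) = ((m + w.length : ℕ) : ℤ) by push_cast; rfl, zx_nonneg]

lemma mem_NN {A : Type*} (u : ℕ → A) (w : List A) (hw : 1 ≤ w.length) (hl : w ∈ Lang u w.length)
    (hm : mhat u w ≠ 0) : w.map Sum.inl ∈ NN (zx u) := by
  obtain ⟨i, hi⟩ := hl
  simp only at hi
  refine ⟨⟨i, ?_⟩, ?_⟩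
  · rw [List.length_map, zw_zx, hi]
  · rw [BExt_zx u w hw, mm_image _ _ lcode_injective Sum.inl_injective]
    exact hm

theorem sync_of_elem {C A : Type*} [Fintype C] [DecidableEq C] [DecidableEq A] (f : C → List A)
    (hne : ∀ c, f c ≠ []) (hel : Elem f) : ∃ N P : ℕ, Sync f N P := defect f hne hel

lemma hat_ne {C A : Type*} (g : ℕ) (f : C → List A) (h : ∀ c, f c ≠ []) : ∀ c, hat g f c ≠ [] := by
  rintro (c | b)
  · simp [hat, h c]
  · simp [hat]

lemma hat_two {C A : Type*} (f : C → List A) (h : ∀ c, 2 ≤ (f c).length) :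
    ∀ c, 2 ≤ (hat 2 f c).length := by
  rintro (c | b)
  · simp [hat, h c]
  · simp [hat]

theorem bound_of_fix {k : ℕ} (σ : Fin k → List (Fin k)) (u : ℕ → Fin k) (h : Fix σ u) :
    ∃ B : ℕ, ∀ n, {w : List (Fin k) | n ≤ w.length ∧ w.length < 2 * n ∧
      w ∈ Lang u w.length ∧ mhat u w ≠ 0}.ncard ≤ B := by
  classical
  obtain ⟨m, τ, β, v, hτ2, hβ, hτe, hβe, hvv, hvu⟩ := reduction σ u h
  have hpw : pw τ 1 = τ := by
    funext b; simp [pw]
  have hτe1 : Elem τ := by
    have := hτe 1 le_rfl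
    rwa [hpw] at this
  have hτne : ∀ c, τ c ≠ [] := fun c hc => by have := hτ2 c; rw [hc] at this; simp at this
  obtain ⟨N, P, hs⟩ := sync_of_elem (hat 2 τ) (hat_ne 2 τ hτne) (Elem_hat 2 τ hτe1)
  obtain ⟨Nb, Pb, hsb⟩ := sync_of_elem (hat 1 β) (hat_ne 1 β hβ) (Elem_hat 1 β hβe)
  obtain ⟨p, hp⟩ : ∃ p, p = lift 2 (by omega) τ v v hvv := ⟨_, rfl⟩
  obtain ⟨q, hq⟩ : ∃ q, q = lift 1 (by omega) β v u hvu := ⟨_, rfl⟩
  have hself : p.U = p.V := by rw [hp]; rfl
  have hqV : q.V = p.V := by rw [hp, hq]; rfl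
  have hqU : q.U = zx u := by rw [hq]; rfl
  obtain ⟨hh, N1, P1, hN, hP, hstep⟩ := np_step (hat 2 τ) (hat_two τ hτ2) N P hs p hself
  obtain ⟨B, n0, hB⟩ := U_count (hat 2 τ) (hat_two τ hτ2) hs p hself (hat 1 β) (hat_ne 1 β hβ) hsb
    q hqV hh P1 N1 hN hP hstep
  rw [hqU] at hB
  have hfin : {w : List (Fin k) | w.length < n0 + 1}.Finite := List.finite_length_lt _ _
  refine ⟨hfin.toFinset.card + B, fun n => ?_⟩
  have hsub : {w : List (Fin k) | n ≤ w.length ∧ w.length < 2 * n ∧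
      w ∈ Lang u w.length ∧ mhat u w ≠ 0} ⊆ {w : List (Fin k) | w.length < n0 + 1} ∪
      {w : List (Fin k) | w.map Sum.inl ∈ NN (zx u) ∧ n0 ≤ w.length ∧ n ≤ w.length ∧
        w.length < 2 * n} := by
    rintro w ⟨h1, h2, h3, h4⟩
    by_cases hw : w.length < n0 + 1
    · left; exact hw
    · right
      exact ⟨mem_NN u w (by omega) h3 h4, by omega, h1, h2⟩
  have hen : {w : List (Fin k) | w.map Sum.inl ∈ NN (zx u) ∧ n0 ≤ w.length ∧ n ≤ w.length ∧
        w.length < 2 * n}.encard ≤ B := by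
    refine le_trans ?_ (hB n)
    have hinj : Function.Injective (List.map (Sum.inl : Fin k → Fin k ⊕ Bool)) :=
      List.map_injective_iff.2 Sum.inl_injective
    rw [← hinj.encard_image]
    apply Set.encard_le_encard
    rintro _ ⟨w, ⟨h1, h2, h3, h4⟩, rfl⟩
    refine ⟨h1, ?_, ?_, ?_⟩ <;> rw [List.length_map] <;> assumption
  have htot : {w : List (Fin k) | n ≤ w.length ∧ w.length < 2 * n ∧
      w ∈ Lang u w.length ∧ mhat u w ≠ 0}.encard ≤ ((hfin.toFinset.card + B : ℕ) : ℕ∞) := by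
    refine (Set.encard_le_encard hsub).trans ((Set.encard_union_le _ _).trans ?_)
    push_cast
    gcongr
    rw [hfin.encard_eq_coe_toFinset_card]
  have := Set.encard_le_coe_iff_finite_ncard_le.1 htot
  exact this.2

theorem partB {k : ℕ} (σ : Fin k → List (Fin k)) (u : ℕ → Fin k) (h : Fix σ u) :
    ∃ K : ℕ, ∀ n m : ℕ, n ≤ m → m ≤ 2 * n →
      |((cp u (m + 1) : ℤ) - cp u m) - ((cp u (n + 1) : ℤ) - cp u n)| ≤ K :=
  partB_of_bound u (bound_of_fix σ u h)

end FC
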