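import Pool.Agent.LibFC.Data

/-! Ancestors of exact runs. -/

set_option autoImplicit false

namespace FC

variable {C A : Type*} {f : C → List A}

lemma PerOn.mul {U : ℤ → A} {π a b : ℤ} (h : PerOn U π a b) (hπ : 0 ≤ π) (k : ℕ) :
    PerOn U (k * π) a b := by
  induction k with
  | zero => intro t _ _; simp
  | succ k ih =>
    intro t h0 h1
    have e : ((k + 1 : ℕ) : ℤ) * π = k * π + π := by push_cast; ring
    rw [e] at h1 ⊢
    have h2 := ih t h0 (by omega)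
    have h4 : 0 ≤ (k : ℤ) * π := by positivity
    have h3 := h (t + k * π) (by omega) (by omega)
    rw [h2, h3]
    congr 1
    ring

lemma PerOn.mono {U : ℤ → A} {π a b a' b' : ℤ} (h : PerOn U π a b) (ha : a ≤ a') (hb : b' ≤ b) :
    PerOn U π a' b' := fun t h0 h1 => h t (by omega) (by omega)

lemma F_per (p : PWord f) {π a b : ℤ} (h : PerOn p.V π a b) {x : ℤ} (hx : a ≤ x) (hx2 : x + π ≤ b) :
    p.F (x + π) - p.F x = p.F (a + π) - p.F a := by
  obtain ⟨k, rfl⟩ : ∃ k : ℕ, x = a + k := ⟨(x - a).toNat, by omega⟩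
  clear hx
  induction k with
  | zero => simp
  | succ k ih =>
    push_cast at hx2 ⊢
    have h1 := ih (by omega)
    have h2 := h (a + k) (by omega) (by omega)
    have h3 := p.step (a + k)
    have h4 := p.step (a + k + π)
    rw [show a + k + π + 1 = a + (k + 1) + π by ring, ← h2] at h4
    rw [show a + (k : ℤ) + 1 = a + (k + 1) by ring] at h3
    omega

lemma F_per_mul (p : PWord f) {π a b : ℤ} (hπ : 0 ≤ π) (h : PerOn p.V π a b) (c : ℕ) {x : ℤ}
    (hx : a ≤ x) (hx2 : x + c * π ≤ b) :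
    p.F (x + c * π) - p.F x = c * (p.F (a + π) - p.F a) := by
  induction c with
  | zero => simp
  | succ c ih =>
    have e : ((c + 1 : ℕ) : ℤ) * π = c * π + π := by push_cast; ring
    rw [e] at hx2 ⊢
    have h4 : 0 ≤ (c : ℤ) * π := by positivity
    have h1 := ih (by omega)
    have h2 := F_per p h (x := x + c * π) (by omega) (by omega)
    rw [← add_assoc]
    have : ((c + 1 : ℕ) : ℤ) * (p.F (a + π) - p.F a) =
        c * (p.F (a + π) - p.F a) + (p.F (a + π) - p.F a) := by push_cast; ring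
    rw [this]
    omega

/-- two cuts in the same residue class -/
lemma pigeon (p : PWord f) (hne : ∀ c, f c ≠ []) (r0 : ℤ) {π : ℤ} (hπ : 1 ≤ π) :
    ∃ a b κ : ℕ, a < b ∧ (b : ℤ) ≤ π ∧ 1 ≤ κ ∧ p.F (r0 + b) = p.F (r0 + a) + κ * π := by
  have hcard : (Finset.Ico (0 : ℤ) π).card < (Finset.range (π.toNat + 1)).card := by
    simp
  obtain ⟨x, hx, y, hy, hxy, hmod⟩ := Finset.exists_ne_map_eq_of_card_lt_of_maps_to hcard
    (f := fun a : ℕ => p.F (r0 + a) % π) (by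
      intro a _
      simp only [Finset.coe_Ico, Set.mem_Ico]
      exact ⟨Int.emod_nonneg _ (by omega), Int.emod_lt_of_pos _ (by omega)⟩)
  simp only [Finset.mem_range] at hx hy
  wlog hlt : x < y generalizing x y
  · exact this y x (Ne.symm hxy) hmod.symm hy hx (by omega)
  have hd : π ∣ p.F (r0 + y) - p.F (r0 + x) := Int.ModEq.dvd hmod
  obtain ⟨k, hk⟩ := hd
  have hpos := p.F_strictMono hne (show r0 + (x : ℤ) < r0 + y by omega)
  have hk1 : 1 ≤ k := by
    by_contra hcon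
    push Not at hcon
    have : π * k ≤ 0 := mul_nonpos_of_nonneg_of_nonpos (by omega) (by omega)
    omega
  refine ⟨x, y, k.toNat, hlt, by omega, by omega, ?_⟩
  rw [show ((k.toNat : ℕ) : ℤ) = k by omega, mul_comm k π]
  omega

theorem run_anc {N P : ℕ} (hne : ∀ c, f c ≠ []) (M : ℕ) (hM : ∀ c, (f c).length ≤ M)
    (hs : Sync f N P) (p : PWord f) (P2 Q L1 : ℕ) (hQ : ∀ π : ℕ, 1 ≤ π → π ≤ P2 → π ∣ Q)
    (hQ1 : 1 ≤ Q) (hQL : Q ≤ L1) {π s e : ℤ} (her : ER p.U π s e) (hπ : π ≤ P2)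
    (hlen : (M : ℤ) * (L1 + Q + P2 + 2) + 2 * N ≤ e - s) :
    ∃ π1 s1 e1 : ℤ, π1 ≤ P2 ∧ ER p.V π1 s1 e1 ∧ (L1 : ℤ) ≤ e1 - s1 ∧
      RAnc p.F p.U N Q s e s1 e1 := by
  obtain ⟨hπ1, hse, hper, hl, hr⟩ := her
  have hM1 : 1 ≤ M := by
    have h1 := List.length_pos_of_ne_nil (hne (p.V 0))
    have h2 := hM (p.V 0)
    omega
  obtain ⟨r, hr1, hr2⟩ := p.exists_idx hne s
  have hr3 : p.F (r + 1) ≤ s + M := by
    rw [p.step]
    have := hM (p.V r)
    omega
  obtain ⟨a, b, κ, hab, hbπ, hκ, hF⟩ := pigeon p hne (r + 1) hπ1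
  have ha0 : p.F (r + 1) ≤ p.F (r + 1 + a) := (p.F_strictMono hne).monotone (by omega)
  have hb1 : p.F (r + 1 + b) - p.F (r + 1) ≤ M * b := by
    have := p.F_sub_le M hM (a := r + 1) (b := r + 1 + b) (by omega)
    rwa [show r + 1 + (b : ℤ) - (r + 1) = b by ring] at this
  have hMb : (M : ℤ) * b ≤ M * P2 := mul_le_mul_of_nonneg_left (by omega) (by omega)
  have hexp : (M : ℤ) * (L1 + Q + P2 + 2) = M * L1 + M * Q + M * P2 + 2 * M := by ring
  rw [hexp] at hlen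
  have hML : 0 ≤ (M : ℤ) * L1 := by positivity
  have hMQ : 0 ≤ (M : ℤ) * Q := by positivity
  have hκπ : 0 ≤ (κ : ℤ) * π := by positivity
  have hκe : (κ : ℤ) * π = ((κ - 1 : ℕ) : ℤ) * π + π := by
    have : (κ : ℤ) = ((κ - 1 : ℕ) : ℤ) + 1 := by omega
    calc (κ : ℤ) * π = (((κ - 1 : ℕ) : ℤ) + 1) * π := by rw [← this]
      _ = _ := by ring
  have hκπ' : 0 ≤ ((κ - 1 : ℕ) : ℤ) * π := by positivity
  have hm : MP p.U s (s + κ * π) (e - s - κ * π) := by
    refine ⟨by omega, ?_, ?_, ?_⟩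
    · intro t h0 h1
      have := hper.mul (by omega) κ (s + t) (by omega) (by omega)
      rw [this]; congr 1; ring
    · have h1 := hper.mul (by omega) (κ - 1) (s - 1 + π) (by omega) (by omega)
      rw [show s - 1 + π + ((κ - 1 : ℕ) : ℤ) * π = s + κ * π - 1 by rw [hκe]; ring] at h1
      rw [← h1]; exact hl
    · have h1 := hper.mul (by omega) (κ - 1) (e - κ * π) (by omega) (by omega)
      rw [show e - κ * π + ((κ - 1 : ℕ) : ℤ) * π = e - π by rw [hκe]; ring] at h1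
      rw [show s + (e - s - κ * π) = e - κ * π by ring,
        show s + κ * π + (e - s - κ * π) = e by ring, h1]
      exact hr.symm
  obtain ⟨i1, j1, n1, hm1, ha1, hji⟩ := pull_back_at hne hs p hm (r + 1 + a) (r + 1 + b)
    (by omega) (by omega) (by omega)
  obtain ⟨c1, c2, c3, c4, c5, c6⟩ := ha1
  obtain ⟨hn1, hag1, hl1, hr1'⟩ := hm1
  obtain ⟨ϖ, hϖ⟩ : ∃ ϖ : ℤ, ϖ = (b : ℤ) - a := ⟨_, rfl⟩
  have hj1 : j1 = i1 + ϖ := by omega
  subst hj1
  have hper1 : PerOn p.V ϖ i1 (i1 + ϖ + n1) := by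
    intro t h0 h1
    have := hag1 (t - i1) (by omega) (by omega)
    rw [show i1 + (t - i1) = t by ring, show i1 + ϖ + (t - i1) = t + ϖ by ring] at this
    exact this
  have hER : ER p.V ϖ i1 (i1 + ϖ + n1) := by
    refine ⟨by omega, by omega, hper1, ?_, ?_⟩
    · rw [show i1 - 1 + ϖ = i1 + ϖ - 1 by ring]; exact hl1
    · rw [show i1 + ϖ + n1 - ϖ = i1 + n1 by ring]; exact hr1'.symm
  have hFe : p.F (i1 + ϖ + n1) = p.F (i1 + n1) + κ * π := by omega
  have hL : (L1 : ℤ) ≤ i1 + ϖ + n1 - i1 := by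
    by_contra hcon
    push Not at hcon
    have h1 := p.F_sub_le M hM (a := i1) (b := i1 + ϖ + n1) (by omega)
    have h2 : (M : ℤ) * (i1 + ϖ + n1 - i1) ≤ M * L1 :=
      mul_le_mul_of_nonneg_left (by omega) (by omega)
    omega
  obtain ⟨c, hc⟩ := hQ ϖ.toNat (by omega) (by omega)
  have hcQ : (Q : ℤ) = c * ϖ := by
    rw [hc]; push_cast
    rw [show ((ϖ.toNat : ℕ) : ℤ) = ϖ by omega]; ring
  have hψ : p.F (i1 + Q) - p.F i1 = c * (κ * π) := by
    have := F_per_mul p (by omega) hper1 c (x := i1) le_rfl (by rw [← hcQ]; omega)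
    rw [← hcQ] at this
    rw [this]; congr 1; omega
  have hψ' : p.F (i1 + ϖ + n1) - p.F (i1 + ϖ + n1 - Q) = c * (κ * π) := by
    have := F_per_mul p (by omega) hper1 c (x := i1 + ϖ + n1 - Q) (by omega)
      (by rw [← hcQ]; omega)
    rw [← hcQ, show i1 + ϖ + n1 - (Q : ℤ) + Q = i1 + ϖ + n1 by ring] at this
    rw [this]; congr 1; omega
  have hψM : (c : ℤ) * (κ * π) ≤ M * Q := by
    rw [← hψ]
    have := p.F_sub_le M hM (a := i1) (b := i1 + Q) (by omega)
    rwa [show i1 + (Q : ℤ) - i1 = Q by ring] at this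
  have hc1 : 1 ≤ c := by
    rcases Nat.eq_zero_or_pos c with rfl | h
    · simp at hcQ; omega
    · exact h
  have hcκ : 1 ≤ c * κ := Nat.mul_pos hc1 hκ
  have hcκ2 : (c : ℤ) * (κ * π) = ((c * κ : ℕ) : ℤ) * π := by push_cast; ring
  have hcκ3 : (c : ℤ) * (κ * π) = ((c * κ - 1 : ℕ) : ℤ) * π + π := by
    rw [hcκ2]
    obtain ⟨z, hz⟩ : ∃ z, c * κ = z + 1 := ⟨c * κ - 1, by omega⟩
    rw [hz]; simp; ring
  have hcκ4 : 0 ≤ ((c * κ - 1 : ℕ) : ℤ) * π := by positivity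
  have hMN : (M : ℤ) ≥ 1 := by omega
  refine ⟨ϖ, i1, i1 + ϖ + n1, by omega, hER, hL, c2, c3, by omega, by omega, ?_, ?_, ?_, ?_⟩
  · intro t h0 h1
    rw [hψ, hcκ2]
    exact hper.mul (by omega) (c * κ) t h0 (by rw [← hcκ2]; omega)
  · rw [hψ]
    have h1 := hper.mul (by omega) (c * κ - 1) (s - 1 + π) (by omega) (by omega)
    rw [show s - 1 + π + ((c * κ - 1 : ℕ) : ℤ) * π = s - 1 + c * (κ * π) by rw [hcκ3]; ring] at h1
    rw [← h1]; exact hl
  · intro t h0 h1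
    rw [hψ']
    have := hper.mul (by omega) (c * κ) (t - c * (κ * π)) (by omega) (by rw [← hcκ2]; omega)
    rw [← hcκ2, sub_add_cancel] at this
    exact this.symm
  · rw [hψ']
    have h1 := hper.mul (by omega) (c * κ - 1) (e - c * (κ * π)) (by omega) (by omega)
    rw [show e - c * (κ * π) + ((c * κ - 1 : ℕ) : ℤ) * π = e - π by rw [hcκ3]; ring] at h1
    rw [h1]; exact hr

end FC
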