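import Pool.Agent.LibFC.PW

/-! Synchronisation hypotheses (conclusion of the defect theorem) and pull back of maximal pairs. -/

set_option autoImplicit false

namespace FC

variable {C A : Type*} {f : C → List A}

/-- conclusion of `defect`. -/
def Sync (f : C → List A) (N P : ℕ) : Prop := ∀ p q : PWord f,
      (∀ r r' : ℤ, p.F r = 0 → q.F r' = 0 → (∀ t : ℤ, 0 ≤ t → t < N → p.U t = q.U t) →
        p.V r = q.V r') ∧
      (∀ r r' : ℤ, p.F r = 0 → q.F r' = 0 → (∀ t : ℤ, -N ≤ t → t < 0 → p.U t = q.U t) →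
        p.V (r - 1) = q.V (r' - 1)) ∧
      (∀ n : ℤ, (∀ t : ℤ, 0 ≤ t → t < n → p.U t = q.U t) →
        (∀ r r' : ℤ, p.F r = q.F r' → 0 ≤ p.F r → p.F r ≤ n → False) →
        ∃ π : ℤ, 1 ≤ π ∧ π ≤ P ∧ ∀ t : ℤ, N ≤ t → t + π < n - N → p.U t = p.U (t + π))

namespace Sync
variable {N P : ℕ}

lemma bdr (h : Sync f N P) (p q : PWord f) (r r' : ℤ)
    (ha : ∀ t : ℤ, 0 ≤ t → t < N → p.U (p.F r + t) = q.U (q.F r' + t)) : p.V r = q.V r' := by
  refine (h (p.shift (p.F r)) (q.shift (q.F r'))).1 r r' (by simp) (by simp) ?_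
  intro t h0 h1
  simp only [PWord.shift_U]
  rw [add_comm t, add_comm t]
  exact ha t h0 h1

lemma bdl (h : Sync f N P) (p q : PWord f) (r r' : ℤ)
    (ha : ∀ t : ℤ, 0 < t → t ≤ N → p.U (p.F r - t) = q.U (q.F r' - t)) :
    p.V (r - 1) = q.V (r' - 1) := by
  refine (h (p.shift (p.F r)) (q.shift (q.F r'))).2.1 r r' (by simp) (by simp) ?_
  intro t h0 h1
  simp only [PWord.shift_U]
  have := ha (-t) (by omega) (by omega)
  rw [show t + p.F r = p.F r - -t by ring, show t + q.F r' = q.F r' - -t by ring]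
  exact this

lemma reco (h : Sync f N P) (p q : PWord f) (i j n : ℤ)
    (ha : ∀ t : ℤ, 0 ≤ t → t < n → p.U (i + t) = q.U (j + t))
    (hno : ∀ r r' : ℤ, p.F r - i = q.F r' - j → 0 ≤ p.F r - i → p.F r - i ≤ n → False) :
    ∃ π : ℤ, 1 ≤ π ∧ π ≤ P ∧ ∀ t : ℤ, i + N ≤ t → t + π < i + n - N → p.U t = p.U (t + π) := by
  obtain ⟨π, h1, h2, h3⟩ := (h (p.shift i) (q.shift j)).2.2 n
    (by intro t h0 h1; simp only [PWord.shift_U]; rw [add_comm t, add_comm t]; exact ha t h0 h1)
    (by intro r r' hr h0 h1; exact hno r r' (by simpa using hr) (by simpa using h0) (by simpa using h1))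
  refine ⟨π, h1, h2, ?_⟩
  intro t ht ht2
  have := h3 (t - i) (by omega) (by omega)
  simp only [PWord.shift_U] at this
  rw [show t - i + i = t by ring, show t - i + π + i = t + π by ring] at this
  exact this

/-- reversal of a parsed word, other direction -/
def _root_.FC.PWord.unrev (p : PWord (fun c => (f c).reverse)) : PWord f where
  V := fun n => p.V (-1 - n)
  F := fun n => - p.F (-n)
  U := fun t => p.U (-1 - t)
  step := by
    intro n
    have := p.step (-1 - n)
    rw [show (-1 - n + 1 : ℤ) = -n by ring] at this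
    rw [show (-(n + 1) : ℤ) = -1 - n by ring, this]
    simp
  val := by
    intro n k h
    have hs := p.step (-1 - n)
    rw [show (-1 - n + 1 : ℤ) = -n by ring] at hs
    have hk : (f (p.V (-1 - n))).length - 1 - k < ((f (p.V (-1 - n))).reverse).length := by
      simp only [List.length_reverse]; omega
    have := p.val (-1 - n) _ hk
    rw [List.getElem_reverse] at this
    simp only [List.length_reverse] at hs
    have e : (f (p.V (-1 - n))).length - 1 - ((f (p.V (-1 - n))).length - 1 - k) = k := by omega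
    simp only [e] at this
    rw [← this]
    congr 1
    rw [hs]
    omega

@[simp] lemma _root_.FC.PWord.unrev_V (p : PWord (fun c => (f c).reverse)) (n : ℤ) :
    p.unrev.V n = p.V (-1 - n) := rfl
@[simp] lemma _root_.FC.PWord.unrev_F (p : PWord (fun c => (f c).reverse)) (n : ℤ) :
    p.unrev.F n = - p.F (-n) := rfl
@[simp] lemma _root_.FC.PWord.unrev_U (p : PWord (fun c => (f c).reverse)) (t : ℤ) :
    p.unrev.U t = p.U (-1 - t) := rfl

lemma rev (h : Sync f N P) : Sync (fun c => (f c).reverse) N P := by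
  intro p q
  refine ⟨?_, ?_, ?_⟩
  · intro r r' h1 h2 h3
    have := h.bdl p.unrev q.unrev (-r) (-r') (by
      intro t h0 h4
      simp only [PWord.unrev_F, PWord.unrev_U, neg_neg]
      have := h3 (t - 1) (by omega) (by omega)
      rw [h1, h2, show -1 - (-0 - t) = t - 1 by ring]
      exact this)
    simp only [PWord.unrev_V] at this
    rw [show -1 - (-r - 1) = r by ring, show -1 - (-r' - 1) = r' by ring] at this
    exact this
  · intro r r' h1 h2 h3
    have := h.bdr p.unrev q.unrev (-r) (-r') (by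
      intro t h0 h4
      simp only [PWord.unrev_F, PWord.unrev_U, neg_neg]
      have := h3 (-1 - t) (by omega) (by omega)
      rw [h1, h2, show -1 - (-0 + t) = -1 - t by ring]
      exact this)
    simp only [PWord.unrev_V] at this
    rw [show -1 - -r = r - 1 by ring, show -1 - -r' = r' - 1 by ring] at this
    exact this
  · intro n h1 h2
    obtain ⟨π, h3, h4, h5⟩ := h.reco p.unrev q.unrev (-n) (-n) n (by
      intro t h0 h4
      simp only [PWord.unrev_U]
      exact h1 _ (by omega) (by omega)) (by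
      intro r r' hr h0 h4
      simp only [PWord.unrev_F] at hr h0 h4
      exact h2 (-r) (-r') (by omega) (by omega) (by omega))
    refine ⟨π, h3, h4, ?_⟩
    intro t ht ht2
    have := h5 (-1 - (t + π)) (by omega) (by omega)
    simp only [PWord.unrev_U] at this
    rw [show -1 - (-1 - (t + π)) = t + π by ring, show -1 - (-1 - (t + π) + π) = t by ring] at this
    exact this.symm

end Sync

/-- `U` has period `π` on `[a,b)` -/
def PerOn {A : Type*} (U : ℤ → A) (π a b : ℤ) : Prop := ∀ t, a ≤ t → t + π < b → U t = U (t + π)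

/-- near-periodic window -/
def NP {A : Type*} (U : ℤ → A) (P h : ℕ) (i n : ℤ) : Prop :=
  ∃ π : ℤ, 1 ≤ π ∧ π ≤ P ∧ PerOn U π (i + h) (i + n - h)

/-- maximal pair of occurrences. -/
def MP (U : ℤ → A) (i j n : ℤ) : Prop :=
  0 ≤ n ∧ (∀ t, 0 ≤ t → t < n → U (i + t) = U (j + t)) ∧ U (i - 1) ≠ U (j - 1) ∧ U (i + n) ≠ U (j + n)

/-- common cut of the two occurrences -/
def CC (F : ℤ → ℤ) (i j n : ℤ) : Prop :=
  ∃ r r' : ℤ, F r - i = F r' - j ∧ 0 ≤ F r - i ∧ F r - i ≤ n

/-- ancestor relation between pairs -/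
def Anc (F : ℤ → ℤ) (N : ℕ) (i j n i1 j1 n1 : ℤ) : Prop :=
  F i1 - i = F j1 - j ∧ 0 ≤ F i1 - i ∧ F i1 - i < N ∧
  F (i1 + n1) - i = F (j1 + n1) - j ∧ 0 ≤ (i + n) - F (i1 + n1) ∧ (i + n) - F (i1 + n1) < N

theorem pull_back_at {N P : ℕ} (hne : ∀ c, f c ≠ []) (hs : Sync f N P) (p : PWord f)
    {i j n : ℤ} (hm : MP p.U i j n) (r r' : ℤ) (e1 : p.F r - i = p.F r' - j)
    (e2 : 0 ≤ p.F r - i) (e3 : p.F r - i ≤ n) :
    ∃ i1 j1 n1, MP p.V i1 j1 n1 ∧ Anc p.F N i j n i1 j1 n1 ∧ j1 - i1 = r' - r := by
  obtain ⟨hn0, hag, hl, hr⟩ := hm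
  -- to the right
  have hR : ∃ q : ℕ, p.V (r + q) ≠ p.V (r' + q) := by
    by_contra hcon
    push Not at hcon
    set k := (i + n - p.F r + 1).toNat with hk
    have h1 := PWord.U_agree p p r r' k (fun t _ => hcon t) (i + n - p.F r) (by omega) (by
      have := p.F_sub_ge hne (a := r) (b := r + k) (by omega)
      omega)
    apply hr
    rw [show p.F r + (i + n - p.F r) = i + n by ring,
      show p.F r' + (i + n - p.F r) = j + n by omega] at h1
    exact h1
  have hL : ∃ q : ℕ, p.V (r - 1 - q) ≠ p.V (r' - 1 - q) := by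
    by_contra hcon
    push Not at hcon
    set k := (p.F r - i + 1).toNat with hk
    have h1 := PWord.U_agree_neg p p r r' k (fun t _ => hcon t) (p.F r - i + 1) (by omega) (by
      have := p.F_sub_ge hne (a := r - k) (b := r) (by omega)
      omega)
    apply hl
    rw [show p.F r - (p.F r - i + 1) = i - 1 by ring,
      show p.F r' - (p.F r - i + 1) = j - 1 by omega] at h1
    exact h1
  classical
  set q := Nat.find hR with hq
  have hq1 : p.V (r + q) ≠ p.V (r' + q) := Nat.find_spec hR
  have hq2 : ∀ t : ℕ, t < q → p.V (r + t) = p.V (r' + t) := fun t ht => by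
    by_contra hcon; exact Nat.find_min hR ht hcon
  set q' := Nat.find hL with hq'
  have hq1' : p.V (r - 1 - q') ≠ p.V (r' - 1 - q') := Nat.find_spec hL
  have hq2' : ∀ t : ℕ, t < q' → p.V (r - 1 - t) = p.V (r' - 1 - t) := fun t ht => by
    by_contra hcon; exact Nat.find_min hL ht hcon
  have fr := PWord.F_agree p p r r' q hq2
  have fl := PWord.F_agree_neg p p r r' q' hq2'
  have b1 : p.F (r + q) ≤ i + n := by
    by_contra hcon
    push Not at hcon
    have h1 := PWord.U_agree p p r r' q hq2 (i + n - p.F r) (by omega) (by omega)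
    apply hr
    rw [show p.F r + (i + n - p.F r) = i + n by ring,
      show p.F r' + (i + n - p.F r) = j + n by omega] at h1
    exact h1
  have b2 : i ≤ p.F (r - q') := by
    by_contra hcon
    push Not at hcon
    have h1 := PWord.U_agree_neg p p r r' q' hq2' (p.F r - i + 1) (by omega) (by omega)
    apply hl
    rw [show p.F r - (p.F r - i + 1) = i - 1 by ring,
      show p.F r' - (p.F r - i + 1) = j - 1 by omega] at h1
    exact h1
  have b3 : i + n - p.F (r + q) < N := by
    by_contra hcon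
    push Not at hcon
    apply hq1
    apply hs.bdr p p
    intro t h0 h1
    have := hag (p.F (r + q) + t - i) (by
      have := p.F_sub_ge hne (a := r) (b := r + q) (by omega)
      omega) (by omega)
    rw [show i + (p.F (r + q) + t - i) = p.F (r + q) + t by ring,
      show j + (p.F (r + q) + t - i) = p.F (r' + q) + t by omega] at this
    exact this
  have b4 : p.F (r - q') - i < N := by
    by_contra hcon
    push Not at hcon
    apply hq1'
    have := hs.bdl p p (r - q') (r' - q') (by
      intro t h0 h1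
      have := hag (p.F (r - q') - t - i) (by omega) (by
        have := p.F_sub_ge hne (a := r - q') (b := r) (by omega)
        omega)
      rw [show i + (p.F (r - q') - t - i) = p.F (r - q') - t by ring,
        show j + (p.F (r - q') - t - i) = p.F (r' - q') - t by omega] at this
      exact this)
    rw [show r - 1 - (q' : ℤ) = r - q' - 1 by ring, show r' - 1 - (q' : ℤ) = r' - q' - 1 by ring]
    exact this
  refine ⟨r - q', r' - q', q' + q, ⟨by positivity, ?_, ?_, ?_⟩, ?_⟩
  · intro t h0 h1
    rcases lt_or_ge t q' with h2 | h2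
    · have := hq2' (q' - 1 - t).toNat (by omega)
      rw [show r - 1 - (((q' : ℤ) - 1 - t).toNat : ℤ) = r - q' + t by omega,
        show r' - 1 - (((q' : ℤ) - 1 - t).toNat : ℤ) = r' - q' + t by omega] at this
      exact this
    · have := hq2 (t - q').toNat (by omega)
      rw [show r + ((t - (q' : ℤ)).toNat : ℤ) = r - q' + t by omega,
        show r' + ((t - (q' : ℤ)).toNat : ℤ) = r' - q' + t by omega] at this
      exact this
  · rw [show r - (q' : ℤ) - 1 = r - 1 - q' by ring, show r' - (q' : ℤ) - 1 = r' - 1 - q' by ring]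
    exact hq1'
  · rw [show r - (q' : ℤ) + (q' + q) = r + q by ring, show r' - (q' : ℤ) + (q' + q) = r' + q by ring]
    exact hq1
  · unfold Anc
    rw [show r - (q' : ℤ) + (q' + q) = r + q by ring, show r' - (q' : ℤ) + (q' + q) = r' + q by ring]
    refine ⟨⟨by omega, by omega, b4, by omega, by omega, b3⟩, by ring⟩

theorem pull_back {N P : ℕ} (hne : ∀ c, f c ≠ []) (hs : Sync f N P) (p : PWord f)
    {i j n : ℤ} (hm : MP p.U i j n) (hc : CC p.F i j n) :
    ∃ i1 j1 n1, MP p.V i1 j1 n1 ∧ Anc p.F N i j n i1 j1 n1 := by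
  obtain ⟨r, r', e1, e2, e3⟩ := hc
  obtain ⟨i1, j1, n1, h1, h2, _⟩ := pull_back_at hne hs p hm r r' e1 e2 e3
  exact ⟨i1, j1, n1, h1, h2⟩

end FC
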